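import Mathlib

/-! Definitions for the statement on linear groups: transfer spaces, homotopy coherent actions,
homotopy transfer reducibility, and classes of groups closed under eight rules. -/

namespace Pool.Agent.Work.MP_9d1ffa_al.GN

/-- The `N`-skeleton of the simplex with vertices `Fin n`. -/
def Sk (N n : ℕ) : Set (Fin n → ℝ) :=
  {μ | μ ∈ stdSimplex ℝ (Fin n) ∧ (Function.support μ).ncard ≤ N + 1}

/-- `N`-transfer space: compact, contractible, and controlled `N`-dominated. -/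
def IsTransfer (N : ℕ) (X : Type) [MetricSpace X] : Prop :=
  CompactSpace X ∧ ContractibleSpace X ∧ ∀ δ : ℝ, 0 < δ →
    ∃ (n : ℕ) (i : C(X, Sk N n)) (p : C(Sk N n, X))
      (H : (p.comp i).Homotopy (ContinuousMap.id X)), ∀ t x, dist (H (t, x)) x ≤ δ

/-- Homotopy coherent action. `Γ [(g_j, t_j), …, (g_1, t_1)] g_0 x` stands for
`Γ(g_j, t_j, …, g_1, t_1, g_0, x)`. -/
structure Coherent {G X : Type} [Group G] [TopologicalSpace X]
    (Γ : List (G × unitInterval) → G → X → X) : Prop where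
  cont : ∀ (j : ℕ) (γ : Fin j → G) (g : G), Continuous fun p : (Fin j → unitInterval) × X =>
    Γ (List.ofFn fun l => (γ l, p.1 l)) g p.2
  cut : ∀ l₁ l₂ g g₀ x, Γ (l₁ ++ (g, 0) :: l₂) g₀ x = Γ l₁ g (Γ l₂ g₀ x)
  merge : ∀ l₁ l₂ g g' t g₀ x,
    Γ (l₁ ++ (g, 1) :: (g', t) :: l₂) g₀ x = Γ (l₁ ++ (g * g', t) :: l₂) g₀ x
  mergeLast : ∀ l g g₀ x, Γ (l ++ [(g, 1)]) g₀ x = Γ l (g * g₀) x
  unitLast : ∀ l g t x, Γ (l ++ [(g, t)]) 1 x = Γ l g x
  unitMid : ∀ l₁ l₂ g t t' g₀ x,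
    Γ (l₁ ++ (g, t) :: (1, t') :: l₂) g₀ x = Γ (l₁ ++ (g, t * t') :: l₂) g₀ x
  unitFirst : ∀ l t g₀ x, Γ ((1, t) :: l) g₀ x = Γ l g₀ x
  unit : ∀ x, Γ [] 1 x = x

/-- `G` is homotopy transfer reducible over the set `F` of subgroups. -/
def HTR (G : Type) [Group G] (F : Set (Subgroup G)) : Prop :=
  ∃ N : ℕ, ∀ (S : Finset G) (k : ℕ) (ε : ℝ), 0 < ε →
    ∃ (X : Type) (_ : MetricSpace X) (Γ : List (G × unitInterval) → G → X → X)
      (Ω : Type) (_ : MulAction G Ω) (A : Finset Ω) (f : X → Ω → ℝ),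
      IsTransfer N X ∧ Coherent Γ ∧
      (∀ ω : Ω, MulAction.stabilizer G ω ∈ F) ∧
      (∀ ω : Ω, Continuous fun x : X => f x ω) ∧
      (∀ x : X, (∀ ω, 0 ≤ f x ω) ∧ (∀ ω, ω ∉ A → f x ω = 0) ∧ ∑ ω ∈ A, f x ω = 1 ∧
        (Function.support (f x)).ncard ≤ N + 1) ∧
      ∀ (l : List (G × unitInterval)) (g : G) (x : X), l.length ≤ k → (∀ p ∈ l, p.1 ∈ S) → g ∈ S →
        ∑ᶠ ω : Ω, |f (Γ l g x) (((l.map Prod.fst).prod * g) • ω) - f x ω| ≤ ε

/-- The closure rules. -/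
structure Closed (P : (G : Type) → [Group G] → Prop) : Prop where
  sol : ∀ (G : Type) [Group G], Group.IsSolvable G → P G
  lin : ∀ n : ℕ, P (GL (Fin n) ℚ)
  inj : ∀ (G H : Type) [Group G] [Group H] (φ : G →* H), Function.Injective φ → P H → P G
  loc : ∀ (G : Type) [Group G], (∀ H : Subgroup G, H.FG → P H) → P G
  fin : ∀ (G : Type) [Group G] (H : Subgroup G), H.FiniteIndex → P H → P G
  prod : ∀ (G H : Type) [Group G] [Group H], P G → P H → P (G × H)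
  ext : ∀ (G Q : Type) [Group G] [Group Q] (φ : G →* Q), P Q →
    (∀ H : Subgroup Q, (∃ C : Subgroup H, IsCyclic C ∧ C.FiniteIndex) → P (H.comap φ)) → P G
  htr : ∀ (G : Type) [Group G] (F : Set (Subgroup G)), Group.FG G → (∀ H ∈ F, P H) → HTR G F → P G

end Pool.Agent.Work.MP_9d1ffa_al.GN
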