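import Mathlib
import Pool.Agent.Work.MP_9d1ffa_al.GN.Defs

-- merged part: Pool.Agent.Work.MP_9d1ffa_al.G2.Sd
section
/-! Definitions for seminorms on the plane `K²` (no proofs to fill here). -/

namespace Pool.Agent.Work.MP_9d1ffa_al.G2

open Real

/-- The plane. -/
abbrev V (K : Type) := Fin 2 → K

variable {K : Type} [Field K]

/-- Determinant of two vectors. -/
def dt (x y : V K) : K := x 0 * y 1 - x 1 * y 0

/-- Standard basis vectors. -/
def ee (j : Fin 2) : V K := Pi.single j 1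

/-- Ultrametric absolute value with values in `exp ℤ`. -/
structure Pl (a : AbsoluteValue K ℝ) : Prop where
  na : ∀ x y, a (x + y) ≤ max (a x) (a y)
  val : ∀ x, x ≠ 0 → ∃ n : ℤ, a x = exp n

/-- Sup norm. -/
def g0 (a : AbsoluteValue K ℝ) (y : V K) : ℝ := max (a (y 0)) (a (y 1))

/-- Ultrametric seminorms. -/
structure IsSn (a : AbsoluteValue K ℝ) (c : V K → ℝ) : Prop where
  nn : ∀ y, 0 ≤ c y
  sm : ∀ (t : K) (y : V K), c (t • y) = a t * c y
  ad : ∀ y z, c (y + z) ≤ max (c y) (c z)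

/-- Size of a seminorm. -/
def nr (c : V K → ℝ) : ℝ := max (c (ee 0)) (c (ee 1))

/-- The norm at depth `D` in the direction `x`. -/
noncomputable def bt (a : AbsoluteValue K ℝ) (x : V K) (D : ℝ) : V K → ℝ :=
  fun y => max (a (dt x y) / g0 a x) (exp (-D) * g0 a y)

/-- Truncation of `c` at depth `D`. -/
noncomputable def pt (a : AbsoluteValue K ℝ) (c : V K → ℝ) (D : ℝ) : V K → ℝ :=
  fun y => max (c y) (exp (-D) * g0 a y)

/-- Sets of functions on the plane, used for homothety classes. -/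
def Cls (K : Type) : Type := Set (V K → ℝ)

instance : Membership (V K → ℝ) (Cls K) := inferInstanceAs (Membership (V K → ℝ) (Set (V K → ℝ)))

/-- Homothety class. -/
def cl (ν : V K → ℝ) : Cls K := {μ : V K → ℝ | ∃ t : ℝ, 0 < t ∧ μ = fun y => t * ν y}

/-- Classes at distance at most `r`. -/
def Near (r : ℝ) (C C' : Cls K) : Prop :=
  ∃ ν ∈ C, ∃ ν' ∈ C', ∀ y, ν y ≤ ν' y ∧ ν' y ≤ exp r * ν y

variable {G : Type} [Group G] [DistribMulAction G (V K)]

/-- Transport of functions. -/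
def mv (g : G) (c : V K → ℝ) : V K → ℝ := fun y => c (g⁻¹ • y)

instance : MulAction G (Cls K) where
  smul g C := {ν : V K → ℝ | (fun y => ν (g • y)) ∈ C}
  one_smul C := by
    refine Set.ext fun ν => ?_
    change (fun y => ν ((1 : G) • y)) ∈ C ↔ ν ∈ C
    simp only [one_smul]
  mul_smul g h C := by
    refine Set.ext fun ν => ?_
    change (fun y => ν ((g * h) • y)) ∈ C ↔ (fun y => ν (g • h • y)) ∈ C
    simp only [mul_smul]

theorem mem_smul_cls (g : G) (C : Cls K) (ν : V K → ℝ) :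
    ν ∈ g • C ↔ (fun y => ν (g • y)) ∈ C := Iff.rfl

theorem mem_cl (ν μ : V K → ℝ) : μ ∈ cl ν ↔ ∃ t : ℝ, 0 < t ∧ μ = fun y => t * ν y := Iff.rfl

theorem cls_ext {C C' : Cls K} (h : ∀ ν, ν ∈ C ↔ ν ∈ C') : C = C' := Set.ext h

/-- The action preserves determinants. -/
def Det1 (G K : Type) [Field K] [Group G] [DistribMulAction G (V K)] : Prop :=
  ∀ (g : G) (x y : V K), dt (g • x) (g • y) = dt x y

/-- `s` and its inverse stretch the sup norm by at most `exp κ`. -/
def Bd (a : AbsoluteValue K ℝ) (κ : ℕ) (s : G) : Prop :=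
  ∀ y : V K, g0 a (s • y) ≤ exp κ * g0 a y ∧ g0 a (s⁻¹ • y) ≤ exp κ * g0 a y

/-- Trace. -/
def trc (K : Type) [Field K] [DistribMulAction G (V K)] (g : G) : K :=
  (g • (ee 0 : V K)) 0 + (g • (ee 1 : V K)) 1

/-- Trace of the additive commutator of `g, h` against `k`. -/
def dl (K : Type) [Field K] [DistribMulAction G (V K)] (g h k : G) : K :=
  trc K (g * h * k) - trc K (h * g * k)

/-- A finite set of nonzero vectors containing the standard basis. -/
structure Ok (Φ : Finset (V K)) : Prop where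
  nz : (0 : V K) ∉ Φ
  e0 : ee 0 ∈ Φ
  e1 : ee 1 ∈ Φ

/-- Normalised seminorms: the compactified tree. -/
abbrev X (a : AbsoluteValue K ℝ) : Type := {c : V K → ℝ // IsSn a c ∧ nr c = 1}

/-- Normalising factor of the action. -/
def al (s : G) (c : V K → ℝ) : ℝ := nr (mv s c)

/-- Depth of `c` on `Φ`, cut off at `T`. -/
noncomputable def DD (a : AbsoluteValue K ℝ) (T : ℝ) (Φ : Finset (V K)) (c : V K → ℝ) : ℝ :=
  -Real.log (max (exp (-T)) (⨅ x : Φ, c x / g0 a x))

/-- Functions with values in `exp (ℤ / Q)` on nonzero vectors. -/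
def Disc (Q : ℕ) (ν : V K → ℝ) : Prop := ∀ y, y ≠ 0 → ∃ n : ℤ, ν y = exp (n / Q)

/-- The set whose supremum is the weight. -/
def wtS (Q : ℕ) (B : V K → ℝ) (C : Cls K) : Set ℝ :=
  {l | ∃ ν, C = cl ν ∧ Disc Q ν ∧ ∃ t : ℝ, 0 < t ∧
    ∀ y, t * ν y ≤ B y ∧ B y ≤ exp ((1 - l) / Q) * (t * ν y)}

/-- Weight of the class `C` for the norm `B`. -/
noncomputable def wt (Q : ℕ) (B : V K → ℝ) (C : Cls K) : ℝ := sSup (insert 0 (wtS Q B C))

open Classical in
/-- The vectors `S ^ n {e0, e1}`. -/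
noncomputable def Ph (K : Type) [Field K] [DistribMulAction G (V K)] (S : Finset G) :
    ℕ → Finset (V K)
  | 0 => {ee 0, ee 1}
  | n + 1 => Finset.image₂ (fun s x => s • x) S (Ph K S n)

end Pool.Agent.Work.MP_9d1ffa_al.G2
end

-- merged part: Pool.Agent.Work.MP_9d1ffa_al.GN.Nd
section
/-! Norms on `K ^ n`: definitions. -/

namespace Pool.Agent.Work.MP_9d1ffa_al.GN

open Real Matrix

variable {K : Type} [Field K] {n : ℕ}

/-- Column vectors. -/
abbrev V (n : ℕ) (K : Type) : Type := Fin n → K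

/-- Ultrametric seminorms. -/
structure IsSn (a : AbsoluteValue K ℝ) (c : V n K → ℝ) : Prop where
  nn : ∀ y, 0 ≤ c y
  sm : ∀ (t : K) (y : V n K), c (t • y) = a t * c y
  ad : ∀ y z, c (y + z) ≤ max (c y) (c z)

/-- `α ≤ exp r * β`. -/
def Le (r : ℝ) (α β : V n K → ℝ) : Prop := ∀ x, α x ≤ exp r * β x

/-- Logarithmic distance at most `r`. -/
def Nr (r : ℝ) (α β : V n K → ℝ) : Prop := Le r α β ∧ Le r β α

/-- The action on functions. -/
def act (g : GL (Fin n) K) (α : V n K → ℝ) : V n K → ℝ :=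
  fun x => α ((g⁻¹ : GL (Fin n) K).1 *ᵥ x)

/-- The `j`-th column. -/
def cl (f : GL (Fin n) K) (j : Fin n) : V n K := fun p => f.1 p j

/-- Standard basis vectors. -/
def ee (j : Fin n) : V n K := Pi.single j 1

/-- The norm for which the columns of `f` are orthogonal of sizes `exp (β j)`. -/
noncomputable def dg (a : AbsoluteValue K ℝ) (f : GL (Fin n) K) (β : Fin n → ℝ) : V n K → ℝ :=
  fun x => ⨆ j, a (((f⁻¹ : GL (Fin n) K).1 *ᵥ x) j) * exp (β j)

/-- The sup norm. -/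
noncomputable def g0 (a : AbsoluteValue K ℝ) : V n K → ℝ := dg a 1 0

/-- The largest seminorm that is at most `w` on `Φ`. -/
noncomputable def hull (a : AbsoluteValue K ℝ) (Φ : Set (V n K)) (w : V n K → ℝ) : V n K → ℝ :=
  fun x => sSup ((fun c : V n K → ℝ => c x) '' {c | IsSn a c ∧ ∀ y ∈ Φ, c y ≤ w y})

/-- The point with parameter `s` on the segment from `α` to `β`. -/
noncomputable def geo (a : AbsoluteValue K ℝ) (α β : V n K → ℝ) (s : ℝ) : V n K → ℝ :=
  hull a Set.univ fun x => α x ^ (1 - s) * β x ^ s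

/-- `f` is orthogonal for `y` and for `g`; `β` are the sizes for `y`, `α` the relative position. -/
structure Fr (a : AbsoluteValue K ℝ) (g y : V n K → ℝ) (f : GL (Fin n) K) (β α : Fin n → ℝ) :
    Prop where
  hy : y = dg a f β
  hg : g = dg a f (β - α)

/-- Entry bounds for `g` in the frame `f`. -/
def Bd (a : AbsoluteValue K ℝ) (f : GL (Fin n) K) (β : Fin n → ℝ) (r : ℝ) (g : GL (Fin n) K) :
    Prop := ∀ p q, a ((f⁻¹ * g * f : GL (Fin n) K).1 p q) ≤ exp (r + β q - β p)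

open Classical in
/-- Finite sets of vectors, closed step by step under `S` and under elimination. -/
noncomputable def Ph (S : Finset (GL (Fin n) K)) : ℕ → Finset (V n K)
  | 0 => Finset.univ.image ee
  | j + 1 => Ph S j ∪ Finset.image₂ (fun (g : GL (Fin n) K) x => g.1 *ᵥ x) S (Ph S j) ∪
      (Ph S j ×ˢ Ph S j ×ˢ (Finset.univ : Finset (Fin n))).image
        fun p => p.1 - (p.1 p.2.2 / p.2.1 p.2.2) • p.2.1

/-- Distance to the nearest integer. -/
noncomputable def dZ (s : ℝ) : ℝ := |s - round s|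

/-- The piece of the building used as transfer space at one place. -/
structure InX (a : AbsoluteValue K ℝ) (S : Finset (GL (Fin n) K)) (T : ℕ) (κ : ℝ)
    (y : V n K → ℝ) : Prop where
  sn : IsSn a y
  lo : Le T (g0 a) y
  hi : Le T y (g0 a)
  cx : ∀ j < 2 * T ^ 3, Le (2 * T * (1 - κ / T) ^ j) (hull a (Ph S (j * (n + 1))) y) y
  top : hull a (Ph S (2 * T ^ 3 * (n + 1))) y = y

/-- The contraction `φ_g` at one place. -/
noncomputable def phi (a : AbsoluteValue K ℝ) (S : Finset (GL (Fin n) K)) (T : ℕ) (κ : ℝ)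
    (g : GL (Fin n) K) (y : V n K → ℝ) : V n K → ℝ :=
  hull a (Ph S (2 * T ^ 3 * (n + 1))) (geo a (g0 a) (act g y) (1 - κ / T))

/-- Tropical barycentre. -/
noncomputable def bar (a : AbsoluteValue K ℝ) (T : ℕ) {A : Type} (μ : A → ℝ)
    (y : A → V n K → ℝ) : V n K → ℝ :=
  hull a Set.univ fun x => ⨅ s, exp (2 * T * (1 - μ s / ⨆ s', μ s')) * y s x

/-- `z` is, up to `δ`, obtained from `g y` by moving back along the sector at `g y`. -/
def Rel (a : AbsoluteValue K ℝ) (c Λ δ : ℝ) (g : GL (Fin n) K) (y z : V n K → ℝ) : Prop :=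
  ∃ χ : ℝ → ℝ, Antitone χ ∧ (∀ s t, |χ s - χ t| ≤ Λ * |s - t|) ∧ (∀ s, |χ s| ≤ c) ∧
    ∀ f β α, Fr a (g0 a) y f β α → Nr δ z (dg a (g * f) fun j => β j + χ (α j))

end Pool.Agent.Work.MP_9d1ffa_al.GN
end

-- merged part: Pool.Agent.Work.MP_9d1ffa_al.GN.NmA
section
/-! Basic facts on seminorms, diagonal norms and the action. -/

namespace Pool.Agent.Work.MP_9d1ffa_al.GN

open Real Matrix
open G2 (Pl)

variable {K : Type} [Field K] {n : ℕ} {a : AbsoluteValue K ℝ}

private theorem NmA_inv_mul (g : GL (Fin n) K) (x : V n K) :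
    (g⁻¹ : GL (Fin n) K).1 *ᵥ (g.1 *ᵥ x) = x := by
  rw [Matrix.mulVec_mulVec, ← Units.val_mul, inv_mul_cancel, Units.val_one, Matrix.one_mulVec]

private theorem NmA_mul_inv (g : GL (Fin n) K) (x : V n K) :
    g.1 *ᵥ ((g⁻¹ : GL (Fin n) K).1 *ᵥ x) = x := by
  rw [Matrix.mulVec_mulVec, ← Units.val_mul, mul_inv_cancel, Units.val_one, Matrix.one_mulVec]

private theorem NmA_ne (f : GL (Fin n) K) {x : V n K} (hx : x ≠ 0) :
    ∃ j, ((f⁻¹ : GL (Fin n) K).1 *ᵥ x) j ≠ 0 := by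
  by_contra h
  push Not at h
  apply hx
  have h1 : (f⁻¹ : GL (Fin n) K).1 *ᵥ x = 0 := funext h
  rw [← NmA_mul_inv f x, h1, Matrix.mulVec_zero]

theorem IsSn.zero {c : V n K → ℝ} (hc : IsSn a c) : c 0 = 0 := by
  have h := hc.sm 0 0
  simpa using h

theorem IsSn.neg {c : V n K → ℝ} (hc : IsSn a c) (y : V n K) : c (-y) = c y := by
  have h := hc.sm (-1) y
  simpa using h

theorem IsSn.sum_le {c : V n K → ℝ} (hc : IsSn a c) {A : Type} (s : Finset A) (x : A → V n K)
    {r : ℝ} (hr : 0 ≤ r) (h : ∀ i ∈ s, c (x i) ≤ r) : c (∑ i ∈ s, x i) ≤ r := by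
  classical
  induction s using Finset.induction_on with
  | empty => simpa [hc.zero] using hr
  | insert i s hi ih =>
    rw [Finset.sum_insert hi]
    refine (hc.ad _ _).trans (max_le (h i (Finset.mem_insert_self _ _)) (ih fun j hj => ?_))
    exact h j (Finset.mem_insert_of_mem hj)

theorem IsSn.const_mul {c : V n K → ℝ} (hc : IsSn a c) {t : ℝ} (ht : 0 ≤ t) :
    IsSn a fun x => t * c x := by
  refine ⟨fun y => mul_nonneg ht (hc.nn y), fun s y => ?_, fun y z => ?_⟩
  · rw [hc.sm]; ring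
  · rw [← mul_max_of_nonneg _ _ ht]
    exact mul_le_mul_of_nonneg_left (hc.ad y z) ht

theorem act_isSn {c : V n K → ℝ} (hc : IsSn a c) (g : GL (Fin n) K) : IsSn a (act g c) := by
  refine ⟨fun y => hc.nn _, fun s y => ?_, fun y z => ?_⟩
  · unfold act
    rw [Matrix.mulVec_smul, hc.sm]
  · unfold act
    rw [Matrix.mulVec_add]
    exact hc.ad _ _

theorem act_one (c : V n K → ℝ) : act 1 c = c := by
  funext x
  simp [act]

theorem act_mul (g h : GL (Fin n) K) (c : V n K → ℝ) : act (g * h) c = act g (act h c) := by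
  funext x
  unfold act
  rw [Matrix.mulVec_mulVec, _root_.mul_inv_rev, Units.val_mul]

theorem act_mulVec (g : GL (Fin n) K) (c : V n K → ℝ) (x : V n K) : act g c (g.1 *ᵥ x) = c x := by
  unfold act
  rw [NmA_inv_mul]

theorem Le.rfl {α : V n K → ℝ} : Le 0 α α := by
  intro x
  simp

theorem Le.mono {r s : ℝ} {α β : V n K → ℝ} (h : Le r α β) (hβ : ∀ x, 0 ≤ β x) (hrs : r ≤ s) :
    Le s α β := by
  intro x
  exact (h x).trans (mul_le_mul_of_nonneg_right (exp_le_exp.2 hrs) (hβ x))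

theorem Le.trans {r s : ℝ} {α β γ : V n K → ℝ} (h : Le r α β) (h' : Le s β γ) :
    Le (r + s) α γ := by
  intro x
  calc α x ≤ exp r * β x := h x
    _ ≤ exp r * (exp s * γ x) := mul_le_mul_of_nonneg_left (h' x) (exp_pos r).le
    _ = exp (r + s) * γ x := by rw [exp_add, mul_assoc]

theorem Le.act {r : ℝ} {α β : V n K → ℝ} (h : Le r α β) (g : GL (Fin n) K) :
    Le r (act g α) (act g β) := by
  intro x
  exact h _

theorem Nr.rfl {α : V n K → ℝ} : Nr 0 α α := by
  exact ⟨Le.rfl, Le.rfl⟩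

theorem Nr.symm {r : ℝ} {α β : V n K → ℝ} (h : Nr r α β) : Nr r β α := by
  exact ⟨h.2, h.1⟩

theorem Nr.mono {r s : ℝ} {α β : V n K → ℝ} (h : Nr r α β) (hα : ∀ x, 0 ≤ α x)
    (hβ : ∀ x, 0 ≤ β x) (hrs : r ≤ s) : Nr s α β := by
  exact ⟨h.1.mono hβ hrs, h.2.mono hα hrs⟩

theorem Nr.trans {r s : ℝ} {α β γ : V n K → ℝ} (h : Nr r α β) (h' : Nr s β γ) :
    Nr (r + s) α γ := by
  refine ⟨h.1.trans h'.1, ?_⟩
  rw [add_comm]
  exact h'.2.trans h.2

theorem Nr.act {r : ℝ} {α β : V n K → ℝ} (h : Nr r α β) (g : GL (Fin n) K) :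
    Nr r (act g α) (act g β) := by
  exact ⟨h.1.act g, h.2.act g⟩

theorem Nr.eq {α β : V n K → ℝ} (h : Nr 0 α β) : α = β := by
  funext x
  have h1 := h.1 x
  have h2 := h.2 x
  rw [exp_zero, one_mul] at h1 h2
  exact le_antisymm h1 h2

theorem cl_one (j : Fin n) : cl (1 : GL (Fin n) K) j = ee j := by
  funext p
  simp [cl, ee, Matrix.one_apply, Pi.single_apply]

theorem cl_mul (g f : GL (Fin n) K) (j : Fin n) : cl (g * f) j = g.1 *ᵥ cl f j := by
  funext p
  simp [cl, Matrix.mul_apply, Matrix.mulVec, dotProduct]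

theorem cl_ne (f : GL (Fin n) K) (j : Fin n) : cl f j ≠ 0 := by
  intro h
  have h1 : (f⁻¹ : GL (Fin n) K).1 *ᵥ cl f j = ee j := by
    rw [← cl_mul, inv_mul_cancel, cl_one]
  rw [h, Matrix.mulVec_zero] at h1
  have h2 := congrFun h1 j
  simp [ee] at h2

theorem cl_ext {f f' : GL (Fin n) K} (h : ∀ j, cl f j = cl f' j) : f = f' := by
  apply Units.ext
  funext p j
  exact congrFun (h j) p

/-- Expansion in the columns of `f`. -/
theorem eq_sum_cl (f : GL (Fin n) K) (x : V n K) :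
    x = ∑ j, ((f⁻¹ : GL (Fin n) K).1 *ᵥ x) j • cl f j := by
  have h : f.1 *ᵥ ((f⁻¹ : GL (Fin n) K).1 *ᵥ x) = x := NmA_mul_inv f x
  generalize (f⁻¹ : GL (Fin n) K).1 *ᵥ x = y at h
  rw [← h]
  funext p
  simp only [Matrix.mulVec, dotProduct, Finset.sum_apply, Pi.smul_apply, cl, smul_eq_mul]
  exact Finset.sum_congr rfl fun j _ => mul_comm _ _

theorem inv_mulVec_cl (f : GL (Fin n) K) (j : Fin n) :
    (f⁻¹ : GL (Fin n) K).1 *ᵥ cl f j = ee j := by
  rw [← cl_mul, inv_mul_cancel, cl_one]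

theorem dg_nonneg (f : GL (Fin n) K) (β : Fin n → ℝ) (x : V n K) : 0 ≤ dg a f β x := by
  exact Real.iSup_nonneg fun j => mul_nonneg (a.nonneg _) (exp_pos _).le

theorem le_dg (f : GL (Fin n) K) (β : Fin n → ℝ) (x : V n K) (j : Fin n) :
    a (((f⁻¹ : GL (Fin n) K).1 *ᵥ x) j) * exp (β j) ≤ dg a f β x := by
  exact le_ciSup (f := fun j => a (((f⁻¹ : GL (Fin n) K).1 *ᵥ x) j) * exp (β j))
    (Set.finite_range _).bddAbove j

theorem dg_le {f : GL (Fin n) K} {β : Fin n → ℝ} {x : V n K} {r : ℝ} (hr : 0 ≤ r)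
    (h : ∀ j, a (((f⁻¹ : GL (Fin n) K).1 *ᵥ x) j) * exp (β j) ≤ r) : dg a f β x ≤ r := by
  exact Real.iSup_le h hr

theorem dg_pos (f : GL (Fin n) K) (β : Fin n → ℝ) {x : V n K} (hx : x ≠ 0) : 0 < dg a f β x := by
  obtain ⟨j, hj⟩ := NmA_ne f hx
  exact (mul_pos (a.pos hj) (exp_pos _)).trans_le (le_dg f β x j)

theorem dg_cl (f : GL (Fin n) K) (β : Fin n → ℝ) (j : Fin n) : dg a f β (cl f j) = exp (β j) := by
  apply le_antisymm
  · refine dg_le (exp_pos _).le fun i => ?_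
    rw [inv_mulVec_cl]
    by_cases h : i = j
    · subst h
      simp [ee]
    · simp [ee, h, (exp_pos _).le]
  · have h := le_dg (a := a) f β (cl f j) j
    rw [inv_mulVec_cl] at h
    simpa [ee] using h

theorem dg_isSn (ha : Pl a) (f : GL (Fin n) K) (β : Fin n → ℝ) : IsSn a (dg a f β) := by
  refine ⟨dg_nonneg f β, fun t y => ?_, fun y z => ?_⟩
  · unfold dg
    rw [Real.mul_iSup_of_nonneg (a.nonneg t), Matrix.mulVec_smul]
    refine congrArg _ (funext fun j => ?_)
    rw [Pi.smul_apply, smul_eq_mul, a.map_mul, mul_assoc]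
  · refine dg_le (le_max_of_le_left (dg_nonneg f β y)) fun j => ?_
    rw [Matrix.mulVec_add, Pi.add_apply]
    refine (mul_le_mul_of_nonneg_right (ha.na _ _) (exp_pos _).le).trans ?_
    rw [max_mul_of_nonneg _ _ (exp_pos _).le]
    exact max_le_max (le_dg f β y j) (le_dg f β z j)

/-- Lemma (D). -/
theorem IsSn.le_dg {c : V n K → ℝ} (hc : IsSn a c) {f : GL (Fin n) K} {β : Fin n → ℝ} {r : ℝ}
    (h : ∀ j, c (cl f j) ≤ exp (r + β j)) : Le r c (dg a f β) := by
  intro x
  have hx := eq_sum_cl f x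
  have h1 : c (∑ j, ((f⁻¹ : GL (Fin n) K).1 *ᵥ x) j • cl f j) ≤ exp r * dg a f β x := by
    refine hc.sum_le _ _ (mul_nonneg (exp_pos _).le (dg_nonneg f β x)) fun j _ => ?_
    rw [hc.sm]
    calc a (((f⁻¹ : GL (Fin n) K).1 *ᵥ x) j) * c (cl f j)
        ≤ a (((f⁻¹ : GL (Fin n) K).1 *ᵥ x) j) * exp (r + β j) :=
          mul_le_mul_of_nonneg_left (h j) (a.nonneg _)
      _ = exp r * (a (((f⁻¹ : GL (Fin n) K).1 *ᵥ x) j) * exp (β j)) := by rw [exp_add]; ring
      _ ≤ exp r * dg a f β x :=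
          mul_le_mul_of_nonneg_left (GN.le_dg f β x j) (exp_pos _).le
  rwa [← hx] at h1

/-- The supremum is attained. -/
theorem dg_ex (f : GL (Fin n) K) (β : Fin n → ℝ) {x : V n K} (hx : x ≠ 0) :
    ∃ j, ((f⁻¹ : GL (Fin n) K).1 *ᵥ x) j ≠ 0 ∧
      dg a f β x = a (((f⁻¹ : GL (Fin n) K).1 *ᵥ x) j) * exp (β j) := by
  obtain ⟨j0, -⟩ := NmA_ne f hx
  haveI : Nonempty (Fin n) := ⟨j0⟩
  obtain ⟨j, hj⟩ := exists_eq_ciSup_of_finite
    (f := fun j => a (((f⁻¹ : GL (Fin n) K).1 *ᵥ x) j) * exp (β j))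
  have h1 : dg a f β x = a (((f⁻¹ : GL (Fin n) K).1 *ᵥ x) j) * exp (β j) := hj.symm
  refine ⟨j, fun h0 => ?_, h1⟩
  have h2 := dg_pos (a := a) f β hx
  rw [h1, h0, a.map_zero, zero_mul] at h2
  exact lt_irrefl _ h2

theorem dg_val (ha : Pl a) (f : GL (Fin n) K) (β : Fin n → ℝ) {x : V n K} (hx : x ≠ 0) :
    ∃ (j : Fin n) (z : ℤ), dg a f β x = exp (β j + z) := by
  obtain ⟨j, hj, h⟩ := dg_ex (a := a) f β hx
  obtain ⟨z, hz⟩ := ha.val _ hj
  exact ⟨j, z, by rw [h, hz, exp_add, mul_comm]⟩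

theorem act_dg (g f : GL (Fin n) K) (β : Fin n → ℝ) : act g (dg a f β) = dg a (g * f) β := by
  funext x
  unfold act dg
  rw [Matrix.mulVec_mulVec, _root_.mul_inv_rev, Units.val_mul]

theorem dg_add_const (f : GL (Fin n) K) (β : Fin n → ℝ) (c : ℝ) :
    (dg a f fun j => β j + c) = fun x => exp c * dg a f β x := by
  funext x
  unfold dg
  rw [Real.mul_iSup_of_nonneg (exp_pos c).le]
  refine congrArg _ (funext fun j => ?_)
  rw [exp_add]; ring

theorem dg_le_iff {f : GL (Fin n) K} {β β' : Fin n → ℝ} {r : ℝ} :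
    Le r (dg a f β) (dg a f β') ↔ ∀ j, β j ≤ r + β' j := by
  constructor
  · intro h j
    have h1 := h (cl f j)
    rw [dg_cl, dg_cl, ← exp_add] at h1
    exact exp_le_exp.1 h1
  · intro h x
    refine dg_le (mul_nonneg (exp_pos _).le (dg_nonneg f β' x)) fun j => ?_
    calc a (((f⁻¹ : GL (Fin n) K).1 *ᵥ x) j) * exp (β j)
        ≤ a (((f⁻¹ : GL (Fin n) K).1 *ᵥ x) j) * exp (r + β' j) :=
          mul_le_mul_of_nonneg_left (exp_le_exp.2 (h j)) (a.nonneg _)
      _ = exp r * (a (((f⁻¹ : GL (Fin n) K).1 *ᵥ x) j) * exp (β' j)) := by rw [exp_add]; ring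
      _ ≤ exp r * dg a f β' x := mul_le_mul_of_nonneg_left (le_dg f β' x j) (exp_pos _).le

theorem dg_nr {f : GL (Fin n) K} {β β' : Fin n → ℝ} {r : ℝ} (h : ∀ j, |β j - β' j| ≤ r) :
    Nr r (dg a f β) (dg a f β') := by
  refine ⟨dg_le_iff.2 fun j => ?_, dg_le_iff.2 fun j => ?_⟩
  · have h1 := (abs_le.1 (h j)).2
    linarith
  · have h1 := (abs_le.1 (h j)).1
    linarith

theorem g0_apply (x : V n K) : g0 a x = ⨆ j, a (x j) := by
  simp [g0, dg]

theorem le_g0 (x : V n K) (j : Fin n) : a (x j) ≤ g0 a x := by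
  rw [g0_apply]
  exact le_ciSup (f := fun j => a (x j)) (Set.finite_range _).bddAbove j

theorem g0_ee (j : Fin n) : g0 a (ee j : V n K) = 1 := by
  have h := dg_cl (a := a) (1 : GL (Fin n) K) 0 j
  rw [cl_one] at h
  simpa [g0] using h

/-- Entry bounds are operator norm bounds. -/
theorem bd_iff (ha : Pl a) {f g : GL (Fin n) K} {β : Fin n → ℝ} {r : ℝ} :
    Bd a f β r g ↔ Le r (act g⁻¹ (dg a f β)) (dg a f β) := by
  have key : ∀ q p, ((f⁻¹ : GL (Fin n) K).1 *ᵥ ((g⁻¹⁻¹ : GL (Fin n) K).1 *ᵥ cl f q)) p =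
      (f⁻¹ * g * f : GL (Fin n) K).1 p q := by
    intro q p
    rw [inv_inv, ← cl_mul, ← cl_mul, ← mul_assoc]
    rfl
  constructor
  · intro h
    refine (act_isSn (dg_isSn ha f β) g⁻¹).le_dg fun q => ?_
    refine dg_le (exp_pos _).le fun p => ?_
    rw [key]
    calc a ((f⁻¹ * g * f : GL (Fin n) K).1 p q) * exp (β p)
        ≤ exp (r + β q - β p) * exp (β p) := mul_le_mul_of_nonneg_right (h p q) (exp_pos _).le
      _ = exp (r + β q) := by rw [← exp_add, sub_add_cancel]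
  · intro h p q
    have h1 := h (cl f q)
    rw [dg_cl, ← exp_add] at h1
    have h2 := (le_dg (a := a) f β ((g⁻¹⁻¹ : GL (Fin n) K).1 *ᵥ cl f q) p).trans h1
    rw [key] at h2
    rw [exp_sub, le_div_iff₀ (exp_pos _)]
    exact h2

theorem Bd.mul (ha : Pl a) {f g h : GL (Fin n) K} {β : Fin n → ℝ} {r s : ℝ} (hg : Bd a f β r g)
    (hh : Bd a f β s h) : Bd a f β (r + s) (g * h) := by
  rw [bd_iff ha] at hg hh ⊢
  rw [_root_.mul_inv_rev, act_mul]
  exact (hg.act h⁻¹).trans hh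

theorem Bd.one (f : GL (Fin n) K) (β : Fin n → ℝ) : Bd a f β 0 1 := by
  intro p q
  rw [mul_one, inv_mul_cancel]
  by_cases h : p = q
  · subst h
    simp
  · simp [h, (exp_pos _).le]

theorem Bd.mono {f g : GL (Fin n) K} {β : Fin n → ℝ} {r s : ℝ} (hg : Bd a f β r g) (h : r ≤ s) :
    Bd a f β s g := by
  intro p q
  exact (hg p q).trans (exp_le_exp.2 (by linarith))

theorem exists_kappa (ha : Pl a) (g : GL (Fin n) K) : ∃ κ : ℕ, Nr κ (act g (g0 a)) (g0 a) := by
  have key : ∀ u : GL (Fin n) K, ∃ κ : ℕ, Le κ (act u (g0 a)) (g0 a) := by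
    intro u
    obtain ⟨κ, hκ⟩ := exists_nat_ge (∑ j, act u (g0 a) (ee j))
    have hs : IsSn a (act u (g0 a)) := act_isSn (dg_isSn ha 1 0) u
    refine ⟨κ, hs.le_dg (f := 1) (β := 0) fun j => ?_⟩
    rw [cl_one, Pi.zero_apply, add_zero]
    have h1 : act u (g0 a) (ee j) ≤ ∑ j, act u (g0 a) (ee j) :=
      Finset.single_le_sum (f := fun j => act u (g0 a) (ee j)) (fun i _ => hs.nn _)
        (Finset.mem_univ j)
    have h2 := add_one_le_exp (κ : ℝ)
    linarith
  obtain ⟨k, hk⟩ := key g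
  obtain ⟨l, hl⟩ := key g⁻¹
  have hl' := hl.act g
  rw [← act_mul, mul_inv_cancel, act_one] at hl'
  refine ⟨k + l, hk.mono (dg_nonneg 1 0) ?_, hl'.mono (fun x => dg_nonneg 1 0 _) ?_⟩
  · push_cast
    linarith [Nat.cast_nonneg (α := ℝ) l]
  · push_cast
    linarith [Nat.cast_nonneg (α := ℝ) k]

theorem Fr.act {g y : V n K → ℝ} {f : GL (Fin n) K} {β α : Fin n → ℝ} (h : Fr a g y f β α)
    (s : GL (Fin n) K) : Fr a (act s g) (act s y) (s * f) β α := by
  exact ⟨by rw [h.hy, act_dg], by rw [h.hg, act_dg]⟩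

/-- Moving `y` inside the apartment of `f`. -/
theorem Fr.shift {g y : V n K → ℝ} {f : GL (Fin n) K} {β α : Fin n → ℝ} (h : Fr a g y f β α)
    (x : Fin n → ℝ) :
    Fr a g (dg a f fun j => β j + x j) f (fun j => β j + x j) fun j => α j + x j := by
  refine ⟨rfl, ?_⟩
  rw [h.hg]
  refine congrArg _ (funext fun j => ?_)
  simp only [Pi.sub_apply]
  ring

end Pool.Agent.Work.MP_9d1ffa_al.GN
end

-- merged part: Pool.Agent.Work.MP_9d1ffa_al.GN.Un
section
/-! The family of subgroups, the Margulis type lemma (U) and lemma (B). -/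

namespace Pool.Agent.Work.MP_9d1ffa_al.GN

open Real Matrix
open G2 (Pl)

variable {K : Type} [Field K] {n : ℕ} {I : Type} {G : Type} [Group G]

/-- The image of `H` does not span the matrix algebra. -/
def Red (ρ : G →* GL (Fin n) K) (H : Subgroup G) : Prop :=
  Submodule.span K ((fun g => (ρ g).1) '' (H : Set G)) ≠ ⊤

/-- Subgroups that do not span, or have bounded traces at all places. -/
def Fam (av : I → AbsoluteValue K ℝ) (ρ : G →* GL (Fin n) K) : Set (Subgroup G) :=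
  {H | Red ρ H ∨ ∀ i, ∀ g ∈ H, av i (ρ g).1.trace ≤ 1}

/-- Elements of `A` that are bounded everywhere and very small somewhere vanish. -/
def Low (av : I → AbsoluteValue K ℝ) (A : Subring K) : Prop :=
  ∀ R : ℝ, ∃ L : ℝ, ∀ x ∈ A, (∀ i, av i x ≤ exp R) → (∃ i, av i x ≤ exp (-L)) → x = 0

/-- The statement proved by the geometric part. -/
def HMain : Prop :=
  ∀ (K : Type) [Field K] (n : ℕ) (I : Type) [Fintype I] (av : I → AbsoluteValue K ℝ),
    (∀ i, Pl (av i)) → ∀ A : Subring K, Low av A → ∀ (G : Type) [Group G] (ρ : G →* GL (Fin n) K),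
      (∀ g, (ρ g).1.det = 1) → (∀ g p q, (ρ g).1 p q ∈ A) → HTR G (Fam av ρ)

theorem Red.mono {ρ : G →* GL (Fin n) K} {H H' : Subgroup G} (h : Red ρ H') (hle : H ≤ H') :
    Red ρ H := by
  exact fun e => h (top_le_iff.1 (e.symm.le.trans (Submodule.span_mono (Set.image_mono hle))))

theorem Fam_mono {av : I → AbsoluteValue K ℝ} {ρ : G →* GL (Fin n) K} {H H' : Subgroup G}
    (h : H' ∈ Fam av ρ) (hle : H ≤ H') : H ∈ Fam av ρ := by
  exact h.imp (fun e => e.mono hle) fun e i g hg => e i g (hle hg)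

/-- Conjugation by `ρ g` is a linear automorphism of the matrix algebra; `Matrix.trace_mul_cycle`. -/
theorem Fam_conj {av : I → AbsoluteValue K ℝ} {ρ : G →* GL (Fin n) K} {H : Subgroup G}
    (h : H ∈ Fam av ρ) (g : G) : H.map (MulAut.conj g).toMonoidHom ∈ Fam av ρ := by
  rcases h with e | e
  · refine Or.inl fun e' => e (Submodule.eq_top_iff'.2 fun M => ?_)
    have k : Submodule.span K ((fun x => (ρ x).1) '' (H.map (MulAut.conj g).toMonoidHom : Set G)) ≤
        (Submodule.span K ((fun x => (ρ x).1) '' (H : Set G))).comap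
          ((LinearMap.mulRight K (ρ g).1).comp (LinearMap.mulLeft K (ρ g)⁻¹.1)) := by
      rw [Submodule.span_le]
      rintro _ ⟨_, ⟨x, hx, rfl⟩, rfl⟩
      refine Submodule.subset_span ⟨x, hx, ?_⟩
      change (ρ x).1 = ((ρ g)⁻¹ * ρ (g * x * g⁻¹) * ρ g).1
      rw [← map_inv, ← map_mul, ← map_mul]
      congr 2
      group
    have := k (e'.ge (Submodule.mem_top (x := (ρ g).1 * M * (ρ g)⁻¹.1)))
    rwa [Submodule.mem_comap, LinearMap.comp_apply, LinearMap.mulLeft_apply,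
      LinearMap.mulRight_apply, ← mul_assoc, ← mul_assoc, Units.inv_mul, one_mul, mul_assoc,
      Units.inv_mul, mul_one] at this
  · refine Or.inr ?_
    rintro i _ ⟨x, hx, rfl⟩
    change av i (ρ (g * x * g⁻¹)).1.trace ≤ 1
    rw [map_mul, map_mul, map_inv, Units.val_mul, Units.val_mul, trace_units_conj]
    exact e i x hx

theorem Un_sum_le {a : AbsoluteValue K ℝ} (ha : Pl a) {ι : Type} (s : Finset ι) (x : ι → K)
    {r : ℝ} (hr : 0 ≤ r) (h : ∀ i ∈ s, a (x i) ≤ r) : a (∑ i ∈ s, x i) ≤ r :=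
  Finset.sum_induction x (fun y => a y ≤ r) (fun y z hy hz => (ha.na y z).trans (max_le hy hz))
    (by rwa [map_zero]) h

theorem Un_det_le {a : AbsoluteValue K ℝ} (ha : Pl a) {ι : Type} [Fintype ι] [DecidableEq ι]
    (M : Matrix ι ι K) {r : ℝ} (hr : 0 ≤ r) (h : ∀ σ : Equiv.Perm ι, ∏ j, a (M (σ j) j) ≤ r) :
    a M.det ≤ r := by
  rw [det_apply]
  refine Un_sum_le ha _ _ hr fun σ _ => ?_
  rw [a.map_units_int_smul, a.map_prod]
  exact h σ

/-- The trace is the sum of the diagonal entries of `f⁻¹ * g * f`. -/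
theorem Bd.trace_le {a : AbsoluteValue K ℝ} (ha : Pl a) {f g : GL (Fin n) K} {β : Fin n → ℝ}
    {r : ℝ} (h : Bd a f β r g) : a g.1.trace ≤ exp r := by
  rw [← trace_units_conj' f g.1]
  refine Un_sum_le ha _ _ (exp_pos r).le fun p _ => ?_
  have := h p p
  rwa [add_sub_cancel_right] at this

/-- Ultrametric Hadamard inequality (`Matrix.det_apply`, every term of the sum). -/
theorem det_le_prod {a : AbsoluteValue K ℝ} (ha : Pl a) {ι : Type} [Fintype ι] [DecidableEq ι]
    (M : Matrix ι ι K) (c : ι → ℝ) (hc : ∀ j, 0 ≤ c j) (h : ∀ i j, a (M i j) ≤ c j) :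
    a M.det ≤ ∏ j, c j := by
  refine Un_det_le ha M (Finset.prod_nonneg fun j _ => hc j) fun σ => ?_
  exact Finset.prod_le_prod (fun j _ => a.nonneg _) fun j _ => h _ _

/-- `1 = a (det (f⁻¹ * g * f)) ≤ exp (n * r)`: in `Matrix.det_apply` the factors
`exp (β q - β p)` cancel along every permutation. -/
theorem Bd.nonneg {a : AbsoluteValue K ℝ} (ha : Pl a) (hn : 0 < n) {f g : GL (Fin n) K}
    {β : Fin n → ℝ} {r : ℝ} (hg : g.1.det = 1) (h : Bd a f β r g) : 0 ≤ r := by
  have h1 : a (f⁻¹ * g * f : GL (Fin n) K).1.det ≤ exp (n * r) := by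
    refine Un_det_le ha _ (exp_pos _).le fun σ => ?_
    refine (Finset.prod_le_prod (fun j _ => a.nonneg _) fun j _ => h (σ j) j).trans_eq ?_
    rw [← exp_sum, Finset.sum_sub_distrib, Finset.sum_add_distrib, Equiv.sum_comp σ β,
      add_sub_cancel_right, Finset.sum_const, Finset.card_univ, Fintype.card_fin, nsmul_eq_mul]
  rw [Units.val_mul, Units.val_mul, det_units_conj', hg, map_one, one_le_exp_iff] at h1
  exact nonneg_of_mul_nonneg_right h1 (Nat.cast_pos.2 hn)

/-- Lemma (B): a scalar shift along an element of determinant one is trivial (`bd_iff` and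
`Bd.nonneg` for `g` and for `g⁻¹`). -/
theorem shift_eq_zero {a : AbsoluteValue K ℝ} (ha : Pl a) (hn : 0 < n) {f g : GL (Fin n) K}
    {β : Fin n → ℝ} {c : ℝ} (hg : g.1.det = 1)
    (h : act g (dg a f β) = dg a f fun j => β j + c) : c = 0 := by
  rw [dg_add_const] at h
  have hg' : (g⁻¹ : GL (Fin n) K).1.det = 1 := by
    have e := det_mul (g⁻¹ : GL (Fin n) K).1 g.1
    rw [Units.inv_mul, det_one, hg, mul_one] at e
    exact e.symm
  have h1 : Bd a f β c g⁻¹ := by
    rw [bd_iff ha, inv_inv, h]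
    exact fun x => le_rfl
  have h2 : Bd a f β (-c) g := by
    rw [bd_iff ha]
    intro x
    have e := congrFun h (g.1 *ᵥ x)
    rw [act_mulVec] at e
    rw [act, inv_inv, e, ← mul_assoc, ← exp_add, neg_add_cancel, exp_zero, one_mul]
  exact le_antisymm (neg_nonneg.1 (h2.nonneg ha hn hg)) (h1.nonneg ha hn hg')

theorem trace_le_one {a : AbsoluteValue K ℝ} (ha : Pl a) {f g : GL (Fin n) K} {β : Fin n → ℝ}
    (h : act g (dg a f β) = dg a f β) : a g.1.trace ≤ 1 := by
  rw [← exp_zero]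
  refine Bd.trace_le ha (f := f) (β := β) ((bd_iff ha).2 fun x => ?_)
  have e := congrFun h (g.1 *ᵥ x)
  rw [act_mulVec] at e
  rw [act, inv_inv, e, exp_zero, one_mul]

/-- The spans `W j` of the images of `H ^ j` increase (`1 ∈ H`), and `W (j + 1) = W j` implies
`W (j + 2) = W (j + 1)`; the dimension is at most `n * n`, so `W (n * n)` is stable under left
multiplication by `H` and contains the image of the closure (`H` is symmetric). -/
theorem span_pow (ρ : G →* GL (Fin n) K) {H : Set G} (h1 : (1 : G) ∈ H) (hs : ∀ h ∈ H, h⁻¹ ∈ H)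
    (h : ¬Red ρ (Subgroup.closure H)) :
    Submodule.span K ((fun g => (ρ g).1) '' {g | ∃ l : List G, l.length ≤ n * n ∧
      (∀ x ∈ l, x ∈ H) ∧ l.prod = g}) = ⊤ := by
  have _ := h1
  let W : ℕ → Submodule K (Matrix (Fin n) (Fin n) K) := fun j =>
    Submodule.span K ((fun g => (ρ g).1) '' {g | ∃ l : List G, l.length ≤ j ∧
      (∀ x ∈ l, x ∈ H) ∧ l.prod = g})
  have mono : Monotone W := fun i j hij => Submodule.span_mono (Set.image_mono
    fun g ⟨l, a, b, c⟩ => ⟨l, a.trans hij, b, c⟩)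
  obtain ⟨j, hj, e⟩ : ∃ j ≤ n * n, W (j + 1) ≤ W j := by
    by_contra hc
    push Not at hc
    have k : ∀ j ≤ n * n + 1, j ≤ Module.finrank K (W j) := by
      intro j hj
      induction j with
      | zero => exact Nat.zero_le _
      | succ j ih =>
        exact Nat.succ_le_of_lt ((ih (by omega)).trans_lt (Submodule.finrank_lt_finrank_of_lt
          (lt_of_le_not_ge (mono j.le_succ) (hc j (by omega)))))
    have := (k _ le_rfl).trans (Submodule.finrank_le _)
    simp [Module.finrank_matrix] at this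
  have st : ∀ x ∈ H, W j ≤ (W j).comap (LinearMap.mulLeft K (ρ x).1) := by
    intro x hx
    refine Submodule.span_le.2 ?_
    rintro _ ⟨_, ⟨l, a, b, rfl⟩, rfl⟩
    refine e (Submodule.subset_span ⟨x * l.prod, ⟨x :: l, Nat.succ_le_succ a, ?_, List.prod_cons⟩,
      by simp⟩)
    intro y hy
    rcases List.mem_cons.1 hy with rfl | hy
    exacts [hx, b y hy]
  refine top_le_iff.1 ((not_not.1 h).ge.trans ((Submodule.span_le.2 ?_).trans (mono hj)))
  rintro _ ⟨g, hg, rfl⟩
  induction hg using Subgroup.closure_induction_left with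
  | one => exact Submodule.subset_span ⟨1, ⟨[], Nat.zero_le _, by simp, rfl⟩, rfl⟩
  | mul_left x hx y _ ih =>
    have := st x hx ih
    simpa using this
  | inv_mul_cancel x hx y _ ih =>
    have := st _ (hs x hx) ih
    rw [Submodule.mem_comap, LinearMap.mulLeft_apply, ← Units.val_mul, ← map_mul] at this
    exact this

/-- The Gram determinant of the trace form is, up to sign, the square of the determinant of the
coordinates in any frame: with `M s (p, q) = (f⁻¹ * g s * f) p q` the Gram matrix is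
`M * (M.submatrix id Prod.swap)ᵀ` (`Matrix.det_permute'`, `Equiv.prodComm`). -/
theorem gram_det (a : AbsoluteValue K ℝ) (f : GL (Fin n) K) (g : Fin n × Fin n → GL (Fin n) K) :
    a (Matrix.of fun s t => ((g s).1 * (g t).1).trace).det =
      a (Matrix.of fun (s : Fin n × Fin n) (t : Fin n × Fin n) =>
        (f⁻¹ * g s * f : GL (Fin n) K).1 t.1 t.2).det ^ 2 := by
  set M := Matrix.of fun (s : Fin n × Fin n) (t : Fin n × Fin n) =>
    (f⁻¹ * g s * f : GL (Fin n) K).1 t.1 t.2 with hM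
  have e : (Matrix.of fun s t => ((g s).1 * (g t).1).trace) =
      M * (M.submatrix id (Equiv.prodComm _ _))ᵀ := by
    ext s t
    have e1 : (f⁻¹ * g s * f : GL (Fin n) K).1 * (f⁻¹ * g t * f : GL (Fin n) K).1 =
        (f⁻¹).1 * ((g s).1 * (g t).1) * f.1 := by
      simp only [← Units.val_mul]
      congr 1
      group
    rw [Matrix.of_apply, ← trace_units_conj' f, ← e1, Matrix.mul_apply, Fintype.sum_prod_type]
    rfl
  rw [e, det_mul, det_transpose, det_permute', map_mul, map_mul, a.map_units_intCast, one_mul, sq]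

theorem Un_list {a : AbsoluteValue K ℝ} (ha : Pl a) (ρ : G →* GL (Fin n) K) {H : Set G}
    {f : GL (Fin n) K} {β : Fin n → ℝ} {r : ℝ} (h : ∀ x ∈ H, Bd a f β r (ρ x)) (l : List G)
    (hl : ∀ x ∈ l, x ∈ H) : Bd a f β (l.length * r) (ρ l.prod) := by
  induction l with
  | nil =>
    rw [List.length_nil, List.prod_nil, map_one, Nat.cast_zero, zero_mul]
    exact Bd.one f β
  | cons x l ih =>
    rw [List.length_cons, List.prod_cons, map_mul, Nat.cast_succ, add_one_mul, add_comm]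
    exact (h x (hl x List.mem_cons_self)).mul ha (ih fun y hy => hl y (List.mem_cons_of_mem _ hy))

theorem Un_gram {a : AbsoluteValue K ℝ} (ha : Pl a) (f : GL (Fin n) K)
    (g : Fin n × Fin n → GL (Fin n) K) (β : Fin n → ℝ) (r : ℝ) (d : Fin n × Fin n → ℝ)
    (h : ∀ s t : Fin n × Fin n,
      a ((f⁻¹ * g s * f : GL (Fin n) K).1 t.1 t.2) ≤ exp (r + β t.2 - β t.1 - d t)) :
    a (Matrix.of fun s t => ((g s).1 * (g t).1).trace).det ≤
      exp (2 * ((n * n : ℕ) * r - ∑ t, d t)) := by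
  rw [gram_det a f, two_mul, exp_add, ← sq]
  refine pow_le_pow_left₀ (a.nonneg _) ((det_le_prod ha _ _ (fun _ => (exp_pos _).le) h).trans_eq ?_) 2
  have e : ∑ t : Fin n × Fin n, β t.2 = ∑ t : Fin n × Fin n, β t.1 :=
    Equiv.sum_comp (Equiv.prodComm (Fin n) (Fin n)) fun t => β t.1
  rw [← exp_sum, Finset.sum_sub_distrib, Finset.sum_sub_distrib, Finset.sum_add_distrib, e,
    add_sub_cancel_right, Finset.sum_const, Finset.card_univ, Fintype.card_prod, Fintype.card_fin,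
    nsmul_eq_mul]

/-- Lemma (U). Suppose not. By `span_pow` there is a basis `ρ (g s)`, `s : Fin n × Fin n`, of the
matrix algebra consisting of products of at most `n * n` elements of `H`
(`exists_linearIndependent`, or `Basis.ofSpan`; the cardinality is `n * n`), with bound
`r' = n * n * r` (`Bd.mul`, `Bd.one`, `Bd.mono`). The Gram determinant `D` lies in `A` and is nonzero
(`gram_det` with `f = 1`: the coordinate matrix of a basis is invertible). By `gram_det` and
`det_le_prod` with `c (p, q) = exp (r' + β q - β p)`, whose product is `exp (n * n * r')`,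
`av i D ≤ exp (2 * n * n * r')`. At `i0` the column `(p0, q0)` has the better bound
`exp (r' + β q0 - β p0 - L)`, so `av i0 D ≤ exp (2 * n * n * r' - 2 * L)`. Take `L` large and use
`Low`. -/
theorem red_of_gap {av : I → AbsoluteValue K ℝ} (ha : ∀ i, Pl (av i)) {A : Subring K}
    (hL : Low av A) (ρ : G →* GL (Fin n) K) (hA : ∀ g p q, (ρ g).1 p q ∈ A) {r : ℝ} (hr : 0 ≤ r) :
    ∃ L : ℕ, ∀ (H : Set G) (f : I → GL (Fin n) K) (β : I → Fin n → ℝ) (i0 : I) (β' : Fin n → ℝ)
      (p0 q0 : Fin n), (1 : G) ∈ H → (∀ h ∈ H, h⁻¹ ∈ H) →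
      (∀ h ∈ H, ∀ i, Bd (av i) (f i) (β i) r (ρ h)) → (∀ h ∈ H, Bd (av i0) (f i0) β' r (ρ h)) →
      β' q0 - β' p0 + L ≤ β i0 q0 - β i0 p0 → Red ρ (Subgroup.closure H) := by
  classical
  obtain ⟨L0, h0⟩ := hL (2 * ((n * n : ℕ) * ((n * n : ℕ) * r)))
  obtain ⟨L, hLL⟩ := exists_nat_ge ((n * n : ℕ) * ((n * n : ℕ) * r) + L0 / 2)
  refine ⟨L, fun H f β i0 β' p0 q0 h1 hs hb hb' hgap => by_contra fun hc => ?_⟩
  have sp := span_pow ρ h1 hs hc
  obtain ⟨v, hv, -, li⟩ := Submodule.exists_fun_fin_finrank_span_eq K ((fun g => (ρ g).1) ''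
    {g | ∃ l : List G, l.length ≤ n * n ∧ (∀ x ∈ l, x ∈ H) ∧ l.prod = g})
  let e := Fintype.equivFinOfCardEq (α := Fin n × Fin n)
    (show _ = Module.finrank K (Submodule.span K ((fun g => (ρ g).1) ''
      {g | ∃ l : List G, l.length ≤ n * n ∧ (∀ x ∈ l, x ∈ H) ∧ l.prod = g})) by
      rw [sp]; simp [Module.finrank_matrix])
  have li' := li.comp e e.injective
  choose g hg hgv using fun s => hv (e s)
  choose l hl hlH hlg using hg
  have hbd : ∀ {i : I} {γ : Fin n → ℝ}, (∀ h ∈ H, Bd (av i) (f i) γ r (ρ h)) → ∀ s,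
      Bd (av i) (f i) γ ((n * n : ℕ) * r) (ρ (g s)) := fun hγ s =>
    hlg s ▸ (Un_list (ha _) ρ hγ (l s) (hlH s)).mono
      (mul_le_mul_of_nonneg_right (Nat.cast_le.2 (hl s)) hr)
  have hD := h0 (Matrix.of fun s t => ((ρ (g s)).1 * (ρ (g t)).1).trace).det ?_ (fun i => ?_)
    ⟨i0, ?_⟩
  · have h2 := gram_det (av i0) 1 fun s => ρ (g s)
    rw [hD, map_zero, eq_comm, sq_eq_zero_iff, AbsoluteValue.eq_zero,
      ← exists_vecMul_eq_zero_iff] at h2
    obtain ⟨c, hc0, hc1⟩ := h2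
    refine hc0 (funext (Fintype.linearIndependent_iff.1 li' c ?_))
    ext p q
    have h3 := congrFun hc1 (p, q)
    simp only [vecMul, dotProduct, Matrix.of_apply, inv_one, one_mul, mul_one, Pi.zero_apply] at h3
    simp only [Matrix.sum_apply, Matrix.smul_apply, smul_eq_mul, Function.comp_apply, ← hgv,
      Matrix.zero_apply]
    exact h3
  · rw [det_apply']
    refine A.sum_mem fun σ _ => A.mul_mem (intCast_mem A _) (A.prod_mem fun s _ => ?_)
    rw [Matrix.of_apply, ← Units.val_mul, ← map_mul]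
    exact A.sum_mem fun p _ => hA _ p p
  · have := Un_gram (ha i) (f i) (fun s => ρ (g s)) (β i) _ 0 fun s t => by
      rw [Pi.zero_apply, sub_zero]
      exact hbd (fun h hh => hb h hh i) s t.1 t.2
    simpa only [Pi.zero_apply, Finset.sum_const_zero, sub_zero] using this
  · refine (Un_gram (ha i0) (f i0) (fun s => ρ (g s)) (β i0) ((n * n : ℕ) * r)
      (Pi.single (p0, q0) L) fun s t => ?_).trans (exp_le_exp.2 ?_)
    · by_cases ht : t = (p0, q0)
      · rw [ht, Pi.single_eq_same]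
        exact (hbd hb' s p0 q0).trans (exp_le_exp.2 (by linarith))
      · rw [Pi.single_eq_of_ne ht, sub_zero]
        exact hbd (fun h hh => hb h hh i0) s t.1 t.2
    · rw [Finset.sum_pi_single', if_pos (Finset.mem_univ _)]
      linarith

end Pool.Agent.Work.MP_9d1ffa_al.GN
end

-- merged part: Pool.Agent.Work.MP_9d1ffa_al.GN.Cl
section
/-! Clusters for an invariant relation, and invariant colourings. -/

namespace Pool.Agent.Work.MP_9d1ffa_al.GN

variable {G B : Type} [Group G] [MulAction G B]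

/-- Sets of boxes. -/
def UC (B : Type) : Type := Set B

instance : Membership B (UC B) := inferInstanceAs (Membership B (Set B))

instance : MulAction G (UC B) where
  smul g U := {β : B | g⁻¹ • β ∈ U}
  one_smul U := by
    refine Set.ext fun β => ?_
    change (1 : G)⁻¹ • β ∈ U ↔ β ∈ U
    simp only [inv_one, one_smul]
  mul_smul g h U := by
    refine Set.ext fun β => ?_
    change (g * h)⁻¹ • β ∈ U ↔ h⁻¹ • g⁻¹ • β ∈ U
    simp only [mul_inv_rev, mul_smul]

theorem mem_smul_uc (g : G) (U : UC B) (β : B) : β ∈ g • U ↔ g⁻¹ • β ∈ U := Iff.rfl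

theorem uc_ext {U U' : UC B} (h : ∀ β, β ∈ U ↔ β ∈ U') : U = U' := Set.ext h

/-- The cluster of a box. -/
def uc (R : B → B → Prop) (β : B) : UC B := {β' : B | Relation.EqvGen R β β'}

theorem mem_uc (R : B → B → Prop) (β β' : B) : β' ∈ uc R β ↔ Relation.EqvGen R β β' := Iff.rfl

theorem Cl_eqv {R : B → B → Prop} (hR : ∀ (g : G) β β', R β β' → R (g • β) (g • β')) {β β' : B}
    (h : Relation.EqvGen R β β') (g : G) : Relation.EqvGen R (g • β) (g • β') := by
  induction h with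
  | rel x y h => exact .rel _ _ (hR g _ _ h)
  | refl x => exact .refl _
  | symm x y _ ih => exact .symm _ _ ih
  | trans x y z _ _ ih1 ih2 => exact .trans _ _ _ ih1 ih2

theorem uc_smul {R : B → B → Prop} (hR : ∀ (g : G) β β', R β β' → R (g • β) (g • β')) (β : B)
    (g : G) : uc R (g • β) = g • uc R β := by
  refine uc_ext fun β' => ?_
  rw [mem_smul_uc, mem_uc, mem_uc]
  constructor
  · intro h
    have h1 := Cl_eqv hR h g⁻¹
    rwa [inv_smul_smul] at h1
  · intro h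
    have h1 := Cl_eqv hR h g
    rwa [smul_inv_smul] at h1

theorem uc_eq {R : B → B → Prop} {β β' : B} (h : R β β') : uc R β = uc R β' := by
  refine uc_ext fun β'' => ?_
  rw [mem_uc, mem_uc]
  exact ⟨fun h1 => .trans _ _ _ (.symm _ _ (.rel _ _ h)) h1, fun h1 => .trans _ _ _ (.rel _ _ h) h1⟩

theorem Cl_key {R : B → B → Prop} (hR : ∀ (g : G) β β', R β β' → R (g • β) (g • β'))
    (ho : ∀ β β', R β β' → ∃ g : G, β' = g • β) {β : B} (hβ : R β β) {β1 β2 : B}
    (h : Relation.EqvGen R β1 β2) :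
    ((∃ g : G, β1 = g • β) ↔ ∃ g : G, β2 = g • β) ∧ ∀ g1 g2 : G, β1 = g1 • β → β2 = g2 • β →
      g1⁻¹ * g2 ∈ Subgroup.closure {h : G | R β (h • β)} := by
  induction h with
  | rel x y h =>
    refine ⟨?_, fun g1 g2 h1 h2 => Subgroup.subset_closure ?_⟩
    · obtain ⟨k, hk⟩ := ho _ _ h
      constructor
      · rintro ⟨g, rfl⟩
        exact ⟨k * g, by rw [hk, mul_smul]⟩
      · rintro ⟨g, hg⟩
        exact ⟨k⁻¹ * g, by rw [mul_smul, ← hg, hk, inv_smul_smul]⟩
    · have h3 := hR g1⁻¹ _ _ h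
      rw [h1, h2, inv_smul_smul, ← mul_smul] at h3
      exact h3
  | refl x =>
    refine ⟨Iff.rfl, fun g1 g2 h1 h2 => Subgroup.subset_closure ?_⟩
    change R β ((g1⁻¹ * g2) • β)
    rw [mul_smul, ← h2, h1, inv_smul_smul]
    exact hβ
  | symm x y _ ih =>
    refine ⟨ih.1.symm, fun g1 g2 h1 h2 => ?_⟩
    have h3 := Subgroup.inv_mem _ (ih.2 g2 g1 h2 h1)
    rwa [mul_inv_rev, inv_inv] at h3
  | trans x y z _ _ ih1 ih2 =>
    refine ⟨ih1.1.trans ih2.1, fun g1 g2 h1 h2 => ?_⟩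
    obtain ⟨g, hg⟩ := ih1.1.1 ⟨g1, h1⟩
    have h3 := Subgroup.mul_mem _ (ih1.2 g1 g h1 hg) (ih2.2 g g2 hg h2)
    rwa [mul_assoc, mul_inv_cancel_left] at h3

theorem stab_uc_le {R : B → B → Prop} (hR : ∀ (g : G) β β', R β β' → R (g • β) (g • β'))
    (ho : ∀ β β', R β β' → ∃ g : G, β' = g • β) {β : B} (hβ : R β β) :
    MulAction.stabilizer G (uc R β) ≤ Subgroup.closure {h : G | R β (h • β)} := by
  intro g hg
  have h1 : g • β ∈ uc R (g • β) := (mem_uc _ _ _).2 (.refl _)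
  rw [uc_smul hR, MulAction.mem_stabilizer_iff.1 hg, mem_uc] at h1
  have h2 := (Cl_key hR ho hβ h1).2 1 g (one_smul _ _).symm rfl
  rwa [inv_one, one_mul] at h2

/-- An invariant colouring that separates the orbits of finitely many boxes. -/
theorem exists_c0 (G : Type) [Group G] [MulAction G B] {E : Set B} (hE : E.Finite) {c : ℕ}
    (hc : E.ncard ≤ c) (h0 : 0 < c) :
    ∃ c0 : B → ℕ, (∀ β, c0 β < c) ∧ (∀ (g : G) β, c0 (g • β) = c0 β) ∧
      ∀ β ∈ E, ∀ β' ∈ E, c0 β = c0 β' → ∃ g : G, β' = g • β := by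
  have := hE.fintype
  have hb : Fintype.card E ≤ c := by rwa [← Nat.card_eq_fintype_card, Nat.card_coe_set_eq]
  let S : B → Set ℕ := fun β => {n | ∃ j, (Fintype.equivFin E j : ℕ) = n ∧ ∃ g : G, β = g • j.1}
  have hS : ∀ j : E, sInf (S j) ∈ S j := fun j =>
    Nat.sInf_mem ⟨_, j, rfl, 1, (one_smul _ _).symm⟩
  refine ⟨fun β => sInf (S β), fun β => ?_, fun g β => congrArg sInf ?_, fun j hj j' hj' h => ?_⟩
  · rcases (S β).eq_empty_or_nonempty with h | h
    · simp only [h, Nat.sInf_empty]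
      exact h0
    · obtain ⟨j, hj, -⟩ := Nat.sInf_mem h
      exact hj.symm.trans_lt ((Fin.is_lt _).trans_le hb)
  · refine Set.ext fun n => exists_congr fun j => and_congr_right fun _ => ⟨?_, ?_⟩
    · rintro ⟨g', h⟩
      exact ⟨g⁻¹ * g', by rw [mul_smul, ← h, inv_smul_smul]⟩
    · rintro ⟨g', h⟩
      exact ⟨g * g', by rw [mul_smul, ← h]⟩
  · obtain ⟨k, hk, g, hg⟩ := hS ⟨j, hj⟩
    obtain ⟨k', hk', g', hg'⟩ := hS ⟨j', hj'⟩
    obtain rfl : k = k' := (Fintype.equivFin E).injective (Fin.ext (hk.trans (h.trans hk'.symm)))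
    refine ⟨g' * g⁻¹, ?_⟩
    change j = _ at hg
    change j' = _ at hg'
    rw [mul_smul, hg, inv_smul_smul, ← hg']

end Pool.Agent.Work.MP_9d1ffa_al.GN
end
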