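import Pool.Agent.Work.MP_9d1ffa_al.GN.Cl
import Mathlib
import Pool.Agent.Work.MP_9d1ffa_al.GN.Defs

-- merged part: Pool.Agent.Work.MP_9d1ffa_al.GN.Key
section
/-! Comparison of frames: relative position, sectors, rounding. -/

namespace Pool.Agent.Work.MP_9d1ffa_al.GN

open Real Matrix
open G2 (Pl)

variable {K : Type} [Field K] {n : ℕ} {a : AbsoluteValue K ℝ}

/-- The spans of the columns `p ≤ j` of `f` (dimension `j + 1`) and `p ≥ j` of `f'` (dimension
`n - j`) meet in some `x ≠ 0` (`Submodule.finrank_sup_add_finrank_inf_eq`, or: the linear map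
`x ↦ ((f⁻¹ x) p for p > j, (f'⁻¹ x) p for p < j)` to a space of dimension `n - 1` has a kernel,
`LinearMap.ker_ne_bot_of_finrank_lt`). There `y x ≤ exp (α j) * g x` and
`exp (α' j) * g' x ≤ y' x`, `0 < g' x`. -/
theorem sa_lip {g y g' y' : V n K → ℝ} {f f' : GL (Fin n) K} {β α β' α' : Fin n → ℝ}
    (h : Fr a g y f β α) (h' : Fr a g' y' f' β' α') (hm : Monotone α) (hm' : Monotone α')
    {κ δ : ℝ} (hg : Le κ g g') (hy : Le δ y' y) (j : Fin n) : α' j ≤ α j + κ + δ := by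
  classical
  obtain ⟨x, hx, hM⟩ := (Matrix.exists_mulVec_eq_zero_iff (M := Matrix.of fun p q =>
      if j < p then (f⁻¹ : GL (Fin n) K).1 p q else if p < j then (f'⁻¹ : GL (Fin n) K).1 p q
      else 0)).2 (Matrix.det_eq_zero_of_row_eq_zero j fun q => by simp)
  have e1 : ∀ p, j < p → ((f⁻¹ : GL (Fin n) K).1 *ᵥ x) p = 0 := fun p hp => by
    have := congrFun hM p
    simpa only [mulVec, dotProduct, Matrix.of_apply, if_pos hp, Pi.zero_apply] using this
  have e2 : ∀ p, p < j → ((f'⁻¹ : GL (Fin n) K).1 *ᵥ x) p = 0 := fun p hp => by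
    have := congrFun hM p
    simpa only [mulVec, dotProduct, Matrix.of_apply, if_pos hp, if_neg hp.not_gt,
      Pi.zero_apply] using this
  have p0 : 0 < g' x := h'.hg ▸ dg_pos _ _ hx
  have i1 : y x ≤ exp (α j) * g x := by
    rw [h.hy, h.hg]
    refine dg_le (mul_nonneg (exp_pos _).le (dg_nonneg _ _ _)) fun p => ?_
    rcases lt_or_ge j p with hp | hp
    · rw [e1 p hp, map_zero, zero_mul]
      exact mul_nonneg (exp_pos _).le (dg_nonneg _ _ _)
    · refine le_trans ?_ (mul_le_mul_of_nonneg_left (le_dg f (β - α) x p) (exp_pos _).le)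
      rw [mul_left_comm, ← exp_add]
      refine mul_le_mul_of_nonneg_left (exp_le_exp.2 ?_) (a.nonneg _)
      have := hm hp
      rw [Pi.sub_apply]
      linarith
  have i2 : g' x ≤ exp (-α' j) * y' x := by
    rw [h'.hy, h'.hg]
    refine dg_le (mul_nonneg (exp_pos _).le (dg_nonneg _ _ _)) fun p => ?_
    rcases lt_or_ge p j with hp | hp
    · rw [e2 p hp, map_zero, zero_mul]
      exact mul_nonneg (exp_pos _).le (dg_nonneg _ _ _)
    · refine le_trans ?_ (mul_le_mul_of_nonneg_left (le_dg f' β' x p) (exp_pos _).le)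
      rw [mul_left_comm, ← exp_add]
      refine mul_le_mul_of_nonneg_left (exp_le_exp.2 ?_) (a.nonneg _)
      have := hm' hp
      rw [Pi.sub_apply]
      linarith
  have i3 : 1 * g' x ≤ exp (-α' j + (δ + (α j + κ))) * g' x := by
    rw [one_mul, exp_add, exp_add, exp_add, mul_assoc, mul_assoc, mul_assoc]
    exact i2.trans (mul_le_mul_of_nonneg_left ((hy x).trans (mul_le_mul_of_nonneg_left
      (i1.trans (mul_le_mul_of_nonneg_left (hg x) (exp_pos _).le)) (exp_pos _).le)) (exp_pos _).le)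
  have i4 := one_le_exp_iff.1 (le_of_mul_le_mul_right i3 p0)
  linarith

/-- Lemma (KEY0): evaluate at `cl f' q` (`IsSn.le_dg`, `dg_le`, `le_dg` for `y` and for `g`). -/
theorem key0 (ha : Pl a) {g y g' y' : V n K → ℝ} {f f' : GL (Fin n) K} {β α β' α' : Fin n → ℝ}
    (h : Fr a g y f β α) (h' : Fr a g' y' f' β' α') {κ δ δ' : ℝ} (hg : Le κ g g') (hy : Le δ y y')
    {x x' : Fin n → ℝ} (hx : ∀ p q, min δ (κ + α p - α' q) + x p - x' q ≤ δ') :
    Le δ' (dg a f fun j => β j + x j) (dg a f' fun j => β' j + x' j) := by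
  refine (dg_isSn ha f _).le_dg fun q => dg_le (exp_pos _).le fun p => ?_
  have i1 := (le_dg (a := a) f β (cl f' q) p).trans (h.hy ▸ hy (cl f' q))
  have i2 := (le_dg (a := a) f (β - α) (cl f' q) p).trans (h.hg ▸ hg (cl f' q))
  rw [h'.hy, dg_cl, ← exp_add] at i1
  rw [h'.hg, dg_cl, ← exp_add, Pi.sub_apply, Pi.sub_apply] at i2
  have i3 := hx p q
  generalize a (((f⁻¹ : GL (Fin n) K).1 *ᵥ cl f' q) p) = t at i1 i2 ⊢
  rcases le_total δ (κ + α p - α' q) with e | e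
  · rw [min_eq_left e] at i3
    rw [exp_add (β p), ← mul_assoc]
    refine (mul_le_mul_of_nonneg_right i1 (exp_pos _).le).trans ?_
    rw [← exp_add]
    exact exp_le_exp.2 (by linarith)
  · rw [min_eq_right e] at i3
    rw [show β p + x p = β p - α p + (α p + x p) by ring, exp_add (β p - α p), ← mul_assoc]
    refine (mul_le_mul_of_nonneg_right i2 (exp_pos _).le).trans ?_
    rw [← exp_add]
    exact exp_le_exp.2 (by linarith)

/-- Lemma (KEY'): cases `α' q ≤ α p`, `α' q - α p ≤ 2 κ`, `2 κ ≤ α' q - α p`. -/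
theorem key1 (ha : Pl a) {g y g' y' : V n K → ℝ} {f f' : GL (Fin n) K} {β α β' α' : Fin n → ℝ}
    (h : Fr a g y f β α) (h' : Fr a g' y' f' β' α') {κ δ Λ : ℝ} (hκ : 0 ≤ κ) (hδ : 0 ≤ δ)
    (hΛ : 0 ≤ Λ) (hΛ' : Λ ≤ 1 / 2) (hg : Le κ g g') (hy : Le δ y y') {χ : ℝ → ℝ}
    (hχ : Antitone χ) (hl : ∀ s t, |χ s - χ t| ≤ Λ * |s - t|) :
    Le (δ + 2 * Λ * κ) (dg a f fun j => β j + χ (α j)) (dg a f' fun j => β' j + χ (α' j)) := by
  refine key0 ha h h' hg hy fun p q => ?_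
  have m1 := min_le_left δ (κ + α p - α' q)
  have m2 := min_le_right δ (κ + α p - α' q)
  have m3 := mul_nonneg hΛ hκ
  rcases le_total (α' q) (α p) with e | e
  · have := hχ e
    linarith
  · have m4 := (le_abs_self _).trans (hl (α p) (α' q))
    rw [abs_sub_comm, abs_of_nonneg (sub_nonneg.2 e)] at m4
    rcases le_total (α' q - α p) (2 * κ) with e' | e'
    · have := mul_le_mul_of_nonneg_left e' hΛ
      linarith
    · have := mul_le_mul_of_nonneg_right hΛ' (sub_nonneg.2 e)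
      linarith

theorem dZ_nonneg (s : ℝ) : 0 ≤ dZ s := by
  exact abs_nonneg _

theorem dZ_add_int (s : ℝ) (z : ℤ) : dZ (s + z) = dZ s := by
  rw [dZ, dZ, round_add_intCast, Int.cast_add, add_sub_add_right_eq_sub]

theorem dZ_le (s : ℝ) (z : ℤ) : dZ s ≤ |s - z| := by
  exact round_le s z

theorem dZ_lip (s t : ℝ) : dZ s ≤ dZ t + |s - t| := by
  refine (dZ_le s (round t)).trans ?_
  rw [dZ, add_comm]
  exact abs_sub_le _ _ _

theorem ceil_eq_of_dZ {s t : ℝ} (h : |s - t| < dZ s) : ⌈s⌉ = ⌈t⌉ := by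
  have h1 := Int.le_ceil t
  have h2 := Int.ceil_lt_add_one t
  have h3 := dZ_le s ⌈t⌉
  have h4 := dZ_le s (⌈t⌉ - 1)
  have h5 := abs_lt.1 h
  rw [Int.ceil_eq_iff]
  push_cast at h4
  constructor
  · by_contra e
    rw [abs_of_nonpos (by linarith [not_lt.1 e])] at h4
    linarith [h5.1]
  · by_contra e
    rw [abs_of_nonneg (by linarith [not_le.1 e])] at h3
    linarith [h5.2]

/-- Among the `n + 1` candidates `u = e / (n + 1)`, `e ≤ n`, every `j` excludes at most one. -/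
theorem exists_shift (β : Fin n → ℝ) :
    ∃ u : ℝ, 0 ≤ u ∧ u ≤ 1 ∧ ∀ j, 1 ≤ 2 * (n + 1) * dZ (β j + u) := by
  by_contra hc
  push Not at hc
  have n0 : (0 : ℝ) < n + 1 := by positivity
  choose J hJ using fun e : Fin (n + 1) => hc (((e : ℕ) : ℝ) / (n + 1)) (by positivity)
    ((div_le_one n0).2 (by exact_mod_cast e.2.le))
  obtain ⟨e, e', hne, he⟩ := Fintype.exists_ne_map_eq_of_card_lt J (by simp)
  have h1 := hJ e
  have h2 := hJ e'
  rw [← he] at h2
  unfold dZ at h1 h2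
  generalize round (β (J e) + ((e : ℕ) : ℝ) / (n + 1)) = z at h1
  generalize round (β (J e) + ((e' : ℕ) : ℝ) / (n + 1)) = z' at h2
  have k : ∀ (u : ℝ) (w : ℤ), 2 * ((n : ℝ) + 1) * |β (J e) + u / (n + 1) - w| < 1 →
      |(n + 1) * β (J e) + u - (n + 1) * w| < 1 / 2 := fun u w hu => by
    have : (n + 1) * β (J e) + u - (n + 1) * w = (n + 1) * (β (J e) + u / (n + 1) - w) := by
      field_simp
    rw [this, abs_mul, abs_of_pos n0]
    linarith
  have h3 := abs_lt.1 (k _ _ h1)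
  have h4 := abs_lt.1 (k _ _ h2)
  have h5 : ((e : ℕ) : ℤ) - (e' : ℕ) - (n + 1) * (z - z') < 1 := by
    have : ((e : ℕ) : ℝ) - (e' : ℕ) - (n + 1) * (z - z') < 1 := by linarith [h3.2, h4.1]
    exact_mod_cast this
  have h6 : -1 < ((e : ℕ) : ℤ) - (e' : ℕ) - (n + 1) * (z - z') := by
    have : -1 < ((e : ℕ) : ℝ) - (e' : ℕ) - (n + 1) * (z - z') := by linarith [h3.1, h4.2]
    exact_mod_cast this
  have h7 := e.2
  have h8 := e'.2
  have h9 : (e : ℕ) ≠ e' := fun t => hne (Fin.ext t)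
  have n1 : (0 : ℤ) ≤ n + 1 := by positivity
  rcases lt_trichotomy (z - z') 0 with t | t | t
  · have := mul_le_mul_of_nonneg_left (show z - z' ≤ -1 by omega) n1
    omega
  · rw [t] at h5 h6
    omega
  · have := mul_le_mul_of_nonneg_left (show 1 ≤ z - z' by omega) n1
    omega

omit [Field K] in
private theorem Key_abs {c c' : V n K → ℝ} {δ s t : ℝ} (h : Nr δ c c') {x : V n K}
    (e : c x = exp s) (e' : c' x = exp t) : |s - t| ≤ δ := by
  have h1 := h.1 x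
  have h2 := h.2 x
  rw [e, e', ← exp_add, exp_le_exp] at h1 h2
  exact abs_le.2 ⟨by linarith, by linarith⟩

/-- The value of `dg a f β` at `cl f' j` is `exp (β p + z)` (`dg_val`), within `δ` of `β' j`. -/
theorem mar_le (ha : Pl a) {f f' : GL (Fin n) K} {β β' : Fin n → ℝ} {δ : ℝ}
    (h : Nr δ (dg a f β) (dg a f' β')) (Q : ℕ) (j : Fin n) :
    ∃ p, dZ (Q * β p) ≤ dZ (Q * β' j) + Q * δ := by
  obtain ⟨p, z, e⟩ := dg_val ha f β (cl_ne f' j)
  refine ⟨p, ?_⟩
  have h1 := Key_abs h e (dg_cl f' β' j)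
  rw [← dZ_add_int _ (Q * z)]
  refine (dZ_lip _ (Q * β' j)).trans (add_le_add le_rfl ?_)
  push_cast
  rw [← mul_add, ← mul_sub, abs_mul, Nat.abs_cast]
  exact mul_le_mul_of_nonneg_left h1 (Nat.cast_nonneg Q)

private theorem Key_round (ha : Pl a) {f : GL (Fin n) K} {β : Fin n → ℝ} {Q : ℕ} (hQ : 0 < Q)
    {x : V n K} (hx : x ≠ 0) {s : ℝ} (e : dg a f β x = exp s) :
    dg a f (fun j => (⌈Q * β j⌉ : ℝ) / Q) x = exp ((⌈Q * s⌉ : ℝ) / Q) := by
  have q0 : (0 : ℝ) < Q := Nat.cast_pos.2 hQ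
  have k : ∀ (z : ℤ) (b : ℝ), (z : ℝ) + (⌈Q * b⌉ : ℝ) / Q = (⌈Q * (z + b)⌉ : ℝ) / Q := fun z b => by
    rw [show (Q : ℝ) * (z + b) = Q * b + (Q * z : ℤ) by push_cast; ring, Int.ceil_add_intCast]
    push_cast
    field_simp
    ring
  refine le_antisymm (dg_le (exp_pos _).le fun p => ?_) ?_
  · by_cases h0 : ((f⁻¹ : GL (Fin n) K).1 *ᵥ x) p = 0
    · rw [h0, map_zero, zero_mul]
      exact (exp_pos _).le
    obtain ⟨z, hz⟩ := ha.val _ h0
    have h1 := le_dg (a := a) f β x p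
    rw [e, hz, ← exp_add, exp_le_exp] at h1
    rw [hz, ← exp_add, k, exp_le_exp]
    exact div_le_div_of_nonneg_right
      (Int.cast_le.2 (Int.ceil_mono (mul_le_mul_of_nonneg_left h1 q0.le))) q0.le
  · obtain ⟨p, h0, h1⟩ := dg_ex (a := a) f β hx
    obtain ⟨z, hz⟩ := ha.val _ h0
    rw [e, hz, ← exp_add, exp_eq_exp] at h1
    refine le_trans (le_of_eq ?_) (le_dg f _ x p)
    rw [hz, ← exp_add, k, h1]

/-- For `x ≠ 0` the rounded norm is `exp (⌈Q * log (dg a f β x)⌉ / Q)` (`dg_ex`, `Pl.val`,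
monotonicity of the ceiling, `Int.ceil_add_intCast`); then `dg_val` and `ceil_eq_of_dZ`. -/
theorem ceil_eq (ha : Pl a) {f f' : GL (Fin n) K} {β β' : Fin n → ℝ} {δ : ℝ}
    (h : Nr δ (dg a f β) (dg a f' β')) {Q : ℕ} (hQ : 0 < Q) (hm : ∀ j, Q * δ < dZ (Q * β j)) :
    (dg a f fun j => (⌈Q * β j⌉ : ℝ) / Q) = dg a f' fun j => (⌈Q * β' j⌉ : ℝ) / Q := by
  funext x
  by_cases hx : x = 0
  · rw [hx, (dg_isSn ha _ _).zero, (dg_isSn ha _ _).zero]
  obtain ⟨p, z, e⟩ := dg_val ha f β hx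
  obtain ⟨p', z', e'⟩ := dg_val ha f' β' hx
  rw [Key_round ha hQ hx e, Key_round ha hQ hx e', ceil_eq_of_dZ (t := Q * (β' p' + z'))]
  have h1 := Key_abs h e e'
  have h2 : (Q : ℝ) * (β p + z) = Q * β p + (Q * z : ℤ) := by
    push_cast
    ring
  refine lt_of_le_of_lt ?_ ((hm p).trans_eq (by rw [h2, dZ_add_int]))
  rw [← mul_sub, abs_mul, Nat.abs_cast]
  exact mul_le_mul_of_nonneg_left h1 (Nat.cast_nonneg Q)

end Pool.Agent.Work.MP_9d1ffa_al.GN
end

-- merged part: Pool.Agent.Work.MP_9d1ffa_al.G2.MkA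
section
/-! Local marker sets on `ℤ ^ I` by colour reduction. -/

namespace Pool.Agent.Work.MP_9d1ffa_al.G2

variable {I : Type} [Fintype I]

/-- Sup distance at most `r`. -/
def nb (r : ℕ) (s t : I → ℤ) : Prop := ∀ i, |s i - t i| ≤ r

/-- Number of colours after two rounds of colour reduction in every direction. -/
def KK (b q m : ℕ) : ℕ := (2 * (Nat.log 2 (2 * b) + 1) + 1) ^ ((2 * q + 1) ^ m)

omit [Fintype I] in
theorem MkA_refl (r : ℕ) (s : I → ℤ) : nb r s s := fun i => by simp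

omit [Fintype I] in
theorem MkA_symm {r : ℕ} {s t : I → ℤ} (h : nb r s t) : nb r t s := fun i => by
  rw [abs_sub_comm]; exact h i

omit [Fintype I] in
theorem MkA_trans {r r' r'' : ℕ} {s t u : I → ℤ} (h : nb r s t) (h' : nb r' t u)
    (e : r + r' ≤ r'') : nb r'' s u := fun i => by
  have := abs_sub_le (s i) (t i) (u i)
  have h1 := h i
  have h2 := h' i
  have : ((r + r' : ℕ) : ℤ) ≤ r'' := by exact_mod_cast e
  push_cast at this
  linarith

omit [Fintype I] in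
theorem MkA_shift {r : ℕ} {s t : I → ℤ} (δ : I → ℤ) : nb r (s + δ) (t + δ) ↔ nb r s t := by
  simp [nb]

/-- The stages of the greedy selection. -/
def MkA_M (q : ℕ) (col : (I → ℤ) → ℕ) : ℕ → Set (I → ℤ)
  | 0 => ∅
  | j + 1 => MkA_M q col j ∪ {s | col s = j ∧ ∀ t ∈ MkA_M q col j, ¬ nb q s t}

omit [Fintype I] in
theorem MkA_same (q : ℕ) (col : (I → ℤ) → ℕ) (j : ℕ) :
    ∀ s ∈ MkA_M q col j, ∀ t ∈ MkA_M q col j, nb q s t → col s = col t := by
  induction j with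
  | zero => intro s hs; cases hs
  | succ j ih =>
    rintro s (hs | hs) t (ht | ht) h
    · exact ih s hs t ht h
    · exact absurd (MkA_symm h) (ht.2 s hs)
    · exact absurd h (hs.2 t ht)
    · exact hs.1.trans ht.1.symm

omit [Fintype I] in
theorem MkA_loc (q : ℕ) (col col' : (I → ℤ) → ℕ) (δ : I → ℤ) (j : ℕ) :
    ∀ t, (∀ s, nb (j * q) s t → col' (s + δ) = col s) →
      (t ∈ MkA_M q col j ↔ t + δ ∈ MkA_M q col' j) := by
  induction j with
  | zero => intro t _; exact Iff.rfl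
  | succ j ih =>
    intro t h
    have h1 : ∀ u, nb q t u → (u ∈ MkA_M q col j ↔ u + δ ∈ MkA_M q col' j) := fun u hu =>
      ih u fun s hs => h s (MkA_trans hs (MkA_symm hu) (by rw [add_mul, one_mul]))
    refine or_congr (h1 t (MkA_refl _ _)) (and_congr ?_ ⟨fun H u hu hn => ?_, fun H u hu hn => ?_⟩)
    · rw [h t (MkA_refl _ _)]
    · obtain ⟨u, rfl⟩ : ∃ v, u = v + δ := ⟨u - δ, by simp⟩
      rw [MkA_shift] at hn
      exact H u ((h1 u hn).2 hu) hn
    · exact H (u + δ) ((h1 u hn).1 hu) ((MkA_shift δ).2 hn)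

/-- One round: `cv x y = 0` if `x = y`, otherwise `2 * i + 1 + (bit i of x)` with `i` the least
position where `x.testBit i ≠ y.testBit i` (`Nat.eq_of_testBit_eq`, `Nat.testBit_lt_two_pow`). -/
theorem exists_cv : ∃ cv : ℕ → ℕ → ℕ, (∀ x y z, x ≠ y → cv x y ≠ cv y z) ∧
    ∀ b x y, x < 2 ^ b → y < 2 ^ b → cv x y ≤ 2 * b := by
  classical
  have ex : ∀ {x y : ℕ}, x ≠ y → ∃ i, x.testBit i ≠ y.testBit i := fun h => by
    by_contra H
    push Not at H
    exact h (Nat.eq_of_testBit_eq H)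
  refine ⟨fun x y => if h : x = y then 0 else
    2 * Nat.find (ex h) + 1 + (x.testBit (Nat.find (ex h))).toNat, fun x y z h => ?_,
    fun b x y hx hy => ?_⟩
  · simp only [dif_neg h]
    split_ifs with h'
    · omega
    · intro e
      have h1 := Nat.find_spec (ex h)
      have h2 := Bool.toNat_le (x.testBit (Nat.find (ex h)))
      have h3 := Bool.toNat_le (y.testBit (Nat.find (ex h')))
      have e1 : Nat.find (ex h') = Nat.find (ex h) := by omega
      rw [e1] at e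
      revert h1 e
      cases x.testBit (Nat.find (ex h)) <;> cases y.testBit (Nat.find (ex h)) <;> simp
  · simp only
    split_ifs with h
    · omega
    · have h1 := Nat.find_spec (ex h)
      have h2 := Bool.toNat_le (x.testBit (Nat.find (ex h)))
      have : Nat.find (ex h) < b := by
        by_contra H
        have H' := Nat.pow_le_pow_right two_pos (not_lt.1 H)
        exact h1 (by rw [Nat.testBit_lt_two_pow (hx.trans_le H'),
          Nat.testBit_lt_two_pow (hy.trans_le H')])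
      omega

/-- For a direction `ζ` put `c1 t = cv (c t) (c (t + ζ))`, `c2 t = cv (c1 t) (c1 (t + ζ))`; if
`c < 2 ^ b` then `c1 ≤ 2 b < 2 ^ (log 2 (2 b) + 1)` (`Nat.lt_pow_succ_log_self`), so
`c2 < B = 2 * (log 2 (2 b) + 1) + 1`. The colour of `t` is the vector of the `c2 t % B` over the
directions `ζ ∈ Fintype.piFinset fun _ => Finset.Icc (-q) q`, encoded by `Fintype.equivFin`
(or `Fintype.equivFinOfCardEq`). If `c s ≠ c t` take `ζ = t - s`. -/
theorem exists_col (I : Type) [Fintype I] (b q : ℕ) :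
    ∃ col : ((I → ℤ) → ℕ) → (I → ℤ) → ℕ, (∀ c t, col c t < KK b q (Fintype.card I)) ∧
      (∀ c, (∀ t, c t < 2 ^ b) → ∀ s t, nb q s t → col c s = col c t → c s = c t) ∧
      ∀ c c' t δ, (∀ s, nb (2 * q) s t → c' (s + δ) = c s) → col c' (t + δ) = col c t := by
  classical
  obtain ⟨cv, h1, h2⟩ := exists_cv
  let D : Finset (I → ℤ) := Fintype.piFinset fun _ => Finset.Icc (-(q : ℤ)) q
  have hD : ∀ ζ, ζ ∈ D ↔ ∀ i, |ζ i| ≤ q := fun ζ => by simp [D, abs_le]
  have hc : Fintype.card (D → Fin (2 * (Nat.log 2 (2 * b) + 1) + 1)) = KK b q (Fintype.card I) := by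
    have : ((q : ℤ) + 1 + q).toNat = 2 * q + 1 := by omega
    simp [D, KK, this]
  let F : ((I → ℤ) → ℕ) → (I → ℤ) → D → Fin (2 * (Nat.log 2 (2 * b) + 1) + 1) := fun c t ζ =>
    ⟨cv (cv (c t) (c (t + ζ))) (cv (c (t + ζ)) (c (t + ζ + ζ))) % _, Nat.mod_lt _ (by omega)⟩
  refine ⟨fun c t => Fintype.equivFinOfCardEq hc (F c t), fun c t => Fin.is_lt _,
    fun c hb s t hn e => ?_, fun c c' t δ h => ?_⟩
  · by_contra H
    have e1 := congrArg Fin.val (congrFun ((Fintype.equivFinOfCardEq hc).injective (Fin.ext e))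
      ⟨t - s, (hD _).2 (MkA_symm hn)⟩)
    have l : ∀ x y, cv (c x) (c y) < 2 ^ (Nat.log 2 (2 * b) + 1) := fun x y =>
      (h2 b _ _ (hb x) (hb y)).trans_lt (Nat.lt_pow_succ_log_self one_lt_two _)
    simp only [F, add_sub_cancel] at e1
    rw [Nat.mod_eq_of_lt (Nat.lt_succ_of_le (h2 _ _ _ (l _ _) (l _ _))),
      Nat.mod_eq_of_lt (Nat.lt_succ_of_le (h2 _ _ _ (l _ _) (l _ _)))] at e1
    exact h1 _ _ _ (h1 _ _ _ H) e1
  · refine congrArg (fun x => (Fintype.equivFinOfCardEq hc x : ℕ)) (funext fun ζ => Fin.ext ?_)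
    have n1 : ∀ u : I → ℤ, nb q (u + ζ.1) u := fun u i => by simpa using (hD _).1 ζ.2 i
    simp only [F]
    rw [add_right_comm t δ, add_right_comm (t + ζ) δ, h t (MkA_refl _ _),
      h _ (MkA_trans (n1 t) (MkA_refl q t) (by omega)),
      h _ (MkA_trans (n1 _) (n1 t) (by omega))]

/-- Greedy selection: `M 0 = ∅`, `M (j + 1) = M j ∪ {s | col s = j ∧ ∀ t ∈ M j, ¬ nb q s t}`,
and the result is `M n`. Invariants: elements of `M j` have colour `< j`; two elements of `M j`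
within `q` have the same colour; membership of `s` in `M j` depends only on `col` within `j * q`. -/
theorem exists_greedy (I : Type) [Fintype I] (n q : ℕ) :
    ∃ M : ((I → ℤ) → ℕ) → Set (I → ℤ), (∀ col t, col t < n → ∃ s ∈ M col, nb q s t) ∧
      (∀ col, ∀ s ∈ M col, ∀ t ∈ M col, nb q s t → col s = col t) ∧
      ∀ col col' t δ, (∀ s, nb (n * q) s t → col' (s + δ) = col s) → t ∈ M col →
        t + δ ∈ M col' := by
  refine ⟨fun col => MkA_M q col n, fun col t ht => ?_, fun col => MkA_same q col n,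
    fun col col' t δ h => (MkA_loc q col col' δ n t h).1⟩
  have hm : Monotone (MkA_M q col) := monotone_nat_of_le_succ fun _ => Set.subset_union_left
  by_cases H : ∀ u ∈ MkA_M q col (col t), ¬ nb q t u
  · exact ⟨t, hm ht (Or.inr ⟨rfl, H⟩), MkA_refl _ _⟩
  · push Not at H
    obtain ⟨u, hu, hn⟩ := H
    exact ⟨u, hm ht.le hu, MkA_symm hn⟩

theorem exists_mark (I : Type) [Fintype I] (b q : ℕ) :
    ∃ M : ((I → ℤ) → ℕ) → Set (I → ℤ), (∀ c t, ∃ s ∈ M c, nb q s t) ∧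
      (∀ c, (∀ t, c t < 2 ^ b) → ∀ s ∈ M c, ∀ t ∈ M c, nb q s t → c s = c t) ∧
      ∀ c c' t δ, (∀ s, nb ((KK b q (Fintype.card I) + 2) * q) s t → c' (s + δ) = c s) →
        t ∈ M c → t + δ ∈ M c' := by
  obtain ⟨col, a1, a2, a3⟩ := exists_col I b q
  obtain ⟨M, b1, b2, b3⟩ := exists_greedy I (KK b q (Fintype.card I)) q
  exact ⟨fun c => M (col c), fun c t => b1 _ t (a1 c t),
    fun c hc s hs t ht h => a2 c hc s t h (b2 _ s hs t ht h),
    fun c c' t δ h => b3 _ _ t δ fun s hs => a3 c c' s δ fun u hu =>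
      h u (MkA_trans hu hs (by rw [add_mul, add_comm]))⟩

end Pool.Agent.Work.MP_9d1ffa_al.G2
end

-- merged part: Pool.Agent.Work.MP_9d1ffa_al.GN.Fd
section
/-! Boxes, frames and the weights: definitions. -/

namespace Pool.Agent.Work.MP_9d1ffa_al.GN

open Real Matrix
open G2 (nb)

variable {K : Type} [Field K] {n : ℕ} {ι : Type} {G : Type} [Group G]

/-- Boxes: two functions at every place; `G` acts through `ρ`. -/
def Bx (ι : Type) (_ρ : G →* GL (Fin n) K) : Type := ι → (V n K → ℝ) × (V n K → ℝ)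

instance (ρ : G →* GL (Fin n) K) : MulAction G (Bx ι ρ) where
  smul g e := fun i => (act (ρ g) (e i).1, act (ρ g) (e i).2)
  one_smul e := funext fun i => by
    change (act (ρ 1) (e i).1, act (ρ 1) (e i).2) = e i
    rw [map_one, act_one, act_one]
  mul_smul g h e := funext fun i => by
    change (act (ρ (g * h)) (e i).1, act (ρ (g * h)) (e i).2) =
      (act (ρ g) (act (ρ h) (e i).1), act (ρ g) (act (ρ h) (e i).2))
    rw [map_mul, act_mul, act_mul]

theorem Bx.smul_apply {ρ : G →* GL (Fin n) K} (g : G) (e : Bx ι ρ) (i : ι) :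
    (g • e) i = (act (ρ g) (e i).1, act (ρ g) (e i).2) := rfl

/-- Proportional functions. -/
def Sc (α α' : V n K → ℝ) : Prop := ∃ c : ℝ, α' = fun x => exp c * α x

/-- Close boxes in one orbit; boxes without a gap are related to themselves only. -/
def BR (ρ : G →* GL (Fin n) K) (r : ℝ) (e e' : Bx ι ρ) : Prop :=
  (∃ g : G, e' = g • e) ∧ (∀ i, Nr r (e i).1 (e' i).1 ∧ Nr r (e i).2 (e' i).2) ∧
    ((∀ i, Sc (e i).1 (e i).2) → e' = e)

/-- Explicit boxes. -/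
noncomputable def bxe (av : ι → AbsoluteValue K ℝ) (ρ : G →* GL (Fin n) K) (L : ℕ)
    (f : ι → GL (Fin n) K) (γ : ι → Fin n → ℤ) (b : ι → Fin n → Fin n) : Bx ι ρ :=
  fun i => (dg (av i) (f i) fun j => (γ i j : ℝ),
    dg (av i) (f i) fun j => (γ i j : ℝ) - L * ((b i j : ℕ) : ℝ))

/-- The finite list of boxes. -/
def Lst (av : ι → AbsoluteValue K ℝ) (ρ : G →* GL (Fin n) K) (L : ℕ) (Φ : Finset (V n K)) (R : ℕ) :
    Set (Bx ι ρ) :=
  {e | ∃ f γ b, (∀ i j, cl (f i) j ∈ Φ) ∧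
    (∀ i j, |(γ i j : ℝ) - log (g0 (av i) (cl (f i) j))| ≤ R) ∧ e = bxe av ρ L f γ b}

/-- Frame data at all places. -/
structure FD (ι : Type) (n : ℕ) (K : Type) [Field K] where
  f : ι → GL (Fin n) K
  β : ι → Fin n → ℝ
  α : ι → Fin n → ℝ

/-- Parameters of the weights. -/
structure Pm (ι : Type) (n : ℕ) (B : Type) where
  q : ℕ
  L : ℕ
  Γ : ℝ
  σ : ℝ
  M : ((ι × Fin n → ℤ) → ℕ) → Set (ι × Fin n → ℤ)
  c0 : B → ℕ

/-- The point with coordinates `t` of the flat given by the block map `b`. -/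
noncomputable def fl (av : ι → AbsoluteValue K ℝ) (d : FD ι n K) (b : ι → Fin n → Fin n)
    (t : ι × Fin n → ℝ) (i : ι) : V n K → ℝ :=
  dg (av i) (d.f i) fun j => d.β i j + t (i, b i j)

/-- The box at `t`. -/
noncomputable def box (av : ι → AbsoluteValue K ℝ) (ρ : G →* GL (Fin n) K) (L : ℕ) (d : FD ι n K)
    (b : ι → Fin n → Fin n) (t : ι × Fin n → ℝ) : Bx ι ρ :=
  bxe av ρ L d.f (fun i j => ⌈d.β i j + t (i, b i j)⌉) b

/-- The weight of a block map. -/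
noncomputable def wb (Γ : ℝ) (α : ι → Fin n → ℝ) (b : ι → Fin n → Fin n) : ℝ :=
  ⨅ o : Option (ι × Fin n × Fin n), o.elim 1 fun p =>
    min (if b p.1 p.2.1 < b p.1 p.2.2 then (α p.1 p.2.2 - α p.1 p.2.1) / Γ - 1 else 1)
      (2 * n - |α p.1 p.2.1 - α p.1 (b p.1 p.2.1)| / Γ)

/-- The margin for rounding. -/
noncomputable def mar (d : FD ι n K) (b : ι → Fin n → Fin n) (t : ι × Fin n → ℝ) : ℝ :=
  ⨅ o : Option (ι × Fin n), o.elim 1 fun p => 2 * (n + 1) * dZ (d.β p.1 p.2 + t (p.1, b p.1 p.2))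

/-- The centre of the window. -/
def ctr (σ : ℝ) : ι × Fin n → ℝ := fun p => -(σ * ((p.2 : ℕ) : ℝ))

variable [Fintype ι]

/-- The weight of a position. -/
noncomputable def wt {B : Type} (P : Pm ι n B) (d : FD ι n K) (b : ι → Fin n → Fin n)
    (t : ι × Fin n → ℝ) : ℝ :=
  min (wb P.Γ d.α b) (min (mar d b t) (1 - ‖t - ctr P.σ‖ / (2 * P.q)))

/-- The position `t` is marked and its box lies in the cluster `ω`. -/
def OK (av : ι → AbsoluteValue K ℝ) (ρ : G →* GL (Fin n) K) (P : Pm ι n (Bx ι ρ)) (d : FD ι n K)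
    (b : ι → Fin n → Fin n) (t : ι × Fin n → ℝ) (ω : UC (Bx ι ρ)) : Prop :=
  (0 ∈ P.M fun z => P.c0 (box av ρ P.L d b fun p => t p + z p)) ∧
    uc (BR ρ P.q) (box av ρ P.L d b t) = ω

open Classical in
/-- The weight of a cluster. -/
noncomputable def WW (av : ι → AbsoluteValue K ℝ) (ρ : G →* GL (Fin n) K) (P : Pm ι n (Bx ι ρ))
    (d : FD ι n K) (ω : UC (Bx ι ρ)) : ℝ :=
  ⨆ p : (ι → Fin n → Fin n) × (ι × Fin n → ℝ),
    if OK av ρ P d p.1 p.2 ω then max 0 (wt P d p.1 p.2) else 0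

/-- The properties of the marker sets. -/
structure IsMk {J : Type} (M : ((J → ℤ) → ℕ) → Set (J → ℤ)) (c q R : ℕ) : Prop where
  dense : ∀ u t, ∃ s ∈ M u, nb q s t
  sep : ∀ u, (∀ t, u t < c) → ∀ s ∈ M u, ∀ t ∈ M u, nb q s t → u s = u t
  loc : ∀ u u' t δ, (∀ s, nb R s t → u' (s + δ) = u s) → t ∈ M u → t + δ ∈ M u'

/-- The flats of `d`, moved by `g`, are close to the flats of `d'` near the centre. -/
def Cmp (av : ι → AbsoluteValue K ℝ) (Γ σ r k₁ k₂ δ : ℝ) (g : GL (Fin n) K) (d d' : FD ι n K) :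
    Prop :=
  (∀ i j, |d.α i j - d'.α i j| ≤ k₁) ∧ ∀ b, 0 < wb Γ d.α b → 0 < wb Γ d'.α b →
    ∃ s : ι × Fin n → ℝ, ‖s‖ ≤ k₂ ∧ ∀ t t', t = t' + s → ‖t - ctr σ‖ ≤ r → ‖t' - ctr σ‖ ≤ r →
      ∀ i, Nr δ (act g (fl av d b t i)) (fl av d' b t' i)

end Pool.Agent.Work.MP_9d1ffa_al.GN
end

-- merged part: Pool.Agent.Work.MP_9d1ffa_al.GN.FdA
section
/-! Basic properties of the weights; a large atom. -/

namespace Pool.Agent.Work.MP_9d1ffa_al.GN

open Real Matrix
open G2 (nb)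

variable {K : Type} [Field K] {n : ℕ} {ι : Type} [Fintype ι] {G : Type} [Group G]
  {av : ι → AbsoluteValue K ℝ} {ρ : G →* GL (Fin n) K}

theorem wb_le_one (Γ : ℝ) (α : ι → Fin n → ℝ) (b : ι → Fin n → Fin n) : wb Γ α b ≤ 1 := by
  exact ciInf_le (Finite.bddBelow_range _) none

theorem wb_pos {Γ : ℝ} (hΓ : 0 < Γ) {α : ι → Fin n → ℝ} {b : ι → Fin n → Fin n}
    (h : 0 < wb Γ α b) : (∀ i p q, b i p < b i q → Γ < α i q - α i p) ∧
      ∀ i p, |α i p - α i (b i p)| ≤ 2 * n * Γ := by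
  have key : ∀ i p q, 0 < min (if b i p < b i q then (α i q - α i p) / Γ - 1 else 1)
      (2 * n - |α i p - α i (b i p)| / Γ) := fun i p q =>
    h.trans_le (ciInf_le (Finite.bddBelow_range _) (some (i, p, q)))
  refine ⟨fun i p q hb => ?_, fun i p => ?_⟩
  · have h1 := (lt_min_iff.1 (key i p q)).1
    rw [if_pos hb, sub_pos, lt_div_iff₀ hΓ, one_mul] at h1
    exact h1
  · have h1 := (lt_min_iff.1 (key i p p)).2
    rw [sub_pos, div_lt_iff₀ hΓ] at h1
    exact h1.le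

theorem one_le_wb {Γ : ℝ} (hΓ : 0 < Γ) {α : ι → Fin n → ℝ} {b : ι → Fin n → Fin n}
    (h1 : ∀ i p q, b i p < b i q → 2 * Γ ≤ α i q - α i p)
    (h2 : ∀ i p, |α i p - α i (b i p)| ≤ (2 * n - 1) * Γ) : 1 ≤ wb Γ α b := by
  refine le_ciInf fun o => ?_
  cases o with
  | none => exact le_rfl
  | some p =>
    obtain ⟨i, p, q⟩ := p
    refine le_min ?_ ?_
    · change (1 : ℝ) ≤ if b i p < b i q then (α i q - α i p) / Γ - 1 else 1
      split_ifs with hb
      · have h3 := h1 i p q hb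
        rw [← le_div_iff₀ hΓ] at h3
        linarith
      · exact le_rfl
    · change (1 : ℝ) ≤ 2 * n - |α i p - α i (b i p)| / Γ
      have h3 := h2 i p
      rw [← div_le_iff₀ hΓ] at h3
      linarith

theorem wb_lip {Γ : ℝ} (hΓ : 0 < Γ) {α α' : ι → Fin n → ℝ} {k : ℝ} (hk : 0 ≤ k)
    (h : ∀ i j, |α i j - α' i j| ≤ k) (b : ι → Fin n → Fin n) :
    wb Γ α b ≤ wb Γ α' b + 2 * k / Γ := by
  have hk2 : 0 ≤ 2 * k / Γ := by positivity
  rw [← sub_le_iff_le_add]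
  refine le_ciInf fun o => ?_
  cases o with
  | none =>
    have := wb_le_one Γ α b
    change _ ≤ (1 : ℝ)
    linarith
  | some p =>
    obtain ⟨i, p, q⟩ := p
    have key : wb Γ α b ≤ min (if b i p < b i q then (α i q - α i p) / Γ - 1 else 1)
        (2 * n - |α i p - α i (b i p)| / Γ) :=
      ciInf_le (Finite.bddBelow_range _) (some (i, p, q))
    have k1 := (le_min_iff.1 key).1
    have k2 := (le_min_iff.1 key).2
    refine le_min ?_ ?_
    · change _ ≤ if b i p < b i q then (α' i q - α' i p) / Γ - 1 else 1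
      by_cases hb : b i p < b i q
      · rw [if_pos hb] at k1 ⊢
        have h1 := abs_le.1 (h i p)
        have h2 := abs_le.1 (h i q)
        have h3 : (α i q - α i p) / Γ ≤ (α' i q - α' i p + 2 * k) / Γ :=
          div_le_div_of_nonneg_right (by linarith) hΓ.le
        rw [add_div] at h3
        linarith
      · rw [if_neg hb] at k1 ⊢
        linarith
    · change _ ≤ 2 * n - |α' i p - α' i (b i p)| / Γ
      have h1 := abs_le.1 (h i p)
      have h2 := abs_le.1 (h i (b i p))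
      have h4 := le_abs_self (α i p - α i (b i p))
      have h5 := neg_abs_le (α i p - α i (b i p))
      have h3 : |α' i p - α' i (b i p)| / Γ ≤ (|α i p - α i (b i p)| + 2 * k) / Γ :=
        div_le_div_of_nonneg_right (abs_le.2 ⟨by linarith, by linarith⟩) hΓ.le
      rw [add_div] at h3
      linarith

theorem mar_le_one (d : FD ι n K) (b : ι → Fin n → Fin n) (t : ι × Fin n → ℝ) : mar d b t ≤ 1 := by
  exact ciInf_le (Finite.bddBelow_range _) none

theorem mar_le_dZ (d : FD ι n K) (b : ι → Fin n → Fin n) (t : ι × Fin n → ℝ) (i : ι) (j : Fin n) :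
    mar d b t ≤ 2 * (n + 1) * dZ (d.β i j + t (i, b i j)) := by
  exact ciInf_le (Finite.bddBelow_range _) (some (i, j))

theorem le_mar {d : FD ι n K} {b : ι → Fin n → Fin n} {t : ι × Fin n → ℝ} {c : ℝ} (h1 : c ≤ 1)
    (h : ∀ i j, c ≤ 2 * (n + 1) * dZ (d.β i j + t (i, b i j))) : c ≤ mar d b t := by
  refine le_ciInf fun o => ?_
  cases o with
  | none => exact h1
  | some p => exact h p.1 p.2

theorem WW_nonneg (P : Pm ι n (Bx ι ρ)) (d : FD ι n K) (ω : UC (Bx ι ρ)) : 0 ≤ WW av ρ P d ω := by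
  refine Real.iSup_nonneg fun p => ?_
  split_ifs
  · exact le_max_left _ _
  · exact le_rfl

/-- All terms are at most `1`, so the supremum is a genuine one. -/
theorem le_WW {P : Pm ι n (Bx ι ρ)} {d : FD ι n K} {b : ι → Fin n → Fin n} {t : ι × Fin n → ℝ}
    {ω : UC (Bx ι ρ)} (h : OK av ρ P d b t ω) : wt P d b t ≤ WW av ρ P d ω := by
  classical
  refine le_ciSup_of_le ⟨1, ?_⟩ (b, t) ?_
  · rintro _ ⟨p, rfl⟩
    dsimp only
    split_ifs
    · exact max_le zero_le_one ((min_le_left _ _).trans (wb_le_one _ _ _))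
    · exact zero_le_one
  · rw [if_pos h]
    exact le_max_right _ _

theorem WW_le {P : Pm ι n (Bx ι ρ)} {d : FD ι n K} {ω : UC (Bx ι ρ)} {c : ℝ} (hc : 0 ≤ c)
    (h : ∀ b t, OK av ρ P d b t ω → wt P d b t ≤ c) : WW av ρ P d ω ≤ c := by
  refine Real.iSup_le (fun p => ?_) hc
  split_ifs with h1
  · exact max_le hc (h _ _ h1)
  · exact hc

theorem WW_ne {P : Pm ι n (Bx ι ρ)} (hq : 0 < P.q) {d : FD ι n K} {ω : UC (Bx ι ρ)}
    (h : WW av ρ P d ω ≠ 0) : ∃ b t, OK av ρ P d b t ω ∧ ‖t - ctr P.σ‖ < 2 * P.q := by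
  by_contra hc
  push Not at hc
  refine h (le_antisymm (WW_le le_rfl fun b t hb => ?_) (WW_nonneg P d ω))
  refine (min_le_right _ _).trans ((min_le_right _ _).trans ?_)
  have h1 : (0 : ℝ) < 2 * P.q := by positivity
  rw [sub_nonpos, le_div_iff₀ h1, one_mul]
  exact hc b t hb

private theorem FdA_nat {a : ℕ → ℝ} (ha : Monotone a) {Γ : ℝ} (hΓ : 0 < Γ) :
    ∃ b : ℕ → ℕ, (∀ p, b p ≤ p) ∧ (∀ p q, b p < b q → 2 * Γ ≤ a q - a p) ∧
      ∀ p, a p - a (b p) ≤ 2 * Γ * p := by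
  classical
  let b : ℕ → ℕ := fun j =>
    Nat.rec 0 (fun j r => if a (j + 1) - a j < 2 * Γ then r else j + 1) j
  have b0 : b 0 = 0 := rfl
  have bs : ∀ j, b (j + 1) = if a (j + 1) - a j < 2 * Γ then b j else j + 1 := fun j => rfl
  clear_value b
  have hle : ∀ p, b p ≤ p := fun p => by
    induction p with
    | zero => exact b0.le
    | succ p ih =>
      rw [bs]
      split_ifs
      · exact ih.trans (Nat.le_succ p)
      · exact le_rfl
  have hm : Monotone b := monotone_nat_of_le_succ fun p => by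
    rw [bs]
    split_ifs
    · exact le_rfl
    · exact (hle p).trans (Nat.le_succ p)
  refine ⟨b, hle, fun p q => ?_, fun p => ?_⟩
  · induction q with
    | zero => intro h; rw [b0] at h; exact absurd h (Nat.not_lt_zero _)
    | succ q ih =>
      intro h
      have hp : p ≤ q := by
        by_contra hc
        exact absurd h (not_lt.2 (hm (Nat.succ_le_of_lt (not_le.1 hc))))
      have h1 := ha hp
      have h2 := ha (Nat.le_succ q)
      rw [bs] at h
      split_ifs at h with h3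
      · have := ih h
        linarith
      · linarith [not_lt.1 h3]
  · induction p with
    | zero => rw [b0]; simp
    | succ p ih =>
      rw [bs]
      split_ifs with h3
      · push_cast
        linarith
      · rw [sub_self]
        positivity

/-- `b j` is the least `p ≤ j` such that all gaps `α (l + 1) - α l`, `p ≤ l < j`, are below `2 Γ`
(or: induction on `n` adding the last index). -/
theorem exists_blocks {α : Fin n → ℝ} (hα : Monotone α) {Γ : ℝ} (hΓ : 0 < Γ) :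
    ∃ b : Fin n → Fin n, (∀ p q, b p < b q → 2 * Γ ≤ α q - α p) ∧
      ∀ p, |α p - α (b p)| ≤ (2 * n - 1) * Γ := by
  cases n with
  | zero => exact ⟨id, fun p => p.elim0, fun p => p.elim0⟩
  | succ m =>
    have hlt : ∀ l : ℕ, min l m < m + 1 := fun l => Nat.lt_succ_of_le (min_le_right _ _)
    have ha : Monotone fun l : ℕ => α ⟨min l m, hlt l⟩ := fun l l' hl =>
      hα (Fin.mk_le_mk.2 (min_le_min_right m hl))
    obtain ⟨b, hb1, hb2, hb3⟩ := FdA_nat ha hΓ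
    have e : ∀ (l : ℕ) (hl : l < m + 1), α ⟨min l m, hlt l⟩ = α ⟨l, hl⟩ := fun l hl =>
      congrArg α (Fin.ext (min_eq_left (Nat.le_of_lt_succ hl)))
    refine ⟨fun p => ⟨b p, (hb1 p).trans_lt p.2⟩, fun p q h => ?_, fun p => ?_⟩
    · have h1 := hb2 p q h
      simp only [e p p.2, e q q.2] at h1
      exact h1
    · have h1 := hb3 p
      have h2 := ha (hb1 p)
      simp only [e p p.2, e (b p) ((hb1 p).trans_lt p.2)] at h1 h2
      have h3 : ((p : ℕ) : ℝ) ≤ m := by exact_mod_cast Nat.le_of_lt_succ p.2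
      have h4 : 2 * Γ * ((p : ℕ) : ℝ) ≤ 2 * Γ * m := by gcongr
      rw [abs_of_nonneg (sub_nonneg.2 h2)]
      push_cast
      linarith

/-- Take `b` from `exists_blocks`, `u i ∈ [0, 1]` from `exists_shift` for
`β i j + ctr σ (i, b i j)`, `t0 p = ctr σ p + u p.1`, a marker `s` within `q` of `0` for the colouring
at `t0` (`dense`), and `t = t0 + s`; `loc` with `δ = - s`; `dZ_add_int`;
`1 - (q + 1) / (2 q) ≥ 1 / 4`. -/
theorem WW_big {P : Pm ι n (Bx ι ρ)} {c R : ℕ} (hM : IsMk P.M c P.q R) (hq : 2 ≤ P.q)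
    (hΓ : 0 < P.Γ) {d : FD ι n K} (hd : ∀ i, Monotone (d.α i)) : ∃ ω, 1 / 4 ≤ WW av ρ P d ω := by
  choose b hb1 hb2 using fun i => exists_blocks (hd i) hΓ
  choose u hu0 hu1 hu using fun i => exists_shift fun j => d.β i j + ctr P.σ (i, b i j)
  obtain ⟨s, hs, hsq⟩ := hM.dense
    (fun z => P.c0 (box av ρ P.L d b fun p => (ctr P.σ p + u p.1) + z p)) 0
  have hok : OK av ρ P d b (fun p => (ctr P.σ p + u p.1) + s p)
      (uc (BR ρ P.q) (box av ρ P.L d b fun p => (ctr P.σ p + u p.1) + s p)) := by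
    refine ⟨?_, rfl⟩
    have h1 := hM.loc _ (fun z => P.c0 (box av ρ P.L d b
      fun p => ((ctr P.σ p + u p.1) + s p) + z p)) s (-s) (fun s' _ => ?_) hs
    · rwa [add_neg_cancel] at h1
    · refine congrArg (fun t => P.c0 (box av ρ P.L d b t)) (funext fun p => ?_)
      simp only [Pi.add_apply, Pi.neg_apply, Int.cast_add, Int.cast_neg]
      ring
  refine ⟨_, le_trans ?_ (le_WW hok)⟩
  have hq' : (2 : ℝ) ≤ P.q := by exact_mod_cast hq
  refine le_min (le_trans (by norm_num) (one_le_wb hΓ hb1 hb2)) (le_min ?_ ?_)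
  · refine le_trans (by norm_num) (le_mar le_rfl fun i j => ?_)
    have h1 := hu i j
    rw [← dZ_add_int _ (s (i, b i j))] at h1
    simpa only [add_assoc] using h1
  · have h1 : ‖(fun p : ι × Fin n => (ctr P.σ p + u p.1) + s p) - ctr P.σ‖ ≤ P.q + 1 := by
      refine (pi_norm_le_iff_of_nonneg (by positivity)).2 fun p => ?_
      have h2 := hsq p
      simp only [Pi.zero_apply, sub_zero] at h2
      have h3 : |((s p : ℤ) : ℝ)| ≤ P.q := by exact_mod_cast h2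
      have h4 := abs_le.1 h3
      have h5 := hu0 p.1
      have h6 := hu1 p.1
      rw [Real.norm_eq_abs, Pi.sub_apply, abs_le]
      constructor <;> linarith
    have h2 : (0 : ℝ) < 2 * P.q := by linarith
    have h3 : ‖(fun p : ι × Fin n => (ctr P.σ p + u p.1) + s p) - ctr P.σ‖ / (2 * P.q) ≤ 3 / 4 := by
      rw [div_le_iff₀ h2]
      linarith
    linarith

end Pool.Agent.Work.MP_9d1ffa_al.GN
end

-- merged part: Pool.Agent.Work.MP_9d1ffa_al.GN.FdB
section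
/-! Stabilisers of clusters and the number of atoms. -/

namespace Pool.Agent.Work.MP_9d1ffa_al.GN

open Real Matrix
open G2 (nb Pl)

variable {K : Type} [Field K] {n : ℕ} {ι : Type} {G : Type} [Group G]
  {av : ι → AbsoluteValue K ℝ} {ρ : G →* GL (Fin n) K}

/-- For the third clause apply `act (ρ g)⁻¹`. -/
theorem BR_smul (r : ℝ) (g : G) (e e' : Bx ι ρ) (h : BR ρ r e e') : BR ρ r (g • e) (g • e') := by
  obtain ⟨⟨k, hk⟩, h2, h3⟩ := h
  refine ⟨⟨g * k * g⁻¹, by rw [hk, mul_smul, mul_smul, inv_smul_smul]⟩,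
    fun i => ⟨(h2 i).1.act _, (h2 i).2.act _⟩, fun h4 => ?_⟩
  rw [h3 fun i => ?_]
  obtain ⟨c, hc⟩ := h4 i
  refine ⟨c, funext fun x => ?_⟩
  have h5 := congrFun hc ((ρ g).1 *ᵥ x)
  rw [Bx.smul_apply] at h5
  simpa only [act_mulVec] using h5

/-- Evaluate at the columns (`dg_cl`, `dg_add_const`). -/
theorem sc_bxe {L : ℕ} (hL : 1 ≤ L) (f : ι → GL (Fin n) K) (γ : ι → Fin n → ℤ)
    (b : ι → Fin n → Fin n) (i : ι) :
    Sc (bxe av ρ L f γ b i).1 (bxe av ρ L f γ b i).2 ↔ ∀ p q, b i p = b i q := by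
  change Sc (dg (av i) (f i) fun j => (γ i j : ℝ))
    (dg (av i) (f i) fun j => (γ i j : ℝ) - L * ((b i j : ℕ) : ℝ)) ↔ _
  constructor
  · rintro ⟨c, hc⟩ p q
    have key : ∀ j, -(L * ((b i j : ℕ) : ℝ)) = c := fun j => by
      have h1 := congrFun hc (cl (f i) j)
      simp only [dg_cl, ← exp_add] at h1
      have h2 := exp_injective h1
      linarith
    have h0 : (0 : ℝ) < L := by exact_mod_cast hL
    have h1 : (L : ℝ) * ((b i p : ℕ) : ℝ) = L * ((b i q : ℕ) : ℝ) := by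
      linarith [key p, key q]
    exact Fin.ext (by exact_mod_cast mul_left_cancel₀ h0.ne' h1)
  · intro h
    rcases isEmpty_or_nonempty (Fin n) with h0 | ⟨⟨p⟩⟩
    · refine ⟨0, funext fun x => ?_⟩
      simp [dg]
    · refine ⟨-(L * ((b i p : ℕ) : ℝ)), ?_⟩
      rw [← dg_add_const]
      refine congrArg _ (funext fun j => ?_)
      rw [h j p, sub_eq_add_neg]

/-- `stab_uc_le`, `Fam_mono`. If all `b i` are constant the generating set lies in the stabiliser of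
the box (`Subgroup.closure_le`), use `trace_le_one`. Otherwise `red_of_gap` (`bd_iff`), with `L + 1`
in place of `L`. -/
theorem stab_mem (ha : ∀ i, Pl (av i)) {A : Subring K} (hL : Low av A) (ρ : G →* GL (Fin n) K)
    (hA : ∀ g p q, (ρ g).1 p q ∈ A) (q : ℕ) : ∃ L : ℕ, 1 ≤ L ∧ ∀ f γ b,
      MulAction.stabilizer G (uc (BR ρ q) (bxe av ρ L f γ b)) ∈ Fam av ρ := by
  obtain ⟨L, hL0⟩ := red_of_gap ha hL ρ hA (Nat.cast_nonneg q)
  refine ⟨L + 1, Nat.le_add_left 1 L, fun f γ b => ?_⟩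
  set e := bxe av ρ (L + 1) f γ b with he
  have hn : ∀ (i : ι) (β : Fin n → ℝ), Nr q (dg (av i) (f i) β) (dg (av i) (f i) β) := fun i β =>
    Nr.rfl.mono (dg_nonneg _ _) (dg_nonneg _ _) (Nat.cast_nonneg q)
  have hee : BR ρ q e e := ⟨⟨1, (one_smul _ _).symm⟩, fun i => ⟨hn i _, hn i _⟩, fun _ => rfl⟩
  refine Fam_mono ?_ (stab_uc_le (BR_smul q) (fun _ _ h => h.1) hee)
  by_cases hb : ∀ i, Sc (e i).1 (e i).2
  · refine Or.inr fun i g hg => ?_
    have h1 : Subgroup.closure {h : G | BR ρ q e (h • e)} ≤ MulAction.stabilizer G e :=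
      (Subgroup.closure_le _).2 fun h hh => hh.2.2 hb
    have h2 : g • e = e := h1 hg
    exact trace_le_one (ha i) (congrArg Prod.fst (congrFun h2 i))
  · have hs : ∀ h : G, BR ρ q e (h • e) → BR ρ q e (h⁻¹ • e) := fun h hh => by
      have h1 := BR_smul q h⁻¹ _ _ hh
      rw [inv_smul_smul] at h1
      exact ⟨⟨h⁻¹, rfl⟩, fun i => ⟨(h1.2.1 i).1.symm, (h1.2.1 i).2.symm⟩, fun h2 => absurd h2 hb⟩
    obtain ⟨i, hi⟩ := not_forall.1 hb
    rw [he, sc_bxe (Nat.le_add_left 1 L)] at hi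
    have hpq : ∃ p q, b i p < b i q := by
      by_contra h
      exact hi fun p q => le_antisymm (not_lt.1 fun h1 => h ⟨q, p, h1⟩)
        (not_lt.1 fun h1 => h ⟨p, q, h1⟩)
    obtain ⟨p0, q0, hpq⟩ := hpq
    refine Or.inl (hL0 _ f (fun i j => (γ i j : ℝ)) i
      (fun j => (γ i j : ℝ) - (L + 1 : ℕ) * ((b i j : ℕ) : ℝ)) p0 q0 ?_ hs ?_ ?_ ?_)
    · change BR ρ q e ((1 : G) • e)
      rwa [one_smul]
    · intro h hh j
      rw [bd_iff (ha j), ← map_inv]
      exact ((hs h hh).2.1 j).1.2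
    · intro h hh
      rw [bd_iff (ha i), ← map_inv]
      exact ((hs h hh).2.1 i).2.2
    · have h1 : ((b i p0 : ℕ) : ℝ) + 1 ≤ ((b i q0 : ℕ) : ℝ) := by exact_mod_cast hpq
      have h2 : (0 : ℝ) ≤ L := Nat.cast_nonneg L
      push_cast
      nlinarith

/-- `dg_nr`; if all `b i` are constant then the second box is a scalar shift of the first one at
every place, and `shift_eq_zero` applies (for `n = 0` there is nothing to prove). -/
theorem BR_shift (ha : ∀ i, Pl (av i)) (hd : ∀ g, (ρ g).1.det = 1) {L : ℕ} (hL : 1 ≤ L) {q : ℕ}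
    (f : ι → GL (Fin n) K) (γ : ι → Fin n → ℤ) (b : ι → Fin n → Fin n) {s s' : ι × Fin n → ℤ}
    (hs : nb q s s') {g : G} (hg : (bxe av ρ L f (fun i j => γ i j + s' (i, b i j)) b) =
      g • bxe av ρ L f (fun i j => γ i j + s (i, b i j)) b) :
    BR ρ q (bxe av ρ L f (fun i j => γ i j + s (i, b i j)) b)
      (bxe av ρ L f (fun i j => γ i j + s' (i, b i j)) b) := by
  have h1 : ∀ p, |((s p : ℤ) : ℝ) - (s' p : ℤ)| ≤ q := fun p => by exact_mod_cast hs p
  refine ⟨⟨g, hg⟩, fun i => ⟨dg_nr fun j => ?_, dg_nr fun j => ?_⟩, fun h => ?_⟩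
  · push_cast
    rw [add_sub_add_left_eq_sub]
    exact h1 _
  · push_cast
    rw [sub_sub_sub_cancel_right, add_sub_add_left_eq_sub]
    exact h1 _
  · have key : ∀ i j, s' (i, b i j) = s (i, b i j) := fun i j => by
      have h2 := (sc_bxe hL _ _ _ i).1 (h i)
      have h3 := congrArg Prod.fst (congrFun hg i)
      have h4 := shift_eq_zero (ha i) j.pos (hd g)
        (c := ((s' (i, b i j) : ℤ) : ℝ) - (s (i, b i j) : ℤ)) (h3.symm.trans (by
          change dg _ _ _ = dg _ _ _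
          refine congrArg _ (funext fun l => ?_)
          beta_reduce
          rw [h2 l j]
          push_cast
          ring))
      exact_mod_cast sub_eq_zero.1 h4
    simp only [key]

/-- For every atom choose `(b, t)` by `WW_ne` and record `b`, the type
`⌈β i j + fract (t (i, b i j))⌉ - ⌈β i j⌉ ∈ {0, 1}` and the cell
`⌊(t p - ctr σ p + 2 q) / q⌋ ∈ {0, 1, 2, 3}`. If these agree for `t, t'`, put
`γ i j = ⌈β i j + fract (t (i, b i j))⌉` and `u z = c0 (bxe .. (γ + z (i, b i j)) b)`; then `⌊t⌋` and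
`⌊t'⌋` lie in `M u` (`loc` at `0` with `δ = ⌊t⌋`; `Int.ceil_add_intCast`, `Int.fract_add_floor`) and
are `nb q`, so the colours agree (`sep`), the boxes lie in one orbit, `BR_shift`, `uc_eq`. -/
theorem WW_card [Fintype ι] (ha : ∀ i, Pl (av i)) (hd : ∀ g, (ρ g).1.det = 1)
    {P : Pm ι n (Bx ι ρ)} {c R : ℕ} (hM : IsMk P.M c P.q R) (hq : 0 < P.q) (hL : 1 ≤ P.L)
    (hc : ∀ e, P.c0 e < c) {E : Set (Bx ι ρ)}
    (hE : ∀ e ∈ E, ∀ e' ∈ E, P.c0 e = P.c0 e' → ∃ g : G, e' = g • e) {d : FD ι n K}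
    (hb : ∀ b t, ‖t - ctr P.σ‖ < 2 * P.q → box av ρ P.L d b t ∈ E) :
    (Function.support (WW av ρ P d)).ncard ≤ (8 * n) ^ (Fintype.card ι * n) := by
  classical
  choose B t hOK ht using fun ω : Function.support (WW av ρ P d) => WW_ne hq ω.2
  have hq' : (0 : ℝ) < P.q := by exact_mod_cast hq
  let F : Function.support (WW av ρ P d) → ι × Fin n → Fin n × ℤ × ℤ := fun ω p =>
    (B ω p.1 p.2, ⌈d.β p.1 p.2 + Int.fract (t ω (p.1, B ω p.1 p.2))⌉ - ⌈d.β p.1 p.2⌉,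
      ⌊(t ω p - ctr P.σ p + 2 * P.q) / P.q⌋)
  let T : Finset (ι × Fin n → Fin n × ℤ × ℤ) :=
    Fintype.piFinset fun _ => Finset.univ ×ˢ Finset.Icc 0 1 ×ˢ Finset.Icc 0 3
  have hT : T.card = (8 * n) ^ (Fintype.card ι * n) := by
    simp only [T, Fintype.card_piFinset, Finset.card_product, Finset.card_univ, Fintype.card_fin,
      Int.card_Icc, Finset.prod_const, Fintype.card_prod]
    congr 1
    change n * (2 * 4) = 8 * n
    ring
  have hF : ∀ ω, F ω ∈ T := fun ω => by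
    refine Fintype.mem_piFinset.2 fun p => ?_
    have h1 := Int.fract_nonneg (t ω (p.1, B ω p.1 p.2))
    have h2 := Int.fract_lt_one (t ω (p.1, B ω p.1 p.2))
    have h3 : ⌈d.β p.1 p.2⌉ ≤ ⌈d.β p.1 p.2 + Int.fract (t ω (p.1, B ω p.1 p.2))⌉ :=
      Int.ceil_mono (by linarith)
    have h4 : ⌈d.β p.1 p.2 + Int.fract (t ω (p.1, B ω p.1 p.2))⌉ ≤ ⌈d.β p.1 p.2⌉ + 1 := by
      rw [← Int.ceil_add_one]
      exact Int.ceil_mono (by linarith)
    have h5 := abs_lt.1 ((norm_le_pi_norm (t ω - ctr P.σ) p).trans_lt (ht ω))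
    rw [Pi.sub_apply] at h5
    have h6 : 0 ≤ ⌊(t ω p - ctr P.σ p + 2 * P.q) / P.q⌋ :=
      Int.floor_nonneg.2 (div_nonneg (by linarith) hq'.le)
    have h7 : ⌊(t ω p - ctr P.σ p + 2 * P.q) / P.q⌋ < 4 := by
      rw [Int.floor_lt, div_lt_iff₀ hq']
      push_cast
      linarith
    simp only [F, Finset.mem_product, Finset.mem_univ, Finset.mem_Icc, true_and]
    omega
  have hbox : ∀ (b : ι → Fin n → Fin n) (t : ι × Fin n → ℝ) (z : ι × Fin n → ℤ),
      (box av ρ P.L d b fun p => t p + z p) = bxe av ρ P.L d.f (fun i j =>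
        ⌈d.β i j + Int.fract (t (i, b i j))⌉ + (z + fun p => ⌊t p⌋) (i, b i j)) b := by
    intro b t z
    refine congrArg (fun γ => bxe av ρ P.L d.f γ b) (funext fun i => funext fun j => ?_)
    rw [← Int.ceil_add_intCast, Pi.add_apply]
    refine congrArg _ ?_
    have := Int.fract_add_floor (t (i, b i j))
    push_cast
    linarith
  have hbox0 : ∀ (b : ι → Fin n → Fin n) (t : ι × Fin n → ℝ),
      box av ρ P.L d b t = bxe av ρ P.L d.f (fun i j =>
        ⌈d.β i j + Int.fract (t (i, b i j))⌉ + (0 + fun p => ⌊t p⌋) (i, b i j)) b := by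
    intro b t
    rw [← hbox b t 0]
    simp
  have hinj : Function.Injective F := fun ω ω' h => by
    have hB : B ω = B ω' := funext fun i => funext fun j => congrArg Prod.fst (congrFun h (i, j))
    have hγ : ∀ i j, ⌈d.β i j + Int.fract (t ω' (i, B ω i j))⌉ =
        ⌈d.β i j + Int.fract (t ω (i, B ω i j))⌉ := fun i j => by
      have h1 := congrArg (fun x => x.2.1) (congrFun h (i, j))
      simp only [F, ← hB] at h1
      omega
    have hnb : nb P.q (0 + fun p => ⌊t ω p⌋) (0 + fun p => ⌊t ω' p⌋) := fun p => by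
      have h1 : ⌊(t ω p - ctr P.σ p + 2 * P.q) / P.q⌋ = ⌊(t ω' p - ctr P.σ p + 2 * P.q) / P.q⌋ :=
        congrArg (fun x => x.2.2) (congrFun h p)
      have h2 := Int.abs_sub_lt_one_of_floor_eq_floor h1
      rw [← sub_div, abs_div, abs_of_pos hq', div_lt_one hq', abs_lt] at h2
      have h3 : ⌊t ω p⌋ ≤ ⌊t ω' p⌋ + P.q := by
        rw [← Int.floor_add_natCast]
        exact Int.floor_mono (by linarith)
      have h4 : ⌊t ω' p⌋ ≤ ⌊t ω p⌋ + P.q := by
        rw [← Int.floor_add_natCast]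
        exact Int.floor_mono (by linarith)
      simp only [zero_add]
      rw [abs_le]
      omega
    let u : (ι × Fin n → ℤ) → ℕ := fun z => P.c0 (bxe av ρ P.L d.f (fun i j =>
      ⌈d.β i j + Int.fract (t ω (i, B ω i j))⌉ + z (i, B ω i j)) (B ω))
    have h1 := hM.loc _ u 0 (fun p => ⌊t ω p⌋) (fun s _ => by rw [hbox]) (hOK ω).1
    have h2 := hM.loc _ u 0 (fun p => ⌊t ω' p⌋) (fun s _ => by
      rw [hbox, ← hB]
      simp only [hγ, u]) (hOK ω').1
    have h3 := hM.sep u (fun _ => hc _) _ h1 _ h2 hnb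
    have e1 := hbox0 (B ω) (t ω)
    have e2 := hbox0 (B ω') (t ω')
    rw [← hB] at e2
    simp only [hγ] at e2
    have m1 := hb (B ω) _ (ht ω)
    have m2 := hb (B ω) _ (ht ω')
    rw [e1] at m1
    rw [e2] at m2
    obtain ⟨g, hg⟩ := hE _ m1 _ m2 h3
    refine Subtype.ext ?_
    rw [← (hOK ω).2, ← (hOK ω').2, ← hB, e1, e2]
    exact uc_eq (BR_shift ha hd hL _ _ _ hnb hg)
  rw [← hT, ← Nat.card_coe_set_eq, ← Nat.card_eq_finsetCard]
  exact Nat.card_le_card_of_injective (fun ω => (⟨F ω, hF ω⟩ : T))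
    fun ω ω' h => hinj (congrArg Subtype.val h)

end Pool.Agent.Work.MP_9d1ffa_al.GN
end

-- merged part: Pool.Agent.Work.MP_9d1ffa_al.GN.FdC
section
/-! Comparison of the weights for comparable frames. -/

namespace Pool.Agent.Work.MP_9d1ffa_al.GN

open Real Matrix
open G2 (nb Pl)

variable {K : Type} [Field K] {n : ℕ} {ι : Type} [Fintype ι] {G : Type} [Group G]
  {av : ι → AbsoluteValue K ℝ} {ρ : G →* GL (Fin n) K}

theorem Cmp.symm {Γ σ r k₁ k₂ δ : ℝ} {g : GL (Fin n) K} {d d' : FD ι n K}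
    (h : Cmp av Γ σ r k₁ k₂ δ g d d') : Cmp av Γ σ r k₁ k₂ δ g⁻¹ d' d := by
  refine ⟨fun i j => (abs_sub_comm _ _).trans_le (h.1 i j), fun b h1 h2 => ?_⟩
  obtain ⟨s, hs, H⟩ := h.2 b h2 h1
  refine ⟨-s, (norm_neg s).trans_le hs, fun t t' e r1 r2 i => ?_⟩
  have h3 := (H t' t (by rw [e]; abel) r2 r1 i).act g⁻¹
  rw [← act_mul, inv_mul_cancel, act_one] at h3
  exact h3.symm

omit [Fintype ι] in
/-- `act_dg` and `ceil_eq` with `Q = 1` for both entries; the second entry is the first entry for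
`t - L * p.2` (`Int.ceil_sub_natCast` or `Int.ceil_add_intCast`, `dZ_add_int`). -/
theorem box_eq (ha : ∀ i, Pl (av i)) {L : ℕ} {d d' : FD ι n K} {b : ι → Fin n → Fin n}
    {t t' : ι × Fin n → ℝ} {δ : ℝ} {g : G} (hm : ∀ i j, δ < dZ (d.β i j + t (i, b i j)))
    (h1 : ∀ i, Nr δ (act (ρ g) (fl av d b t i)) (fl av d' b t' i))
    (h2 : ∀ i, Nr δ (act (ρ g) (fl av d b (fun p => t p - L * ((p.2 : ℕ) : ℝ)) i))
      (fl av d' b (fun p => t' p - L * ((p.2 : ℕ) : ℝ)) i)) :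
    box av ρ L d' b t' = g • box av ρ L d b t := by
  funext i
  rw [Bx.smul_apply]
  have e : ∀ x : ℝ, ∀ p : Fin n, ((⌈x - L * ((p : ℕ) : ℝ)⌉ : ℤ) : ℝ) = ⌈x⌉ - L * ((p : ℕ) : ℝ) :=
    fun x p => by
      rw [← Nat.cast_mul, Int.ceil_sub_natCast]
      push_cast
      rfl
  have k1 := h1 i
  have k2 := h2 i
  simp only [fl, act_dg] at k1 k2
  have c1 := ceil_eq (ha i) k1 Nat.one_pos fun j => by simpa using hm i j
  have c2 := ceil_eq (ha i) k2 Nat.one_pos fun j => by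
    have := dZ_add_int (d.β i j + t (i, b i j)) (-((L * (b i j : ℕ) : ℕ) : ℤ))
    simp only [Nat.cast_one, one_mul]
    refine (hm i j).trans_eq (this.symm.trans (congrArg dZ ?_))
    push_cast
    ring
  simp only [Nat.cast_one, one_mul, div_one, ← add_sub_assoc, e] at c1 c2
  simp only [box, bxe, act_dg]
  exact Prod.ext c1.symm c2.symm

/-- `WW_le`. Let `(b, t)` be admissible with `η < wt` (otherwise `WW_nonneg`). By `wb_lip` both block
weights are positive; `t' = t - s`. `box_eq` for `t + z`, `t' + z` with `nb R z 0` (margins by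
`mar_le_dZ`, `dZ_add_int`), so the colourings agree near `0` (`loc` with `δ = 0`), `uc_smul`,
`BR_smul`. The three parts of `wt` drop by at most `η` (`mar_le` with `Q = 1`, `le_mar`). -/
theorem WW_le_cmp (ha : ∀ i, Pl (av i)) {P : Pm ι n (Bx ι ρ)} {c R : ℕ} (hM : IsMk P.M c P.q R)
    (hq : 0 < P.q) (hΓ : 0 < P.Γ) (hc : ∀ (g : G) e, P.c0 (g • e) = P.c0 e) {r k₁ k₂ δ η : ℝ}
    (hk : 0 ≤ k₁) (hδ : 0 ≤ δ) (hr : 2 * P.q + k₂ + R + n * P.L ≤ r) (e1 : 2 * k₁ / P.Γ ≤ η)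
    (e2 : 2 * (n + 1) * δ ≤ η) (e3 : k₂ / (2 * P.q) ≤ η) {g : G} {d d' : FD ι n K}
    (h : Cmp av P.Γ P.σ r k₁ k₂ δ (ρ g) d d') (ω : UC (Bx ι ρ)) :
    WW av ρ P d ω ≤ WW av ρ P d' (g • ω) + η := by
  have h0 : 0 ≤ 2 * k₁ / P.Γ := by positivity
  have η0 : 0 ≤ η := h0.trans e1
  have w0 := WW_nonneg (av := av) P d' (g • ω)
  refine WW_le (by linarith) fun b t hok => ?_
  rcases le_or_gt (wt P d b t) η with hw | hw
  · linarith
  obtain ⟨w1, w2, w3⟩ : η < wb P.Γ d.α b ∧ η < mar d b t ∧ η < 1 - ‖t - ctr P.σ‖ / (2 * P.q) := by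
    simpa only [wt, lt_min_iff] using hw
  have l1 := wb_lip hΓ hk h.1 b
  obtain ⟨s, hs, H⟩ := h.2 b (by linarith) (by linarith)
  have q0 : (0 : ℝ) < 2 * P.q := by positivity
  have k0 : 0 ≤ k₂ := (norm_nonneg s).trans hs
  have n1 : ‖t - ctr P.σ‖ ≤ 2 * P.q := by
    rw [← div_le_one q0]
    linarith
  have n2 : ‖t - s - ctr P.σ‖ ≤ ‖t - ctr P.σ‖ + k₂ := by
    rw [sub_right_comm]
    exact (norm_sub_le _ _).trans (by linarith)
  have H1 : ∀ w : ι × Fin n → ℝ, ‖w‖ ≤ R + n * P.L → ∀ i,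
      Nr δ (act (ρ g) (fl av d b (t + w) i)) (fl av d' b (t - s + w) i) := fun w hw' =>
    H _ _ (by abel) (by
      rw [add_sub_right_comm]
      exact (norm_add_le _ _).trans (by linarith)) (by
      rw [add_sub_right_comm]
      exact (norm_add_le _ _).trans (by linarith))
  have np : (0 : ℝ) < 2 * (n + 1) := by positivity
  have nL : (0 : ℝ) ≤ n * P.L := by positivity
  have H2 : ∀ z : ι × Fin n → ℤ, nb R z 0 → box av ρ P.L d' b (fun p => (t - s) p + z p) =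
      g • box av ρ P.L d b fun p => t p + z p := fun z hz => by
    have hz' : ∀ p, |((z p : ℤ) : ℝ)| ≤ R := fun p => by
      have := hz p
      simp only [Pi.zero_apply, sub_zero] at this
      exact_mod_cast this
    refine box_eq (δ := δ) ha (fun i j => ?_) (H1 (fun p => z p) ?_) fun i => ?_
    · rw [← add_assoc, dZ_add_int]
      refine lt_of_mul_lt_mul_left ?_ np.le
      linarith [mar_le_dZ d b t i j]
    · exact (pi_norm_le_iff_of_nonneg (by positivity)).2 fun p => (hz' p).trans (by linarith)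
    · have := H1 (fun p => z p - P.L * ((p.2 : ℕ) : ℝ))
        ((pi_norm_le_iff_of_nonneg (by positivity)).2 fun p => by
          have a1 := abs_le.1 (hz' p)
          have a2 : ((p.2 : ℕ) : ℝ) ≤ n := by exact_mod_cast p.2.2.le
          have a3 : (0 : ℝ) ≤ P.L * ((p.2 : ℕ) : ℝ) := by positivity
          have a4 : (P.L : ℝ) * ((p.2 : ℕ) : ℝ) ≤ P.L * n := by gcongr
          rw [Real.norm_eq_abs, abs_le]
          constructor <;> linarith) i
      simpa only [fl, Pi.add_apply, add_sub_assoc] using this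
  have ok : OK av ρ P d' b (t - s) (g • ω) := by
    refine ⟨?_, ?_⟩
    · have := hM.loc _ (fun z => P.c0 (box av ρ P.L d' b fun p => (t - s) p + z p)) 0 0
        (fun z hz => by rw [add_zero, H2 z hz, hc]) hok.1
      rwa [add_zero] at this
    · have := H2 0 fun p => by simp
      simp only [Pi.zero_apply, Int.cast_zero, add_zero] at this
      rw [this, uc_smul (BR_smul _), hok.2]
  refine le_trans ?_ (add_le_add (le_WW ok) le_rfl)
  rw [← sub_le_iff_le_add]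
  have m1 : wt P d b t ≤ wb P.Γ d.α b := min_le_left _ _
  have m2 : wt P d b t ≤ mar d b t := (min_le_right _ _).trans (min_le_left _ _)
  have m3 : wt P d b t ≤ 1 - ‖t - ctr P.σ‖ / (2 * P.q) :=
    (min_le_right _ _).trans (min_le_right _ _)
  refine le_min (by linarith) (le_min (le_mar (by linarith [mar_le_one d b t]) fun i j => ?_) ?_)
  · have k1 := H1 0 (by rw [norm_zero]; positivity) i
    simp only [fl, act_dg, add_zero] at k1
    obtain ⟨p, hp⟩ := mar_le (ha i) k1 1 j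
    simp only [Nat.cast_one, one_mul] at hp
    have := mul_le_mul_of_nonneg_left hp np.le
    linarith [mar_le_dZ d b t i p]
  · have := div_le_div_of_nonneg_right n2 q0.le
    rw [add_div] at this
    linarith

/-- `WW_le_cmp` for `g` and for `g⁻¹` (`Cmp.symm`, `map_inv`). -/
theorem WW_cmp (ha : ∀ i, Pl (av i)) {P : Pm ι n (Bx ι ρ)} {c R : ℕ} (hM : IsMk P.M c P.q R)
    (hq : 0 < P.q) (hΓ : 0 < P.Γ) (hc : ∀ (g : G) e, P.c0 (g • e) = P.c0 e) {r k₁ k₂ δ η : ℝ}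
    (hk : 0 ≤ k₁) (hδ : 0 ≤ δ) (hr : 2 * P.q + k₂ + R + n * P.L ≤ r) (e1 : 2 * k₁ / P.Γ ≤ η)
    (e2 : 2 * (n + 1) * δ ≤ η) (e3 : k₂ / (2 * P.q) ≤ η) {g : G} {d d' : FD ι n K}
    (h : Cmp av P.Γ P.σ r k₁ k₂ δ (ρ g) d d') (ω : UC (Bx ι ρ)) :
    |WW av ρ P d' (g • ω) - WW av ρ P d ω| ≤ η := by
  have h1 := WW_le_cmp ha hM hq hΓ hc hk hδ hr e1 e2 e3 h ω
  have h2 := WW_le_cmp (g := g⁻¹) ha hM hq hΓ hc hk hδ hr e1 e2 e3 (map_inv ρ g ▸ h.symm) (g • ω)
  rw [inv_smul_smul] at h2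
  exact abs_le.2 ⟨by linarith, by linarith⟩

end Pool.Agent.Work.MP_9d1ffa_al.GN
end

-- merged part: Pool.Agent.Work.MP_9d1ffa_al.GN.FdD
section
/-! Related points have comparable frames. -/

namespace Pool.Agent.Work.MP_9d1ffa_al.GN

open Real Matrix
open G2 (Pl)

variable {K : Type} [Field K] {n : ℕ}

/-- Lemma (KEY) at one place: `key0` in both directions, `|A j - α' j| ≤ κ + δ` by `sa_lip`; cases
`b p = b q`, `b q < b p` (then `x p ≤ x q`), `b p < b q` (then the gap pays). -/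
theorem key2 {a : AbsoluteValue K ℝ} (ha : Pl a) {g y g' y' : V n K → ℝ} {f f' : GL (Fin n) K}
    {β A β' α' : Fin n → ℝ} (h : Fr a g y f β A) (h' : Fr a g' y' f' β' α') (hm : Monotone A)
    (hm' : Monotone α') {κ δ Γ D : ℝ} (hg : Nr κ g g') (hy : Nr δ y y') {b : Fin n → Fin n}
    (hb : ∀ p q, b p < b q → Γ ≤ α' q - α' p) {τ : Fin n → ℝ} (hτ : Antitone τ)
    (hD : ∀ p q, τ p - τ q ≤ D) (hΓ : D + 2 * κ ≤ Γ) :
    Nr δ (dg a f fun j => β j + τ (b j)) (dg a f' fun j => β' j + τ (b j)) := by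
  have k : ∀ (p q : Fin n) (u : ℝ), u ≤ 2 * κ + δ + α' p - α' q →
      min δ u + τ (b p) - τ (b q) ≤ δ := fun p q u hu => by
    rcases lt_or_ge (b p) (b q) with e | e
    · linarith only [min_le_right δ u, hu, hb p q e, hD (b p) (b q), hΓ]
    · linarith only [min_le_left δ u, hτ e]
  refine ⟨key0 ha h h' hg.1 hy.1 fun p q => k p q _ ?_,
    key0 ha h' h hg.2 hy.2 fun p q => k p q _ ?_⟩
  · linarith only [sa_lip h' h hm' hm hg.2 hy.1 p]
  · linarith only [sa_lip h h' hm hm' hg.1 hy.2 q]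

/-- Take `χ i` from `Rel`. The frame `((Fr.act _ g).shift (χ i ∘ α i))` has relative position
`α + χ α`, which is monotone (`Λ ≤ 1`), so `|α - α'| ≤ κ + δ + c` (`sa_lip` twice). Put
`s (i, p) = χ i (α i p)`. `act g (fl av d b t i)` is diagonal in `g * f i` with exponents
`β j + χ (α (b j)) + t' (i, b j)`, within `Λ * (2 n Γ)` of `β j + χ (α j) + t' (i, b j)` (`wb_pos`,
`dg_nr`); then `key2` with `τ p = t' (i, p)` (antitone since `2 r ≤ σ`, `D = n σ + 2 r`). -/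
theorem cmp_of_rel {ι : Type} [Fintype ι] {av : ι → AbsoluteValue K ℝ} (ha : ∀ i, Pl (av i))
    {y z : ι → V n K → ℝ} {d d' : FD ι n K} {g : GL (Fin n) K} {c Λ δ κ Γ σ r : ℝ}
    (hd : ∀ i, Fr (av i) (g0 (av i)) (y i) (d.f i) (d.β i) (d.α i) ∧ Monotone (d.α i))
    (hd' : ∀ i, Fr (av i) (g0 (av i)) (z i) (d'.f i) (d'.β i) (d'.α i) ∧ Monotone (d'.α i))
    (hκ : ∀ i, Nr κ (act g (g0 (av i))) (g0 (av i))) (h : ∀ i, Rel (av i) c Λ δ g (y i) (z i))
    (hc : 0 ≤ c) (h0 : 0 ≤ Λ) (h1 : Λ ≤ 1) (hΓ : 0 < Γ) (hr : 0 ≤ r) (hσ : 2 * r ≤ σ)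
    (hs : n * σ + 2 * r + 2 * κ ≤ Γ) :
    Cmp av Γ σ r (κ + δ + c) c (δ + Λ * (2 * n * Γ)) g d d' := by
  choose χ hχ hl hb hz using h
  have hF := fun i => ((hd i).1.act g).shift fun j => χ i (d.α i j)
  have hy := fun i => (hz i _ _ _ (hd i).1).symm
  have hm : ∀ i, Monotone fun j => d.α i j + χ i (d.α i j) := fun i p q e => by
    have e1 := sub_nonneg.2 ((hd i).2 e)
    have e2 := (le_abs_self _).trans (hl i (d.α i p) (d.α i q))
    rw [abs_sub_comm, abs_of_nonneg e1] at e2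
    have e3 := mul_le_mul_of_nonneg_right h1 e1
    dsimp only
    linarith only [e2, e3]
  refine ⟨fun i j => ?_, fun b w w' => ⟨fun p => χ p.1 (d.α p.1 p.2),
    (pi_norm_le_iff_of_nonneg hc).2 fun p => hb _ _, fun t t' e _ ht i => ?_⟩⟩
  · have e1 := sa_lip (hF i) (hd' i).1 (hm i) (hd' i).2 (hκ i).1 (hy i).2 j
    have e2 := sa_lip (hd' i).1 (hF i) (hd' i).2 (hm i) (hκ i).2 (hy i).1 j
    have e3 := abs_le.1 (hb i (d.α i j))
    exact abs_le.2 ⟨by linarith only [e1, e3.2], by linarith only [e2, e3.1]⟩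
  have s0 : 0 ≤ σ := by linarith only [hr, hσ]
  have k : ∀ p : Fin n, -r ≤ t' (i, p) + σ * ((p : ℕ) : ℝ) ∧ t' (i, p) + σ * ((p : ℕ) : ℝ) ≤ r :=
    fun p => by
      have := (norm_le_pi_norm _ (i, p)).trans ht
      rwa [Real.norm_eq_abs, Pi.sub_apply, ctr, sub_neg_eq_add, abs_le] at this
  have hτ : Antitone fun p => t' (i, p) := fun p q e => by
    rcases e.eq_or_lt with e | e
    · rw [e]
    have e1 : ((p : ℕ) : ℝ) + 1 ≤ (q : ℕ) := by exact_mod_cast e
    have e2 := mul_le_mul_of_nonneg_left e1 s0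
    dsimp only
    linarith only [e2, (k p).1, (k q).2, hσ]
  have hD : ∀ p q : Fin n, t' (i, p) - t' (i, q) ≤ n * σ + 2 * r := fun p q => by
    have e1 : ((q : ℕ) : ℝ) ≤ n := by exact_mod_cast q.2.le
    have e2 := mul_le_mul_of_nonneg_left e1 s0
    have e3 := mul_nonneg s0 (Nat.cast_nonneg (α := ℝ) p)
    linarith only [e2, e3, (k p).2, (k q).1]
  have e1 := key2 (ha i) (hF i) (hd' i).1 (hm i) (hd' i).2 (hκ i) (hy i)
    (fun p q e => ((wb_pos hΓ w').1 i p q e).le) hτ hD hs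
  rw [add_comm δ, fl, act_dg]
  refine (dg_nr fun j => ?_).trans e1
  refine le_trans (le_of_eq ?_) ((hl i (d.α i j) (d.α i (b i j))).trans
    (mul_le_mul_of_nonneg_left ((wb_pos hΓ w).2 i j) h0))
  rw [e, abs_sub_comm, Pi.add_apply]
  congr 1
  ring

end Pool.Agent.Work.MP_9d1ffa_al.GN
end

-- merged part: Pool.Agent.Work.MP_9d1ffa_al.GN.Lst
section
/-! The finite list of boxes. -/

namespace Pool.Agent.Work.MP_9d1ffa_al.GN

open Real Matrix

variable {K : Type} [Field K] {n : ℕ} {ι : Type} [Fintype ι] {G : Type} [Group G]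
  {av : ι → AbsoluteValue K ℝ} {ρ : G →* GL (Fin n) K}

/-- Choose `(f, γ, b)` for every element and record, for every `(i, j)`, the column, the number
`γ i j - ⌈log (..) - R⌉ ∈ [0, 2 R]` and `b i j` (`cl_ext`); this is injective into
`ι × Fin n → Φ × Fin (2 R + 1) × Fin n`. -/
theorem Lst_card (L : ℕ) (Φ : Finset (V n K)) (R : ℕ) : (Lst av ρ L Φ R).Finite ∧
    (Lst av ρ L Φ R).ncard ≤ (Φ.card * (2 * R + 1) * n) ^ (Fintype.card ι * n) := by
  classical
  have hch : ∀ e : Lst av ρ L Φ R, ∃ f γ b, (∀ i j, cl (f i) j ∈ Φ) ∧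
      (∀ i j, |(γ i j : ℝ) - log (g0 (av i) (cl (f i) j))| ≤ R) ∧ e.1 = bxe av ρ L f γ b :=
    fun e => e.2
  choose f γ b h1 h2 h3 using hch
  have h4 : ∀ e i j, 0 ≤ γ e i j - ⌈log (g0 (av i) (cl (f e i) j)) - R⌉ ∧
      γ e i j - ⌈log (g0 (av i) (cl (f e i) j)) - R⌉ ≤ 2 * R := by
    intro e i j
    have h5 := abs_le.1 (h2 e i j)
    have h6 := Int.le_ceil (log (g0 (av i) (cl (f e i) j)) - R)
    refine ⟨sub_nonneg.2 (Int.ceil_le.2 (by linarith [h5.1])), ?_⟩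
    have h7 : ((γ e i j - ⌈log (g0 (av i) (cl (f e i) j)) - R⌉ : ℤ) : ℝ) ≤ ((2 * R : ℤ) : ℝ) := by
      push_cast
      linarith [h5.2]
    exact_mod_cast h7
  let c : Lst av ρ L Φ R → (ι × Fin n → Φ × Fin (2 * R + 1) × Fin n) := fun e p =>
    (⟨cl (f e p.1) p.2, h1 e p.1 p.2⟩,
      ⟨(γ e p.1 p.2 - ⌈log (g0 (av p.1) (cl (f e p.1) p.2)) - R⌉).toNat, by
        have := h4 e p.1 p.2
        omega⟩, b e p.1 p.2)
  have hc : Function.Injective c := by
    intro e e' h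
    have e1 : ∀ i j, cl (f e i) j = cl (f e' i) j := fun i j =>
      congrArg (fun z => (z.1 : V n K)) (congrFun h (i, j))
    have e2 : f e = f e' := funext fun i => cl_ext (e1 i)
    have e3 : b e = b e' := funext fun i => funext fun j =>
      congrArg (fun z => z.2.2) (congrFun h (i, j))
    have e4 : γ e = γ e' := funext fun i => funext fun j => by
      have e5 : (γ e i j - ⌈log (g0 (av i) (cl (f e i) j)) - R⌉).toNat =
          (γ e' i j - ⌈log (g0 (av i) (cl (f e' i) j)) - R⌉).toNat :=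
        congrArg (fun z => (z.2.1 : ℕ)) (congrFun h (i, j))
      have a1 := (h4 e i j).1
      have a2 := (h4 e' i j).1
      rw [e1 i j] at e5 a1
      omega
    exact Subtype.ext (by rw [h3 e, h3 e', e2, e3, e4])
  refine ⟨Set.finite_coe_iff.1 (Finite.of_injective c hc), ?_⟩
  rw [← Nat.card_coe_set_eq]
  refine (Nat.card_le_card_of_injective c hc).trans (le_of_eq ?_)
  simp only [Nat.card_eq_fintype_card, Fintype.card_fun, Fintype.card_prod, Fintype.card_coe,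
    Fintype.card_fin, mul_assoc]

/-- `log (g0 (cl f j)) = β j - α j` (`Fr.hg`, `dg_cl`), `|ctr σ p| ≤ n σ`, `norm_le_pi_norm`. -/
theorem box_mem (L : ℕ) {Φ : Finset (V n K)} {R : ℕ} {d : FD ι n K} {y : ι → V n K → ℝ}
    (hd : ∀ i, Fr (av i) (g0 (av i)) (y i) (d.f i) (d.β i) (d.α i)) (hf : ∀ i j, cl (d.f i) j ∈ Φ)
    {T σ r : ℝ} (hα : ∀ i j, |d.α i j| ≤ T) (hσ : 0 ≤ σ) (hR : T + n * σ + r + 1 ≤ R)
    (b : ι → Fin n → Fin n) {t : ι × Fin n → ℝ} (ht : ‖t - ctr σ‖ ≤ r) :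
    box av ρ L d b t ∈ Lst av ρ L Φ R := by
  refine ⟨d.f, fun i j => ⌈d.β i j + t (i, b i j)⌉, b, hf, fun i j => ?_, rfl⟩
  have e1 : log (g0 (av i) (cl (d.f i) j)) = d.β i j - d.α i j := by
    rw [(hd i).hg, dg_cl, log_exp, Pi.sub_apply]
  have e2 : |t (i, b i j) - ctr σ (i, b i j)| ≤ r :=
    (norm_le_pi_norm (t - ctr σ) (i, b i j)).trans ht
  have e3 : ((b i j : ℕ) : ℝ) ≤ n := by exact_mod_cast (b i j).2.le
  have e4 : (0 : ℝ) ≤ ((b i j : ℕ) : ℝ) := Nat.cast_nonneg _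
  have e5 : ctr σ (i, b i j) = -(σ * ((b i j : ℕ) : ℝ)) := rfl
  have e6 : σ * ((b i j : ℕ) : ℝ) ≤ n * σ := by nlinarith
  have e7 : 0 ≤ σ * ((b i j : ℕ) : ℝ) := mul_nonneg hσ e4
  have a1 := Int.le_ceil (d.β i j + t (i, b i j))
  have a2 := Int.ceil_lt_add_one (d.β i j + t (i, b i j))
  have a3 := abs_le.1 (hα i j)
  rw [e5] at e2
  have a4 := abs_le.1 e2
  rw [e1, abs_le]
  constructor <;> linarith [a3.1, a3.2, a4.1, a4.2]

/-- With `j = 2 T ^ 3 (n + 1) + n ≥ T`, `A = (1 + s + n) n`: the base is at most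
`2 ^ (A 2 ^ j + 6 T + 1 + n) ≤ 2 ^ ((A + 7 + n) 2 ^ j)`, and with `C = m n (A + 7 + n)`,
`C * 2 ^ j ≤ 2 ^ (C + j)`, `C + j ≤ (C + 3 n + 2) T ^ 3`. -/
theorem Lst_bound (m n s : ℕ) : ∃ c : ℕ, ∀ T u : ℕ, 1 ≤ T →
    u ≤ 2 ^ ((1 + s + n) * n * 2 ^ (2 * T ^ 3 * (n + 1) + n)) →
    (u * (2 * (3 * T) + 1) * n) ^ (m * n) ≤ 2 ^ 2 ^ (c * T ^ 3) := by
  obtain ⟨A, hA⟩ : ∃ A, A = (1 + s + n) * n := ⟨_, rfl⟩
  obtain ⟨C, hC⟩ : ∃ C, C = (A + 7 + n) * (m * n) := ⟨_, rfl⟩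
  refine ⟨C + 3 * n + 2, fun T u hT hu => ?_⟩
  rw [← hA] at hu
  have hT3 : T ≤ T ^ 3 := Nat.le_self_pow (by norm_num) T
  obtain ⟨j, hj⟩ : ∃ j, j = 2 * T ^ 3 * (n + 1) + n := ⟨_, rfl⟩
  rw [← hj] at hu
  have hTj : T ≤ j := by rw [hj]; nlinarith
  have hj2 : j ≤ 2 ^ j := Nat.lt_two_pow_self.le
  have h1 : 1 ≤ 2 ^ j := Nat.one_le_two_pow
  have b1 : u * (2 * (3 * T) + 1) * n ≤ 2 ^ (A * 2 ^ j + (2 * (3 * T) + 1) + n) := by
    rw [pow_add, pow_add]
    exact Nat.mul_le_mul (Nat.mul_le_mul hu Nat.lt_two_pow_self.le) Nat.lt_two_pow_self.le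
  have b2 : A * 2 ^ j + (2 * (3 * T) + 1) + n ≤ (A + 7 + n) * 2 ^ j := by nlinarith
  have b3 : C + j ≤ (C + 3 * n + 2) * T ^ 3 := by
    have : 1 ≤ T ^ 3 := hT.trans hT3
    rw [hj]
    nlinarith [Nat.mul_le_mul_left C this, Nat.mul_le_mul_left n this]
  have b4 : (A + 7 + n) * 2 ^ j * (m * n) ≤ 2 ^ ((C + 3 * n + 2) * T ^ 3) := by
    calc (A + 7 + n) * 2 ^ j * (m * n) = C * 2 ^ j := by rw [hC]; ring
      _ ≤ 2 ^ C * 2 ^ j := Nat.mul_le_mul_right _ Nat.lt_two_pow_self.le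
      _ = 2 ^ (C + j) := (pow_add _ _ _).symm
      _ ≤ _ := Nat.pow_le_pow_right (by norm_num) b3
  calc (u * (2 * (3 * T) + 1) * n) ^ (m * n) ≤ (2 ^ ((A + 7 + n) * 2 ^ j)) ^ (m * n) :=
        Nat.pow_le_pow_left (b1.trans (Nat.pow_le_pow_right (by norm_num) b2)) _
    _ = 2 ^ ((A + 7 + n) * 2 ^ j * (m * n)) := (pow_mul _ _ _).symm
    _ ≤ _ := Nat.pow_le_pow_right (by norm_num) b4

end Pool.Agent.Work.MP_9d1ffa_al.GN
end

-- merged part: Pool.Agent.Work.MP_9d1ffa_al.GN.NmB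
section
/-! The largest seminorm below a function; segments; the sets `Ph`. -/

namespace Pool.Agent.Work.MP_9d1ffa_al.GN

open Real Matrix
open G2 (Pl)

variable {K : Type} [Field K] {n : ℕ} {a : AbsoluteValue K ℝ}

/-- The set of values is bounded above, since `c x ≤ ∑ j, a (x j) * w (ee j)` (or use
`IsSn.sum_le`), and contains `0`. -/
theorem le_hull {Φ : Set (V n K)} (hΦ : ∀ j, ee j ∈ Φ) {w c : V n K → ℝ} (hc : IsSn a c)
    (h : ∀ y ∈ Φ, c y ≤ w y) (x : V n K) : c x ≤ hull a Φ w x := by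
  refine le_csSup ⟨∑ j, a (x j) * |w (ee j)|, ?_⟩ ⟨c, ⟨hc, h⟩, rfl⟩
  rintro _ ⟨d, ⟨hd, hw⟩, rfl⟩
  have e : x = ∑ j, x j • (ee j : V n K) := by
    funext i; simp [ee, Finset.sum_apply, Pi.single_apply]
  have h0 : ∀ j, 0 ≤ a (x j) * |w (ee j)| := fun j => mul_nonneg (a.nonneg _) (abs_nonneg _)
  have := hd.sum_le Finset.univ (fun j => x j • (ee j : V n K)) (Finset.sum_nonneg fun j _ => h0 j)
    fun j _ => by
      rw [hd.sm]
      exact (mul_le_mul_of_nonneg_left ((hw _ (hΦ j)).trans (le_abs_self _)) (a.nonneg _)).trans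
        (Finset.single_le_sum (fun j _ => h0 j) (Finset.mem_univ j))
  rwa [← e] at this

theorem NmB_nn {Φ : Set (V n K)} {w : V n K → ℝ} (x : V n K) : 0 ≤ hull a Φ w x :=
  Real.sSup_nonneg (by rintro _ ⟨d, ⟨hd, -⟩, rfl⟩; exact hd.nn x)

theorem NmB_le {Φ : Set (V n K)} {w : V n K → ℝ} {x : V n K} {r : ℝ} (hr : 0 ≤ r)
    (h : ∀ c, IsSn a c → (∀ y ∈ Φ, c y ≤ w y) → c x ≤ r) : hull a Φ w x ≤ r :=
  Real.sSup_le (by rintro _ ⟨d, ⟨hd, hw⟩, rfl⟩; exact h d hd hw) hr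

theorem hull_le {Φ : Set (V n K)} {w : V n K → ℝ} (hw : ∀ y ∈ Φ, 0 ≤ w y) {y : V n K}
    (hy : y ∈ Φ) : hull a Φ w y ≤ w y := by
  exact NmB_le (hw y hy) fun c _ h => h y hy

theorem hull_isSn {Φ : Set (V n K)} (hΦ : ∀ j, ee j ∈ Φ) {w : V n K → ℝ}
    (hw : ∀ y ∈ Φ, 0 ≤ w y) : IsSn a (hull a Φ w) := by
  have _ := hw
  refine ⟨NmB_nn, fun t y => le_antisymm ?_ ?_, fun y z => ?_⟩
  · refine NmB_le (mul_nonneg (a.nonneg _) (NmB_nn _)) fun c hc h => ?_
    rw [hc.sm]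
    exact mul_le_mul_of_nonneg_left (le_hull hΦ hc h y) (a.nonneg _)
  · rcases (a.nonneg t).eq_or_lt with h0 | h0
    · rw [← h0, zero_mul]; exact NmB_nn _
    · rw [← le_div_iff₀' h0]
      refine NmB_le (div_nonneg (NmB_nn _) h0.le) fun c hc h => ?_
      rw [le_div_iff₀' h0, ← hc.sm]
      exact le_hull hΦ hc h _
  · exact NmB_le (le_max_of_le_left (NmB_nn _)) fun c hc h =>
      (hc.ad y z).trans (max_le_max (le_hull hΦ hc h y) (le_hull hΦ hc h z))

/-- `exp (-r) * c` is a seminorm below `w'`. -/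
theorem le_hull' {Φ : Set (V n K)} (hΦ : ∀ j, ee j ∈ Φ) {w c : V n K → ℝ} (hc : IsSn a c) {r : ℝ}
    (h : ∀ y ∈ Φ, c y ≤ exp r * w y) : Le r c (hull a Φ w) := by
  intro x
  have := le_hull hΦ (hc.const_mul (inv_nonneg.2 (exp_pos r).le)) (w := w)
    (fun y hy => (inv_mul_le_iff₀ (exp_pos r)).2 (h y hy)) x
  exact (inv_mul_le_iff₀ (exp_pos r)).1 this

theorem hull_mono {Φ Φ' : Set (V n K)} (hΦ' : ∀ j, ee j ∈ Φ') (hs : Φ' ⊆ Φ) {w w' : V n K → ℝ}
    (hw : ∀ y ∈ Φ, 0 ≤ w y) {r : ℝ} (h : ∀ y ∈ Φ', w y ≤ exp r * w' y) :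
    Le r (hull a Φ w) (hull a Φ' w') := by
  exact le_hull' hΦ' (hull_isSn (fun j => hs (hΦ' j)) hw) fun y hy =>
    (hull_le hw (hs hy)).trans (h y hy)

theorem hull_congr {Φ : Set (V n K)} {w w' : V n K → ℝ} (h : ∀ y ∈ Φ, w y = w' y) :
    hull a Φ w = hull a Φ w' := by
  have : {c : V n K → ℝ | IsSn a c ∧ ∀ y ∈ Φ, c y ≤ w y} =
      {c | IsSn a c ∧ ∀ y ∈ Φ, c y ≤ w' y} := by
    ext c
    exact and_congr_right fun _ => forall₂_congr fun y hy => by rw [h y hy]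
  funext x
  simp only [hull, this]

theorem hull_eq_dg (ha : Pl a) {Φ : Set (V n K)} (hΦ : ∀ j, ee j ∈ Φ) {w : V n K → ℝ}
    {f : GL (Fin n) K} {β : Fin n → ℝ} (hf : ∀ j, cl f j ∈ Φ) (h1 : ∀ y ∈ Φ, dg a f β y ≤ w y)
    (h2 : ∀ j, w (cl f j) ≤ exp (β j)) : hull a Φ w = dg a f β := by
  have hw : ∀ y ∈ Φ, 0 ≤ w y := fun y hy => (dg_nonneg f β y).trans (h1 y hy)
  funext x
  refine le_antisymm ?_ (le_hull hΦ (dg_isSn ha f β) h1 x)
  have := (hull_isSn (a := a) hΦ hw).le_dg (f := f) (β := β) (r := 0)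
    (fun j => by rw [zero_add]; exact (hull_le hw (hf j)).trans (h2 j)) x
  simpa using this

theorem geo_isSn {α β : V n K → ℝ} (hα : ∀ x, 0 ≤ α x) (hβ : ∀ x, 0 ≤ β x) (s : ℝ) :
    IsSn a (geo a α β s) := by
  exact hull_isSn (fun _ => Set.mem_univ _) fun y _ =>
    mul_nonneg (rpow_nonneg (hα y) _) (rpow_nonneg (hβ y) _)

theorem geo_le {α β α' β' : V n K → ℝ} (hα : ∀ x, 0 ≤ α x) (hβ : ∀ x, 0 ≤ β x) {r r' s : ℝ}
    (h0 : 0 ≤ s) (h1 : s ≤ 1) (h : Le r α α') (h' : Le r' β β') :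
    Le ((1 - s) * r + s * r') (geo a α β s) (geo a α' β' s) := by
  refine hull_mono (fun _ => Set.mem_univ _) subset_rfl
    (fun y _ => mul_nonneg (rpow_nonneg (hα y) _) (rpow_nonneg (hβ y) _)) fun y _ => ?_
  have a1 : 0 ≤ α' y := nonneg_of_mul_nonneg_right ((hα y).trans (h y)) (exp_pos r)
  have a2 : 0 ≤ β' y := nonneg_of_mul_nonneg_right ((hβ y).trans (h' y)) (exp_pos r')
  have b1 := rpow_le_rpow (hα y) (h y) (sub_nonneg.2 h1)
  have b2 := rpow_le_rpow (hβ y) (h' y) h0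
  rw [mul_rpow (exp_pos _).le a1, ← exp_mul] at b1
  rw [mul_rpow (exp_pos _).le a2, ← exp_mul] at b2
  refine (mul_le_mul b1 b2 (rpow_nonneg (hβ y) _)
    (mul_nonneg (exp_pos _).le (rpow_nonneg a1 _))).trans (le_of_eq ?_)
  rw [exp_add, mul_comm r, mul_comm r']; ring

theorem geo_dg (ha : Pl a) (f : GL (Fin n) K) (β β' : Fin n → ℝ) {s : ℝ} (h0 : 0 ≤ s)
    (h1 : s ≤ 1) :
    geo a (dg a f β) (dg a f β') s = dg a f fun j => (1 - s) * β j + s * β' j := by
  refine hull_eq_dg ha (fun _ => Set.mem_univ _) (fun _ => Set.mem_univ _) (fun y _ => ?_)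
    fun j => ?_
  · refine dg_le (mul_nonneg (rpow_nonneg (dg_nonneg _ _ _) _) (rpow_nonneg (dg_nonneg _ _ _) _))
      fun j => ?_
    have a0 := a.nonneg (((f⁻¹ : GL (Fin n) K).1 *ᵥ y) j)
    have b1 := rpow_le_rpow (mul_nonneg a0 (exp_pos _).le) (le_dg (a := a) f β y j) (sub_nonneg.2 h1)
    have b2 := rpow_le_rpow (mul_nonneg a0 (exp_pos _).le) (le_dg (a := a) f β' y j) h0
    refine le_trans (le_of_eq ?_) (mul_le_mul b1 b2 (rpow_nonneg (mul_nonneg a0 (exp_pos _).le) _)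
      (rpow_nonneg (dg_nonneg _ _ _) _))
    rw [mul_rpow a0 (exp_pos _).le, mul_rpow a0 (exp_pos _).le, ← exp_mul, ← exp_mul, exp_add,
      mul_mul_mul_comm, ← rpow_add_of_nonneg a0 (sub_nonneg.2 h1) h0, sub_add_cancel, rpow_one,
      mul_comm (β j), mul_comm (β' j)]
  · rw [dg_cl, dg_cl, ← exp_mul, ← exp_mul, exp_add, mul_comm (β j), mul_comm (β' j)]

theorem Ph_mono (S : Finset (GL (Fin n) K)) {j j' : ℕ} (h : j ≤ j') : Ph S j ⊆ Ph S j' := by
  classical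
  refine monotone_nat_of_le_succ (f := Ph S) (fun k x hx => ?_) h
  simp only [Ph, Finset.mem_union]
  exact Or.inl (Or.inl hx)

theorem ee_mem_Ph (S : Finset (GL (Fin n) K)) (j : ℕ) (l : Fin n) : ee l ∈ Ph S j := by
  refine Ph_mono S (Nat.zero_le j) ?_
  simp only [Ph, Finset.mem_image]
  exact ⟨l, Finset.mem_univ _, rfl⟩

theorem Ph_smul {S : Finset (GL (Fin n) K)} {g : GL (Fin n) K} (hg : g ∈ S) {j : ℕ} {x : V n K}
    (hx : x ∈ Ph S j) : g.1 *ᵥ x ∈ Ph S (j + 1) := by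
  simp only [Ph, Finset.mem_union, Finset.mem_image₂]
  exact Or.inl (Or.inr ⟨g, hg, x, hx, rfl⟩)

theorem Ph_elim {S : Finset (GL (Fin n) K)} {j : ℕ} {x x' : V n K} (hx : x ∈ Ph S j)
    (hx' : x' ∈ Ph S j) (l : Fin n) : x - (x l / x' l) • x' ∈ Ph S (j + 1) := by
  simp only [Ph, Finset.mem_union, Finset.mem_image]
  exact Or.inr ⟨(x, x', l), by simp [hx, hx'], rfl⟩

/-- With `c = 1 + card S + n` and `u j = card (Ph S j)`: `u (j + 1) ≤ c * u j ^ 2`, so
`c * u j ≤ (c * n) ^ 2 ^ j`, and `x ≤ 2 ^ x`. -/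
theorem Ph_card (S : Finset (GL (Fin n) K)) (j : ℕ) :
    (Ph S j).card ≤ 2 ^ ((1 + S.card + n) * n * 2 ^ j) := by
  classical
  have h1 : ∀ k, (Ph S (k + 1)).card ≤ (1 + S.card + n) * (Ph S k).card ^ 2 := by
    intro k
    have a1 : (Ph S (k + 1)).card ≤
        (Ph S k).card + S.card * (Ph S k).card + (Ph S k).card * ((Ph S k).card * n) := by
      rw [Ph]
      refine (Finset.card_union_le _ _).trans (Nat.add_le_add ((Finset.card_union_le _ _).trans
        (Nat.add_le_add_left (Finset.card_image₂_le _ _ _) _)) (Finset.card_image_le.trans ?_))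
      simp
    have a2 : (Ph S k).card ≤ (Ph S k).card ^ 2 := Nat.le_self_pow two_ne_zero _
    nlinarith [Nat.mul_le_mul_left S.card a2]
  have h2 : ∀ k, (1 + S.card + n) * (Ph S k).card ≤ ((1 + S.card + n) * n) ^ 2 ^ k := by
    intro k
    induction k with
    | zero =>
      have : (Ph S 0).card ≤ n := by
        rw [Ph]; exact Finset.card_image_le.trans (by simp)
      rw [pow_zero, pow_one]
      exact Nat.mul_le_mul_left _ this
    | succ k ih =>
      calc (1 + S.card + n) * (Ph S (k + 1)).card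
          ≤ (1 + S.card + n) * ((1 + S.card + n) * (Ph S k).card ^ 2) :=
            Nat.mul_le_mul_left _ (h1 k)
        _ = ((1 + S.card + n) * (Ph S k).card) ^ 2 := by ring
        _ ≤ (((1 + S.card + n) * n) ^ 2 ^ k) ^ 2 := Nat.pow_le_pow_left ih 2
        _ = _ := by rw [← pow_mul, pow_succ]
  calc (Ph S j).card ≤ (1 + S.card + n) * (Ph S j).card := Nat.le_mul_of_pos_left _ (by omega)
    _ ≤ ((1 + S.card + n) * n) ^ 2 ^ j := h2 j
    _ ≤ (2 ^ ((1 + S.card + n) * n)) ^ 2 ^ j := Nat.pow_le_pow_left Nat.lt_two_pow_self.le _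
    _ = _ := by rw [← pow_mul]

/-- Interleaving: `act g⁻¹` of the left side is a seminorm below `y` on `Ph S j`. -/
theorem hull_act {S : Finset (GL (Fin n) K)} {g : GL (Fin n) K} (hg : g ∈ S) (j : ℕ)
    {y : V n K → ℝ} (hy : ∀ x, 0 ≤ y x) :
    Le 0 (hull a (Ph S (j + 1)) (act g y)) (act g (hull a (Ph S j) y)) := by
  have hw : ∀ x ∈ (Ph S (j + 1) : Set (V n K)), 0 ≤ act g y x := fun x _ => hy _
  have h1 : Le 0 (act g⁻¹ (hull a (Ph S (j + 1)) (act g y))) (hull a (Ph S j) y) := by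
    refine le_hull' (fun l => ee_mem_Ph S j l)
      (act_isSn (hull_isSn (fun l => ee_mem_Ph S (j + 1) l) hw) _) fun x hx => ?_
    have := hull_le (a := a) hw (Ph_smul hg hx)
    rw [act_mulVec] at this
    simpa [act] using this
  have h2 := h1.act g
  rwa [← act_mul, mul_inv_cancel, act_one] at h2

end Pool.Agent.Work.MP_9d1ffa_al.GN
end

-- merged part: Pool.Agent.Work.MP_9d1ffa_al.GN.Gr
section
/-! Lemma (GR): the hull of finitely many constraints is diagonal. Sorting of frames. -/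

namespace Pool.Agent.Work.MP_9d1ffa_al.GN

open Real Matrix
open G2 (Pl)

variable {K : Type} [Field K] {n : ℕ} {a : AbsoluteValue K ℝ}

/-- Among the tuples `u : Fin n → V n K` of nonzero elements of `Φ` maximise
`a (det) / ∏ j, w (u j)` (`Finset.exists_max_image`, the tuple `ee` shows the maximum is positive).
`f` is the matrix with columns `u j`, `β j = log (w (u j))`. For `x ∈ Φ`, `x ≠ 0`, the coordinate
`(f⁻¹ x) j` is `det (updateCol f j x) / det f` (`Matrix.cramer`, `Matrix.mulVec_cramer`), and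
maximality gives `a ((f⁻¹ x) j) * w (u j) ≤ w x`. Then `hull_eq_dg`. -/
theorem greedy (ha : Pl a) (Φ : Finset (V n K)) (hΦ : ∀ j, ee j ∈ Φ) {w : V n K → ℝ}
    (hw : ∀ y ∈ Φ, 0 ≤ w y) (hw' : ∀ y ∈ Φ, y ≠ 0 → 0 < w y) :
    ∃ (f : GL (Fin n) K) (β : Fin n → ℝ), (∀ j, cl f j ∈ Φ) ∧ hull a Φ w = dg a f β := by
  classical
  have hee : ∀ j : Fin n, (ee j : V n K) ≠ 0 := fun j => cl_one (K := K) j ▸ cl_ne 1 j
  have hmem : ∀ {u : Fin n → V n K}, u ∈ Fintype.piFinset (fun _ => Φ.filter (· ≠ 0)) ↔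
      ∀ j, u j ∈ Φ ∧ u j ≠ 0 := by simp
  obtain ⟨u, hu, hmax⟩ := Finset.exists_max_image (Fintype.piFinset fun _ => Φ.filter (· ≠ 0))
    (fun u : Fin n → V n K => a (Matrix.of u)ᵀ.det / ∏ j, w (u j))
    ⟨ee, hmem.2 fun j => ⟨hΦ j, hee j⟩⟩
  have hpos : ∀ j, 0 < w (u j) := fun j => hw' _ (hmem.1 hu j).1 (hmem.1 hu j).2
  have hdet : (Matrix.of u)ᵀ.det ≠ 0 := fun h0 => by
    have h1 := hmax ee (hmem.2 fun j => ⟨hΦ j, hee j⟩)
    have h2 : (Matrix.of (ee : Fin n → V n K))ᵀ = 1 := by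
      ext i j
      simp [ee, Matrix.one_apply, Pi.single_apply]
    rw [h0, h2, Matrix.det_one, map_zero, map_one, zero_div] at h1
    exact absurd h1 (not_le.2 (one_div_pos.2 (Finset.prod_pos fun j _ => hw' _ (hΦ j) (hee j))))
  refine ⟨GeneralLinearGroup.mkOfDetNeZero _ hdet, fun j => log (w (u j)),
    fun j => (hmem.1 hu j).1, hull_eq_dg ha hΦ (fun j => (hmem.1 hu j).1) (fun y hy => ?_)
      fun j => (exp_log (hpos j)).ge⟩
  by_cases h0 : y = 0
  · rw [h0, (dg_isSn ha _ _).zero]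
    exact hw _ (h0 ▸ hy)
  refine dg_le (hw y hy) fun j => ?_
  have h1 := hmax (Function.update u j y) (hmem.2 fun i => by
    rcases eq_or_ne i j with rfl | h
    · rw [Function.update_self]
      exact ⟨hy, h0⟩
    · rw [Function.update_of_ne h]
      exact hmem.1 hu i)
  have h2 : (Matrix.of (Function.update u j y))ᵀ.det =
      (Matrix.of u)ᵀ.det * ((Matrix.of u)ᵀ⁻¹ *ᵥ y) j := by
    rw [← smul_eq_mul, ← Pi.smul_apply, det_smul_inv_mulVec_eq_cramer _ _ hdet.isUnit,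
      cramer_apply, updateCol_transpose]
    rfl
  have h3 : ∏ i, w (Function.update u j y i) = w y * ∏ i ∈ Finset.univ.erase j, w (u i) := by
    rw [← Finset.mul_prod_erase _ _ (Finset.mem_univ j), Function.update_self]
    exact congrArg _ (Finset.prod_congr rfl fun i hi => by
      rw [Function.update_of_ne (Finset.ne_of_mem_erase hi)])
  have h4 : 0 < ∏ i ∈ Finset.univ.erase j, w (u i) := Finset.prod_pos fun i _ => hpos i
  rw [h2, h3, map_mul, ← Finset.mul_prod_erase _ _ (Finset.mem_univ j),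
    div_le_div_iff₀ (mul_pos (hw' y hy h0) h4) (mul_pos (hpos j) h4)] at h1
  rw [exp_log (hpos j), Matrix.coe_units_inv]
  exact le_of_mul_le_mul_left (a := a (Matrix.of u)ᵀ.det * ∏ i ∈ Finset.univ.erase j, w (u i))
    (by
      change _ * (a (((Matrix.of u)ᵀ⁻¹ *ᵥ y) j) * _) ≤ _
      linarith) (mul_pos (a.pos hdet) h4)

/-- Permute the columns by `Tuple.sort α` (`Tuple.monotone_sort`); for instance
`f' = f * (permutation matrix)`, and use `IsSn.le_dg` in both directions. -/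
theorem Fr.sort (ha : Pl a) {g y : V n K → ℝ} {f : GL (Fin n) K} {β α : Fin n → ℝ}
    (h : Fr a g y f β α) : ∃ (σ : Equiv.Perm (Fin n)) (f' : GL (Fin n) K),
      (∀ j, cl f' j = cl f (σ j)) ∧ Fr a g y f' (β ∘ σ) (α ∘ σ) ∧ Monotone (α ∘ σ) := by
  obtain ⟨f', hf'⟩ : ∃ f' : GL (Fin n) K, ∀ j, cl f' j = cl f (Tuple.sort α j) :=
    ⟨GeneralLinearGroup.mkOfDetNeZero (f.1.submatrix id (Tuple.sort α)) (by
      rw [det_permute']
      refine mul_ne_zero ?_ f.det_ne_zero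
      rcases Int.units_eq_one_or (Equiv.Perm.sign (Tuple.sort α)) with h | h <;> simp [h]),
      fun _ => rfl⟩
  have key : ∀ γ : Fin n → ℝ, dg a f γ = dg a f' (γ ∘ Tuple.sort α) := fun γ =>
    Nr.eq ⟨(dg_isSn ha _ _).le_dg fun j => by rw [hf', dg_cl, zero_add, Function.comp_apply],
      (dg_isSn ha _ _).le_dg fun j => by
        rw [← (Tuple.sort α).apply_symm_apply j, ← hf', dg_cl, zero_add, Function.comp_apply]⟩
  exact ⟨_, f', hf', ⟨h.hy.trans (key β), h.hg.trans (key _)⟩, Tuple.monotone_sort α⟩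

end Pool.Agent.Work.MP_9d1ffa_al.GN
end

-- merged part: Pool.Agent.Work.MP_9d1ffa_al.GN.Ad
section
/-! Lemma (AD): a common orthogonal basis with the sup norm, by elimination. -/

namespace Pool.Agent.Work.MP_9d1ffa_al.GN

open Real Matrix
open G2 (Pl)

variable {K : Type} [Field K] {n : ℕ} {a : AbsoluteValue K ℝ}

/-- Orthogonality of a family on a finite set of indices. -/
private def Ad_Or (a : AbsoluteValue K ℝ) (c : V n K → ℝ) (s : Finset (Fin n))
    (u : Fin n → V n K) : Prop :=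
  ∀ t : Fin n → K, ∀ j ∈ s, a (t j) * c (u j) ≤ c (∑ i ∈ s, t i • u i)

private theorem Ad_sub {c : V n K → ℝ} (hc : IsSn a c) (x z : V n K) :
    c (x - z) ≤ max (c x) (c z) := by
  have h := hc.ad x (-z)
  rwa [hc.neg, ← sub_eq_add_neg] at h

private theorem Ad_sum_upd {s : Finset (Fin n)} {j1 : Fin n} (hj : j1 ∉ s) (w : Fin n → V n K)
    (v : V n K) (t : Fin n → K) :
    ∑ i ∈ insert j1 s, t i • Function.update w j1 v i = ∑ i ∈ s, t i • w i + t j1 • v := by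
  rw [Finset.sum_insert hj, Function.update_self, add_comm]
  congr 1
  refine Finset.sum_congr rfl fun i hi => ?_
  rw [Function.update_of_ne (by rintro rfl; exact hj hi)]

/-- Adding a vector orthogonal to the span. -/
private theorem Ad_ext {c : V n K → ℝ} (hc : IsSn a c) {s : Finset (Fin n)} {j1 : Fin n}
    (hj : j1 ∉ s) {w : Fin n → V n K} {v : V n K} (hw : Ad_Or a c s w)
    (hv : ∀ (r : Fin n → K) (t : K), a t * c v ≤ c (∑ i ∈ s, r i • w i + t • v)) :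
    Ad_Or a c (insert j1 s) (Function.update w j1 v) := by
  intro t j hjm
  rw [Ad_sum_upd hj]
  rcases Finset.mem_insert.1 hjm with rfl | hjs
  · rw [Function.update_self]
    exact hv t (t j)
  · rw [Function.update_of_ne (by rintro rfl; exact hj hjs)]
    refine (hw t j hjs).trans ?_
    have h := Ad_sub hc (∑ i ∈ s, t i • w i + t j1 • v) (t j1 • v)
    rw [add_sub_cancel_right, hc.sm] at h
    exact h.trans (max_le le_rfl (hv t (t j1)))

private theorem Ad_g0_ex {x : V n K} (hx : x ≠ 0) : ∃ l, x l ≠ 0 ∧ g0 a x = a (x l) := by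
  obtain ⟨l, h1, h2⟩ := dg_ex (a := a) (1 : GL (Fin n) K) 0 hx
  refine ⟨l, by simpa using h1, ?_⟩
  rw [g0, h2]
  simp

private theorem Ad_ind (ha : Pl a) {y : V n K → ℝ} (hy : IsSn a y) {S : Finset (GL (Fin n) K)}
    (m : ℕ) : ∀ (s : Finset (Fin n)) (u : Fin n → V n K) (j0 : ℕ), s.card = m →
      Ad_Or a y s u → (∀ j ∈ s, 0 < y (u j)) → (∀ j ∈ s, u j ∈ Ph S j0) →
      ∃ u' : Fin n → V n K, (∀ j ∈ s, u' j ∈ Ph S (j0 + m)) ∧
        (∀ j ∈ s, u' j ∈ Submodule.span K (u '' s)) ∧ Ad_Or a y s u' ∧ Ad_Or a (g0 a) s u' ∧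
        ∀ j ∈ s, 0 < y (u' j) := by
  have hg : IsSn a (g0 a : V n K → ℝ) := dg_isSn ha 1 0
  induction m with
  | zero =>
    intro s u j0 hs _ _ _
    obtain rfl := Finset.card_eq_zero.1 hs
    refine ⟨u, ?_, ?_, ?_, ?_, ?_⟩
    · simp
    · simp
    · intro t j hj; simp at hj
    · intro t j hj; simp at hj
    · simp
  | succ m ih =>
    intro s u j0 hs ho hp hm
    have hne : s.Nonempty := Finset.card_pos.1 (by omega)
    obtain ⟨j1, hj1, hmax⟩ := Finset.exists_max_image s (fun j => g0 a (u j) / y (u j)) hne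
    obtain ⟨s', hj', rfl⟩ : ∃ s' : Finset (Fin n), j1 ∉ s' ∧ s = insert j1 s' :=
      ⟨s.erase j1, by simp, (Finset.insert_erase hj1).symm⟩
    have hs' : s'.card = m := by
      rw [Finset.card_insert_of_notMem hj'] at hs
      omega
    have hu0 : u j1 ≠ 0 := by
      intro h
      have := hp j1 hj1
      rw [h, hy.zero] at this
      exact lt_irrefl _ this
    obtain ⟨l, hl0, hl⟩ := Ad_g0_ex (a := a) hu0
    have hapos : 0 < a (u j1 l) := a.pos hl0
    have hy1 : 0 < y (u j1) := hp j1 hj1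
    obtain ⟨e, he⟩ : ∃ e : Fin n → K, ∀ j, e j = u j l / u j1 l := ⟨_, fun _ => rfl⟩
    obtain ⟨w, hw⟩ : ∃ w : Fin n → V n K, ∀ j, w j = u j - e j • u j1 := ⟨_, fun _ => rfl⟩
    have hins : ∀ j ∈ s', j ∈ insert j1 s' := fun j hj => Finset.mem_insert_of_mem hj
    have hneq : ∀ j ∈ s', j ≠ j1 := fun j hj h => hj' (h ▸ hj)
    have hc : ∀ j ∈ s', a (e j) * y (u j1) ≤ y (u j) := by
      intro j hj
      have h1 := hmax j (hins j hj)
      have hyj := hp j (hins j hj)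
      have h2 : a (u j l) ≤ g0 a (u j) := le_g0 _ _
      rw [hl, div_le_div_iff₀ hyj hy1] at h1
      rw [he, map_div₀, div_mul_eq_mul_div, div_le_iff₀ hapos]
      nlinarith [mul_le_mul_of_nonneg_right h2 hy1.le]
    have hsum : ∀ (r : Fin n → K) (t : K), ∑ i ∈ s', r i • w i + t • u j1 =
        ∑ i ∈ insert j1 s', Function.update r j1 (t - ∑ i ∈ s', r i * e i) i • u i := by
      intro r t
      rw [Finset.sum_insert hj', Function.update_self, sub_smul, Finset.sum_smul]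
      have h1 : ∑ i ∈ s', Function.update r j1 (t - ∑ i ∈ s', r i * e i) i • u i =
          ∑ i ∈ s', r i • u i :=
        Finset.sum_congr rfl fun i hi => by rw [Function.update_of_ne (hneq i hi)]
      have h2 : ∑ i ∈ s', r i • w i = ∑ i ∈ s', r i • u i - ∑ i ∈ s', (r i * e i) • u j1 := by
        rw [← Finset.sum_sub_distrib]
        exact Finset.sum_congr rfl fun i _ => by rw [hw, smul_sub, mul_smul]
      rw [h1, h2]
      abel
    have hlow : ∀ (r : Fin n → K) (t : K), ∀ j ∈ s',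
        a (r j) * y (u j) ≤ y (∑ i ∈ s', r i • w i + t • u j1) := by
      intro r t j hj
      have h := ho (Function.update r j1 (t - ∑ i ∈ s', r i * e i)) j (hins j hj)
      rwa [← hsum, Function.update_of_ne (hneq j hj)] at h
    have hwle : ∀ j ∈ s', y (w j) ≤ y (u j) := by
      intro j hj
      rw [hw]
      refine (Ad_sub hy _ _).trans (max_le le_rfl ?_)
      rw [hy.sm]
      exact hc j hj
    have hwge : ∀ j ∈ s', y (u j) ≤ y (w j) := by
      intro j hj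
      have h := hlow (Pi.single j 1) 0 j hj
      rw [Finset.sum_eq_single j, zero_smul, add_zero] at h
      · simpa using h
      · intro i _ hi
        simp [hi]
      · intro h'
        exact absurd hj h'
    have hwo : Ad_Or a y s' w := by
      intro t j hj
      have h := hlow t 0 j hj
      rw [zero_smul, add_zero] at h
      exact (mul_le_mul_of_nonneg_left (hwle j hj) (a.nonneg _)).trans h
    have hv : ∀ (r : Fin n → K) (t : K),
        a t * y (u j1) ≤ y (∑ i ∈ s', r i • w i + t • u j1) := by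
      intro r t
      have h := Ad_sub hy (∑ i ∈ s', r i • w i + t • u j1) (∑ i ∈ s', r i • w i)
      rw [add_sub_cancel_left, hy.sm] at h
      refine h.trans (max_le le_rfl (hy.sum_le s' _ (hy.nn _) fun i hi => ?_))
      rw [hy.sm]
      exact (mul_le_mul_of_nonneg_left (hwle i hi) (a.nonneg _)).trans (hlow r t i hi)
    have hwm : ∀ j ∈ s', w j ∈ Ph S (j0 + 1) := by
      intro j hj
      rw [hw, he]
      exact Ph_elim (hm j (hins j hj)) (hm j1 hj1) l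
    obtain ⟨u', h1, h2, h3, h4, h5⟩ := ih s' w (j0 + 1) hs' hwo
      (fun j hj => (hp j (hins j hj)).trans_le (hwge j hj)) hwm
    have hspan : ∀ r : Fin n → K, ∃ r' : Fin n → K,
        ∑ i ∈ s', r' i • w i = ∑ i ∈ s', r i • u' i := fun r =>
      (Submodule.mem_span_image_finset_iff_exists_fun' K).1
        (Submodule.sum_mem _ fun i hi => Submodule.smul_mem _ _ (h2 i hi))
    refine ⟨Function.update u' j1 (u j1), ?_, ?_, Ad_ext hy hj' h3 ?_, Ad_ext hg hj' h4 ?_, ?_⟩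
    · intro j hj
      rcases Finset.mem_insert.1 hj with rfl | hj
      · rw [Function.update_self]
        exact Ph_mono S (by omega) (hm j hj1)
      · rw [Function.update_of_ne (hneq j hj)]
        exact Ph_mono S (by omega) (h1 j hj)
    · intro j hj
      have hu : ∀ i ∈ insert j1 s', u i ∈ Submodule.span K (u '' (insert j1 s' : Finset (Fin n))) :=
        fun i hi => Submodule.subset_span ⟨i, hi, rfl⟩
      rcases Finset.mem_insert.1 hj with rfl | hj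
      · rw [Function.update_self]
        exact hu j hj1
      · rw [Function.update_of_ne (hneq j hj)]
        refine Submodule.span_le.2 ?_ (h2 j hj)
        rintro _ ⟨i, hi, rfl⟩
        rw [hw]
        exact Submodule.sub_mem _ (hu i (hins i hi)) (Submodule.smul_mem _ _ (hu j1 hj1))
    · intro r t
      obtain ⟨r', hr'⟩ := hspan r
      rw [← hr']
      exact hv r' t
    · intro r t
      obtain ⟨r', hr'⟩ := hspan r
      rw [← hr']
      refine le_trans (le_of_eq ?_) (le_g0 _ l)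
      have h0 : (∑ i ∈ s', r' i • w i) l = 0 := by
        rw [Finset.sum_apply]
        refine Finset.sum_eq_zero fun i _ => ?_
        rw [hw, he]
        simp [div_mul_cancel₀ _ hl0]
      rw [Pi.add_apply, h0, zero_add, Pi.smul_apply, smul_eq_mul, map_mul, hl]
    · intro j hj
      rcases Finset.mem_insert.1 hj with rfl | hj
      · rw [Function.update_self]
        exact hy1
      · rw [Function.update_of_ne (hneq j hj)]
        exact h5 j hj

private theorem Ad_eq {c : V n K → ℝ} (hc : IsSn a c) {f : GL (Fin n) K}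
    (ho : Ad_Or a c Finset.univ (cl f)) (hp : ∀ j, 0 < c (cl f j)) :
    c = dg a f fun j => Real.log (c (cl f j)) := by
  funext x
  refine le_antisymm ?_ (dg_le (hc.nn x) fun j => ?_)
  · have h := hc.le_dg (f := f) (β := fun j => Real.log (c (cl f j))) (r := 0)
      (fun j => by rw [zero_add, Real.exp_log (hp j)]) x
    rwa [Real.exp_zero, one_mul] at h
  · rw [Real.exp_log (hp j)]
    have h := ho ((f⁻¹ : GL (Fin n) K).1 *ᵥ x) j (Finset.mem_univ j)
    rwa [← eq_sum_cl f x] at h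

private theorem Ad_mulVec (M : Matrix (Fin n) (Fin n) K) (t : Fin n → K) :
    M *ᵥ t = ∑ i, t i • fun p => M p i := by
  funext p
  simp [Matrix.mulVec, dotProduct, Finset.sum_apply, mul_comm]

/-- Call `u : A → V n K` orthogonal on `s : Finset A` for a seminorm `c` if
`a (t j) * c (u j) ≤ c (∑ i ∈ s, t i • u i)` for all `t` and `j ∈ s`. Induction on `s` (strong, on
the cardinality, for all `u` and levels): if `u` is `y`-orthogonal on `s` with `0 < y (u j)` and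
`u j ∈ Ph S j0`, there is `u'` with `u' j ∈ Ph S (j0 + card s)`, the same span, orthogonal on `s`
for `y` and for `g0`, `0 < y (u' j)`. Step: `j1` maximises `g0 (u j) / y (u j)`, `l` a coordinate
with `a (u j1 l) = g0 (u j1)`; replace `u j` by `u j - (u j l / u j1 l) • u j1` for `j ≠ j1`
(`Ph_elim`); the new family is again `y`-orthogonal on `s` with the same values, the new vectors
have `l`-th coordinate `0`; apply the hypothesis on `s.erase j1` and add `u j1`. At the end the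
family spans everything, so its matrix is invertible; `β' j = log (y (u' j))`. -/
theorem adapt (ha : Pl a) {S : Finset (GL (Fin n) K)} {j0 : ℕ} {f : GL (Fin n) K}
    (hf : ∀ j, cl f j ∈ Ph S j0) (β : Fin n → ℝ) :
    ∃ (f' : GL (Fin n) K) (β' α : Fin n → ℝ), (∀ j, cl f' j ∈ Ph S (j0 + n)) ∧
      Fr a (g0 a) (dg a f β) f' β' α := by
  have hy : IsSn a (dg a f β) := dg_isSn ha f β
  have hg : IsSn a (g0 a : V n K → ℝ) := dg_isSn ha 1 0
  have ho : Ad_Or a (dg a f β) Finset.univ (cl f) := by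
    intro t j _
    have h := le_dg (a := a) f β (f.1 *ᵥ t) j
    rw [Matrix.mulVec_mulVec, ← Units.val_mul, inv_mul_cancel, Units.val_one,
      Matrix.one_mulVec, Ad_mulVec] at h
    rw [dg_cl]
    exact h
  obtain ⟨u, h1, _, h3, h4, h5⟩ := Ad_ind ha hy (S := S) n Finset.univ (cl f) j0 (by simp) ho
    (fun j _ => by rw [dg_cl]; exact Real.exp_pos _) (fun j _ => hf j)
  have hinj : Function.Injective (Matrix.of fun p j => u j p : Matrix (Fin n) (Fin n) K).mulVec := by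
    intro t t' htt
    have h0 : (Matrix.of fun p j => u j p : Matrix (Fin n) (Fin n) K) *ᵥ (t - t') = 0 := by
      rw [Matrix.mulVec_sub, htt, sub_self]
    rw [Ad_mulVec] at h0
    funext j
    have h := h3 (t - t') j (Finset.mem_univ j)
    have h0' : ∑ i, (t - t') i • u i = 0 := h0
    rw [h0', hy.zero] at h
    have h6 : a ((t - t') j) ≤ 0 := by
      by_contra h7
      exact absurd h (not_le.2 (mul_pos (not_le.1 h7) (h5 j (Finset.mem_univ j))))
    have h8 : (t - t') j = 0 := a.eq_zero.1 (le_antisymm h6 (a.nonneg _))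
    exact sub_eq_zero.1 h8
  obtain ⟨f', hf'⟩ := Matrix.mulVec_injective_iff_isUnit.1 hinj
  have hcl : cl f' = u := by
    funext j p
    rw [cl, hf']
    rfl
  subst hcl
  refine ⟨f', fun j => Real.log (dg a f β (cl f' j)),
    fun j => Real.log (dg a f β (cl f' j)) - Real.log (g0 a (cl f' j)),
    fun j => h1 j (Finset.mem_univ j), Ad_eq hy h3 fun j => h5 j (Finset.mem_univ j), ?_⟩
  rw [Ad_eq hg h4 fun j => dg_pos 1 0 (cl_ne f' j)]
  congr 1
  funext j
  rw [← Ad_eq hg h4 fun j => dg_pos 1 0 (cl_ne f' j)]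
  simp

end Pool.Agent.Work.MP_9d1ffa_al.GN
end

-- merged part: Pool.Agent.Work.MP_9d1ffa_al.GN.SpA
section
/-! The set `InX`: frames, closure under `phi`. -/

namespace Pool.Agent.Work.MP_9d1ffa_al.GN

open Real Matrix
open G2 (Pl)

variable {K : Type} [Field K] {n : ℕ} {a : AbsoluteValue K ℝ} {S : Finset (GL (Fin n) K)} {T : ℕ}
  {κ : ℝ}

private theorem SpA_ee (S : Finset (GL (Fin n) K)) (m : ℕ) (l : Fin n) :
    ee l ∈ ((Ph S m : Finset (V n K)) : Set (V n K)) :=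
  Finset.mem_coe.2 (ee_mem_Ph S m l)

private theorem SpA_g0nn (x : V n K) : 0 ≤ g0 a x := dg_nonneg 1 0 x

private theorem SpA_hull_dg (ha : Pl a) {m : ℕ} {f : GL (Fin n) K} (hf : ∀ j, cl f j ∈ Ph S m)
    (β : Fin n → ℝ) : hull a (Ph S m) (dg a f β) = dg a f β :=
  hull_eq_dg ha (SpA_ee S m) (fun j => Finset.mem_coe.2 (hf j)) (fun _ _ => le_rfl)
    fun j => (dg_cl f β j).le

private theorem SpA_hull_g0 (ha : Pl a) (m : ℕ) :
    hull a (Ph S m) (g0 a : V n K → ℝ) = g0 a :=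
  SpA_hull_dg ha (f := 1) (fun j => by rw [cl_one]; exact ee_mem_Ph S m j) 0

private theorem SpA_le_hull {y : V n K → ℝ} (hy : IsSn a y) (m : ℕ) :
    Le 0 y (hull a (Ph S m) y) := by
  intro x
  rw [exp_zero, one_mul]
  exact le_hull (SpA_ee S m) hy (fun _ _ => le_rfl) x

private theorem SpA_hull_le {r : ℝ} {y y' : V n K → ℝ} (hy : ∀ x, 0 ≤ y x) (h : Le r y y')
    (m : ℕ) : Le r (hull a (Ph S m) y) (hull a (Ph S m) y') :=
  hull_mono (SpA_ee S m) subset_rfl (fun x _ => hy x) fun x _ => h x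

private theorem SpA_geo_g0 (ha : Pl a) {s : ℝ} (h0 : 0 ≤ s) (h1 : s ≤ 1) :
    geo a (g0 a) (g0 a : V n K → ℝ) s = g0 a := by
  unfold g0
  rw [geo_dg ha 1 0 0 h0 h1]
  refine congrArg _ (funext fun j => ?_)
  simp

private theorem SpA_s0 (hT : κ ≤ T) : 0 ≤ 1 - κ / T :=
  sub_nonneg.2 (div_le_one_of_le₀ hT (Nat.cast_nonneg _))

private theorem SpA_s1 (h1 : 1 ≤ κ) : 1 - κ / T ≤ 1 :=
  sub_le_self _ (div_nonneg (by linarith) (Nat.cast_nonneg _))

theorem InX.pos {y : V n K → ℝ} (hy : InX a S T κ y) {x : V n K} (hx : x ≠ 0) : 0 < y x := by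
  have h : 0 < g0 a x := dg_pos 1 0 hx
  exact (mul_pos_iff_of_pos_left (exp_pos _)).1 (h.trans_le (hy.lo x))

theorem InX.nr {y y' : V n K → ℝ} (hy : InX a S T κ y) (hy' : InX a S T κ y') :
    Nr (2 * T) y y' := by
  rw [two_mul]
  exact ⟨hy.hi.trans hy'.lo, hy'.hi.trans hy.lo⟩

/-- `hull_eq_dg` with `f = 1`. -/
theorem g0_mem (ha : Pl a) (hκ : κ ≤ T) : InX a S T κ (g0 a : V n K → ℝ) := by
  refine ⟨dg_isSn ha 1 0, Le.rfl.mono SpA_g0nn (Nat.cast_nonneg _),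
    Le.rfl.mono SpA_g0nn (Nat.cast_nonneg _), fun j _ => ?_, SpA_hull_g0 ha _⟩
  rw [SpA_hull_g0 ha]
  exact Le.rfl.mono SpA_g0nn (mul_nonneg (by positivity) (pow_nonneg (SpA_s0 hκ) _))

private theorem SpA_alpha {y : V n K → ℝ} (hy : InX a S T κ y) {f : GL (Fin n) K}
    {β α : Fin n → ℝ} (h : Fr a (g0 a) y f β α) (j : Fin n) : |α j| ≤ T := by
  have h1 := hy.lo
  have h2 := hy.hi
  rw [h.hg, h.hy] at h1 h2
  have h3 := dg_le_iff.1 h1 j
  have h4 := dg_le_iff.1 h2 j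
  rw [Pi.sub_apply] at h3 h4
  exact abs_le.2 ⟨by linarith, by linarith⟩

/-- `greedy` for `top`, `adapt`, `Fr.sort`; the bound on `α` from `lo`, `hi` at the columns. -/
theorem InX.frame (ha : Pl a) {y : V n K → ℝ} (hy : InX a S T κ y) :
    ∃ (f : GL (Fin n) K) (β α : Fin n → ℝ), Fr a (g0 a) y f β α ∧ Monotone α ∧
      (∀ j, cl f j ∈ Ph S (2 * T ^ 3 * (n + 1) + n)) ∧ ∀ j, |α j| ≤ T := by
  obtain ⟨f, β, hf, hd⟩ := greedy ha (Ph S (2 * T ^ 3 * (n + 1))) (ee_mem_Ph S _) (w := y)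
    (fun x _ => hy.sn.nn x) fun x _ hx => hy.pos hx
  rw [hy.top] at hd
  obtain ⟨f', β', α, hf', hr⟩ := adapt ha hf β
  rw [← hd] at hr
  obtain ⟨σ, f'', hc, hr', hm⟩ := hr.sort ha
  refine ⟨f'', β' ∘ σ, α ∘ σ, hr', hm, fun j => ?_, SpA_alpha hy hr'⟩
  rw [hc]
  exact hf' _

/-- Scaling step: `z = hull a (Ph S j) y` is diagonal in a basis from `Ph S j` (`greedy`), so
`geo a g0 z s` is diagonal in a basis from `Ph S (j + n)` (`adapt`, `geo_dg`) and is fixed by the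
hull (`hull_eq_dg`); `y ≤ z ≤ exp ψ * y`, `geo_le`, `hull_mono`. -/
theorem hull_geo (ha : Pl a) {y : V n K → ℝ} (hy : IsSn a y) (hp : ∀ x, x ≠ 0 → 0 < y x) {j : ℕ}
    {ψ s : ℝ} (h0 : 0 ≤ s) (h1 : s ≤ 1) (h : Le ψ (hull a (Ph S j) y) y) :
    Le (s * ψ) (hull a (Ph S (j + n)) (geo a (g0 a) y s)) (geo a (g0 a) y s) := by
  obtain ⟨f, β, hf, hd⟩ := greedy ha (Ph S j) (ee_mem_Ph S _) (w := y)
    (fun x _ => hy.nn x) fun x _ hx => hp x hx
  obtain ⟨f', β', α, hf', hr⟩ := adapt ha hf β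
  have hz : hull a (Ph S (j + n)) (geo a (g0 a) (hull a (Ph S j) y) s) =
      geo a (g0 a) (hull a (Ph S j) y) s := by
    rw [hd, hr.hy, hr.hg, geo_dg ha _ _ _ h0 h1]
    exact SpA_hull_dg ha hf' _
  have a1 := SpA_hull_le (a := a) (S := S) (geo_isSn (a := a) SpA_g0nn hy.nn s).nn
    (geo_le (a := a) (α := g0 a) SpA_g0nn hy.nn h0 h1 Le.rfl (SpA_le_hull (S := S) hy j)) (j + n)
  rw [hz] at a1
  have hzn : ∀ x, 0 ≤ hull a (Ph S j) y x := (hull_isSn (SpA_ee S j) fun x _ => hy.nn x).nn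
  have a2 := a1.trans (geo_le (a := a) SpA_g0nn hzn h0 h1 Le.rfl h)
  have e : (1 - s) * 0 + s * 0 + ((1 - s) * 0 + s * ψ) = s * ψ := by ring
  rwa [e] at a2

private theorem SpA_usn {g : GL (Fin n) K} {y : V n K → ℝ} (hy : ∀ x, 0 ≤ y x) (s : ℝ) :
    IsSn a (geo a (g0 a) (act g y) s) :=
  geo_isSn SpA_g0nn (fun _ => hy _) s

private theorem SpA_ball (ha : Pl a) (h1 : 1 ≤ κ) (hT : κ ≤ T) {g : GL (Fin n) K}
    (hκ : Nr κ (act g (g0 a)) (g0 a)) {y : V n K → ℝ} (hy : InX a S T κ y) :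
    Nr T (geo a (g0 a) (act g y) (1 - κ / T)) (g0 a) := by
  have h0 := SpA_s0 hT
  have h1' := SpA_s1 (T := T) h1
  have hT0 : (0 : ℝ) < T := by linarith
  have b1 := geo_le (a := a) (α := g0 a) (β := act g y) SpA_g0nn (fun _ => hy.sn.nn _) h0 h1'
    Le.rfl ((hy.hi.act g).trans hκ.1)
  have b2 := geo_le (a := a) (α := g0 a) SpA_g0nn SpA_g0nn h0 h1' Le.rfl (hκ.2.trans (hy.lo.act g))
  rw [SpA_geo_g0 ha h0 h1'] at b1 b2
  have e : (1 - κ / T) * (T + κ) = T - κ * κ / T := by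
    field_simp
    ring
  have e' : 0 ≤ κ * κ / T := div_nonneg (mul_self_nonneg _) hT0.le
  refine ⟨b1.mono SpA_g0nn (by linarith), b2.mono (SpA_usn hy.sn.nn _).nn ?_⟩
  rw [add_comm κ]
  linarith

private theorem SpA_cx (ha : Pl a) (h1 : 1 ≤ κ) (hT : κ ≤ T) {g : GL (Fin n) K} (hg : g ∈ S)
    (hκ : Nr κ (act g (g0 a)) (g0 a)) {y : V n K → ℝ} (hy : InX a S T κ y) {j : ℕ}
    (hj : j ≤ 2 * T ^ 3) :
    Le (2 * T * (1 - κ / T) ^ j) (hull a (Ph S (j * (n + 1)))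
      (geo a (g0 a) (act g y) (1 - κ / T))) (geo a (g0 a) (act g y) (1 - κ / T)) := by
  cases j with
  | zero =>
    have hb := SpA_ball ha h1 hT hκ hy
    have b1 := SpA_hull_le (a := a) (S := S) (SpA_usn hy.sn.nn _).nn hb.1 (0 * (n + 1))
    rw [SpA_hull_g0 ha] at b1
    rw [pow_zero, mul_one, two_mul]
    exact b1.trans hb.2
  | succ j =>
    have c1 := (hull_act (a := a) hg (j * (n + 1)) hy.sn.nn).trans ((hy.cx j hj).act g)
    have hp : ∀ x, x ≠ 0 → 0 < act g y x := by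
      intro x hx
      refine hy.pos fun h0 => hx ?_
      have h2 : g.1 *ᵥ ((g⁻¹ : GL (Fin n) K).1 *ᵥ x) = x := by
        rw [Matrix.mulVec_mulVec, ← Units.val_mul, mul_inv_cancel, Units.val_one,
          Matrix.one_mulVec]
      rw [← h2, h0, Matrix.mulVec_zero]
    have c2 := hull_geo ha (act_isSn hy.sn g) hp (SpA_s0 hT) (SpA_s1 h1) c1
    have e1 : j * (n + 1) + 1 + n = (j + 1) * (n + 1) := by ring
    have e2 : (1 - κ / T) * (0 + 2 * T * (1 - κ / T) ^ j) = 2 * T * (1 - κ / T) ^ (j + 1) := by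
      ring
    rwa [e1, e2] at c2

private theorem SpA_num (h1 : 1 ≤ κ) (hT : κ ≤ T) :
    2 * T * (1 - κ / T) ^ (2 * T ^ 3) ≤ 1 / T := by
  have hT0 : (0 : ℝ) < T := by linarith
  have h0 := SpA_s0 hT
  have hp : 0 ≤ κ / T := div_nonneg (by linarith) hT0.le
  have b1 := one_add_mul_le_pow (a := κ / T) (by linarith) (2 * T ^ 3)
  have b2 : (1 - κ / T) ^ (2 * T ^ 3) * (1 + κ / T) ^ (2 * T ^ 3) ≤ 1 := by
    rw [← mul_pow]
    exact pow_le_one₀ (mul_nonneg h0 (by linarith)) (by nlinarith [mul_self_nonneg (κ / T)])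
  have b3 : 2 * (T : ℝ) ^ 2 ≤ 1 + ((2 * T ^ 3 : ℕ) : ℝ) * (κ / T) := by
    have e : ((2 * T ^ 3 : ℕ) : ℝ) * (κ / T) = 2 * (T : ℝ) ^ 2 * κ := by
      push_cast
      field_simp
    rw [e]
    nlinarith [sq_nonneg (T : ℝ)]
  have b4 := mul_le_mul_of_nonneg_left (b3.trans b1) (pow_nonneg h0 (2 * T ^ 3))
  rw [le_div_iff₀ hT0]
  nlinarith

/-- Put `u = geo a g0 (act g y) (1 - κ / T)`. `hull_act` and `hull_geo` turn the condition `cx j` of
`y` into the condition `j + 1` for `u` (the condition `0` holds for every seminorm in the ball).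
At `j + 1 = 2 T ^ 3` this bounds `hull u / u` by `2 T (1 - κ / T) ^ (2 T ^ 3) ≤ 1 / T`
(`(1 - x) ^ j ≤ 1 / (1 + j x)`, `one_add_mul_le_pow`). -/
theorem phi_nr (ha : Pl a) (h1 : 1 ≤ κ) (hT : κ ≤ T) {g : GL (Fin n) K} (hg : g ∈ S)
    (hκ : Nr κ (act g (g0 a)) (g0 a)) {y : V n K → ℝ} (hy : InX a S T κ y) :
    Nr (1 / T) (phi a S T κ g y) (geo a (g0 a) (act g y) (1 - κ / T)) := by
  have hu := SpA_usn (a := a) (g := g) hy.sn.nn (1 - κ / T)
  refine ⟨(SpA_cx ha h1 hT hg hκ hy le_rfl).mono hu.nn (SpA_num h1 hT), ?_⟩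
  exact (SpA_le_hull hu _).mono (hull_isSn (SpA_ee S _) fun x _ => hu.nn x).nn (by positivity)

/-- Ball: `(1 - κ / T) (T + κ) ≤ T` (`geo_le`, `geo_dg` with both norms `g0`). For the conditions
`cx` note that the hull over `Ph S j` of the hull over a larger set is at most the hull of `u`
(`hull_mono`), and `u ≤ phi`. -/
theorem phi_mem (ha : Pl a) (h1 : 1 ≤ κ) (hT : κ ≤ T) {g : GL (Fin n) K} (hg : g ∈ S)
    (hκ : Nr κ (act g (g0 a)) (g0 a)) {y : V n K → ℝ} (hy : InX a S T κ y) :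
    InX a S T κ (phi a S T κ g y) := by
  have hu := SpA_usn (a := a) (g := g) hy.sn.nn (1 - κ / T)
  have hb := SpA_ball ha h1 hT hκ hy
  have hs : IsSn a (phi a S T κ g y) := hull_isSn (SpA_ee S _) fun x _ => hu.nn x
  have hup : Le 0 (geo a (g0 a) (act g y) (1 - κ / T)) (phi a S T κ g y) := SpA_le_hull hu _
  have key : ∀ m ≤ 2 * T ^ 3 * (n + 1), Le 0 (hull a (Ph S m) (phi a S T κ g y))
      (hull a (Ph S m) (geo a (g0 a) (act g y) (1 - κ / T))) := by
    intro m hm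
    refine hull_mono (SpA_ee S m) subset_rfl (fun x _ => hs.nn x) fun x hx => ?_
    rw [exp_zero, one_mul]
    exact hull_le (fun x _ => hu.nn x) (Finset.mem_coe.2 (Ph_mono S hm (Finset.mem_coe.1 hx)))
  refine ⟨hs, ?_, ?_, fun j hj => ?_, ?_⟩
  · have h := hb.2.trans hup
    rwa [add_zero] at h
  · have h := SpA_hull_le (a := a) (S := S) hu.nn hb.1 (2 * T ^ 3 * (n + 1))
    rwa [SpA_hull_g0 ha] at h
  · have h := ((key _ (Nat.mul_le_mul_right _ hj.le)).trans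
      (SpA_cx ha h1 hT hg hκ hy hj.le)).trans hup
    rwa [add_zero, zero_add] at h
  · exact Nr.eq ⟨key _ le_rfl, SpA_le_hull hs _⟩

theorem phi_lip (ha : Pl a) (h1 : 1 ≤ κ) (hT : κ ≤ T) (g : GL (Fin n) K) {y y' : V n K → ℝ}
    (hy : ∀ x, 0 ≤ y x) (hy' : ∀ x, 0 ≤ y' x) {δ : ℝ} (hδ : 0 ≤ δ) (h : Le δ y y') :
    Le δ (phi a S T κ g y) (phi a S T κ g y') := by
  have h0 := SpA_s0 hT
  have h1' := SpA_s1 (T := T) h1
  have b1 := geo_le (a := a) (α := g0 a) (β := act g y) SpA_g0nn (fun _ => hy _) h0 h1' Le.rfl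
    (h.act g)
  have b2 := SpA_hull_le (a := a) (S := S) (SpA_usn hy _).nn b1 (2 * T ^ 3 * (n + 1))
  refine b2.mono (hull_isSn (SpA_ee S _) fun x _ => (SpA_usn hy' _).nn x).nn ?_
  nlinarith

/-- `χ s = - κ * clamp (s / T)` with clamp to `[-1, 1]`; for a frame `|α j| ≤ T`;
`geo a g0 (act g y)` is within `κ * κ / T` of `geo a (act g g0) (act g y)` (`geo_le`), which is
diagonal in `g * f` (`geo_dg`, `act_dg`). -/
theorem phi_rel (ha : Pl a) (h1 : 1 ≤ κ) (hT : κ ≤ T) {g : GL (Fin n) K} (hg : g ∈ S)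
    (hκ : Nr κ (act g (g0 a)) (g0 a)) {y : V n K → ℝ} (hy : InX a S T κ y) :
    Rel a κ (κ / T) (1 / T + κ * κ / T) g y (phi a S T κ g y) := by
  have h0 := SpA_s0 hT
  have h1' := SpA_s1 (T := T) h1
  have hT0 : (0 : ℝ) < T := by linarith
  have hp : 0 ≤ κ / T := div_nonneg (by linarith) hT0.le
  refine ⟨fun t => -(κ / T * max (min t T) (-T)), fun s t hst => ?_, fun s t => ?_, fun s => ?_,
    fun f β α hf => ?_⟩
  · exact neg_le_neg (mul_le_mul_of_nonneg_left (max_le_max (min_le_min hst le_rfl) le_rfl) hp)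
  · rw [neg_sub_neg, ← mul_sub, abs_mul, abs_of_nonneg hp, abs_sub_comm]
    exact mul_le_mul_of_nonneg_left
      ((abs_sup_sub_sup_le_abs _ _ _).trans (abs_inf_sub_inf_le_abs _ _ _)) hp
  · rw [abs_neg, abs_mul, abs_of_nonneg hp]
    have b : |max (min s (T : ℝ)) (-T)| ≤ T :=
      abs_le.2 ⟨le_max_right _ _, max_le (min_le_right _ _) (by linarith)⟩
    calc κ / T * |max (min s (T : ℝ)) (-T)| ≤ κ / T * T := mul_le_mul_of_nonneg_left b hp
      _ = κ := div_mul_cancel₀ _ hT0.ne'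
  · have hyn : ∀ x, 0 ≤ act g y x := fun _ => hy.sn.nn _
    have b1 := geo_le (a := a) SpA_g0nn hyn h0 h1' hκ.2 Le.rfl
    have b2 := geo_le (a := a) (α := act g (g0 a)) (fun _ => SpA_g0nn _) hyn h0 h1' hκ.1 Le.rfl
    have e : (1 - (1 - κ / T)) * κ + (1 - κ / T) * 0 = κ * κ / T := by ring
    have e2 : geo a (act g (g0 a)) (act g y) (1 - κ / T) =
        dg a (g * f) fun j => β j + -(κ / T * max (min (α j) T) (-T)) := by
      rw [hf.hg, hf.hy, act_dg, act_dg, geo_dg ha _ _ _ h0 h1']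
      refine congrArg _ (funext fun j => ?_)
      have hj := abs_le.1 (SpA_alpha hy hf j)
      rw [min_eq_left hj.2, max_eq_left hj.1, Pi.sub_apply]
      ring
    rw [e, e2] at b1 b2
    exact (phi_nr ha h1 hT hg hκ hy).trans ⟨b1, b2⟩

end Pool.Agent.Work.MP_9d1ffa_al.GN
end

-- merged part: Pool.Agent.Work.MP_9d1ffa_al.GN.SpB
section
/-! Tropical barycentres and the relation `Rel`. -/

namespace Pool.Agent.Work.MP_9d1ffa_al.GN

open Real Matrix
open G2 (Pl)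

variable {K : Type} [Field K] {n : ℕ} {a : AbsoluteValue K ℝ} {S : Finset (GL (Fin n) K)} {T : ℕ}
  {κ : ℝ} {A : Type} [Fintype A]

theorem SpB_cost {μ : A → ℝ} (hμ : μ ∈ stdSimplex ℝ A) (T : ℕ) :
    ∃ s0, 0 < μ s0 ∧ 2 * (T : ℝ) * (1 - μ s0 / ⨆ s', μ s') = 0 ∧
      ∀ s, 0 ≤ 2 * (T : ℝ) * (1 - μ s / ⨆ s', μ s') := by
  have hne : Nonempty A := by
    by_contra h
    rw [not_nonempty_iff] at h
    simpa using hμ.2
  obtain ⟨s0, h0⟩ := exists_eq_ciSup_of_finite (f := μ)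
  have h1 : ∀ s, μ s ≤ μ s0 := fun s => h0 ▸ le_ciSup (Finite.bddAbove_range μ) s
  have h2 : 0 < μ s0 := by
    by_contra h
    have := Finset.sum_nonpos (s := Finset.univ) fun s _ => (h1 s).trans (not_lt.1 h)
    rw [hμ.2] at this
    linarith
  refine ⟨s0, h2, by rw [← h0, div_self h2.ne', sub_self, mul_zero], fun s => ?_⟩
  rw [← h0]
  exact mul_nonneg (by positivity) (sub_nonneg.2 ((div_le_one h2).2 (h1 s)))

omit [Fintype A] in
theorem SpB_nn {μ : A → ℝ} {y : A → V n K → ℝ} (hy : ∀ s x, 0 ≤ y s x) (x : V n K) :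
    0 ≤ ⨅ s, exp (2 * T * (1 - μ s / ⨆ s', μ s')) * y s x :=
  Real.iInf_nonneg fun s => mul_nonneg (exp_pos _).le (hy s x)

omit [Fintype A] in
theorem SpB_sn {μ : A → ℝ} {y : A → V n K → ℝ} (hy : ∀ s x, 0 ≤ y s x) :
    IsSn a (bar a T μ y) :=
  hull_isSn (fun _ => Set.mem_univ _) fun x _ => SpB_nn hy x

theorem SpB_le {μ : A → ℝ} {y : A → V n K → ℝ} (hy : ∀ s x, 0 ≤ y s x) (s : A) :
    Le (2 * T * (1 - μ s / ⨆ s', μ s')) (bar a T μ y) (y s) := fun x =>
  (hull_le (fun x _ => SpB_nn hy x) (Set.mem_univ x)).trans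
    (ciInf_le (Finite.bddBelow_range _) s)

theorem SpB_ge [Nonempty A] {μ : A → ℝ} {y : A → V n K → ℝ} {c : V n K → ℝ} (hc : IsSn a c)
    {r : ℝ} (h : ∀ s, Le (r + 2 * T * (1 - μ s / ⨆ s', μ s')) c (y s)) :
    Le r c (bar a T μ y) := by
  refine le_hull' (fun _ => Set.mem_univ _) hc fun x _ => ?_
  obtain ⟨s, hs⟩ := exists_eq_ciInf_of_finite
    (f := fun s => exp (2 * T * (1 - μ s / ⨆ s', μ s')) * y s x)
  rw [← hs, ← mul_assoc, ← exp_add]
  exact h s x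

/-- The costs `2 T (1 - μ s / max μ)` lie in `[0, 2 T]` and one of them is `0`. `bar` is a seminorm
below every `exp (cost s) * y s` (`hull_le`, `ciInf_le`), and above every such seminorm
(`le_hull`, `le_ciInf`). For `cx` and `top`: `exp (-ψ) * hull z` is below every
`exp (cost s) * y s` (`hull_mono`). -/
theorem bar_mem {μ : A → ℝ} (hμ : μ ∈ stdSimplex ℝ A) {y : A → V n K → ℝ} (ha : Pl a)
    (hy : ∀ s, InX a S T κ (y s)) : InX a S T κ (bar a T μ y) := by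
  obtain ⟨s0, -, h0, h1⟩ := SpB_cost hμ T
  have hne : Nonempty A := ⟨s0⟩
  have hn : ∀ s x, 0 ≤ y s x := fun s => (hy s).sn.nn
  have hs : IsSn a (bar a T μ y) := SpB_sn hn
  have key : ∀ (j : ℕ) (ψ : ℝ), (∀ s, Le ψ (hull a (Ph S j) (y s)) (y s)) →
      Le ψ (hull a (Ph S j) (bar a T μ y)) (bar a T μ y) := fun j ψ h =>
    SpB_ge (hull_isSn (fun l => ee_mem_Ph S j l) fun x _ => hs.nn x) fun s => by
      rw [add_comm]
      exact (hull_mono (fun l => ee_mem_Ph S j l) subset_rfl (fun x _ => hs.nn x)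
        fun x _ => SpB_le hn s x).trans (h s)
  refine ⟨hs, SpB_ge (dg_isSn ha _ _) fun s => (hy s).lo.mono (hn s) (by linarith [h1 s]), ?_,
    fun j hj => key _ _ fun s => (hy s).cx j hj, Nr.eq ⟨key _ _ fun s => ?_, ?_⟩⟩
  · have := (SpB_le (a := a) (T := T) (μ := μ) hn s0).trans (hy s0).hi
    rwa [h0, zero_add] at this
  · rw [(hy s).top]; exact Le.rfl
  · exact le_hull' (fun l => ee_mem_Ph S _ l) hs fun x _ => by simp

/-- For `μ s = 0` the cost is `2 T`, use `InX.nr` with the index of maximal weight. -/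
theorem bar_nr {μ : A → ℝ} (hμ : μ ∈ stdSimplex ℝ A) {y : A → V n K → ℝ}
    (hy : ∀ s, InX a S T κ (y s)) {z : V n K → ℝ} (hz : IsSn a z) {δ : ℝ}
    (h : ∀ s, 0 < μ s → Nr δ (y s) z) : Nr δ (bar a T μ y) z := by
  obtain ⟨s0, hp, h0, h1⟩ := SpB_cost hμ T
  have hne : Nonempty A := ⟨s0⟩
  have hn : ∀ s x, 0 ≤ y s x := fun s => (hy s).sn.nn
  refine ⟨?_, SpB_ge hz fun s => ?_⟩
  · have := (SpB_le (a := a) (T := T) (μ := μ) hn s0).trans (h s0 hp).1
    rwa [h0, zero_add] at this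
  · rcases (hμ.1 s).eq_or_lt with h2 | h2
    · rw [← h2, zero_div, sub_zero, mul_one]
      exact (h s0 hp).2.trans ((hy s0).nr (hy s)).1
    · exact (h s h2).2.mono (hn s) (by linarith [h1 s])

theorem bar_lip {μ μ' : A → ℝ} [Nonempty A] {y y' : A → V n K → ℝ} (hy : ∀ s x, 0 ≤ y s x)
    (hy' : ∀ s x, 0 ≤ y' s x) {δ η : ℝ} (h : ∀ s, Le δ (y s) (y' s))
    (hη : ∀ s, |μ s / (⨆ s', μ s') - μ' s / (⨆ s', μ' s')| ≤ η) :
    Le (δ + 2 * T * η) (bar a T μ y) (bar a T μ' y') := by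
  refine SpB_ge (SpB_sn hy) fun s => ((SpB_le hy s).trans (h s)).mono (hy' s) ?_
  have h1 := (abs_le.1 (hη s)).1
  have h2 : (0 : ℝ) ≤ T := Nat.cast_nonneg T
  nlinarith

/-- `χ t = ⨅ s, (cost s + χ_s t)` (a finite infimum, `Finset.inf'`); `hull_mono`, and the hull of
the infimum of the `exp (cost s) * dg f (β + χ_s α)` is `dg f (β + χ α)` (`hull_eq_dg`). -/
theorem Rel.bar (ha : Pl a) {μ : A → ℝ} (hμ : μ ∈ stdSimplex ℝ A) {z : A → V n K → ℝ}
    (hz : ∀ s x, 0 ≤ z s x) {c Λ δ : ℝ} {g : GL (Fin n) K} {y : V n K → ℝ}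
    (h : ∀ s, Rel a c Λ δ g y (z s)) : Rel a c Λ δ g y (GN.bar a T μ z) := by
  obtain ⟨s0, -, h0, h1⟩ := SpB_cost hμ T
  have hne : Nonempty A := ⟨s0⟩
  choose χ a1 a2 a3 a4 using h
  have b1 : ∀ t s, (⨅ s, (2 * (T : ℝ) * (1 - μ s / ⨆ s', μ s') + χ s t)) ≤
      2 * (T : ℝ) * (1 - μ s / ⨆ s', μ s') + χ s t := fun t s =>
    ciInf_le (Finite.bddBelow_range _) s
  have b2 : ∀ t, ∃ s, 2 * (T : ℝ) * (1 - μ s / ⨆ s', μ s') + χ s t =
      ⨅ s, (2 * (T : ℝ) * (1 - μ s / ⨆ s', μ s') + χ s t) := fun t =>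
    exists_eq_ciInf_of_finite
  refine ⟨fun t => ⨅ s, (2 * (T : ℝ) * (1 - μ s / ⨆ s', μ s') + χ s t), fun t u htu => ?_,
    fun t u => ?_, fun t => ?_, fun f β α hf => ⟨?_, ?_⟩⟩
  · obtain ⟨s, hs⟩ := b2 t
    have := b1 u s
    have := a1 s htu
    simp only
    linarith
  · obtain ⟨s, hs⟩ := b2 t
    obtain ⟨s', hs'⟩ := b2 u
    have := b1 u s
    have := b1 t s'
    have := abs_le.1 (a2 s t u)
    have := abs_le.1 (a2 s' t u)
    exact abs_le.2 ⟨by linarith, by linarith⟩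
  · obtain ⟨s, hs⟩ := b2 t
    have := b1 t s0
    have := abs_le.1 (a3 s t)
    have := abs_le.1 (a3 s0 t)
    have := h1 s
    exact abs_le.2 ⟨by linarith, by linarith⟩
  · refine (SpB_sn hz).le_dg fun j => ?_
    obtain ⟨s, hs⟩ := b2 (α j)
    have := ((SpB_le (a := a) (T := T) (μ := μ) hz s).trans (a4 s f β α hf).1) (cl (g * f) j)
    rw [dg_cl, ← exp_add] at this
    exact this.trans (le_of_eq (congrArg exp (by linarith)))
  · refine SpB_ge (dg_isSn ha _ _) fun s => ?_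
    rw [add_comm δ]
    exact (dg_le_iff.2 fun j => by linarith [b1 (α j) s]).trans (a4 s f β α hf).2

theorem Rel.mono {c Λ δ c' Λ' δ' : ℝ} {g : GL (Fin n) K} {y z : V n K → ℝ}
    (h : Rel a c Λ δ g y z) (hz : ∀ x, 0 ≤ z x) (h1 : c ≤ c') (h2 : Λ ≤ Λ') (h3 : δ ≤ δ') :
    Rel a c' Λ' δ' g y z := by
  obtain ⟨χ, a1, a2, a3, a4⟩ := h
  exact ⟨χ, a1, fun s t => (a2 s t).trans (mul_le_mul_of_nonneg_right h2 (abs_nonneg _)),
    fun s => (a3 s).trans h1, fun f β α hf => (a4 f β α hf).mono hz (dg_nonneg _ _) h3⟩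

theorem rel_of_nr {δ : ℝ} {y z : V n K → ℝ} (h : Nr δ z y) : Rel a 0 0 δ 1 y z := by
  refine ⟨fun _ => 0, antitone_const, fun s t => by simp, fun s => by simp, fun f β α hf => ?_⟩
  simpa [← hf.hy] using h

/-- `χ t = χ₁ t + χ₂ (t + χ₁ t)`; `t ↦ t + χ₁ t` is monotone and `1`-Lipschitz. Apply `key1` in
both directions to the frame of `z'` and the frame `(Fr.act _ h).shift _`, then `Nr.act`,
`act_dg`. -/
theorem Rel.comp (ha : Pl a) {c Λ δ c' Λ' δ' κ : ℝ} {g h : GL (Fin n) K} {y z' z : V n K → ℝ}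
    (h1 : Rel a c Λ δ h y z') (h2 : Rel a c' Λ' δ' g z' z)
    (hf : ∃ f β α, Fr a (g0 a) z' f β α) (hκ : Nr κ (act h (g0 a)) (g0 a)) (k0 : 0 ≤ κ)
    (d0 : 0 ≤ δ) (l1 : Λ ≤ 1) (l0 : 0 ≤ Λ') (l2 : Λ' ≤ 1 / 2) :
    Rel a (c + c') (Λ + Λ') (δ' + (δ + 2 * Λ' * κ)) (g * h) y z := by
  obtain ⟨χ, a1, a2, a3, a4⟩ := h1
  obtain ⟨ψ, b1, b2, b3, b4⟩ := h2
  obtain ⟨f', β', α', hf'⟩ := hf
  have m1 : ∀ s t, s ≤ t → s + χ s ≤ t + χ t := fun s t hst => by
    have := (abs_le.1 (a2 t s)).1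
    rw [abs_of_nonneg (sub_nonneg.2 hst)] at this
    nlinarith
  have m2 : ∀ s t, |s + χ s - (t + χ t)| ≤ |s - t| := fun s t => by
    rcases le_total s t with hst | hst
    · rw [abs_of_nonpos (sub_nonpos.2 (m1 s t hst)), abs_of_nonpos (sub_nonpos.2 hst)]
      linarith [a1 hst]
    · rw [abs_of_nonneg (sub_nonneg.2 (m1 t s hst)), abs_of_nonneg (sub_nonneg.2 hst)]
      linarith [a1 hst]
  refine ⟨fun t => χ t + ψ (t + χ t), fun s t hst => add_le_add (a1 hst) (b1 (m1 s t hst)),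
    fun s t => ?_, fun s => (abs_add_le _ _).trans (add_le_add (a3 _) (b3 _)),
    fun f β α hf => ?_⟩
  · have c1 := abs_le.1 (a2 s t)
    have c2 := abs_le.1 ((b2 (s + χ s) (t + χ t)).trans (mul_le_mul_of_nonneg_left (m2 s t) l0))
    exact abs_le.2 ⟨by linarith, by linarith⟩
  · have c1 := (hf.act h).shift fun j => χ (α j)
    have c2 := a4 f β α hf
    have c3 : Nr (δ + 2 * Λ' * κ) (dg a f' fun j => β' j + ψ (α' j))
        (dg a (h * f) fun j => β j + χ (α j) + ψ (α j + χ (α j))) :=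
      ⟨key1 ha hf' c1 k0 d0 l0 l2 hκ.2 c2.1 b1 b2, key1 ha c1 hf' k0 d0 l0 l2 hκ.1 c2.2 b1 b2⟩
    have c4 := c3.act g
    rw [act_dg, act_dg, ← mul_assoc] at c4
    simpa only [add_assoc] using (b4 f' β' α' hf').trans c4

end Pool.Agent.Work.MP_9d1ffa_al.GN
end

-- merged part: Pool.Agent.Work.MP_9d1ffa_al.GN.SpC
section
/-! The transfer space as a compact metric space. -/

namespace Pool.Agent.Work.MP_9d1ffa_al.GN

open Real Matrix
open G2 (Pl)

variable {K : Type} [Field K] {n : ℕ} {ι : Type} [Fintype ι]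

theorem SpC_log {u v c : ℝ} (hu : 0 < u) (hv : 0 < v) : log u - log v ≤ c ↔ u ≤ exp c * v := by
  rw [← log_div hu.ne' hv.ne', log_le_iff_le_exp (div_pos hu hv), div_le_iff₀ hv]

omit [Field K] in
theorem SpC_lim {r : ℝ} {α β : V n K → ℝ} (h : ∀ ε, 0 < ε → Le (r + ε) α β) : Le r α β := by
  intro x
  have h1 : Continuous fun ε : ℝ => exp (r + ε) * β x := by fun_prop
  have h2 := (h1.tendsto 0).mono_left (nhdsWithin_le_nhds (s := Set.Ioi 0))
  rw [add_zero] at h2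
  exact ge_of_tendsto h2 (eventually_mem_nhdsWithin.mono fun ε hε => h ε hε x)

/-- The transfer space. -/
def XX (av : ι → AbsoluteValue K ℝ) (S : Finset (GL (Fin n) K)) (T : ℕ) (κ : ℝ) : Type :=
  {y : ι → V n K → ℝ // ∀ i, InX (av i) S T κ (y i)}

variable {av : ι → AbsoluteValue K ℝ} {S : Finset (GL (Fin n) K)} {T : ℕ} {κ : ℝ}

/-- Logarithms of the values on the top set of vectors. -/
noncomputable def emb (y : XX av S T κ) : ι × (Ph S (2 * T ^ 3 * (n + 1))) → ℝ :=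
  fun p => log (y.1 p.1 p.2.1)

omit [Fintype ι] in
/-- `top`, `hull_congr`, `InX.pos`, `IsSn.zero`. -/
theorem emb_inj : Function.Injective (emb : XX av S T κ → _) := by
  intro y y' h
  refine Subtype.ext (funext fun i => ?_)
  rw [← (y.2 i).top, ← (y'.2 i).top]
  refine hull_congr fun x hx => ?_
  by_cases h0 : x = 0
  · rw [h0, (y.2 i).sn.zero, (y'.2 i).sn.zero]
  · exact log_injOn_pos ((y.2 i).pos h0) ((y'.2 i).pos h0) (congrFun h (i, ⟨x, hx⟩))

noncomputable instance : MetricSpace (XX av S T κ) := MetricSpace.induced emb emb_inj inferInstance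

/-- `dist_pi_le_iff`; `hull_mono` and `top` for the forward direction. -/
theorem XX.dist_le_iff {y y' : XX av S T κ} {c : ℝ} (hc : 0 ≤ c) :
    dist y y' ≤ c ↔ ∀ i, Nr c (y.1 i) (y'.1 i) := by
  have key : ∀ {y y' : XX av S T κ}, (∀ p, emb y p - emb y' p ≤ c) ↔
      ∀ i, Le c (y.1 i) (y'.1 i) := by
    intro y y'
    refine ⟨fun h i => ?_, fun h p => ?_⟩
    · rw [← (y.2 i).top, ← (y'.2 i).top]
      refine hull_mono (ee_mem_Ph S _) subset_rfl (fun x _ => (y.2 i).sn.nn x) fun x hx => ?_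
      by_cases h0 : x = 0
      · rw [h0, (y.2 i).sn.zero, (y'.2 i).sn.zero, mul_zero]
      · exact (SpC_log ((y.2 i).pos h0) ((y'.2 i).pos h0)).1 (h (i, ⟨x, hx⟩))
    · by_cases h0 : p.2.1 = 0
      · rwa [emb, emb, h0, (y.2 _).sn.zero, (y'.2 _).sn.zero, sub_self]
      · exact (SpC_log ((y.2 _).pos h0) ((y'.2 _).pos h0)).2 (h p.1 _)
  change dist (emb y) (emb y') ≤ c ↔ _
  simp only [dist_pi_le_iff hc, Real.dist_eq, abs_sub_le_iff, forall_and, key, Nr]

/-- The range of the isometry `emb` is bounded and closed in a proper space. For closedness let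
`H v i = hull (av i) Φ (fun x => if x = 0 then 0 else exp (v (i, x)))` (for `x ∈ Φ`); by `hull_mono`
`H v` and `H v'` are `Nr (dist v v')`, also after applying a further hull. If `v` is in the closure,
then for every `ε > 0` `H v` is `Nr ε` to a point of the space, so it satisfies all conditions of
`InX` up to `ε`, hence exactly (`le_of_forall_pos_le_add` or continuity of `exp`), and
`emb (H v) = v`. -/
theorem XX.compactSpace : CompactSpace (XX av S T κ) := by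
  classical
  have hi : Isometry (emb : XX av S T κ → _) := Isometry.of_dist_eq fun _ _ => rfl
  refine ⟨hi.isEmbedding.isInducing.isCompact_iff.2 ?_⟩
  rw [Set.image_univ]
  refine Metric.isCompact_of_isClosed_isBounded (isClosed_of_closure_subset fun v hv => ?_)
    (Metric.isBounded_range_iff.2 ⟨2 * T, fun y y' =>
      (XX.dist_le_iff (by positivity)).2 fun i => (y.2 i).nr (y'.2 i)⟩)
  obtain ⟨w, hw⟩ : ∃ w : (ι × (Ph S (2 * T ^ 3 * (n + 1))) → ℝ) → ι → V n K → ℝ, ∀ u i x,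
      w u i x = if h : x ∈ Ph S (2 * T ^ 3 * (n + 1)) ∧ x ≠ 0 then exp (u (i, ⟨x, h.1⟩)) else 0 :=
    ⟨_, fun _ _ _ => rfl⟩
  have w0 : ∀ u i x, 0 ≤ w u i x := fun u i x => by
    rw [hw]
    split_ifs
    exacts [(exp_pos _).le, le_rfl]
  have h1 : ∀ u u' i, Le (dist u u') (hull (av i) (Ph S (2 * T ^ 3 * (n + 1))) (w u i))
      (hull (av i) (Ph S (2 * T ^ 3 * (n + 1))) (w u' i)) := fun u u' i =>
    hull_mono (ee_mem_Ph S _) subset_rfl (fun x _ => w0 u i x) fun x _ => by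
      rw [hw, hw]
      split_ifs with h
      · rw [← exp_add, exp_le_exp]
        linarith [(le_abs_self _).trans (dist_le_pi_dist u u' (i, ⟨x, h.1⟩))]
      · rw [mul_zero]
  have h2 : ∀ (y : XX av S T κ) i,
      hull (av i) (Ph S (2 * T ^ 3 * (n + 1))) (w (emb y) i) = y.1 i := fun y i => by
    rw [← (y.2 i).top]
    refine hull_congr fun x hx => ?_
    rw [hw]
    split_ifs with h
    · exact exp_log ((y.2 i).pos h.2)
    · rw [not_not.1 fun h0 => h ⟨hx, h0⟩, (y.2 i).sn.zero]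
  obtain ⟨z, hz⟩ : ∃ z : ι → V n K → ℝ, ∀ i,
    z i = hull (av i) (Ph S (2 * T ^ 3 * (n + 1))) (w v i) := ⟨_, fun _ => rfl⟩
  have z0 : ∀ i, IsSn (av i) (z i) := fun i =>
    hz i ▸ hull_isSn (ee_mem_Ph S _) fun x _ => w0 v i x
  have h3 : ∀ ε, 0 < ε → ∃ y : XX av S T κ, dist v (emb y) < ε ∧ ∀ i, Nr ε (z i) (y.1 i) := by
    intro ε hε
    obtain ⟨_, ⟨y, rfl⟩, hy⟩ := Metric.mem_closure_iff.1 hv ε hε
    refine ⟨y, hy, fun i => ?_⟩
    refine Nr.mono ?_ (z0 i).nn (y.2 i).sn.nn hy.le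
    rw [hz, ← h2]
    exact ⟨h1 _ _ i, dist_comm v _ ▸ h1 _ _ i⟩
  have h4 : ∀ {i} {y : V n K → ℝ} {ε : ℝ} (j : ℕ), Nr ε (z i) y →
      Le ε (hull (av i) (Ph S j) (z i)) (hull (av i) (Ph S j) y) := fun j h =>
    hull_mono (ee_mem_Ph S _) subset_rfl (fun x _ => (z0 _).nn x) fun x _ => h.1 x
  refine ⟨⟨z, fun i => ⟨z0 i, SpC_lim fun ε hε => ?_, SpC_lim fun ε hε => ?_,
    fun j hj => SpC_lim fun ε hε => ?_, Nr.eq ⟨SpC_lim fun ε hε => ?_, fun x => ?_⟩⟩⟩,
    eq_of_forall_dist_le fun ε hε => ?_⟩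
  · obtain ⟨y, -, hy⟩ := h3 ε hε
    exact (y.2 i).lo.trans (hy i).2
  · obtain ⟨y, -, hy⟩ := h3 ε hε
    exact add_comm ε T ▸ (hy i).1.trans (y.2 i).hi
  · obtain ⟨y, -, hy⟩ := h3 (ε / 2) (half_pos hε)
    exact (((h4 _ (hy i)).trans ((y.2 i).cx j hj)).trans (hy i).2).mono (z0 i).nn (by linarith)
  · obtain ⟨y, -, hy⟩ := h3 (ε / 2) (half_pos hε)
    have := h4 (2 * T ^ 3 * (n + 1)) (hy i)
    rw [(y.2 i).top] at this
    exact (this.trans (hy i).2).mono (z0 i).nn (by linarith)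
  · rw [exp_zero, one_mul]
    exact le_hull (ee_mem_Ph S _) (z0 i) (fun _ _ => le_rfl) x
  · obtain ⟨y, h5, hy⟩ := h3 (ε / 2) (half_pos hε)
    refine (dist_triangle_right _ _ (emb y)).trans ?_
    rw [hi.dist_eq, ← add_halves ε]
    exact add_le_add ((XX.dist_le_iff (half_pos hε).le).2 hy) h5.le

/-- Barycentres in the transfer space. -/
noncomputable def barX (ha : ∀ i, Pl (av i)) {A : Type} [Fintype A] (x : A → XX av S T κ)
    (μ : stdSimplex ℝ A) : XX av S T κ :=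
  ⟨fun i => bar (av i) T μ.1 fun s => (x s).1 i, fun i => bar_mem μ.2 (ha i) fun s => (x s).2 i⟩

/-- `bar_lip`, `XX.dist_le_iff`; the maps `μ ↦ μ s / ⨆ s', μ s'` are continuous on the simplex
(the supremum is a finite one and positive). -/
theorem barX_cont (ha : ∀ i, Pl (av i)) (A : Type) [Fintype A] :
    Continuous fun p : (A → XX av S T κ) × stdSimplex ℝ A => barX ha p.1 p.2 := by
  refine continuous_iff_continuousAt.2 fun p => ?_
  have : Nonempty A := by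
    by_contra h
    rw [not_nonempty_iff] at h
    have := p.2.2.2
    simp at this
  have h1 : Continuous fun μ : stdSimplex ℝ A => fun s => μ.1 s / ⨆ s', μ.1 s' := by
    refine continuous_pi fun s => ((continuous_apply s).comp continuous_subtype_val).div ?_
      fun μ => ?_
    · simp only [← Finset.sup'_univ_eq_ciSup]
      exact Continuous.finset_sup'_apply _ fun s _ =>
        (continuous_apply s).comp continuous_subtype_val
    · obtain ⟨s, -, hs⟩ := Finset.exists_ne_zero_of_sum_ne_zero (μ.2.2.trans_ne one_ne_zero)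
      exact ((lt_of_le_of_ne (μ.2.1 s) hs.symm).trans_le
        (le_ciSup (Finite.bddAbove_range _) s)).ne'
  have h2 : Continuous fun q : (A → XX av S T κ) × stdSimplex ℝ A => dist q.1 p.1 + 2 * T *
      dist (fun s => q.2.1 s / ⨆ s', q.2.1 s') fun s => p.2.1 s / ⨆ s', p.2.1 s' :=
    (continuous_fst.dist continuous_const).add
      (continuous_const.mul ((h1.comp continuous_snd).dist continuous_const))
  refine tendsto_iff_dist_tendsto_zero.2 (squeeze_zero (fun _ => dist_nonneg) (fun q => ?_)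
    (by simpa using h2.tendsto p))
  have h3 := fun s => (XX.dist_le_iff dist_nonneg).1 (dist_le_pi_dist q.1 p.1 s)
  have h4 := dist_le_pi_dist (fun s => q.2.1 s / ⨆ s', q.2.1 s') fun s => p.2.1 s / ⨆ s', p.2.1 s'
  exact (XX.dist_le_iff (by positivity)).2 fun i =>
    ⟨bar_lip (fun s => ((q.1 s).2 i).sn.nn) (fun s => ((p.1 s).2 i).sn.nn) (fun s => (h3 s i).1) h4,
      bar_lip (fun s => ((p.1 s).2 i).sn.nn) (fun s => ((q.1 s).2 i).sn.nn) (fun s => (h3 s i).2)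
        fun s => (abs_sub_comm _ _).trans_le (h4 s)⟩

theorem barX_dist (ha : ∀ i, Pl (av i)) {A : Type} [Fintype A] (x : A → XX av S T κ)
    (μ : stdSimplex ℝ A) (z : XX av S T κ) {δ : ℝ} (hδ : 0 ≤ δ)
    (h : ∀ s, 0 < μ.1 s → dist (x s) z ≤ δ) : dist (barX ha x μ) z ≤ δ := by
  exact (XX.dist_le_iff hδ).2 fun i => bar_nr μ.2 (fun s => (x s).2 i) (z.2 i).sn
    fun s hs => (XX.dist_le_iff hδ).1 (h s hs) i

end Pool.Agent.Work.MP_9d1ffa_al.GN
end

-- merged part: Pool.Agent.Work.MP_9d1ffa_al.GN.Mk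
section
/-! Marker sets after four rounds of colour reduction, and the choice of the parameter `T`. -/

namespace Pool.Agent.Work.MP_9d1ffa_al.GN

open G2 (nb KK)

/-- Number of colours after applying `G2.exists_col` twice. -/
def K2 (b q m : ℕ) : ℕ := KK (Nat.log 2 (KK b q m) + 1) q m

/-- As `G2.exists_mark`, with `col2 c = col' (col c)`, `col` from `exists_col I b q` and `col'` from
`exists_col I (Nat.log 2 (KK b q m) + 1) q` (`Nat.lt_pow_succ_log_self`), then `exists_greedy`. -/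
theorem exists_mark2 (I : Type) [Fintype I] (b q : ℕ) :
    ∃ M : ((I → ℤ) → ℕ) → Set (I → ℤ), (∀ c t, ∃ s ∈ M c, nb q s t) ∧
      (∀ c, (∀ t, c t < 2 ^ b) → ∀ s ∈ M c, ∀ t ∈ M c, nb q s t → c s = c t) ∧
      ∀ c c' t δ, (∀ s, nb ((K2 b q (Fintype.card I) + 4) * q) s t → c' (s + δ) = c s) →
        t ∈ M c → t + δ ∈ M c' := by
  obtain ⟨col, a1, a2, a3⟩ := G2.exists_col I b q
  obtain ⟨col', c1, c2, c3⟩ := G2.exists_col I (Nat.log 2 (KK b q (Fintype.card I)) + 1) q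
  obtain ⟨M, b1, b2, b3⟩ := G2.exists_greedy I (K2 b q (Fintype.card I)) q
  exact ⟨fun c => M (col' (col c)), fun c t => b1 _ t (c1 _ t),
    fun c hc s hs t ht h => a2 c hc s t h (c2 (col c)
      (fun u => (a1 c u).trans (Nat.lt_pow_succ_log_self one_lt_two _)) s t h (b2 _ s hs t ht h)),
    fun c c' t δ h => b3 _ _ t δ fun s hs => c3 _ _ s δ fun u hu => a3 c c' u δ fun v hv =>
      h v (G2.MkA_trans hv (G2.MkA_trans hu hs le_rfl) (le_of_eq (by ring)))⟩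

theorem Mk_pow (C k : ℕ) : ∃ N : ℕ, ∀ n, N ≤ n → C * n ^ k ≤ 2 ^ n := by
  have h := (tendsto_pow_const_div_const_pow_of_one_lt k (one_lt_two (α := ℝ))).const_mul (C : ℝ)
  rw [mul_zero] at h
  obtain ⟨N, hN⟩ := Filter.eventually_atTop.1 (h.eventually (gt_mem_nhds one_pos))
  refine ⟨N, fun n hn => ?_⟩
  have h1 := hN n hn
  rw [← mul_div_assoc, div_lt_one (by positivity)] at h1
  exact_mod_cast h1.le

/-- `K2 (2 ^ (c T ^ 3)) q m` is polylogarithmic in `T`. Take `T = 2 ^ s`: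
`log 2 (2 * 2 ^ (c T ^ 3)) = c T ^ 3 + 1`, `KK ≤ (2 c T ^ 3 + 5) ^ E ≤ 2 ^ (E (3 s + 2 c + 5))`, so
`K2 ≤ (polynomial in s)` (even `log 2 x ≤ x` is enough in the last step), and `s ^ e / 2 ^ s → 0`
(`tendsto_pow_const_div_const_pow_of_one_lt`; compare `G2.exists_par` in `G2/MkB.lean`). -/
theorem exists_par2 (c q m A D : ℕ) : ∃ T : ℕ, A ≤ T ∧ D * (K2 (2 ^ (c * T ^ 3)) q m + 1) ≤ T := by
  obtain ⟨E, hE⟩ : ∃ E, E = (2 * q + 1) ^ m := ⟨_, rfl⟩
  obtain ⟨N, hN⟩ := Mk_pow (A + D * ((16 * E + 7) ^ E + 1)) E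
  obtain ⟨n, hn1, hn2⟩ : ∃ n, N ≤ n ∧ 2 * c + 5 ≤ n := ⟨N + (2 * c + 5), by omega, by omega⟩
  have h4 : 1 ≤ n ^ E := Nat.one_le_pow _ _ (by omega)
  have h5 := hN n hn1
  have h0 : ∀ x, Nat.log 2 (2 * 2 ^ x) = x + 1 := fun x => by
    rw [← pow_succ', Nat.log_pow (by norm_num)]
  have h1 : 2 * (c * (2 ^ n) ^ 3 + 1 + 1) + 1 ≤ 2 ^ (4 * n) := by
    have a1 : 1 ≤ (2 ^ n) ^ 3 := Nat.one_le_pow _ _ (by positivity)
    have a2 : 2 * c + 5 ≤ 2 ^ n := hn2.trans Nat.lt_two_pow_self.le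
    calc 2 * (c * (2 ^ n) ^ 3 + 1 + 1) + 1 ≤ (2 * c + 5) * (2 ^ n) ^ 3 := by nlinarith
      _ ≤ 2 ^ n * (2 ^ n) ^ 3 := Nat.mul_le_mul_right _ a2
      _ = 2 ^ (4 * n) := by ring
  have h2 : Nat.log 2 (KK (2 ^ (c * (2 ^ n) ^ 3)) q m) ≤ 4 * n * E := by
    have a1 : KK (2 ^ (c * (2 ^ n) ^ 3)) q m ≤ 2 ^ (4 * n * E) := by
      rw [KK, ← hE, h0, pow_mul 2 (4 * n)]
      exact Nat.pow_le_pow_left h1 E
    have := Nat.log_mono_right (b := 2) a1
    rwa [Nat.log_pow (by norm_num)] at this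
  have h3 : K2 (2 ^ (c * (2 ^ n) ^ 3)) q m ≤ (16 * E + 7) ^ E * n ^ E := by
    rw [K2, KK, ← hE, ← mul_pow]
    refine Nat.pow_le_pow_left ?_ E
    have a1 := Nat.log_le_self 2 (2 * (Nat.log 2 (KK (2 ^ (c * (2 ^ n) ^ 3)) q m) + 1))
    nlinarith
  refine ⟨2 ^ n, ?_, ?_⟩
  · nlinarith [Nat.zero_le (D * ((16 * E + 7) ^ E + 1) * n ^ E)]
  · calc D * (K2 (2 ^ (c * (2 ^ n) ^ 3)) q m + 1)
        ≤ D * ((16 * E + 7) ^ E * n ^ E + n ^ E) := Nat.mul_le_mul_left _ (Nat.add_le_add h3 h4)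
      _ ≤ (A + D * ((16 * E + 7) ^ E + 1)) * n ^ E := by nlinarith [Nat.zero_le (A * n ^ E)]
      _ ≤ 2 ^ n := h5

end Pool.Agent.Work.MP_9d1ffa_al.GN
end

-- merged part: Pool.Agent.Work.MP_9d1ffa_al.GN.WX
section
/-! The weights on the transfer space. -/

namespace Pool.Agent.Work.MP_9d1ffa_al.GN

open Real Matrix
open G2 (nb Pl)

variable {K : Type} [Field K] {n : ℕ} {ι : Type} [Fintype ι] {G : Type} [Group G]
  {av : ι → AbsoluteValue K ℝ}

/-- The properties asked from the weights. -/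
def Wts (av : ι → AbsoluteValue K ℝ) (ρ : G →* GL (Fin n) K) (S : Finset (GL (Fin n) K)) (T : ℕ)
    (κ C η : ℝ) : Prop :=
  ∃ (Ω : Type) (_ : MulAction G Ω) (A : Set Ω) (W : XX av S T κ → Ω → ℝ),
    A.Finite ∧ (∀ ω ∈ A, MulAction.stabilizer G ω ∈ Fam av ρ) ∧
    (∀ ω, Continuous fun x => W x ω) ∧ (∀ x ω, 0 ≤ W x ω) ∧ (∀ x ω, W x ω ≠ 0 → ω ∈ A) ∧
    (∀ x, (Function.support (W x)).ncard ≤ (8 * n) ^ (Fintype.card ι * n)) ∧
    (∀ x, ∃ ω, 1 / 4 ≤ W x ω) ∧
    ∀ (g : G) (y z : XX av S T κ), (∀ i, Nr C (act (ρ g) (g0 (av i))) (g0 (av i)) ∧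
      Rel (av i) C (C / T) (C / T) (ρ g) (y.1 i) (z.1 i)) → ∀ ω, |W z (g • ω) - W y ω| ≤ η

/-- Choose frames `d x` by `InX.frame`, `Φ = Ph S (2 T ^ 3 (n + 1) + n)`, `E = Lst av ρ L Φ (3 T)`,
`c0` from `exists_c0` (`Lst_card`), `P = ⟨q, L, Γ, 2 r, M, c0⟩`, `A = uc (BR ρ q) '' E`,
`W x = WW av ρ P (d x)`; `WW_ne`, `box_mem` (`2 q ≤ r`), `WW_card`, `WW_big`. The last clause is
`cmp_of_rel` and `WW_cmp` (`k₁ = C + C / T + C ≤ 3 C`). Continuity: for `δ = dist x x'`,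
`XX.dist_le_iff`, `rel_of_nr`, `cmp_of_rel` with `g = 1`, `κ = c = Λ = 0` and `WW_cmp` give
`|W x' ω - W x ω| ≤ (2 / Γ + 2 (n + 1)) δ` (`LipschitzWith.of_dist_le_mul`). -/
theorem wts_of_par (ha : ∀ i, Pl (av i)) {ρ : G →* GL (Fin n) K} (hd : ∀ g, (ρ g).1.det = 1)
    {S : Finset (GL (Fin n) K)} {T : ℕ} {κ : ℝ} {q L c R r C : ℕ} {Γ η : ℝ}
    {M : ((ι × Fin n → ℤ) → ℕ) → Set (ι × Fin n → ℤ)} (hM : IsMk M c q R) (hq : 2 ≤ q) (hL : 1 ≤ L)
    (hst : ∀ f γ b, MulAction.stabilizer G (uc (BR ρ q) (bxe av ρ L f γ b)) ∈ Fam av ρ)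
    (hc0 : 0 < c)
    (hc : ((Ph S (2 * T ^ 3 * (n + 1) + n)).card * (2 * (3 * T) + 1) * n) ^ (Fintype.card ι * n) ≤ c)
    (hr : 2 * q + C + R + n * L ≤ r) (hΓ : n * (2 * r) + 2 * r + 2 * C ≤ Γ) (hΓT : Γ ≤ T)
    (e1 : 6 * C / Γ ≤ η) (e2 : 2 * (n + 1) * (C / T + C / T * (2 * n * Γ)) ≤ η)
    (e3 : C / (2 * q) ≤ η) : Wts av ρ S T κ C η := by
  choose f β α hf hm hΦ hα using fun (x : XX av S T κ) (i : ι) => (x.2 i).frame (ha i)
  let d : XX av S T κ → FD ι n K := fun x => ⟨f x, β x, α x⟩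
  obtain ⟨l1, l2⟩ := Lst_card (av := av) (ρ := ρ) L (Ph S (2 * T ^ 3 * (n + 1) + n)) (3 * T)
  obtain ⟨c0, c1, c2, c3⟩ := exists_c0 G l1 (l2.trans hc) hc0
  let P : Pm ι n (Bx ι ρ) := ⟨q, L, Γ, 2 * r, M, c0⟩
  have hq0 : 0 < q := by omega
  have hq' : (2 : ℝ) ≤ q := by exact_mod_cast hq
  have hr' : (2 * q + C + R + n * L : ℝ) ≤ r := by exact_mod_cast hr
  have n0 : (0 : ℝ) ≤ n := Nat.cast_nonneg _
  have C0 : (0 : ℝ) ≤ C := Nat.cast_nonneg _
  have R0 : (0 : ℝ) ≤ R := Nat.cast_nonneg _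
  have L0 : (0 : ℝ) ≤ n * L := by positivity
  have r0 : (0 : ℝ) ≤ n * (2 * r) := by positivity
  have r4 : (4 : ℝ) ≤ r := by linarith
  have hΓ0 : 0 < Γ := by linarith
  have hT1 : (1 : ℝ) ≤ T := by linarith
  have hb : ∀ x b t, ‖t - ctr P.σ‖ < 2 * P.q → box av ρ P.L (d x) b t ∈
      Lst av ρ L (Ph S (2 * T ^ 3 * (n + 1) + n)) (3 * T) := fun x b t ht =>
    box_mem L (d := d x) (hf x) (hΦ x) (hα x) (σ := 2 * r) (by linarith) (r := 2 * q)
      (by push_cast; linarith) b ht.le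
  have hfr : ∀ x i, Fr (av i) (g0 (av i)) (x.1 i) ((d x).f i) ((d x).β i) ((d x).α i) ∧
      Monotone ((d x).α i) := fun x i => ⟨hf x i, hm x i⟩
  refine ⟨UC (Bx ι ρ), inferInstance, uc (BR ρ q) '' _, fun x => WW av ρ P (d x), l1.image _, ?_,
    fun ω => ?_, fun x => WW_nonneg P _, fun x ω h => ?_,
    fun x => WW_card ha hd (P := P) hM hq0 hL c1 c3 (hb x),
    fun x => WW_big (P := P) hM hq hΓ0 (hm x), fun g y z h ω => ?_⟩
  · rintro _ ⟨_, ⟨f, γ, b, -, -, rfl⟩, rfl⟩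
    exact hst f γ b
  · have p0 : 0 ≤ 2 / Γ + 2 * (n + 1) := by positivity
    refine (LipschitzWith.of_dist_le_mul (K := ⟨_, p0⟩) fun x x' => ?_).continuous
    have δ0 : 0 ≤ dist x x' := dist_nonneg
    have h1 := cmp_of_rel ha (hfr x') (hfr x) (g := ρ 1) (κ := 0) (c := 0) (Λ := 0)
      (δ := dist x x') (Γ := Γ) (σ := 2 * r) (r := r)
      (fun i => by rw [map_one, act_one]; exact Nr.rfl)
      (fun i => by rw [map_one]; exact rel_of_nr ((XX.dist_le_iff δ0).1 le_rfl i)) le_rfl le_rfl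
      zero_le_one hΓ0 (by linarith) le_rfl (by linarith)
    have p1 : 0 ≤ 2 / Γ * dist x x' := by positivity
    have p2 : 0 ≤ 2 * ((n : ℝ) + 1) * dist x x' := by positivity
    have h2 := WW_cmp ha (P := P) hM hq0 hΓ0 c2 (η := (2 / Γ + 2 * (n + 1)) * dist x x')
      (by linarith) (by linarith) (by change 2 * (q : ℝ) + 0 + R + n * L ≤ r; linarith)
      (by
        change 2 * (0 + dist x x' + 0) / Γ ≤ _
        rw [zero_add, add_zero, mul_div_right_comm, add_mul]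
        linarith)
      (by rw [zero_mul, add_zero, add_mul]; linarith) (by rw [zero_div]; positivity) h1 ω
    rw [one_smul] at h2
    exact h2
  · obtain ⟨b, t, h1, h2⟩ := WW_ne (P := P) hq0 h
    exact ⟨_, hb x b t h2, h1.2⟩
  · have p1 : 0 ≤ (C : ℝ) / T := by positivity
    have p2 : (C : ℝ) / T ≤ C := div_le_self C0 hT1
    have h1 := cmp_of_rel ha (hfr y) (hfr z) (Γ := Γ) (σ := 2 * r) (r := r) (fun i => (h i).1)
      (fun i => (h i).2) C0 p1 ((div_le_one (by linarith)).2 (by linarith)) hΓ0 (by linarith) le_rfl hΓ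
    exact WW_cmp ha (P := P) hM hq0 hΓ0 c2 (by linarith) (by positivity) hr'
      ((div_le_div_of_nonneg_right (by linarith) hΓ0.le).trans e1) e2 e3 h1 ω

/-- Choose `q ≥ 2` with `C / (2 q) ≤ η`, `D0 ≥ 1` with `4 n (n + 1) C / D0 ≤ η / 2`, `L` from
`stab_mem`, `c` from `Lst_bound` (`Ph_card`), then `T` from `exists_par2` with `m = card (ι × Fin n)`,
`A ≥ C, 1` so large that `6 C D0 / A ≤ η`, `2 (n + 1) C / A ≤ η / 2`, and
`D = D0 * ((2 n + 2) (6 q + C + n L) + 2 C)`. Put `Γ = T / D0`, `R = (K2 .. + 4) q`,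
`r = 2 q + C + R + n L ≤ (6 q + C + n L) (K2 .. + 1)`; `exists_mark2` with `b = 2 ^ (c T ^ 3)`. -/
theorem exists_wts (ha : ∀ i, Pl (av i)) {A : Subring K} (hL : Low av A) (ρ : G →* GL (Fin n) K)
    (hd : ∀ g, (ρ g).1.det = 1) (hA : ∀ g p q, (ρ g).1 p q ∈ A) (S : Finset (GL (Fin n) K)) (κ : ℝ)
    (C : ℕ) {η : ℝ} (hη : 0 < η) : ∃ T : ℕ, C ≤ T ∧ Wts av ρ S T κ C η := by
  obtain ⟨q0, hq0⟩ := exists_nat_ge (C / (2 * η))
  obtain ⟨q, hq, hq1⟩ : ∃ q : ℕ, 2 ≤ q ∧ q0 ≤ q := ⟨q0 + 2, by omega, by omega⟩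
  obtain ⟨D1, hD1⟩ := exists_nat_ge (8 * n * (n + 1) * C / η)
  obtain ⟨D, hD, hD2⟩ : ∃ D : ℕ, 1 ≤ D ∧ D1 ≤ D := ⟨D1 + 1, by omega, by omega⟩
  obtain ⟨L, hL1, hst⟩ := stab_mem ha hL ρ hA q
  obtain ⟨c, hc⟩ := Lst_bound (Fintype.card ι) n S.card
  obtain ⟨A1, hA1⟩ := exists_nat_ge (6 * C * D / η)
  obtain ⟨A2, hA2⟩ := exists_nat_ge (4 * (n + 1) * C / η)
  obtain ⟨T, hT, hK⟩ := exists_par2 c q (Fintype.card (ι × Fin n)) (C + 1 + A1 + A2)
    (D * ((2 * n + 2) * (6 * q + C + n * L) + 2 * C))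
  obtain ⟨M, m1, m2, m3⟩ := exists_mark2 (ι × Fin n) (2 ^ (c * T ^ 3)) q
  generalize K2 (2 ^ (c * T ^ 3)) q (Fintype.card (ι × Fin n)) = k at hK m3
  have T0 : (0 : ℝ) < T := by exact_mod_cast (show 0 < T by omega)
  have D0 : (1 : ℝ) ≤ D := by exact_mod_cast hD
  have q2 : (2 : ℝ) ≤ q := by exact_mod_cast hq
  have a1 : (A1 : ℝ) ≤ T := by exact_mod_cast (show A1 ≤ T by omega)
  have a2 : (A2 : ℝ) ≤ T := by exact_mod_cast (show A2 ≤ T by omega)
  have a3 : (D1 : ℝ) ≤ D := by exact_mod_cast hD2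
  have a4 : (q0 : ℝ) ≤ q := by exact_mod_cast hq1
  refine ⟨T, by omega, wts_of_par ha hd (Γ := T / D) (r := 2 * q + C + (k + 4) * q + n * L)
    ⟨m1, m2, m3⟩ hq hL1 hst (by positivity) (hc T _ (by omega) (Ph_card S _)) le_rfl ?_
    (div_le_self T0.le D0) ?_ ?_ ?_⟩
  · rw [le_div_iff₀ (by linarith)]
    have h1 : 2 * q + C + (k + 4) * q + n * L ≤ (6 * q + C + n * L) * (k + 1) := by
      nlinarith [Nat.zero_le (q * k), Nat.zero_le (C * k), Nat.zero_le (n * L * k)]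
    have h2 : (n * (2 * (2 * q + C + (k + 4) * q + n * L)) + 2 * (2 * q + C + (k + 4) * q + n * L) +
        2 * C) * D ≤ T := by
      refine le_trans ?_ hK
      generalize 2 * q + C + (k + 4) * q + n * L = r at h1
      generalize 6 * q + C + n * L = u at h1
      calc (n * (2 * r) + 2 * r + 2 * C) * D = D * ((2 * n + 2) * r + 2 * C * 1) := by ring
        _ ≤ D * ((2 * n + 2) * (u * (k + 1)) + 2 * C * (k + 1)) := by gcongr; omega
        _ = _ := by ring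
    exact_mod_cast h2
  · rw [div_div_eq_mul_div, div_le_iff₀ T0]
    have := (div_le_iff₀ hη).1 (hA1.trans a1)
    linarith
  · have h1 := (div_le_iff₀ hη).1 (hA2.trans a2)
    have h2 := (div_le_iff₀ hη).1 (hD1.trans a3)
    have h3 : 2 * ((n : ℝ) + 1) * (C / T) ≤ η / 2 := by
      rw [← mul_div_assoc, div_le_iff₀ T0]
      linarith
    have h4 : 2 * ((n : ℝ) + 1) * (C / T * (2 * n * (T / D))) ≤ η / 2 := by
      have : 2 * ((n : ℝ) + 1) * (C / T * (2 * n * (T / D))) = 4 * n * (n + 1) * C / D := by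
        field_simp
        ring
      rw [this, div_le_iff₀ (by linarith)]
      linarith
    linarith
  · have h1 := (div_le_iff₀ (by positivity)).1 (hq0.trans a4)
    rw [div_le_iff₀ (by positivity)]
    linarith

end Pool.Agent.Work.MP_9d1ffa_al.GN
end

-- merged part: Pool.Agent.Work.MP_9d1ffa_al.GN.Dom
section
/-! Abstract criterion for transfer spaces. -/

namespace Pool.Agent.Work.MP_9d1ffa_al.GN

/-- The point of the one-simplex with weights `1 - t`, `t`. -/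
def sm1 (t : unitInterval) : stdSimplex ℝ (Fin 2) :=
  ⟨![1 - t, t], fun i => by fin_cases i <;> simp [t.2.1, t.2.2], by simp [Fin.sum_univ_two]⟩

theorem sm1_cont : Continuous sm1 := by
  refine Continuous.subtype_mk (continuous_pi fun i => ?_) _
  fin_cases i
  · exact continuous_const.sub continuous_subtype_val
  · exact continuous_subtype_val

/-- Segments from barycentres (`hn` with `δ = 0` gives the end points). -/
theorem seg_zero {X : Type} [MetricSpace X] (b : (Fin 2 → X) → stdSimplex ℝ (Fin 2) → X)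
    (hn : ∀ x μ z δ, 0 ≤ δ → (∀ s, 0 < μ.1 s → dist (x s) z ≤ δ) → dist (b x μ) z ≤ δ)
    (x y : X) : b ![x, y] (sm1 0) = x ∧ b ![x, y] (sm1 1) = y := by
  constructor
  · refine dist_le_zero.1 (hn _ _ _ 0 le_rfl fun s hs => ?_)
    fin_cases s
    · simp
    · simp [sm1] at hs
  · refine dist_le_zero.1 (hn _ _ _ 0 le_rfl fun s hs => ?_)
    fin_cases s
    · simp [sm1] at hs
    · simp

/-- The segment between two maps. -/
private noncomputable def Dom_seg {X : Type} [MetricSpace X]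
    (b : (Fin 2 → X) → stdSimplex ℝ (Fin 2) → X)
    (hc : Continuous fun p : (Fin 2 → X) × stdSimplex ℝ (Fin 2) => b p.1 p.2)
    (hn : ∀ x μ z δ, 0 ≤ δ → (∀ s, 0 < μ.1 s → dist (x s) z ≤ δ) → dist (b x μ) z ≤ δ)
    (f g : C(X, X)) : f.Homotopy g where
  toFun p := b ![f p.2, g p.2] (sm1 p.1)
  continuous_toFun := by
    have h1 : Continuous fun p : unitInterval × X => (![f p.2, g p.2] : Fin 2 → X) := by
      refine continuous_pi fun i => ?_
      fin_cases i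
      · exact f.continuous.comp continuous_snd
      · exact g.continuous.comp continuous_snd
    exact hc.comp (h1.prodMk (sm1_cont.comp continuous_fst))
  map_zero_left x := (seg_zero b hn _ _).1
  map_one_left x := (seg_zero b hn _ _).2

/-- A finite subfamily of the weights, without repetitions. -/
private theorem Dom_fin {X Ω : Type} [TopologicalSpace X] [CompactSpace X] {W : X → Ω → ℝ}
    (h1 : ∀ ω, Continuous fun x => W x ω) (h2 : ∀ x, ∃ ω, 0 < W x ω) :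
    ∃ (M : ℕ) (o : Fin M → Ω) (z : Fin M → X), Function.Injective o ∧ (∀ s, 0 < W (z s) (o s)) ∧
      ∀ x, ∃ s, 0 < W x (o s) := by
  classical
  choose w hw using h2
  obtain ⟨t, ht⟩ := isCompact_univ.elim_finite_subcover (fun x => {y | 0 < W y (w x)})
    (fun x => isOpen_lt continuous_const (h1 _)) fun x _ => Set.mem_iUnion.2 ⟨x, hw x⟩
  have h3 : ∀ s : t.image w, ∃ x, 0 < W x s := fun s => by
    obtain ⟨x, -, hx⟩ := Finset.mem_image.1 s.2
    exact ⟨x, hx ▸ hw x⟩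
  choose z hz using h3
  refine ⟨_, fun s => (t.image w).equivFin.symm s, fun s => z ((t.image w).equivFin.symm s),
    Subtype.val_injective.comp (Equiv.injective _), fun s => hz _, fun x => ?_⟩
  obtain ⟨y, hy, hx⟩ := Set.mem_iUnion₂.1 (ht (Set.mem_univ x))
  exact ⟨(t.image w).equivFin ⟨w y, Finset.mem_image_of_mem w hy⟩, by simpa using hx⟩

/-- Contraction along the segments to a base point. For the domination cover `X` by finitely many
of the open sets `{x | 0 < W x ω}` (non-empty ones), indexed by `Fin M` injectively; `i x` is the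
normalised vector of these weights, `p μ = b M xs μ` with chosen points `xs s`, `0 < W (xs s) ω_s`,
and the homotopy is the segment from `p (i x)` to `x`. -/
theorem isTransfer_of_weights {X : Type} [MetricSpace X] [CompactSpace X] [Nonempty X] (N : ℕ)
    (b : ∀ M : ℕ, (Fin M → X) → stdSimplex ℝ (Fin M) → X)
    (hc : ∀ M, Continuous fun p : (Fin M → X) × stdSimplex ℝ (Fin M) => b M p.1 p.2)
    (hn : ∀ M x μ z δ, 0 ≤ δ → (∀ s, 0 < μ.1 s → dist (x s) z ≤ δ) → dist (b M x μ) z ≤ δ)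
    (hW : ∀ δ : ℝ, 0 < δ → ∃ (Ω : Type) (W : X → Ω → ℝ), (∀ ω, Continuous fun x => W x ω) ∧
      (∀ x ω, 0 ≤ W x ω) ∧ (∀ x, ∃ ω, 0 < W x ω) ∧
      (∀ x, (Function.support (W x)).encard ≤ (N + 1 : ℕ)) ∧
      ∀ x x' ω, 0 < W x ω → 0 < W x' ω → dist x x' ≤ δ) : IsTransfer N X := by
  refine ⟨inferInstance, ?_, fun δ hδ => ?_⟩
  · exact (contractible_iff_id_nullhomotopic X).2
      ⟨Classical.arbitrary X, ⟨Dom_seg (b 2) (hc 2) (hn 2) _ _⟩⟩
  obtain ⟨Ω, W, w1, w2, w3, w4, w5⟩ := hW δ hδ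
  obtain ⟨M, o, z, o1, o2, o3⟩ := Dom_fin w1 w3
  have s0 : ∀ x, 0 < ∑ s, W x (o s) := fun x => by
    obtain ⟨s, hs⟩ := o3 x
    exact Finset.sum_pos' (fun s _ => w2 _ _) ⟨s, Finset.mem_univ s, hs⟩
  have s1 : ∀ x, (fun s => W x (o s) / ∑ s, W x (o s)) ∈ Sk N M := fun x => by
    refine ⟨⟨fun s => div_nonneg (w2 _ _) (s0 x).le, ?_⟩, ?_⟩
    · rw [← Finset.sum_div, div_self (s0 x).ne']
    · refine ENat.toNat_le_of_le_natCast (le_trans ?_ (w4 x))
      rw [← o1.encard_image]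
      refine Set.encard_le_encard ?_
      rintro _ ⟨s, hs, rfl⟩ h
      exact hs (by simp [h])
  let i : C(X, Sk N M) := ⟨fun x => ⟨_, s1 x⟩, Continuous.subtype_mk (continuous_pi fun s =>
    (w1 _).div (continuous_finsetSum _ fun s _ => w1 _) fun x => (s0 x).ne') _⟩
  let p : C(Sk N M, X) := ⟨fun μ => b M z ⟨μ.1, μ.2.1⟩, (hc M).comp
    (continuous_const.prodMk (Continuous.subtype_mk continuous_subtype_val fun μ => μ.2.1))⟩
  refine ⟨M, i, p, Dom_seg (b 2) (hc 2) (hn 2) _ _, fun t x => hn 2 _ _ _ _ hδ.le fun s _ => ?_⟩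
  fin_cases s
  · exact hn M _ _ _ _ hδ.le fun s hs => w5 _ _ _ (o2 s) ((div_pos_iff_of_pos_right (s0 x)).1 hs)
  · simpa using hδ.le

end Pool.Agent.Work.MP_9d1ffa_al.GN
end

-- merged part: Pool.Agent.Work.MP_9d1ffa_al.GN.DomW
section
/-! The space `XX` is a transfer space. -/

namespace Pool.Agent.Work.MP_9d1ffa_al.GN

open Real Matrix
open G2 (Pl)

variable {K : Type} [Field K] {n : ℕ} {ι : Type} [Fintype ι] {av : ι → AbsoluteValue K ℝ}
  {S : Finset (GL (Fin n) K)} {T : ℕ} {κ : ℝ}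

private theorem DomW_shift {a : AbsoluteValue K ℝ} {f f' : GL (Fin n) K} {β β' : Fin n → ℝ}
    {d : ℝ} (h : Nr d (dg a f β) (dg a f' β')) (c : ℝ) :
    Nr d (dg a f fun j => β j + c) (dg a f' fun j => β' j + c) := by
  rw [dg_add_const, dg_add_const]
  exact ⟨fun x => (mul_le_mul_of_nonneg_left (h.1 x) (exp_pos c).le).trans_eq (mul_left_comm _ _ _),
    fun x => (mul_le_mul_of_nonneg_left (h.2 x) (exp_pos c).le).trans_eq (mul_left_comm _ _ _)⟩

private theorem DomW_two (s t : ℝ) (h0 : s ≤ t) (h1 : t ≤ s + 1) :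
    ∃ e : Fin 2, ⌈t⌉ = ⌈s⌉ + ((e : ℕ) : ℤ) := by
  have a := Int.ceil_mono h0
  have b := Int.ceil_mono h1
  rw [Int.ceil_add_one] at b
  rcases (show ⌈t⌉ = ⌈s⌉ ∨ ⌈t⌉ = ⌈s⌉ + 1 by omega) with h | h
  · exact ⟨0, by simpa using h⟩
  · exact ⟨1, by simpa using h⟩

/-- Choose `Q` with `2 / Q ≤ δ` and for every `x` and `i` a frame `(f i, β i)` (`InX.frame`).
`Ω = ι → V n K → ℝ`; for `u : ι → ℝ` let `At x u i = dg (av i) (f i) (⌈Q * (β i j + u i)⌉ / Q)` and
`mar x u` the infimum of `1` and the `2 (n + 1) * dZ (Q * (β i j + u i))` (index type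
`Option (ι × Fin n)`). `W x ω = ⨆ u, if (∀ i, 0 ≤ u i ∧ u i ≤ 1 / Q) ∧ At x u = ω then mar x u else 0`.
Lipschitz: `W x ω ≤ W x' ω + 2 (n + 1) Q dist x x'` by `ceil_eq`, `mar_le` (`dg_add_const` for the
shift by `u i`). Positive weight: `exists_shift` for `Q * β i`. Count: `At x u` is determined by
`⌈Q (β i j + u i)⌉ - ⌈Q β i j⌉ ∈ {0, 1}`. Closeness: `β ≤ ⌈Q (β + u)⌉ / Q ≤ β + 2 / Q`. -/
theorem XX.weights (ha : ∀ i, Pl (av i)) (δ : ℝ) (hδ : 0 < δ) :
    ∃ (Ω : Type) (W : XX av S T κ → Ω → ℝ), (∀ ω, Continuous fun x => W x ω) ∧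
      (∀ x ω, 0 ≤ W x ω) ∧ (∀ x, ∃ ω, 0 < W x ω) ∧
      (∀ x, (Function.support (W x)).encard ≤ (2 ^ (Fintype.card ι * n) : ℕ)) ∧
      ∀ x x' ω, 0 < W x ω → 0 < W x' ω → dist x x' ≤ δ := by
  classical
  obtain ⟨Q, hQ⟩ := exists_nat_gt (2 / δ)
  have hQ0 : (0 : ℝ) < Q := (div_pos two_pos hδ).trans hQ
  have hQ1 : 0 < Q := by exact_mod_cast hQ0
  have hQ2 : 2 / (Q : ℝ) ≤ δ := by
    rw [div_lt_iff₀ hδ] at hQ
    rw [div_le_iff₀ hQ0]
    linarith
  have hn : (0 : ℝ) < 2 * (n + 1) := by positivity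
  obtain ⟨f, β, hf⟩ : ∃ (f : XX av S T κ → ι → GL (Fin n) K) (β : XX av S T κ → ι → Fin n → ℝ),
      ∀ x i, x.1 i = dg (av i) (f x i) (β x i) := by
    have h : ∀ (x : XX av S T κ) (i : ι), ∃ (f : GL (Fin n) K) (β : Fin n → ℝ),
        x.1 i = dg (av i) f β := fun x i => by
      obtain ⟨f, β, α, h, -⟩ := (x.2 i).frame (ha i)
      exact ⟨f, β, h.hy⟩
    choose f β h using h
    exact ⟨f, β, h⟩
  obtain ⟨A, hA⟩ : ∃ A : XX av S T κ → (ι → V n K → ℝ) → Set ℝ, ∀ x ω r, r ∈ A x ω ↔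
      0 ≤ r ∧ r ≤ 1 ∧ ∃ u : ι → ℝ, (∀ i, 0 ≤ Q * u i ∧ Q * u i ≤ 1) ∧
        (∀ i, ω i = dg (av i) (f x i) fun j => (⌈Q * (β x i j + u i)⌉ : ℝ) / Q) ∧
        ∀ i j, r ≤ 2 * (n + 1) * dZ (Q * (β x i j + u i)) :=
    ⟨fun x ω => {r | 0 ≤ r ∧ r ≤ 1 ∧ ∃ u : ι → ℝ, (∀ i, 0 ≤ Q * u i ∧ Q * u i ≤ 1) ∧
        (∀ i, ω i = dg (av i) (f x i) fun j => (⌈Q * (β x i j + u i)⌉ : ℝ) / Q) ∧
        ∀ i j, r ≤ 2 * (n + 1) * dZ (Q * (β x i j + u i))}, fun _ _ _ => Iff.rfl⟩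
  have h0 : ∀ x ω, 0 ≤ sSup (A x ω) := fun x ω =>
    Real.sSup_nonneg fun r hr => ((hA _ _ _).1 hr).1
  have hle : ∀ x ω r, r ∈ A x ω → r ≤ sSup (A x ω) := fun x ω r hr =>
    le_csSup ⟨1, fun r hr => ((hA _ _ _).1 hr).2.1⟩ hr
  have hex : ∀ x ω, 0 < sSup (A x ω) → ∃ u : ι → ℝ, (∀ i, 0 ≤ Q * u i ∧ Q * u i ≤ 1) ∧
      ∀ i, ω i = dg (av i) (f x i) fun j => (⌈Q * (β x i j + u i)⌉ : ℝ) / Q := fun x ω h => by
    obtain ⟨r, hr⟩ : (A x ω).Nonempty := by
      by_contra hc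
      rw [Set.not_nonempty_iff_eq_empty.1 hc, Real.sSup_empty] at h
      exact lt_irrefl _ h
    obtain ⟨-, -, u, hu, hω, -⟩ := (hA _ _ _).1 hr
    exact ⟨u, hu, hω⟩
  have hlip : ∀ ω x x', sSup (A x ω) ≤ sSup (A x' ω) + 2 * (n + 1) * Q * dist x x' := by
    intro ω x x'
    have hd : 0 ≤ dist x x' := dist_nonneg
    have hC : 0 ≤ 2 * ((n : ℝ) + 1) * Q * dist x x' := by positivity
    refine Real.sSup_le (fun r hr => ?_) (add_nonneg (h0 _ _) hC)
    obtain ⟨r0, r1, u, hu, hω, hr⟩ := (hA _ _ _).1 hr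
    rcases le_or_gt r (2 * ((n : ℝ) + 1) * Q * dist x x') with hc | hc
    · linarith [h0 x' ω]
    have hN : ∀ i, Nr (dist x x') (dg (av i) (f x i) fun j => β x i j + u i)
        (dg (av i) (f x' i) fun j => β x' i j + u i) := fun i =>
      DomW_shift (by
        rw [← hf x i, ← hf x' i]
        exact (XX.dist_le_iff hd).1 le_rfl i) (u i)
    refine sub_le_iff_le_add.1 (hle x' ω _ ((hA _ _ _).2
      ⟨sub_nonneg.2 hc.le, by linarith, u, hu, fun i => ?_, fun i j => ?_⟩))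
    · refine (hω i).trans (ceil_eq (ha i) (hN i) hQ1 fun j => ?_)
      refine lt_of_mul_lt_mul_left ?_ hn.le
      linarith [hr i j]
    · obtain ⟨p, hp⟩ := mar_le (ha i) (hN i) Q j
      linarith [hr i p, mul_le_mul_of_nonneg_left hp hn.le]
  refine ⟨ι → V n K → ℝ, fun x ω => sSup (A x ω),
    fun ω => (LipschitzWith.of_le_add_mul' _ (hlip ω)).continuous, h0, fun x => ?_, fun x => ?_,
    fun x x' ω h h' => ?_⟩
  · choose v hv0 hv1 hv using fun i => exists_shift fun j => (Q : ℝ) * β x i j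
    have e : ∀ i, (Q : ℝ) * (v i / Q) = v i := fun i => mul_div_cancel₀ _ hQ0.ne'
    refine ⟨fun i => dg (av i) (f x i) fun j => (⌈Q * (β x i j + v i / Q)⌉ : ℝ) / Q,
      one_pos.trans_le (hle _ _ 1 ((hA _ _ _).2 ⟨zero_le_one, le_rfl, fun i => v i / Q,
        fun i => ?_, fun i => rfl, fun i j => ?_⟩))⟩
    · rw [e]
      exact ⟨hv0 i, hv1 i⟩
    · rw [mul_add (Q : ℝ), e]
      exact hv i j
  · have hsub : Function.support (fun ω => sSup (A x ω)) ⊆
        (fun (e : ι × Fin n → Fin 2) (i : ι) => dg (av i) (f x i)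
          fun j => ((⌈Q * β x i j⌉ + ((e (i, j) : ℕ) : ℤ) : ℤ) : ℝ) / Q) '' Set.univ := by
      intro ω hω
      obtain ⟨u, hu, h⟩ := hex x ω ((h0 x ω).lt_of_ne' hω)
      choose e he using fun p : ι × Fin n => DomW_two (Q * β x p.1 p.2)
        (Q * (β x p.1 p.2 + u p.1)) (by linarith [(hu p.1).1]) (by linarith [(hu p.1).2])
      refine ⟨e, Set.mem_univ _, funext fun i => Eq.trans ?_ (h i).symm⟩
      exact congrArg (dg (av i) (f x i))
        (funext fun j => congrArg (fun z : ℤ => (z : ℝ) / Q) (he (i, j)).symm)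
    refine (Set.encard_le_encard hsub).trans ((Set.encard_image_le _ _).trans (le_of_eq ?_))
    rw [Set.encard_univ, ENat.card_eq_coe_fintype_card, Fintype.card_fun, Fintype.card_prod,
      Fintype.card_fin, Fintype.card_fin]
  · have key : ∀ y y' : XX av S T κ, 0 < sSup (A y ω) → 0 < sSup (A y' ω) →
        ∀ i, Le (2 / Q) (y.1 i) (y'.1 i) := fun y y' g g' i => by
      obtain ⟨u, hu, e⟩ := hex y ω g
      obtain ⟨u', hu', e'⟩ := hex y' ω g'
      have a1 : Le 0 (y.1 i) (ω i) := by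
        rw [hf y i, e i]
        refine dg_le_iff.2 fun j => ?_
        rw [zero_add, le_div_iff₀ hQ0]
        linarith [(hu i).1, Int.le_ceil (Q * (β y i j + u i))]
      have a2 : Le (2 / Q) (ω i) (y'.1 i) := by
        rw [hf y' i, e' i]
        refine dg_le_iff.2 fun j => ?_
        rw [div_le_iff₀ hQ0, add_mul, div_mul_cancel₀ _ hQ0.ne']
        linarith [(hu' i).2, Int.ceil_lt_add_one (Q * (β y' i j + u' i))]
      have a3 := a1.trans a2
      rwa [zero_add] at a3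
    exact ((XX.dist_le_iff (by positivity)).2 fun i => ⟨key x x' h h' i, key x' x h' h i⟩).trans hQ2

/-- `isTransfer_of_weights` with `barX`. -/
theorem XX.isTransfer (ha : ∀ i, Pl (av i)) (hκ : κ ≤ T) {N : ℕ}
    (hN : 2 ^ (Fintype.card ι * n) ≤ N + 1) : IsTransfer N (XX av S T κ) := by
  have : CompactSpace (XX av S T κ) := XX.compactSpace
  have : Nonempty (XX av S T κ) := ⟨⟨fun i => g0 (av i), fun i => g0_mem (ha i) hκ⟩⟩
  refine isTransfer_of_weights N (fun M x μ => barX ha x μ) (fun M => barX_cont ha (Fin M))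
    (fun M x μ z δ hδ h => barX_dist ha x μ z hδ h) fun δ hδ => ?_
  obtain ⟨Ω, W, h1, h2, h3, h4, h5⟩ := XX.weights (S := S) (T := T) (κ := κ) ha δ hδ
  exact ⟨Ω, W, h1, h2, h3, fun x => (h4 x).trans (by exact_mod_cast hN), h5⟩

end Pool.Agent.Work.MP_9d1ffa_al.GN
end
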