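import Pool.Agent.Work.MP_9d1ffa_al.GN.Defs
import Pool.Agent.Work.MP_9d1ffa_al.GN.DomW
import Pool.Agent.Work.MP_9d1ffa_al.GN.Cl

-- merged part: Pool.Agent.Work.MP_9d1ffa_al.GN.Coh
section
/-! Homotopy coherent actions from a segment operation. -/

namespace Pool.Agent.Work.MP_9d1ffa_al.GN

open unitInterval

/-- Reparametrisation of a path system by a length `D`. -/
theorem Coh_seg {X : Type} [TopologicalSpace X] (sg : X → X → I → X) (D : X → X → ℝ)
    (hsg : Continuous fun q : X × X × I => sg q.1 q.2.1 q.2.2)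
    (hD : Continuous fun q : X × X => D q.1 q.2)
    (h0 : ∀ u v, sg u v 0 = u) (h1 : ∀ u v, sg u v 1 = v) (hD0 : ∀ u, D u u = 0)
    (hd : ∀ u p, sg u u p = u)
    (inj : ∀ u v p p', D u (sg u v p) = D u (sg u v p') → sg u v p = sg u v p')
    (sub : ∀ u v p0 p, ∃ p', sg u (sg u v p0) p = sg u v p') :
    ∃ seg : X → X → I → X, (Continuous fun q : X × X × I => seg q.1 q.2.1 q.2.2) ∧
      (∀ u v t, ∃ p, seg u v t = sg u v p) ∧ (∀ u v, seg u v 0 = u) ∧ (∀ u v, seg u v 1 = v) ∧
      (∀ u t, seg u u t = u) ∧ ∀ u v s t, seg u (seg u v t) s = seg u v (s * t) := by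
  have ex : ∀ u v (t : I), ∃ p : I, D u (sg u v p) = t * D u v := fun u v t => by
    have hc : Continuous fun p : I => D u (sg u v p) :=
      hD.comp (f := fun p : I => (u, sg u v p))
        (continuous_const.prodMk (hsg.comp (f := fun p : I => (u, v, p)) (by fun_prop)))
    have t0 := t.2.1
    have t1 := t.2.2
    rcases le_total 0 (D u v) with h | h
    · refine intermediate_value_univ (0 : I) 1 hc ?_
      simp only [h0, h1, hD0]
      exact ⟨by positivity, by nlinarith⟩
    · refine intermediate_value_univ (1 : I) 0 hc ?_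
      simp only [h0, h1, hD0]
      exact ⟨by nlinarith, by nlinarith⟩
  choose pi hpi using ex
  have ch : ∀ u v (t p : I), D u (sg u v p) = t * D u v → sg u v (pi u v t) = sg u v p :=
    fun u v t p h => inj _ _ _ _ ((hpi u v t).trans h.symm)
  refine ⟨fun u v t => sg u v (pi u v t), ?_, fun u v t => ⟨_, rfl⟩, fun u v => ?_, fun u v => ?_,
    fun u t => hd _ _, fun u v s t => ?_⟩
  · refine continuous_iff_isClosed.2 fun C hC => ?_
    have h2 : Continuous fun q : (X × X × I) × I => sg q.1.1 q.1.2.1 q.2 :=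
      hsg.comp (f := fun q : (X × X × I) × I => (q.1.1, q.1.2.1, q.2)) (by fun_prop)
    have h3 : IsClosed {q : (X × X × I) × I |
        D q.1.1 (sg q.1.1 q.1.2.1 q.2) = q.1.2.2 * D q.1.1 q.1.2.1 ∧ sg q.1.1 q.1.2.1 q.2 ∈ C} := by
      refine (isClosed_eq ?_ ?_).inter (hC.preimage h2)
      · exact hD.comp (f := fun q : (X × X × I) × I => (q.1.1, sg q.1.1 q.1.2.1 q.2))
          (Continuous.prodMk (by fun_prop) h2)
      · exact Continuous.mul (by fun_prop)
          (hD.comp (f := fun q : (X × X × I) × I => (q.1.1, q.1.2.1)) (by fun_prop))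
    convert isClosedMap_fst_of_compactSpace _ h3 using 1
    ext q
    constructor
    · intro hq
      exact ⟨(q, pi q.1 q.2.1 q.2.2), ⟨hpi _ _ _, hq⟩, rfl⟩
    · rintro ⟨⟨q', p⟩, ⟨h4, h5⟩, rfl⟩
      change sg _ _ _ ∈ C
      rw [ch _ _ _ _ h4]
      exact h5
  · exact (ch u v 0 0 (by simp [h0, hD0])).trans (h0 u v)
  · exact (ch u v 1 1 (by simp [h1])).trans (h1 u v)
  · obtain ⟨p', hp⟩ := sub u v (pi u v t) (pi u (sg u v (pi u v t)) s)
    have h2 := hpi u (sg u v (pi u v t)) s
    rw [hp, hpi] at h2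
    refine hp.trans (ch u v (s * t) p' ?_).symm
    rw [h2, Set.Icc.coe_mul, mul_assoc]

/-- The tropical segment `e^(R max 0 (2p-1)) u ∧ e^(R max 0 (1-2p)) v`, reparametrised. -/
theorem Coh_trop {X Y : Type} [TopologicalSpace X] [PartialOrder Y] (io : X → Y) (sh : ℝ → Y → Y)
    {R : ℝ} (hR : 0 < R) (sg : X → X → I → X) (s : X → ℝ)
    (hsg : Continuous fun q : X × X × I => sg q.1 q.2.1 q.2.2) (hs : Continuous s)
    (sh0 : ∀ y, sh 0 y = y) (sha : ∀ a b y, sh a (sh b y) = sh (a + b) y)
    (shm : ∀ a y y', y ≤ y' → sh a y ≤ sh a y') (shl : ∀ a b y, a ≤ b → sh a y ≤ sh b y)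
    (sat : ∀ u v, io u ≤ sh R (io v))
    (glb : ∀ u v (p : I) c, c ≤ io (sg u v p) ↔
      c ≤ sh (R * max 0 (2 * (p : ℝ) - 1)) (io u) ∧ c ≤ sh (R * max 0 (1 - 2 * (p : ℝ))) (io v))
    (sm : ∀ u v, io u ≤ io v → s u ≤ s v) (se : ∀ u v, io u ≤ io v → s u = s v → u = v) :
    ∃ seg : X → X → I → X, (Continuous fun q : X × X × I => seg q.1 q.2.1 q.2.2) ∧
      (∀ u v t, ∃ p, seg u v t = sg u v p) ∧ (∀ u v, seg u v 0 = u) ∧ (∀ u v, seg u v 1 = v) ∧
      (∀ u t, seg u u t = u) ∧ ∀ u v s t, seg u (seg u v t) s = seg u v (s * t) := by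
  have ext : ∀ u v, (∀ c, c ≤ io u ↔ c ≤ io v) → u = v := fun u v h =>
    se u v ((h _).1 le_rfl) ((sm _ _ ((h _).1 le_rfl)).antisymm (sm _ _ ((h _).2 le_rfl)))
  have up : ∀ {a c y}, 0 ≤ a → c ≤ y → c ≤ sh a y := fun {a c y} ha h =>
    h.trans ((sh0 y).symm.le.trans (shl _ _ _ ha))
  have nn : ∀ x : ℝ, 0 ≤ R * max 0 x := fun x => mul_nonneg hR.le (le_max_left _ _)
  let hf : I := ⟨1 / 2, by norm_num, by norm_num⟩
  have gh : ∀ u v c, c ≤ io (sg u v hf) ↔ c ≤ io u ∧ c ≤ io v := fun u v c => by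
    rw [glb]
    norm_num [hf, sh0]
  have gl : ∀ u v (p : I) c, (p : ℝ) ≤ 1 / 2 →
      (c ≤ io (sg u v p) ↔ c ≤ io u ∧ c ≤ sh (R * (1 - 2 * p)) (io v)) := fun u v p c hp => by
    rw [glb, max_eq_left (by linarith), max_eq_right (by linarith), mul_zero, sh0]
  have gr : ∀ u v (p : I) c, 1 / 2 ≤ (p : ℝ) →
      (c ≤ io (sg u v p) ↔ c ≤ sh (R * (2 * p - 1)) (io u) ∧ c ≤ io v) := fun u v p c hp => by
    rw [glb, max_eq_right (by linarith), max_eq_left (by linarith), mul_zero, sh0]
  have h0 : ∀ u v, sg u v 0 = u := fun u v => ext _ _ fun c => by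
    rw [gl _ _ _ _ (by norm_num)]
    exact ⟨fun h => h.1, fun h => ⟨h, h.trans (by simpa using sat u v)⟩⟩
  have h1 : ∀ u v, sg u v 1 = v := fun u v => ext _ _ fun c => by
    rw [gr _ _ _ _ (by norm_num)]
    exact ⟨fun h => h.2, fun h => ⟨h.trans (by norm_num; exact sat v u), h⟩⟩
  have hd : ∀ u p, sg u u p = u := fun u p => ext _ _ fun c => by
    refine ⟨fun h => ?_, fun h => (glb _ _ _ _).2 ⟨up (nn _) h, up (nn _) h⟩⟩
    rcases le_total (p : ℝ) (1 / 2) with hp | hp
    exacts [((gl _ _ _ _ hp).1 h).1, ((gr _ _ _ _ hp).1 h).2]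
  have mle : ∀ u v p, io (sg u v hf) ≤ io (sg u v p) := fun u v p =>
    (glb _ _ _ _).2 ⟨up (nn _) ((gh _ _ _).1 le_rfl).1, up (nn _) ((gh _ _ _).1 le_rfl).2⟩
  have eA : ∀ u v (p : I), (p : ℝ) ≤ 1 / 2 → sg u (sg u v p) hf = sg u v p := fun u v p hp =>
    ext _ _ fun c => by
      rw [gh]
      exact ⟨fun h => h.2, fun h => ⟨((gl _ _ _ _ hp).1 h).1, h⟩⟩
  have eB : ∀ u v (p : I), 1 / 2 ≤ (p : ℝ) → sg u (sg u v p) hf = sg u v hf := fun u v p hp =>
    ext _ _ fun c => by
      rw [gh]
      exact ⟨fun h => (gh _ _ _).2 ⟨h.1, ((gr _ _ _ _ hp).1 h.2).2⟩,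
        fun h => ⟨((gh _ _ _).1 h).1, h.trans (mle _ _ _)⟩⟩
  refine Coh_seg sg (fun u w => s u + s w - 2 * s (sg u w hf)) hsg ?_ h0 h1 (fun u => ?_) hd ?_ ?_
  · exact ((hs.comp continuous_fst).add (hs.comp continuous_snd)).sub (continuous_const.mul
      (hs.comp (hsg.comp (f := fun q : X × X => (q.1, q.2, hf)) (by fun_prop))))
  · rw [hd]
    ring
  · intro u v p p' h
    wlog hp : (p : ℝ) ≤ p' generalizing p p'
    · exact (this p' p h.symm (le_of_not_ge hp)).symm
    rcases le_total (p' : ℝ) (1 / 2) with h2 | h2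
    · simp only [eA _ _ _ h2, eA _ _ _ (hp.trans h2)] at h
      refine (se _ _ ((gl _ _ _ _ (hp.trans h2)).2 ?_) (by linarith)).symm
      have := (gl u v p' _ h2).1 le_rfl
      exact ⟨this.1, this.2.trans (shl _ _ _ (by nlinarith))⟩
    rcases le_total (p : ℝ) (1 / 2) with h3 | h3
    · simp only [eA _ _ _ h3, eB _ _ _ h2] at h
      have a1 := sm _ _ (mle u v p)
      have a2 := sm _ _ (mle u v p')
      exact (se _ _ (mle u v p) (by linarith)).symm.trans (se _ _ (mle u v p') (by linarith))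
    · simp only [eB _ _ _ h3, eB _ _ _ h2] at h
      refine se _ _ ((gr _ _ _ _ h2).2 ?_) (by linarith)
      have := (gr u v p _ h3).1 le_rfl
      exact ⟨this.1.trans (shl _ _ _ (by nlinarith)), this.2⟩
  · intro u v p0 p
    have key : ∀ a c y, c ≤ sh a y ↔ sh (-a) c ≤ y := fun a c y =>
      ⟨fun h => by simpa [sha, sh0] using shm (-a) _ _ h,
        fun h => by simpa [sha, sh0] using shm a _ _ h⟩
    have k2 : ∀ a b c y, sh (-a) c ≤ sh b y ↔ c ≤ sh (a + b) y := fun a b c y => by
      rw [← key, sha]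
    rcases le_total (p : ℝ) (1 / 2) with hp | hp
    · have p1 := p.2.1
      have p2 := p0.2.1
      have m1 := min_le_right (p0 : ℝ) (1 / 2)
      obtain ⟨p', hp'⟩ : ∃ p' : I, (p' : ℝ) = max 0 (p + min (p0 : ℝ) (1 / 2) - 1 / 2) :=
        ⟨⟨_, le_max_left _ _, max_le (by norm_num) (by linarith)⟩, rfl⟩
      refine ⟨p', ext _ _ fun c => ?_⟩
      rw [gl _ _ _ _ hp, gl _ _ p' _ (hp' ▸ max_le (by norm_num) (by linarith)), key, glb, k2, k2,
        hp']
      refine and_congr_right fun hc => ?_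
      have e1 : max 0 (1 - 2 * (p0 : ℝ)) = 1 - 2 * min (p0 : ℝ) (1 / 2) := by
        rcases le_total (p0 : ℝ) (1 / 2) with h | h
        · rw [min_eq_left h, max_eq_right (by linarith)]
        · rw [min_eq_right h, max_eq_left (by linarith)]
          norm_num
      rw [e1, and_iff_right (up (add_nonneg (by nlinarith) (nn _)) hc)]
      rcases le_total 0 (p + min (p0 : ℝ) (1 / 2) - 1 / 2) with h | h
      · rw [max_eq_right h, show R * (1 - 2 * (p : ℝ)) + R * (1 - 2 * min (p0 : ℝ) (1 / 2)) =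
          R * (1 - 2 * (p + min (p0 : ℝ) (1 / 2) - 1 / 2)) by ring]
      · rw [max_eq_left h]
        exact iff_of_true (hc.trans ((sat u v).trans (shl _ _ _ (by nlinarith))))
          (hc.trans ((sat u v).trans (shl _ _ _ (by nlinarith))))
    rcases le_total (p0 : ℝ) (1 / 2) with h0' | h0'
    · refine ⟨p0, ext _ _ fun c => ?_⟩
      rw [gr _ _ _ _ hp]
      exact ⟨fun h => h.2, fun h => ⟨up (by nlinarith) ((gl _ _ _ _ h0').1 h).1, h⟩⟩
    rcases le_total (p : ℝ) p0 with h | h
    · refine ⟨p, ext _ _ fun c => ?_⟩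
      rw [gr _ _ _ _ hp, gr _ _ _ _ hp, gr _ _ _ _ h0']
      exact ⟨fun k => ⟨k.1, k.2.2⟩, fun k => ⟨k.1, k.1.trans (shl _ _ _ (by nlinarith)), k.2⟩⟩
    · refine ⟨p0, ext _ _ fun c => ?_⟩
      rw [gr _ _ _ _ hp]
      exact ⟨fun k => k.2, fun k =>
        ⟨((gr _ _ _ _ h0').1 k).1.trans (shl _ _ _ (by nlinarith)), k⟩⟩

variable {G X : Type} [Group G]

/-- `Gm seg φ h [(g_j, t_j), …, (g_1, t_1)] g_0` is `Γ (h g_j, t_j, …, g_1, t_1, g_0, -)`. -/
def Gm (seg : X → X → I → X) (φ : G → X → X) : G → List (G × I) → G → X → X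
  | h, [], g0, x => φ (h * g0) x
  | h, p :: l, g0, x => seg (φ (h * p.1) (Gm seg φ 1 l g0 x)) (Gm seg φ (h * p.1) l g0 x) p.2

variable {seg : X → X → I → X} {φ : G → X → X}

theorem Gm_nil (h g0 : G) (x : X) : Gm seg φ h [] g0 x = φ (h * g0) x := rfl

theorem Gm_cons (h g : G) (t : I) (l : List (G × I)) (g0 : G) (x : X) :
    Gm seg φ h ((g, t) :: l) g0 x =
      seg (φ (h * g) (Gm seg φ 1 l g0 x)) (Gm seg φ (h * g) l g0 x) t := rfl

theorem Gm_app {l l' : List (G × I)} {g0 g0' : G} {x x' : X}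
    (H : ∀ h, Gm seg φ h l g0 x = Gm seg φ h l' g0' x') (a : List (G × I)) :
    ∀ h, Gm seg φ h (a ++ l) g0 x = Gm seg φ h (a ++ l') g0' x' := by
  induction a with
  | nil => exact H
  | cons p a ih =>
    intro h
    obtain ⟨g, t⟩ := p
    simp only [List.cons_append, Gm_cons, ih]

theorem Gm_cont [TopologicalSpace X] (hs : Continuous fun q : X × X × I => seg q.1 q.2.1 q.2.2)
    (hφ : ∀ g, Continuous (φ g)) (j : ℕ) : ∀ (h : G) (g : Fin j → G) (g0 : G),
    Continuous fun p : (Fin j → I) × X =>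
      Gm seg φ h (List.ofFn fun i => (g i, p.1 i)) g0 p.2 := by
  induction j with
  | zero => exact fun h g g0 => (hφ (h * g0)).comp continuous_snd
  | succ j ih =>
    intro h g g0
    have e : Continuous fun p : (Fin (j + 1) → I) × X => ((fun i : Fin j => p.1 i.succ), p.2) := by
      fun_prop
    simp only [List.ofFn_succ, Gm_cons]
    exact hs.comp (f := fun p : (Fin (j + 1) → I) × X => (_, _, p.1 0))
      (((hφ _).comp ((ih 1 (fun i => g i.succ) g0).comp e)).prodMk
        (((ih (h * g 0) (fun i => g i.succ) g0).comp e).prodMk (by fun_prop)))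

theorem Gm_rel {ℓ : G → ℕ∞} (hℓ : ∀ g h, ℓ (g * h) ≤ ℓ g + ℓ h) {c : ℕ∞} {k : ℕ}
    {R : ℕ → G → X → X → Prop} (hRφ : ∀ g y, ℓ g ≤ c → R 0 g y (φ g y))
    (hmono : ∀ j g y z, R j g y z → R (j + 1) g y z)
    (hRseg : ∀ j g y z z' t, R j g y z → R j g y z' → R j g y (seg z z' t))
    (hcomp : ∀ j₁ j₂ g h y z' z, j₁ + j₂ + 1 ≤ k → ℓ h ≤ c → R j₂ h y z' → R j₁ g z' z →
      R (j₁ + j₂ + 1) (g * h) y z) (g0 : G) (x : X) (l : List (G × I)) :
    ∀ (h : G) (b : ℕ∞), (∀ g, ℓ (h * g) ≤ b + ℓ g) → l.length ≤ k →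
      b + ((l.map fun p => ℓ p.1).sum + ℓ g0) ≤ c →
      ℓ ((l.map Prod.fst).prod * g0) ≤ (l.map fun p => ℓ p.1).sum + ℓ g0 ∧
      R l.length (h * ((l.map Prod.fst).prod * g0)) x (Gm seg φ h l g0 x) := by
  induction l with
  | nil =>
    intro h b hb _ hc
    refine ⟨by simp, ?_⟩
    simpa [Gm_nil] using hRφ (h * g0) x ((hb g0).trans (by simpa using hc))
  | cons p l ih =>
    intro h b hb hk hc
    obtain ⟨g, t⟩ := p
    simp only [List.map_cons, List.sum_cons, List.prod_cons, List.length_cons] at hk hc ⊢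
    have h1 : (l.map fun p => ℓ p.1).sum + ℓ g0 ≤ c := by
      refine le_trans ?_ hc
      rw [add_assoc]
      exact le_add_left le_add_self
    obtain ⟨i1, i2⟩ := ih 1 0 (by simp) (by omega) (by simpa using h1)
    have i3 := (ih (h * g) (b + ℓ g) (fun g' => by
      rw [mul_assoc, add_assoc]
      exact (hb _).trans (add_le_add le_rfl (hℓ _ _))) (by omega)
      (by simpa only [add_assoc] using hc)).2
    refine ⟨?_, ?_⟩
    · rw [mul_assoc, add_assoc]
      exact (hℓ _ _).trans (add_le_add le_rfl i1)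
    have h2 : ℓ (h * g) ≤ c := by
      refine (hb g).trans (le_trans (add_le_add le_rfl ?_) hc)
      rw [add_assoc]
      exact le_self_add
    rw [one_mul] at i2
    have i4 := hcomp 0 l.length (h * g) _ x _ _ (by omega) (i1.trans h1) i2 (hRφ _ _ h2)
    rw [zero_add] at i4
    rw [Gm_cons, mul_assoc g, ← mul_assoc h]
    exact hRseg _ _ _ _ _ _ i4 (hmono _ _ _ _ i3)

/-- Abstract construction: `Γ (g, t, h, …) = seg (φ g (Γ (h, …))) (Γ (g h, …)) t`. `R j` is the
control relation for lists of length `j`; `ℓ` is a subadditive length. -/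
theorem exists_coh {G X : Type} [Group G] [TopologicalSpace X]
    (seg : X → X → unitInterval → X)
    (hseg : Continuous fun p : X × X × unitInterval => seg p.1 p.2.1 p.2.2)
    (h0 : ∀ x y, seg x y 0 = x) (h1 : ∀ x y, seg x y 1 = y) (hd : ∀ x t, seg x x t = x)
    (hm : ∀ x y s t, seg x (seg x y t) s = seg x y (s * t))
    (φ : G → X → X) (hφ : ∀ g, Continuous (φ g)) (hφ1 : ∀ x, φ 1 x = x)
    (ℓ : G → ℕ∞) (hℓ : ∀ g h, ℓ (g * h) ≤ ℓ g + ℓ h) (c : ℕ∞) (k : ℕ)
    (R : ℕ → G → X → X → Prop)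
    (hRφ : ∀ g y, ℓ g ≤ c → R 0 g y (φ g y))
    (hmono : ∀ j g y z, R j g y z → R (j + 1) g y z)
    (hRseg : ∀ j g y z z' t, R j g y z → R j g y z' → R j g y (seg z z' t))
    (hcomp : ∀ j₁ j₂ g h y z' z, j₁ + j₂ + 1 ≤ k → ℓ h ≤ c → R j₂ h y z' → R j₁ g z' z →
      R (j₁ + j₂ + 1) (g * h) y z) :
    ∃ Γ : List (G × unitInterval) → G → X → X, Coherent Γ ∧
      ∀ (l : List (G × unitInterval)) (g : G) (y : X), l.length ≤ k →
        (l.map fun p => ℓ p.1).sum + ℓ g ≤ c →
        R l.length ((l.map Prod.fst).prod * g) y (Γ l g y) := by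
  refine ⟨Gm seg φ 1, ⟨fun j => Gm_cont hseg hφ j 1, fun a b g g0 x => ?_,
    fun a b g h t g0 x => Gm_app (fun u => ?_) a 1, fun a g g0 x => ?_, fun a g t x => ?_,
    fun a b g s t g0 x => Gm_app (fun u => ?_) a 1, fun b t g0 x => ?_, fun x => ?_⟩,
    fun l g y hl hc => ?_⟩
  · have := Gm_app (seg := seg) (φ := φ) (l := (g, 0) :: b) (l' := []) (g0 := g0) (g0' := g)
      (x := x) (x' := Gm seg φ 1 b g0 x) (fun u => by rw [Gm_cons, h0, Gm_nil]) a 1
    rwa [List.append_nil] at this
  · rw [Gm_cons, h1, Gm_cons, Gm_cons, mul_assoc]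
  · have := Gm_app (seg := seg) (φ := φ) (l := [(g, 1)]) (l' := []) (g0 := g0) (g0' := g * g0)
      (x := x) (x' := x) (fun u => by rw [Gm_cons, h1, Gm_nil, Gm_nil, mul_assoc]) a 1
    rwa [List.append_nil] at this
  · have := Gm_app (seg := seg) (φ := φ) (l := [(g, t)]) (l' := []) (g0 := 1) (g0' := g)
      (x := x) (x' := x) (fun u => by simp only [Gm_cons, Gm_nil, mul_one, hφ1, hd]) a 1
    rwa [List.append_nil] at this
  · simp only [Gm_cons, mul_one, hφ1, hd, hm]
  · rw [Gm_cons, mul_one, hφ1, hd]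
  · rw [Gm_nil, mul_one, hφ1]
  · simpa using (Gm_rel hℓ hRφ hmono hRseg hcomp g y l 1 0 (by simp) hl (by simpa using hc)).2

/-- The same for a tropical segment `sg` (no identities are asked from `sg`): `io` embeds `X` in an
ordered type with shifts `sh`, `s` is continuous and strictly monotone. -/
theorem exists_coh_trop {G X Y : Type} [Group G] [TopologicalSpace X] [PartialOrder Y]
    (io : X → Y) (sh : ℝ → Y → Y) {r : ℝ} (hr : 0 < r) (sg : X → X → unitInterval → X) (s : X → ℝ)
    (hsg : Continuous fun p : X × X × unitInterval => sg p.1 p.2.1 p.2.2) (hs : Continuous s)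
    (sh0 : ∀ y, sh 0 y = y) (sha : ∀ a b y, sh a (sh b y) = sh (a + b) y)
    (shm : ∀ a y y', y ≤ y' → sh a y ≤ sh a y') (shl : ∀ a b y, a ≤ b → sh a y ≤ sh b y)
    (sat : ∀ u v, io u ≤ sh r (io v))
    (glb : ∀ u v (p : unitInterval) c, c ≤ io (sg u v p) ↔
      c ≤ sh (r * max 0 (2 * (p : ℝ) - 1)) (io u) ∧ c ≤ sh (r * max 0 (1 - 2 * (p : ℝ))) (io v))
    (sm : ∀ u v, io u ≤ io v → s u ≤ s v) (se : ∀ u v, io u ≤ io v → s u = s v → u = v)
    (φ : G → X → X) (hφ : ∀ g, Continuous (φ g)) (hφ1 : ∀ x, φ 1 x = x)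
    (ℓ : G → ℕ∞) (hℓ : ∀ g h, ℓ (g * h) ≤ ℓ g + ℓ h) (c : ℕ∞) (k : ℕ)
    (R : ℕ → G → X → X → Prop)
    (hRφ : ∀ g y, ℓ g ≤ c → R 0 g y (φ g y))
    (hmono : ∀ j g y z, R j g y z → R (j + 1) g y z)
    (hRseg : ∀ j g y z z' t, R j g y z → R j g y z' → R j g y (sg z z' t))
    (hcomp : ∀ j₁ j₂ g h y z' z, j₁ + j₂ + 1 ≤ k → ℓ h ≤ c → R j₂ h y z' → R j₁ g z' z →
      R (j₁ + j₂ + 1) (g * h) y z) :
    ∃ Γ : List (G × unitInterval) → G → X → X, Coherent Γ ∧
      ∀ (l : List (G × unitInterval)) (g : G) (y : X), l.length ≤ k →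
        (l.map fun p => ℓ p.1).sum + ℓ g ≤ c →
        R l.length ((l.map Prod.fst).prod * g) y (Γ l g y) := by
  obtain ⟨seg, c1, c2, c3, c4, c5, c6⟩ :=
    Coh_trop io sh hr sg s hsg hs sh0 sha shm shl sat glb sm se
  refine exists_coh seg c1 c3 c4 c5 c6 φ hφ hφ1 ℓ hℓ c k R hRφ hmono ?_ hcomp
  intro j g y z z' t h h'
  obtain ⟨p, hp⟩ := c2 z z' t
  rw [hp]
  exact hRseg _ _ _ _ _ _ h h'

end Pool.Agent.Work.MP_9d1ffa_al.GN
end

-- merged part: Pool.Agent.Work.MP_9d1ffa_al.GN.SegX
section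
/-! Segments in the transfer space, parametrised proportionally to length. -/

namespace Pool.Agent.Work.MP_9d1ffa_al.GN

open Real Matrix
open G2 (Pl)

variable {K : Type} [Field K] {n : ℕ} {ι : Type} [Fintype ι] {av : ι → AbsoluteValue K ℝ}
  {S : Finset (GL (Fin n) K)} {T : ℕ} {κ : ℝ}

theorem SegX_mu : ∃ m : unitInterval → stdSimplex ℝ (Fin 2), Continuous m ∧ ∀ p : unitInterval,
    1 - (m p).1 0 / (⨆ s, (m p).1 s) = max 0 (2 * (p : ℝ) - 1) ∧
    1 - (m p).1 1 / (⨆ s, (m p).1 s) = max 0 (1 - 2 * (p : ℝ)) := by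
  let a : unitInterval → ℝ := fun p => 1 - max 0 (2 * (p : ℝ) - 1)
  let b : unitInterval → ℝ := fun p => 1 - max 0 (1 - 2 * (p : ℝ))
  have ha : ∀ p, 0 ≤ a p ∧ a p ≤ 1 := fun p =>
    ⟨sub_nonneg.2 (max_le zero_le_one (by linarith [p.2.2])), sub_le_self _ (le_max_left _ _)⟩
  have hb : ∀ p, 0 ≤ b p ∧ b p ≤ 1 := fun p =>
    ⟨sub_nonneg.2 (max_le zero_le_one (by linarith [p.2.1])), sub_le_self _ (le_max_left _ _)⟩
  have h1 : ∀ p, a p = 1 ∨ b p = 1 := fun p => by
    rcases le_total (p : ℝ) (1 / 2) with h | h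
    · exact Or.inl (by simp only [a]; rw [max_eq_left (by linarith), sub_zero])
    · exact Or.inr (by simp only [b]; rw [max_eq_left (by linarith), sub_zero])
  have hp : ∀ p, 0 < a p + b p := fun p => by
    rcases h1 p with h | h <;> linarith [(ha p).1, (hb p).1]
  have ca : Continuous a := by fun_prop
  have cb : Continuous b := by fun_prop
  refine ⟨fun p => ⟨![a p / (a p + b p), b p / (a p + b p)], fun i => ?_, ?_⟩, ?_, fun p => ?_⟩
  · fin_cases i
    exacts [div_nonneg (ha p).1 (hp p).le, div_nonneg (hb p).1 (hp p).le]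
  · rw [Fin.sum_univ_two]
    change a p / (a p + b p) + b p / (a p + b p) = 1
    rw [← add_div, div_self (hp p).ne']
  · refine Continuous.subtype_mk (continuous_pi fun i => ?_) _
    fin_cases i
    exacts [ca.div (ca.add cb) fun p => (hp p).ne', cb.div (ca.add cb) fun p => (hp p).ne']
  · have e : (⨆ s, (![a p / (a p + b p), b p / (a p + b p)] : Fin 2 → ℝ) s) = 1 / (a p + b p) := by
      refine le_antisymm (ciSup_le fun s => ?_) ?_
      · fin_cases s
        exacts [div_le_div_of_nonneg_right (ha p).2 (hp p).le,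
          div_le_div_of_nonneg_right (hb p).2 (hp p).le]
      · rcases h1 p with h | h
        · exact le_ciSup_of_le (Finite.bddAbove_range _) 0 (by rw [← h]; simp)
        · exact le_ciSup_of_le (Finite.bddAbove_range _) 1 (by rw [← h]; simp)
    change 1 - a p / (a p + b p) / _ = _ ∧ 1 - b p / (a p + b p) / _ = _
    rw [e, div_div_div_cancel_right₀ (hp p).ne', div_div_div_cancel_right₀ (hp p).ne']
    simp [a, b]

/-- Segments made of barycentres of the two end points, with the identities used in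
`exists_coh`. -/
theorem XX.exists_seg (ha : ∀ i, Pl (av i)) (hT : 0 < T) :
    ∃ seg : XX av S T κ → XX av S T κ → unitInterval → XX av S T κ,
      (Continuous fun p : XX av S T κ × XX av S T κ × unitInterval => seg p.1 p.2.1 p.2.2) ∧
      (∀ u v t, ∃ μ, seg u v t = barX ha ![u, v] μ) ∧ (∀ u v, seg u v 0 = u) ∧
      (∀ u v, seg u v 1 = v) ∧ (∀ u t, seg u u t = u) ∧
      ∀ u v s t, seg u (seg u v t) s = seg u v (s * t) := by
  obtain ⟨m, mc, hm⟩ := SegX_mu
  have el : ∀ u v : XX av S T κ, u.1 ≤ v.1 → ∀ p, emb u p ≤ emb v p := fun u v h p => by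
    by_cases hx : p.2.1 = 0
    · simp only [emb, hx, (u.2 p.1).sn.zero, (v.2 p.1).sn.zero, le_refl]
    · exact log_le_log ((u.2 p.1).pos hx) (h p.1 p.2.1)
  have ec : Continuous (emb : XX av S T κ → _) :=
    (Isometry.of_dist_eq (f := (emb : XX av S T κ → _)) fun _ _ => rfl).continuous
  refine (Coh_trop (X := XX av S T κ)
    (Y := {y : ι → V n K → ℝ // ∀ i, IsSn (av i) (y i)})
    (fun u => ⟨u.1, fun i => (u.2 i).sn⟩)
    (fun c y => ⟨fun i x => exp c * y.1 i x, fun i => (y.2 i).const_mul (exp_pos c).le⟩)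
    (R := 2 * T) (by positivity) (fun u v p => barX ha ![u, v] (m p)) (fun u => ∑ p, emb u p)
    ((barX_cont ha (Fin 2)).comp (f := fun q : XX av S T κ × XX av S T κ × unitInterval =>
      (![q.1, q.2.1], m q.2.2)) (by fun_prop))
    (continuous_finsetSum _ fun p _ => (continuous_apply p).comp ec)
    (fun y => Subtype.ext (by simp))
    (fun a b y => Subtype.ext (by simp only [exp_add, mul_assoc]))
    (fun a y y' (h : y.1 ≤ y'.1) i x => mul_le_mul_of_nonneg_left (h i x) (exp_pos a).le)
    (fun a b y h i x => mul_le_mul_of_nonneg_right (exp_le_exp.2 h) ((y.2 i).nn x))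
    (fun u v i x => ((u.2 i).nr (v.2 i)).1 x) (fun u v p c => ?_)
    (fun u v h => Finset.sum_le_sum fun p _ => el u v h p)
    (fun u v h e => emb_inj (funext fun p =>
      (Finset.sum_eq_sum_iff_of_le fun p _ => el u v h p).1 e p (Finset.mem_univ p)))).imp
    fun seg h => ⟨h.1, fun u v t => (h.2.1 u v t).elim fun p e => ⟨m p, e⟩, h.2.2⟩
  · rw [← (hm p).1, ← (hm p).2]
    refine ⟨fun h => ?_, fun h i x =>
      le_hull (fun _ => Set.mem_univ _) (c.2 i) (fun y _ => ?_) x⟩
    · have k : ∀ s i x, c.1 i x ≤ exp (2 * T * (1 - (m p).1 s / ⨆ s', (m p).1 s')) *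
          (![u, v] s).1 i x := fun s i x =>
        (h i x).trans ((hull_le (fun y _ => le_ciInf fun s =>
          mul_nonneg (exp_pos _).le (((![u, v] s).2 i).sn.nn y)) (Set.mem_univ x)).trans
            (ciInf_le (Finite.bddBelow_range _) s))
      exact ⟨k 0, k 1⟩
    · refine le_ciInf fun s => ?_
      fin_cases s
      exacts [h.1 i y, h.2 i y]

end Pool.Agent.Work.MP_9d1ffa_al.GN
end

-- merged part: Pool.Agent.Work.MP_9d1ffa_al.GN.Act
section
/-! The homotopy coherent action on the transfer space. -/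

namespace Pool.Agent.Work.MP_9d1ffa_al.GN

open Real Matrix
open G2 (Pl)

variable {K : Type} [Field K] {n : ℕ} {ι : Type} [Fintype ι] {av : ι → AbsoluteValue K ℝ}
  {G : Type} [Group G]

open Pointwise in
/-- Word length. -/
theorem Act_len (S0 : Finset G) : ∃ ℓ : G → ℕ∞, (∀ g h, ℓ (g * h) ≤ ℓ g + ℓ h) ∧
    (∀ g ∈ S0, ℓ g ≤ 1) ∧ ∀ c : ℕ, {g | ℓ g ≤ c}.Finite := by
  classical
  refine ⟨fun g => ⨅ j : {j : ℕ // g ∈ S0 ^ j}, (j.1 : ℕ∞), fun g h => ?_, fun g hg => ?_,
    fun c => ?_⟩
  · refine ENat.le_iInf_add_iInf fun i j => iInf_le_of_le ⟨i.1 + j.1, ?_⟩ (by simp)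
    rw [pow_add]
    exact Finset.mul_mem_mul i.2 j.2
  · exact iInf_le_of_le ⟨1, by simpa using hg⟩ (by simp)
  · refine ((Finset.range (c + 1)).biUnion fun j => S0 ^ j).finite_toSet.subset fun g hg => ?_
    have h2 : ⨅ j : {j : ℕ // g ∈ S0 ^ j}, (j.1 : ℕ∞) < ((c + 1 : ℕ) : ℕ∞) :=
      lt_of_le_of_lt hg (by exact_mod_cast Nat.lt_succ_self c)
    obtain ⟨j, hj⟩ := iInf_lt_iff.1 h2
    exact Finset.mem_coe.2 (Finset.mem_biUnion.2
      ⟨j.1, Finset.mem_range.2 (by exact_mod_cast hj), j.2⟩)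

theorem Act_coh (ha : ∀ i, Pl (av i)) (ρ : G →* GL (Fin n) K) {S : Finset (GL (Fin n) K)} {T : ℕ}
    {κ : ℝ} (ℓ : G → ℕ∞) (hℓ : ∀ g h, ℓ (g * h) ≤ ℓ g + ℓ h) (c : ℕ∞) (k : ℕ) (h1 : 1 ≤ κ)
    (hT : 2 * (k + 1) * κ ≤ T)
    (hS : ∀ g, ℓ g ≤ c → ρ g ∈ S ∧ ∀ i, Nr κ (act (ρ g) (g0 (av i))) (g0 (av i))) :
    ∃ Γ : List (G × unitInterval) → G → XX av S T κ → XX av S T κ, Coherent Γ ∧
      ∀ (l : List (G × unitInterval)) (g : G) (y : XX av S T κ), l.length ≤ k →
        (l.map fun p => ℓ p.1).sum + ℓ g ≤ c → ∀ i,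
        Rel (av i) ((k + 1) * κ) ((k + 1) * κ / T) ((2 * k + 1) * (2 * (k + 1) * κ ^ 2 / T))
          (ρ ((l.map Prod.fst).prod * g)) (y.1 i) ((Γ l g y).1 i) := by
  classical
  have k0 : (0 : ℝ) ≤ k := k.cast_nonneg
  have hκT : κ ≤ T := by nlinarith
  have T0 : (0 : ℝ) < T := by linarith
  obtain ⟨seg, s1, s2, s3, s4, s5, s6⟩ :=
    XX.exists_seg (S := S) (T := T) (κ := κ) ha (by exact_mod_cast T0)
  obtain ⟨u, hu⟩ : ∃ u : ℝ, u = κ / T := ⟨_, rfl⟩
  obtain ⟨d, hd⟩ : ∃ d : ℝ, d = 2 * (k + 1) * κ ^ 2 / T := ⟨_, rfl⟩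
  have u0 : 0 ≤ u := by rw [hu]; positivity
  have u1 : 2 * (k + 1) * u ≤ 1 := by
    rw [hu, ← mul_div_assoc, div_le_one T0]
    exact hT
  have e1 : d = 2 * (k + 1) * (u * κ) := by rw [hd, hu]; ring
  have uκ : 0 ≤ u * κ := by positivity
  have d0 : 0 ≤ d := by rw [e1]; positivity
  let φ : G → XX av S T κ → XX av S T κ := fun g y =>
    if g = 1 then y else if h : ℓ g ≤ c then
      ⟨fun i => phi (av i) S T κ (ρ g) (y.1 i),
        fun i => phi_mem (ha i) h1 hκT (hS g h).1 ((hS g h).2 i) (y.2 i)⟩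
    else y
  refine (exists_coh seg s1 s3 s4 s5 s6 φ (fun g => ?_) (fun x => if_pos rfl) ℓ hℓ c k
    (fun j g y z => ∀ i, Rel (av i) ((j + 1) * κ) ((j + 1) * u) ((2 * j + 1) * d) (ρ g) (y.1 i)
      (z.1 i)) (fun g y hg i => ?_) (fun j g y z h i => ?_) (fun j g y z z' t h h' i => ?_)
    (fun j₁ j₂ g h y z' z hj hh r1 r2 i => ?_)).imp fun Γ c1 => ⟨c1.1, fun l g y hl hc i => ?_⟩
  · by_cases hg : g = 1
    · simp only [φ, if_pos hg]
      exact continuous_id
    by_cases h : ℓ g ≤ c
    · simp only [φ, if_neg hg, dif_pos h]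
      refine (LipschitzWith.mk_one fun y y' => ?_).continuous
      have h2 := (XX.dist_le_iff dist_nonneg).1 (le_refl (dist y y'))
      exact (XX.dist_le_iff dist_nonneg).2 fun i =>
        ⟨phi_lip (ha i) h1 hκT _ (y.2 i).sn.nn (y'.2 i).sn.nn dist_nonneg (h2 i).1,
          phi_lip (ha i) h1 hκT _ (y'.2 i).sn.nn (y.2 i).sn.nn dist_nonneg (h2 i).2⟩
    · simp only [φ, if_neg hg, dif_neg h]
      exact continuous_id
  · simp only [Nat.cast_zero, zero_add, mul_zero, one_mul]
    by_cases h : g = 1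
    · simp only [φ, if_pos h]
      rw [h, map_one]
      exact (rel_of_nr Nr.rfl).mono (y.2 i).sn.nn (by linarith) u0 d0
    · simp only [φ, if_neg h, dif_pos hg]
      refine (phi_rel (ha i) h1 hκT (hS g hg).1 ((hS g hg).2 i) (y.2 i)).mono
        (phi_mem (ha i) h1 hκT (hS g hg).1 ((hS g hg).2 i) (y.2 i)).sn.nn le_rfl hu.ge ?_
      rw [hd, ← add_div]
      exact div_le_div_of_nonneg_right (by nlinarith [mul_nonneg k0 (sq_nonneg κ)]) T0.le
  · push_cast
    exact (h i).mono (z.2 i).sn.nn (by nlinarith) (by nlinarith) (by nlinarith)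
  · obtain ⟨μ, hμ⟩ := s2 z z' t
    rw [hμ]
    refine Rel.bar (ha i) μ.2 (fun s => ((![z, z'] s).2 i).sn.nn) fun s => ?_
    fin_cases s
    exacts [h i, h' i]
  · have hj' : (j₁ : ℝ) + j₂ + 1 ≤ k := by exact_mod_cast hj
    have a1 : (0 : ℝ) ≤ j₁ := j₁.cast_nonneg
    have a2 : (0 : ℝ) ≤ j₂ := j₂.cast_nonneg
    obtain ⟨f, β, α, hf, -⟩ := (z'.2 i).frame (ha i)
    rw [map_mul]
    push_cast
    refine ((r1 i).comp (ha i) (r2 i) ⟨f, β, α, hf⟩ ((hS h hh).2 i) (by linarith) (by positivity)
      (by nlinarith) (by positivity) (by nlinarith)).mono (z.2 i).sn.nn (by linarith) (by linarith)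
      ?_
    have : 2 * ((j₁ + 1) * u) * κ ≤ d := by
      rw [e1]
      nlinarith
    linarith
  · have hl' : (l.length : ℝ) ≤ k := by exact_mod_cast hl
    refine (c1.2 l g y hl hc i).mono ((Γ l g y).2 i).sn.nn (by gcongr) ?_ ?_
    · rw [mul_div_assoc, ← hu]
      gcongr
    · rw [← hd]
      gcongr

/-- For a finite set of letters there are `S` and `κ` such that for all large `T` the space `XX`
carries a homotopy coherent action controlled by `Rel`. -/
theorem exists_act (ha : ∀ i, Pl (av i)) (ρ : G →* GL (Fin n) K) (S0 : Finset G) (k : ℕ) :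
    ∃ (S : Finset (GL (Fin n) K)) (κ : ℕ), 1 ≤ κ ∧ ∀ T : ℕ, 2 * (k + 1) * κ ≤ T →
      ∃ Γ : List (G × unitInterval) → G → XX av S T κ → XX av S T κ, Coherent Γ ∧
        ∀ (l : List (G × unitInterval)) (g : G) (y : XX av S T κ), l.length ≤ k →
          (∀ p ∈ l, p.1 ∈ S0) → g ∈ S0 → ∀ i,
          Nr κ (act (ρ ((l.map Prod.fst).prod * g)) (g0 (av i))) (g0 (av i)) ∧
          Rel (av i) ((k + 1) * κ) ((k + 1) * κ / T) ((2 * k + 1) * (2 * (k + 1) * κ ^ 2 / T))
            (ρ ((l.map Prod.fst).prod * g)) (y.1 i) ((Γ l g y).1 i) := by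
  classical
  obtain ⟨ℓ, hℓ, h1, hf⟩ := Act_len S0
  choose κ hκ using fun (i : ι) (g : G) => exists_kappa (ha i) (ρ g)
  let B : Finset G := (hf (k + 1)).toFinset
  have hB : ∀ g, ℓ g ≤ (k + 1 : ℕ) → ρ g ∈ B.image ρ ∧ ∀ i,
      Nr ((∑ i, ∑ g ∈ B, κ i g) + 1 : ℕ) (act (ρ g) (g0 (av i))) (g0 (av i)) := fun g hg => by
    have hg' : g ∈ B := (Set.Finite.mem_toFinset _).2 hg
    refine ⟨Finset.mem_image_of_mem _ hg', fun i => (hκ i g).mono (fun x => dg_nonneg _ _ _)
      (fun x => dg_nonneg _ _ _) (Nat.cast_le.2 (Nat.le_succ_of_le ?_))⟩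
    exact (Finset.single_le_sum (f := fun g => κ i g) (fun _ _ => Nat.zero_le _) hg').trans
      (Finset.single_le_sum (f := fun i => ∑ g ∈ B, κ i g) (fun _ _ => Nat.zero_le _)
        (Finset.mem_univ i))
  refine ⟨B.image ρ, (∑ i, ∑ g ∈ B, κ i g) + 1, Nat.le_add_left _ _, fun T hT => ?_⟩
  refine (Act_coh ha ρ ℓ hℓ (k + 1 : ℕ) k (by exact_mod_cast Nat.le_add_left _ _)
    (by exact_mod_cast hT) hB).imp fun Γ h => ⟨h.1, fun l g y hl hS hg i => ?_⟩
  have h2 : ℓ ((l.map Prod.fst).prod * g) ≤ (l.map fun p => ℓ p.1).sum + ℓ g ∧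
      (l.map fun p => ℓ p.1).sum ≤ l.length := by
    clear hl
    induction l with
    | nil => simp
    | cons p l ih =>
      have := ih fun q hq => hS q (List.mem_cons_of_mem _ hq)
      simp only [List.map_cons, List.prod_cons, List.sum_cons, List.length_cons, mul_assoc,
        add_assoc]
      refine ⟨(hℓ _ _).trans (add_le_add le_rfl this.1), ?_⟩
      rw [add_comm, Nat.cast_succ]
      exact add_le_add this.2 (h1 _ (hS p List.mem_cons_self))
  have h3 : (l.map fun p => ℓ p.1).sum + ℓ g ≤ (k + 1 : ℕ) := by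
    rw [Nat.cast_succ]
    exact add_le_add (h2.2.trans (by exact_mod_cast hl)) (h1 g hg)
  exact ⟨(hB _ (h2.1.trans h3)).2 i, h.2 l g y hl h3 i⟩

end Pool.Agent.Work.MP_9d1ffa_al.GN
end

-- merged part: Pool.Agent.Work.MP_9d1ffa_al.G2.PlA
section
/-! Places at infinity of a separable function field. -/

namespace Pool.Agent.Work.MP_9d1ffa_al.G2

open IntermediateField

theorem PlA_adj {k K : Type} [Field k] [Field K] [Algebra k K] (W : ValuationSubring K)
    (hk : ∀ c : k, algebraMap k K c ∈ W) {w : K} (hw : w ∈ W) :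
    ∀ y ∈ Algebra.adjoin k {w}, y ∈ W := by
  intro y hy
  induction hy using Algebra.adjoin_induction with
  | mem z hz =>
    rw [Set.mem_singleton_iff] at hz
    exact hz ▸ hw
  | algebraMap c => exact hk c
  | add a b _ _ ha hb => exact W.add_mem _ _ ha hb
  | mul a b _ _ ha hb => exact W.mul_mem _ _ ha hb

theorem PlA_mem {k K : Type} [Field k] [Field K] [Algebra k K] (W : ValuationSubring K)
    (hk : ∀ c : k, algebraMap k K c ∈ W) {w x : K} (hw : w ∈ W)
    (hx : IsIntegral (Algebra.adjoin k {w}) x) : x ∈ W := by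
  let φ : Algebra.adjoin k {w} →+* W :=
    (Algebra.adjoin k {w}).val.toRingHom.codRestrict W.toSubring
      (fun y => PlA_adj W hk hw y.1 y.2)
  have h1 : IsIntegral W ((RingHom.id K) x) :=
    IsIntegral.map_of_comp_eq φ (RingHom.id K) (by ext y; rfl) hx
  obtain ⟨y, hy⟩ := IsIntegrallyClosedIn.algebraMap_eq_of_integral (R := W) (A := K) h1
  have h2 : (y : K) = x := hy
  exact h2 ▸ y.2

/-- `x` lies in every valuation subring containing `k`, because such a ring contains `u` or `u⁻¹`,
hence the adjoin, and is integrally closed; then `iInf_valuationSubring_superset` (with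
`s = range (algebraMap k K)`). -/
theorem algebraic_of_two {k K : Type} [Field k] [Field K] [Algebra k K] {u x : K}
    (h1 : IsIntegral (Algebra.adjoin k {u}) x) (h2 : IsIntegral (Algebra.adjoin k {u⁻¹}) x) :
    IsAlgebraic k x := by
  by_contra hx
  have hx' : x ∉ (integralClosure k K).toSubring := fun h =>
    hx (IsIntegral.isAlgebraic (show IsIntegral k x from h))
  have : IsIntegrallyClosedIn (integralClosure k K).toSubring K :=
    inferInstanceAs (IsIntegrallyClosedIn (integralClosure k K) K)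
  obtain ⟨W, hW, hxW⟩ := Subring.exists_le_valuationSubring_of_isIntegrallyClosedIn hx'
  have hk : ∀ c : k, algebraMap k K c ∈ W := fun c =>
    hW ((integralClosure k K).algebraMap_mem c)
  rcases W.mem_or_inv_mem u with h | h
  · exact hxW (PlA_mem W hk h h1)
  · exact hxW (PlA_mem W hk h h2)

/-- The real absolute value of a discrete valuation: `a x = exp (log (v x))` for `x ≠ 0`
(`WithZero.log`, `WithZero.log_mul`, `WithZero.log_le_log`), or compose with
`WithZeroMulInt.toNNReal`. -/
theorem exists_pl_of_valuation {K : Type} [Field K] (v : Valuation K (WithZero (Multiplicative ℤ))) :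
    ∃ a : AbsoluteValue K ℝ, Pl a ∧ ∀ x, a x ≤ 1 ↔ v x ≤ 1 := by
  classical
  let f : K → ℝ := fun x => if x = 0 then 0 else Real.exp ((WithZero.log (v x) : ℤ) : ℝ)
  have f0 : f 0 = 0 := by simp [f]
  have f1 : ∀ x, x ≠ 0 → f x = Real.exp ((WithZero.log (v x) : ℤ) : ℝ) := fun x hx => by
    simp [f, hx]
  have fnn : ∀ x, 0 ≤ f x := fun x => by
    by_cases hx : x = 0
    · rw [hx, f0]
    · rw [f1 x hx]; exact (Real.exp_pos _).le
  have vne : ∀ x : K, x ≠ 0 → v x ≠ 0 := fun x hx => (Valuation.ne_zero_iff v).2 hx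
  have fmono : ∀ x y : K, v x ≤ v y → f x ≤ f y := fun x y h => by
    by_cases hx : x = 0
    · rw [hx, f0]; exact fnn y
    · have hy : y ≠ 0 := by
        rintro rfl
        rw [map_zero] at h
        exact vne x hx (le_antisymm h zero_le)
      rw [f1 x hx, f1 y hy]
      refine Real.exp_le_exp.2 ?_
      exact_mod_cast (WithZero.log_le_log (vne x hx) (vne y hy)).2 h
  have fna : ∀ x y : K, f (x + y) ≤ max (f x) (f y) := fun x y => by
    rcases le_max_iff.1 (v.map_add x y) with h | h
    · exact (fmono _ _ h).trans (le_max_left _ _)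
    · exact (fmono _ _ h).trans (le_max_right _ _)
  have fmul : ∀ x y : K, f (x * y) = f x * f y := fun x y => by
    by_cases hx : x = 0
    · rw [hx, zero_mul, f0, zero_mul]
    by_cases hy : y = 0
    · rw [hy, mul_zero, f0, mul_zero]
    rw [f1 x hx, f1 y hy, f1 _ (mul_ne_zero hx hy), map_mul,
      WithZero.log_mul (vne x hx) (vne y hy), ← Real.exp_add]
    push_cast
    rfl
  have feq : ∀ x : K, f x = 0 ↔ x = 0 := fun x => by
    refine ⟨fun h => ?_, fun h => by rw [h, f0]⟩
    by_contra hx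
    rw [f1 x hx] at h
    exact (Real.exp_pos _).ne' h
  let a : AbsoluteValue K ℝ :=
    { toFun := f
      map_mul' := fmul
      nonneg' := fnn
      eq_zero' := feq
      add_le' := fun x y => (fna x y).trans
        (max_le (le_add_of_nonneg_right (fnn y)) (le_add_of_nonneg_left (fnn x))) }
  refine ⟨a, ⟨fna, fun x hx => ⟨WithZero.log (v x), f1 x hx⟩⟩, fun x => ?_⟩
  change f x ≤ 1 ↔ _
  by_cases hx : x = 0
  · rw [hx, f0, map_zero]
    exact ⟨fun _ => zero_le, fun _ => zero_le_one⟩
  · rw [f1 x hx, Real.exp_le_one_iff, ← WithZero.exp_zero (M := ℤ),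
      ← WithZero.log_le_iff_le_exp (vne x hx)]
    exact_mod_cast Iff.rfl

/-- An ultrametric absolute value that is at most one on `k` is at most one on algebraic elements
(leading term of the minimal polynomial); apply this to `x⁻¹`. -/
theorem eq_zero_of_lt_one {k K : Type} [Field k] [Field K] [Algebra k K] {a : AbsoluteValue K ℝ}
    (ha : Pl a) (hk : ∀ c : k, a (algebraMap k K c) ≤ 1) {x : K} (hx : IsAlgebraic k x)
    (h : a x < 1) : x = 0 := by
  by_contra hx0
  let W : ValuationSubring K :=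
    { carrier := {y | a y ≤ 1}
      mul_mem' := fun {y z} hy hz => by
        change a (y * z) ≤ 1
        rw [map_mul]
        exact mul_le_one₀ hy (a.nonneg z) hz
      one_mem' := by
        change a 1 ≤ 1
        rw [map_one]
      add_mem' := fun {y z} hy hz => (ha.na y z).trans (max_le hy hz)
      zero_mem' := by
        change a 0 ≤ 1
        rw [map_zero]
        exact zero_le_one
      neg_mem' := fun {y} hy => by
        change a (-y) ≤ 1
        rw [a.map_neg]
        exact hy
      mem_or_inv_mem' := fun y => by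
        change a y ≤ 1 ∨ a y⁻¹ ≤ 1
        rcases le_total (a y) 1 with h1 | h1
        · exact Or.inl h1
        · right
          rw [map_inv₀]
          exact inv_le_one_of_one_le₀ h1 }
  have hi : IsIntegral (Algebra.adjoin k {(0 : K)}) x⁻¹ := hx.inv.isIntegral.tower_top
  have hm : x⁻¹ ∈ W := PlA_mem W hk W.zero_mem hi
  have hm' : a x⁻¹ ≤ 1 := hm
  rw [map_inv₀] at hm'
  have hp : 0 < a x := a.pos hx0
  exact absurd hm' (not_le.2 (one_lt_inv₀ hp |>.2 h))

/-- Put `π = u⁻¹`, `R = Algebra.adjoin k {π}` (a subalgebra of `F`), a principal ideal domain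
(`Polynomial.algEquivOfTranscendental`), with fraction field `F` (`IsFractionRing.of_field`,
`IntermediateField.mem_adjoin_simple_iff`, `k⟮π⟯ = k⟮u⟯`). `B = integralClosure R K` is Dedekind
(`integralClosure.isDedekindDomain`) with fraction field `K`
(`integralClosure.isFractionRing_of_finite_extension`). `I` is the finite type of height one primes
containing `π` (`Ideal.finite_factors`), `av` from `exists_pl_of_valuation`. If `x` is integral over
`k[u]`, then at a prime not containing `π` the valuation of `u` is `1`, so the valuation subring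
contains `k[u]` and `x`. Hence `x ∈ B`
(`IsDedekindDomain.HeightOneSpectrum.mem_integers_of_valuation_le_one`); `algebraic_of_two`. -/
theorem places_sep {k F K : Type} [Field k] [Field F] [Field K] [Algebra k F] [Algebra F K]
    [Algebra k K] [IsScalarTower k F K] {u : F} (hu : Transcendental k u) (hF : k⟮u⟯ = ⊤)
    [FiniteDimensional F K] [Algebra.IsSeparable F K] :
    ∃ (I : Type) (_ : Fintype I) (av : I → AbsoluteValue K ℝ), (∀ i, Pl (av i)) ∧
      (∀ i (c : k), av i (algebraMap k K c) ≤ 1) ∧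
      ∀ x : K, IsIntegral (Algebra.adjoin k {algebraMap F K u}) x → (∀ i, av i x ≤ 1) →
        IsAlgebraic k x := by
  classical
  have hu0 : u ≠ 0 := by
    rintro rfl
    exact hu isAlgebraic_zero
  have hπ : Transcendental k u⁻¹ := fun h => hu (by simpa using h.inv)
  let R : Subalgebra k F := Algebra.adjoin k {u⁻¹}
  have hpid : IsPrincipalIdealRing R :=
    IsPrincipalIdealRing.of_surjective (Polynomial.algEquivOfTranscendental k u⁻¹ hπ)
      (Polynomial.algEquivOfTranscendental k u⁻¹ hπ).surjective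
  have hF' : k⟮u⁻¹⟯ = ⊤ := by
    rw [eq_top_iff, ← hF, adjoin_simple_le_iff]
    have := inv_mem (mem_adjoin_simple_self k u⁻¹)
    rwa [inv_inv] at this
  have hfr : IsFractionRing R F := by
    refine IsFractionRing.of_field R F fun z => ?_
    have hz : z ∈ k⟮u⁻¹⟯ := hF' ▸ IntermediateField.mem_top
    obtain ⟨r, s, rfl⟩ := (IntermediateField.mem_adjoin_simple_iff k z).1 hz
    exact ⟨⟨_, Polynomial.aeval_mem_adjoin_singleton k u⁻¹ (p := r)⟩,
      ⟨_, Polynomial.aeval_mem_adjoin_singleton k u⁻¹ (p := s)⟩, rfl⟩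
  let B := integralClosure R K
  have hB : IsDedekindDomain B := integralClosure.isDedekindDomain R F K
  have hBK : IsFractionRing B K := integralClosure.isFractionRing_of_finite_extension F K
  let π : R := ⟨u⁻¹, Algebra.self_mem_adjoin_singleton k u⁻¹⟩
  let p : B := algebraMap R B π
  have hpK : (algebraMap B K p) = (algebraMap F K u)⁻¹ := by
    rw [← map_inv₀]
    rfl
  have huK : algebraMap F K u ≠ 0 := by simpa using hu0
  have hp0 : p ≠ 0 := by
    intro h
    rw [h, map_zero] at hpK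
    exact inv_ne_zero huK hpK.symm
  have hfin : {v : IsDedekindDomain.HeightOneSpectrum B | v.asIdeal ∣ Ideal.span {p}}.Finite :=
    Ideal.finite_factors (by simpa using hp0)
  have hkB : ∀ (v : IsDedekindDomain.HeightOneSpectrum B) (c : k),
      v.valuation K (algebraMap k K c) ≤ 1 := fun v c => by
    have h1 : algebraMap k K c = algebraMap B K (algebraMap R B (algebraMap k R c)) := by
      rw [IsScalarTower.algebraMap_apply k F K]
      rfl
    rw [h1]
    exact v.valuation_le_one _
  choose av hav using fun v : IsDedekindDomain.HeightOneSpectrum B =>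
    exists_pl_of_valuation (v.valuation K)
  refine ⟨{v : IsDedekindDomain.HeightOneSpectrum B | v.asIdeal ∣ Ideal.span {p}}, hfin.fintype,
    fun i => av i.1, fun i => (hav i.1).1, fun i c => ((hav i.1).2 _).2 (hkB i.1 c),
    fun x hx hle => ?_⟩
  have hall : ∀ v : IsDedekindDomain.HeightOneSpectrum B, v.valuation K x ≤ 1 := by
    intro v
    by_cases hv : v.asIdeal ∣ Ideal.span {p}
    · exact ((hav v).2 _).1 (hle ⟨v, hv⟩)
    · have h1 : v.valuation K (algebraMap B K p) = 1 := by
        refine le_antisymm (v.valuation_le_one p) (not_lt.1 fun h => hv ?_)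
        exact (v.valuation_lt_one_iff_dvd (K := K) p).1 h
      rw [hpK, map_inv₀, inv_eq_one] at h1
      have h2 : x ∈ (v.valuation K).valuationSubring :=
        PlA_mem (v.valuation K).valuationSubring (fun c => hkB v c) (w := algebraMap F K u)
          h1.le hx
      exact h2
  obtain ⟨b, hb⟩ := IsDedekindDomain.HeightOneSpectrum.mem_integers_of_valuation_le_one K x hall
  have hxR : IsIntegral R x := by
    rw [← hb]
    exact b.2
  have hmem : ∀ y : R, algebraMap F K y.1 ∈ Algebra.adjoin k {(algebraMap F K u)⁻¹} := by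
    intro y
    have h1 : (IsScalarTower.toAlgHom k F K) y.1 ∈
        (Algebra.adjoin k {u⁻¹}).map (IsScalarTower.toAlgHom k F K) := ⟨y.1, y.2, rfl⟩
    rw [AlgHom.map_adjoin_singleton] at h1
    simpa using h1
  let φ : R →+* Algebra.adjoin k {(algebraMap F K u)⁻¹} :=
    ((algebraMap F K).comp R.val.toRingHom).codRestrict
      (Algebra.adjoin k {(algebraMap F K u)⁻¹}).toSubring hmem
  have h2 : IsIntegral (Algebra.adjoin k {(algebraMap F K u)⁻¹}) ((RingHom.id K) x) :=
    IsIntegral.map_of_comp_eq φ (RingHom.id K) (by ext y; rfl) hxR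
  exact algebraic_of_two hx h2

end Pool.Agent.Work.MP_9d1ffa_al.G2
end

-- merged part: Pool.Agent.Work.MP_9d1ffa_al.G2.PlB
section
/-! Places at infinity of an arbitrary function field. -/

namespace Pool.Agent.Work.MP_9d1ffa_al.G2

open IntermediateField

/-- `IntermediateField.lift_injective`, `lift_adjoin_simple`, `lift_top`. -/
theorem gen_top {k Ω : Type} [Field k] [Field Ω] [Algebra k Ω] (u : Ω) :
    k⟮AdjoinSimple.gen k u⟯ = ⊤ := by
  apply lift_injective k⟮u⟯
  rw [lift_adjoin_simple, lift_top]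
  rfl

theorem PlB_int {k L K : Type} [Field k] [Field L] [Field K] [Algebra k L] [Algebra L K]
    [Algebra k K] [IsScalarTower k L K] (v y : L)
    (h : IsIntegral (Algebra.adjoin k {algebraMap L K v}) (algebraMap L K y)) :
    IsIntegral (Algebra.adjoin k {v}) y := by
  let e : Algebra.adjoin k {v} ≃ₐ[k] Algebra.adjoin k {algebraMap L K v} :=
    (Subalgebra.equivMapOfInjective _ (IsScalarTower.toAlgHom k L K)
      (algebraMap L K).injective).trans
      (Subalgebra.equivOfEq _ _ (AlgHom.map_adjoin_singleton _ v))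
  rw [← isIntegral_algebraMap_iff (algebraMap L K).injective]
  refine h.map_of_comp_eq (e.symm : _ →+* Algebra.adjoin k {v}) (RingHom.id K) (RingHom.ext fun a => ?_)
  obtain ⟨b, rfl⟩ := e.surjective a
  exact congrArg (algebraMap (Algebra.adjoin k {v}) K) (e.symm_apply_apply b)

/-- Let `L = separableClosure F K`, finite separable over `F`. `K / L` is purely inseparable and
finite, so with `q = ringExpChar K ^ e` there is a ring homomorphism `φ : K →+* L` with
`(φ x : K) = x ^ q` (`IsPurelyInseparable.iterateFrobenius`,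
`IsPurelyInseparable.algebraMap_iterateFrobenius`). Pull the absolute values of `places_sep` for `L`
back along `φ` (`AbsoluteValue.comp`). If `x` is integral over `k[u]` so is `x ^ q`, in `K` and hence
in `L`; if `x ^ q` is algebraic so is `x`. -/
theorem places {k F K : Type} [Field k] [Field F] [Field K] [Algebra k F] [Algebra F K]
    [Algebra k K] [IsScalarTower k F K] {u : F} (hu : Transcendental k u) (hF : k⟮u⟯ = ⊤)
    [FiniteDimensional F K] :
    ∃ (I : Type) (_ : Fintype I) (av : I → AbsoluteValue K ℝ), (∀ i, Pl (av i)) ∧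
      (∀ i (c : k), av i (algebraMap k K c) ≤ 1) ∧
      ∀ x : K, IsIntegral (Algebra.adjoin k {algebraMap F K u}) x → (∀ i, av i x ≤ 1) →
        IsAlgebraic k x := by
  have : IsScalarTower k (separableClosure F K) K := IsScalarTower.of_algebraMap_eq fun _ => rfl
  obtain ⟨I, hI, av, h1, h2, h3⟩ := places_sep (K := separableClosure F K) hu hF
  obtain ⟨q, hq, φ, hφ⟩ : ∃ q : ℕ, 0 < q ∧ ∃ φ : K →+* separableClosure F K,
      ∀ x, algebraMap (separableClosure F K) K (φ x) = x ^ q :=
    ⟨_, expChar_pow_pos (separableClosure F K) (ringExpChar (separableClosure F K)) _,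
      IsPurelyInseparable.iterateFrobenius (separableClosure F K) K _ le_rfl,
      IsPurelyInseparable.algebraMap_iterateFrobenius _ _ le_rfl⟩
  refine ⟨I, hI, fun i => (av i).comp φ.injective, fun i => ⟨fun x y => ?_, fun x hx => ?_⟩,
    fun i c => ?_, fun x hx hx' => ?_⟩
  · change av i (φ (x + y)) ≤ max (av i (φ x)) (av i (φ y))
    rw [map_add]
    exact (h1 i).na _ _
  · exact (h1 i).val (φ x) ((map_ne_zero φ).2 hx)
  · have e : φ (algebraMap k K c) = algebraMap k (separableClosure F K) (c ^ q) :=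
      (algebraMap (separableClosure F K) K).injective (by
        rw [hφ, ← IsScalarTower.algebraMap_apply, map_pow])
    change av i (φ (algebraMap k K c)) ≤ 1
    rw [e]
    exact h2 i _
  · have h4 := h3 (φ x) (PlB_int (K := K) _ _ (by rw [hφ]; exact hx.pow q)) hx'
    have h5 := h4.algebraMap (A := K)
    rw [hφ] at h5
    exact h5.of_pow hq

open scoped IntermediateField.algebraAdjoinAdjoin in
theorem PlB_mult {k Ω : Type} [Field k] [Field Ω] [Algebra k Ω] {u e : Ω}
    (h : IsAlgebraic k⟮u⟯ e) :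
    ∃ y : Algebra.adjoin k {u}, y ≠ 0 ∧ IsIntegral (Algebra.adjoin k {u}) (y • e) :=
  ((IsFractionRing.isAlgebraic_iff (Algebra.adjoin k {u}) k⟮u⟯ Ω).2 h).exists_integral_multiple

/-- Clear denominators: there is `f ≠ 0` in `k[X]` with `f(u) * e` integral over `k[u]` for all
`e ∈ E` (`IsAlgebraic.exists_integral_multiple` over the ring `Algebra.adjoin k {u}`, using
`IsFractionRing.isAlgebraic_iff` and `open scoped IntermediateField.algebraAdjoinAdjoin`). Put
`w = u + (f(u))⁻¹`. Then `u` is a root of `f(U) * (U - w) + 1`, whose leading coefficient is a unit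
of `k`, so `u` is integral over `k[w]`; so are `(f(u))⁻¹ = w - u`, all of `k[u]`, and
`e = (f(u))⁻¹ * (f(u) * e)`. If `w` were algebraic over `k`, so would be `u`. -/
theorem exists_integral_param {k Ω : Type} [Field k] [Field Ω] [Algebra k Ω] {u : Ω}
    (hu : Transcendental k u) (E : Finset Ω) (hE : ∀ e ∈ E, IsAlgebraic k⟮u⟯ e) :
    ∃ w : Ω, Transcendental k w ∧ ∀ e ∈ E, IsIntegral (Algebra.adjoin k {w}) e := by
  classical
  have h0 : ∀ e ∈ E, ∃ y : Algebra.adjoin k {u}, y ≠ 0 ∧ IsIntegral (Algebra.adjoin k {u}) (y • e) :=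
    fun e he => PlB_mult (hE e he)
  choose! r hr int using h0
  obtain ⟨f, hf⟩ : ∃ f : Polynomial k, Polynomial.aeval u f = ((∏ e ∈ E, r e :) : Ω) :=
    (Algebra.adjoin_singleton_eq_range_aeval k u).le (∏ e ∈ E, r e).2
  have hr0 : ((∏ e ∈ E, r e :) : Ω) ≠ 0 := fun h =>
    Finset.prod_ne_zero_iff.2 hr (Subtype.ext h)
  have hf0 : f ≠ 0 := fun h => hr0 (by rw [← hf, h, map_zero])
  have hm := Polynomial.monic_mul_leadingCoeff_inv hf0
  obtain ⟨g, hg⟩ : ∃ g, g = Polynomial.aeval u (f * Polynomial.C f.leadingCoeff⁻¹) := ⟨_, rfl⟩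
  have hg0 : g ≠ 0 := fun h => hu ⟨_, hm.ne_zero, hg ▸ h⟩
  have hge : ∀ e ∈ E, IsIntegral (Algebra.adjoin k {u}) (g * e) := fun e he => by
    have h1 := ((int e he).smul (∏ x ∈ E.erase e, r x)).smul
      (algebraMap k (Algebra.adjoin k {u}) f.leadingCoeff⁻¹)
    rw [← mul_smul (∏ x ∈ E.erase e, r x), Finset.prod_erase_mul _ _ he, ← mul_smul] at h1
    rw [hg, map_mul, hf, Polynomial.aeval_C, mul_comm _ (algebraMap k Ω _)]
    exact h1
  have hw : u + g⁻¹ ∈ Algebra.adjoin k {u + g⁻¹} := Algebra.self_mem_adjoin_singleton k _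
  have hu' : IsIntegral (Algebra.adjoin k {u + g⁻¹}) u := by
    have h1 := hm.map (algebraMap k (Algebra.adjoin k {u + g⁻¹}))
    have h2 := Polynomial.monic_X_sub_C (⟨_, hw⟩ : Algebra.adjoin k {u + g⁻¹})
    refine ⟨_, (h1.mul h2).add_of_left (q := 1) ?_, ?_⟩
    · rw [Polynomial.degree_one, ← Polynomial.natDegree_pos_iff_degree_pos, h1.natDegree_mul h2,
        Polynomial.natDegree_X_sub_C]
      exact Nat.succ_pos _
    · rw [← Polynomial.aeval_def, map_add, map_mul, Polynomial.aeval_map_algebraMap, ← hg, map_one,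
        map_sub, Polynomial.aeval_X, Polynomial.aeval_C]
      change g * (u - (u + g⁻¹)) + 1 = 0
      rw [sub_add_cancel_left, mul_neg, mul_inv_cancel₀ hg0, neg_add_cancel]
  refine ⟨u + g⁻¹, fun h => hu ?_, fun e he => ?_⟩
  · have : Algebra.IsIntegral k (Algebra.adjoin k {u + g⁻¹}) :=
      Algebra.IsIntegral.adjoin fun x hx => Set.mem_singleton_iff.1 hx ▸ h.isIntegral
    exact (isIntegral_trans u hu').isAlgebraic
  · have hle : Algebra.adjoin k {u} ≤
        (integralClosure (Algebra.adjoin k {u + g⁻¹}) Ω).restrictScalars k :=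
      Algebra.adjoin_le (Set.singleton_subset_iff.2 hu')
    have h1 : IsIntegral (integralClosure (Algebra.adjoin k {u + g⁻¹}) Ω) (g * e) :=
      (hge e he).map_of_comp_eq (T := integralClosure (Algebra.adjoin k {u + g⁻¹}) Ω)
        (Subalgebra.inclusion hle).toRingHom (RingHom.id Ω) rfl
    have h2 : IsIntegral (Algebra.adjoin k {u + g⁻¹}) (u + g⁻¹) :=
      isIntegral_algebraMap (x := (⟨_, hw⟩ : Algebra.adjoin k {u + g⁻¹}))
    have h3 := (h2.sub hu').mul (isIntegral_trans _ h1)
    rwa [add_sub_cancel_left, inv_mul_cancel_left₀ hg0] at h3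

end Pool.Agent.Work.MP_9d1ffa_al.G2
end

-- merged part: Pool.Agent.Work.MP_9d1ffa_al.GN.AlB
section
/-! Places at infinity with a lower bound for nonzero integral elements. -/

namespace Pool.Agent.Work.MP_9d1ffa_al.GN

open IntermediateField
open G2 (Pl PlA_mem PlB_int exists_pl_of_valuation algebraic_of_two)

theorem AlB_sep {k F K : Type} [Field k] [Field F] [Field K] [Algebra k F] [Algebra F K]
    [Algebra k K] [IsScalarTower k F K] {u : F} (hu : Transcendental k u) (hF : k⟮u⟯ = ⊤)
    [FiniteDimensional F K] [Algebra.IsSeparable F K] :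
    ∃ (I : Type) (_ : Fintype I) (av : I → AbsoluteValue K ℝ), (∀ i, Pl (av i)) ∧
      (∀ i (c : k), av i (algebraMap k K c) ≤ 1) ∧
      (∀ i, 1 < av i (algebraMap F K u)) ∧
      ∀ (x : K) (N : ℕ), IsIntegral (Algebra.adjoin k {algebraMap F K u}) x →
        (∀ i, av i (x * (algebraMap F K u)⁻¹ ^ N) ≤ 1) →
        IsIntegral (Algebra.adjoin k {(algebraMap F K u)⁻¹}) (x * (algebraMap F K u)⁻¹ ^ N) := by
  classical
  have hu0 : u ≠ 0 := by
    rintro rfl
    exact hu isAlgebraic_zero
  have hπ : Transcendental k u⁻¹ := fun h => hu (by simpa using h.inv)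
  let R : Subalgebra k F := Algebra.adjoin k {u⁻¹}
  have hpid : IsPrincipalIdealRing R :=
    IsPrincipalIdealRing.of_surjective (Polynomial.algEquivOfTranscendental k u⁻¹ hπ)
      (Polynomial.algEquivOfTranscendental k u⁻¹ hπ).surjective
  have hF' : k⟮u⁻¹⟯ = ⊤ := by
    rw [eq_top_iff, ← hF, adjoin_simple_le_iff]
    have := inv_mem (mem_adjoin_simple_self k u⁻¹)
    rwa [inv_inv] at this
  have hfr : IsFractionRing R F := by
    refine IsFractionRing.of_field R F fun z => ?_
    have hz : z ∈ k⟮u⁻¹⟯ := hF' ▸ IntermediateField.mem_top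
    obtain ⟨r, s, rfl⟩ := (IntermediateField.mem_adjoin_simple_iff k z).1 hz
    exact ⟨⟨_, Polynomial.aeval_mem_adjoin_singleton k u⁻¹ (p := r)⟩,
      ⟨_, Polynomial.aeval_mem_adjoin_singleton k u⁻¹ (p := s)⟩, rfl⟩
  let B := integralClosure R K
  have hB : IsDedekindDomain B := integralClosure.isDedekindDomain R F K
  have hBK : IsFractionRing B K := integralClosure.isFractionRing_of_finite_extension F K
  let π : R := ⟨u⁻¹, Algebra.self_mem_adjoin_singleton k u⁻¹⟩
  let p : B := algebraMap R B π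
  have hpK : (algebraMap B K p) = (algebraMap F K u)⁻¹ := by
    rw [← map_inv₀]
    rfl
  have huK : algebraMap F K u ≠ 0 := by simpa using hu0
  have hp0 : p ≠ 0 := by
    intro h
    rw [h, map_zero] at hpK
    exact inv_ne_zero huK hpK.symm
  have hfin : {v : IsDedekindDomain.HeightOneSpectrum B | v.asIdeal ∣ Ideal.span {p}}.Finite :=
    Ideal.finite_factors (by simpa using hp0)
  have hkB : ∀ (v : IsDedekindDomain.HeightOneSpectrum B) (c : k),
      v.valuation K (algebraMap k K c) ≤ 1 := fun v c => by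
    have h1 : algebraMap k K c = algebraMap B K (algebraMap R B (algebraMap k R c)) := by
      rw [IsScalarTower.algebraMap_apply k F K]
      rfl
    rw [h1]
    exact v.valuation_le_one _
  choose av hav using fun v : IsDedekindDomain.HeightOneSpectrum B =>
    exists_pl_of_valuation (v.valuation K)
  refine ⟨{v : IsDedekindDomain.HeightOneSpectrum B | v.asIdeal ∣ Ideal.span {p}}, hfin.fintype,
    fun i => av i.1, fun i => (hav i.1).1, fun i c => ((hav i.1).2 _).2 (hkB i.1 c),
    fun i => ?_, fun x N hx hle => ?_⟩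
  · refine not_le.1 fun h => ?_
    have h1 := ((hav i.1).2 _).1 h
    have h2 : i.1.valuation K (algebraMap B K p) < 1 :=
      (i.1.valuation_lt_one_iff_dvd (K := K) p).2 i.2
    rw [hpK, map_inv₀] at h2
    have h3 : 0 < i.1.valuation K (algebraMap F K u) :=
      zero_lt_iff.2 ((Valuation.ne_zero_iff _).2 huK)
    exact absurd ((inv_lt_one₀ h3).1 h2) (not_lt.2 h1)
  have hall : ∀ v : IsDedekindDomain.HeightOneSpectrum B,
      v.valuation K (x * (algebraMap F K u)⁻¹ ^ N) ≤ 1 := by
    intro v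
    by_cases hv : v.asIdeal ∣ Ideal.span {p}
    · exact ((hav v).2 _).1 (hle ⟨v, hv⟩)
    · have h1 : v.valuation K (algebraMap B K p) = 1 := by
        refine le_antisymm (v.valuation_le_one p) (not_lt.1 fun h => hv ?_)
        exact (v.valuation_lt_one_iff_dvd (K := K) p).1 h
      rw [hpK, map_inv₀, inv_eq_one] at h1
      have h2 : x ∈ (v.valuation K).valuationSubring :=
        PlA_mem (v.valuation K).valuationSubring (fun c => hkB v c) (w := algebraMap F K u)
          h1.le hx
      rw [map_mul, map_pow, map_inv₀, h1, inv_one, one_pow, mul_one]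
      exact h2
  obtain ⟨b, hb⟩ := IsDedekindDomain.HeightOneSpectrum.mem_integers_of_valuation_le_one K _ hall
  have hxR : IsIntegral R (x * (algebraMap F K u)⁻¹ ^ N) := by
    rw [← hb]
    exact b.2
  have hmem : ∀ y : R, algebraMap F K y.1 ∈ Algebra.adjoin k {(algebraMap F K u)⁻¹} := by
    intro y
    have h1 : (IsScalarTower.toAlgHom k F K) y.1 ∈
        (Algebra.adjoin k {u⁻¹}).map (IsScalarTower.toAlgHom k F K) := ⟨y.1, y.2, rfl⟩
    rw [AlgHom.map_adjoin_singleton] at h1
    simpa using h1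
  let φ : R →+* Algebra.adjoin k {(algebraMap F K u)⁻¹} :=
    ((algebraMap F K).comp R.val.toRingHom).codRestrict
      (Algebra.adjoin k {(algebraMap F K u)⁻¹}).toSubring hmem
  exact IsIntegral.map_of_comp_eq φ (RingHom.id K) (by ext y; rfl) hxR

theorem AlB_up {k L K : Type} [Field k] [Field L] [Field K] [Algebra k L] [Algebra L K]
    [Algebra k K] [IsScalarTower k L K] (v y : L) (h : IsIntegral (Algebra.adjoin k {v}) y) :
    IsIntegral (Algebra.adjoin k {algebraMap L K v}) (algebraMap L K y) := by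
  have hmem : ∀ z : Algebra.adjoin k {v}, algebraMap L K z.1 ∈
      Algebra.adjoin k {algebraMap L K v} := by
    intro z
    have h1 : (IsScalarTower.toAlgHom k L K) z.1 ∈
        (Algebra.adjoin k {v}).map (IsScalarTower.toAlgHom k L K) := ⟨z.1, z.2, rfl⟩
    rw [AlgHom.map_adjoin_singleton] at h1
    exact h1
  let φ : Algebra.adjoin k {v} →+* Algebra.adjoin k {algebraMap L K v} :=
    ((algebraMap L K).comp (Algebra.adjoin k {v}).val.toRingHom).codRestrict
      (Algebra.adjoin k {algebraMap L K v}).toSubring hmem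
  exact IsIntegral.map_of_comp_eq φ (algebraMap L K) (by ext z; rfl) h

theorem AlB_gen {k F K : Type} [Field k] [Field F] [Field K] [Algebra k F] [Algebra F K]
    [Algebra k K] [IsScalarTower k F K] {u : F} (hu : Transcendental k u) (hF : k⟮u⟯ = ⊤)
    [FiniteDimensional F K] :
    ∃ (I : Type) (_ : Fintype I) (av : I → AbsoluteValue K ℝ), (∀ i, Pl (av i)) ∧
      (∀ i (c : k), av i (algebraMap k K c) ≤ 1) ∧
      (∀ i, 1 < av i (algebraMap F K u)) ∧
      ∀ (x : K) (N : ℕ), IsIntegral (Algebra.adjoin k {algebraMap F K u}) x →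
        (∀ i, av i (x * (algebraMap F K u)⁻¹ ^ N) ≤ 1) →
        IsIntegral (Algebra.adjoin k {(algebraMap F K u)⁻¹}) (x * (algebraMap F K u)⁻¹ ^ N) := by
  have : IsScalarTower k (separableClosure F K) K := IsScalarTower.of_algebraMap_eq fun _ => rfl
  obtain ⟨I, hI, av, h1, h2, h0, h3⟩ := AlB_sep (K := separableClosure F K) hu hF
  obtain ⟨q, hq, φ, hφ⟩ : ∃ q : ℕ, 0 < q ∧ ∃ φ : K →+* separableClosure F K,
      ∀ x, algebraMap (separableClosure F K) K (φ x) = x ^ q :=
    ⟨_, expChar_pow_pos (separableClosure F K) (ringExpChar (separableClosure F K)) _,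
      IsPurelyInseparable.iterateFrobenius (separableClosure F K) K _ le_rfl,
      IsPurelyInseparable.algebraMap_iterateFrobenius _ _ le_rfl⟩
  have hu' : φ (algebraMap F K u) = algebraMap F (separableClosure F K) u ^ q :=
    (algebraMap (separableClosure F K) K).injective (by
      rw [hφ, map_pow, ← IsScalarTower.algebraMap_apply])
  refine ⟨I, hI, fun i => (av i).comp φ.injective, fun i => ⟨fun x y => ?_, fun x hx => ?_⟩,
    fun i c => ?_, fun i => ?_, fun x N hx hx' => ?_⟩
  · change av i (φ (x + y)) ≤ max (av i (φ x)) (av i (φ y))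
    rw [map_add]
    exact (h1 i).na _ _
  · exact (h1 i).val (φ x) ((map_ne_zero φ).2 hx)
  · have e : φ (algebraMap k K c) = algebraMap k (separableClosure F K) (c ^ q) :=
      (algebraMap (separableClosure F K) K).injective (by
        rw [hφ, ← IsScalarTower.algebraMap_apply, map_pow])
    change av i (φ (algebraMap k K c)) ≤ 1
    rw [e]
    exact h2 i _
  · change 1 < av i (φ (algebraMap F K u))
    rw [hu', map_pow]
    exact one_lt_pow₀ (h0 i) hq.ne'
  · have e : φ (x * (algebraMap F K u)⁻¹ ^ N) =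
        φ x * (algebraMap F (separableClosure F K) u)⁻¹ ^ (q * N) := by
      rw [map_mul, map_pow, map_inv₀, hu', pow_mul, inv_pow _ q]
    have h4 := h3 (φ x) (q * N) (PlB_int (K := K) _ _ (by rw [hφ]; exact hx.pow q))
      (fun i => by rw [← e]; exact hx' i)
    rw [← e] at h4
    have h5 := AlB_up (K := K) _ _ h4
    rw [hφ, map_inv₀, ← IsScalarTower.algebraMap_apply] at h5
    exact IsIntegral.of_pow hq h5

theorem AlB_W {K : Type} [Field K] {a : AbsoluteValue K ℝ} (ha : Pl a) :
    ∃ W : ValuationSubring K, ∀ y, y ∈ W ↔ a y ≤ 1 :=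
  ⟨{ carrier := {y | a y ≤ 1}
     mul_mem' := fun {y z} hy hz => by
       change a (y * z) ≤ 1
       rw [map_mul]
       exact mul_le_one₀ hy (a.nonneg z) hz
     one_mem' := by
       change a 1 ≤ 1
       rw [map_one]
     add_mem' := fun {y z} hy hz => (ha.na y z).trans (max_le hy hz)
     zero_mem' := by
       change a 0 ≤ 1
       rw [map_zero]
       exact zero_le_one
     neg_mem' := fun {y} hy => by
       change a (-y) ≤ 1
       rw [a.map_neg]
       exact hy
     mem_or_inv_mem' := fun y => by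
       change a y ≤ 1 ∨ a y⁻¹ ≤ 1
       rcases le_total (a y) 1 with h1 | h1
       · exact Or.inl h1
       · right
         rw [map_inv₀]
         exact inv_le_one_of_one_le₀ h1 }, fun _ => Iff.rfl⟩

theorem AlB_aeval {F K : Type} [Field F] [Field K] [Algebra F K] (W : ValuationSubring K)
    (p : Polynomial F) (hp : ∀ i, algebraMap F K (p.coeff i) ∈ W) {z : K} (hz : z ∈ W) :
    ∃ w ∈ W, Polynomial.aeval z p = w * z + algebraMap F K (p.coeff 0) := by
  refine ⟨Polynomial.aeval z p.divX, ?_, ?_⟩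
  · rw [Polynomial.aeval_eq_sum_range]
    refine W.toSubring.sum_mem fun i _ => ?_
    rw [Algebra.smul_def, Polynomial.coeff_divX]
    exact W.toSubring.mul_mem (hp _) (W.toSubring.pow_mem hz i)
  · conv_lhs => rw [← Polynomial.divX_mul_X_add p]
    rw [map_add, map_mul, Polynomial.aeval_X, Polynomial.aeval_C]

theorem AlB_poly {k K : Type} [Field k] [Field K] [Algebra k K] {a : AbsoluteValue K ℝ} (ha : Pl a)
    (hk : ∀ c : k, a (algebraMap k K c) ≤ 1) {U : K} (h1 : 1 < a U) {c : K}
    (hc : c ∈ Algebra.adjoin k {U}) (hc0 : c ≠ 0) : 1 ≤ a c := by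
  obtain ⟨W, hW⟩ := AlB_W ha
  rw [Algebra.adjoin_singleton_eq_range_aeval] at hc
  obtain ⟨f, rfl⟩ := hc
  change Polynomial.aeval U f ≠ 0 at hc0
  change 1 ≤ a (Polynomial.aeval U f)
  have hf : f ≠ 0 := fun h => hc0 (by rw [h, map_zero])
  have hU : U ≠ 0 := fun h => by
    rw [h, map_zero] at h1
    exact absurd h1 (by norm_num)
  have hπ : a U⁻¹ < 1 := by
    rw [map_inv₀]
    exact inv_lt_one_of_one_lt₀ h1
  letI := invertibleOfNonzero hU
  have e := Polynomial.eval₂_reverse_mul_pow (algebraMap k K) U f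
  rw [invOf_eq_inv, ← Polynomial.aeval_def, ← Polynomial.aeval_def] at e
  obtain ⟨w, hw, e2⟩ := AlB_aeval W f.reverse (fun i => (hW _).2 (hk _)) ((hW _).2 hπ.le)
  rw [Polynomial.coeff_zero_reverse] at e2
  have hl : f.leadingCoeff ≠ 0 := Polynomial.leadingCoeff_ne_zero.2 hf
  have h2 : 1 ≤ a (algebraMap k K f.leadingCoeff) := by
    have h3 := hk f.leadingCoeff⁻¹
    rw [map_inv₀, map_inv₀] at h3
    exact (inv_le_one₀ (a.pos ((map_ne_zero _).2 hl))).1 h3
  have h3 : a (-(w * U⁻¹)) < 1 := by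
    rw [a.map_neg, map_mul]
    exact mul_lt_one_of_nonneg_of_lt_one_right ((hW _).1 hw) (a.nonneg _) hπ
  have h4 := ha.na (Polynomial.aeval U⁻¹ f.reverse) (-(w * U⁻¹))
  have h5 : Polynomial.aeval U⁻¹ f.reverse + -(w * U⁻¹) = algebraMap k K f.leadingCoeff := by
    rw [e2]
    ring
  rw [h5] at h4
  have h6 : 1 ≤ a (Polynomial.aeval U⁻¹ f.reverse) := by
    rcases le_max_iff.1 (h2.trans h4) with h | h
    · exact h
    · exact absurd h3 (not_lt.2 h)
  rw [← e, map_mul, map_pow]
  exact one_le_mul_of_one_le_of_one_le h6 (one_le_pow₀ h1.le)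

theorem AlB_coeff {k F K : Type} [Field k] [Field F] [Field K] [Algebra k F] [Algebra F K]
    [Algebra k K] [IsScalarTower k F K] {v : F} (hv : Transcendental k v) (hF : k⟮v⟯ = ⊤) {y : K}
    (hy : IsIntegral (Algebra.adjoin k {algebraMap F K v}) y) (i : ℕ) :
    algebraMap F K ((minpoly F y).coeff i) ∈ Algebra.adjoin k {algebraMap F K v} := by
  let R : Subalgebra k F := Algebra.adjoin k {v}
  have hpid : IsPrincipalIdealRing R :=
    IsPrincipalIdealRing.of_surjective (Polynomial.algEquivOfTranscendental k v hv)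
      (Polynomial.algEquivOfTranscendental k v hv).surjective
  have hfr : IsFractionRing R F := by
    refine IsFractionRing.of_field R F fun z => ?_
    have hz : z ∈ k⟮v⟯ := hF ▸ IntermediateField.mem_top
    obtain ⟨r, s, rfl⟩ := (IntermediateField.mem_adjoin_simple_iff k z).1 hz
    exact ⟨⟨_, Polynomial.aeval_mem_adjoin_singleton k v (p := r)⟩,
      ⟨_, Polynomial.aeval_mem_adjoin_singleton k v (p := s)⟩, rfl⟩
  let e : R ≃ₐ[k] Algebra.adjoin k {algebraMap F K v} :=
    (Subalgebra.equivMapOfInjective _ (IsScalarTower.toAlgHom k F K)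
      (algebraMap F K).injective).trans
      (Subalgebra.equivOfEq _ _ (AlgHom.map_adjoin_singleton _ v))
  have hR : IsIntegral R y := by
    refine hy.map_of_comp_eq (e.symm : _ →+* R) (RingHom.id K) (RingHom.ext fun b => ?_)
    obtain ⟨b, rfl⟩ := e.surjective b
    exact congrArg (algebraMap R K) (e.symm_apply_apply b)
  rw [minpoly.isIntegrallyClosed_eq_field_fractions' F hR, Polynomial.coeff_map]
  exact (e ((minpoly R y).coeff i)).2

theorem AlB_lower {k F K : Type} [Field k] [Field F] [Field K] [Algebra k F] [Algebra F K]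
    [Algebra k K] [IsScalarTower k F K] {u : F} (hu : Transcendental k u) (hF : k⟮u⟯ = ⊤)
    [FiniteDimensional F K] {a : AbsoluteValue K ℝ} (ha : Pl a)
    (hk : ∀ c : k, a (algebraMap k K c) ≤ 1) (h1 : 1 < a (algebraMap F K u)) (N : ℕ) {x : K}
    (hx0 : x ≠ 0) (hx : IsIntegral (Algebra.adjoin k {algebraMap F K u}) x)
    (hy : IsIntegral (Algebra.adjoin k {(algebraMap F K u)⁻¹}) (x * (algebraMap F K u)⁻¹ ^ N)) :
    1 ≤ a (algebraMap F K u) ^ (N * Module.finrank F K) * a x := by
  obtain ⟨W, hW⟩ := AlB_W ha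
  have hu0 : u ≠ 0 := by
    rintro rfl
    exact hu isAlgebraic_zero
  have hπ : Transcendental k u⁻¹ := fun h => hu (by simpa using h.inv)
  have hF' : k⟮u⁻¹⟯ = ⊤ := by
    rw [eq_top_iff, ← hF, adjoin_simple_le_iff]
    have := inv_mem (mem_adjoin_simple_self k u⁻¹)
    rwa [inv_inv] at this
  set U := algebraMap F K u with hU
  have hU0 : U ≠ 0 := (map_ne_zero _).2 hu0
  set z := x * U⁻¹ ^ N with hz
  have hπ1 : a U⁻¹ ≤ 1 := by
    rw [map_inv₀]
    exact inv_le_one_of_one_le₀ h1.le
  have hkW : ∀ c : k, algebraMap k K c ∈ W := fun c => (hW _).2 (hk c)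
  have hzW : z ∈ W := PlA_mem W hkW ((hW _).2 hπ1) hy
  have hy' : IsIntegral (Algebra.adjoin k {algebraMap F K u⁻¹}) z := by
    rw [map_inv₀]
    exact hy
  have hco : ∀ i, algebraMap F K ((minpoly F z).coeff i) ∈ W := fun i =>
    G2.PlA_adj W hkW (w := algebraMap F K u⁻¹) (by rw [map_inv₀]; exact (hW _).2 hπ1) _
      (AlB_coeff hπ hF' hy' i)
  obtain ⟨w, hw, e⟩ := AlB_aeval W (minpoly F z) hco hzW
  rw [minpoly.aeval] at e
  have h2 : a (algebraMap F K ((minpoly F z).coeff 0)) ≤ a x := by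
    have e2 : algebraMap F K ((minpoly F z).coeff 0) = -(w * z) := by linear_combination -e
    rw [e2, a.map_neg, map_mul, hz, map_mul, map_pow]
    calc a w * (a x * a U⁻¹ ^ N) ≤ 1 * (a x * 1) :=
          mul_le_mul ((hW _).1 hw) (mul_le_mul_of_nonneg_left (pow_le_one₀ (a.nonneg _) hπ1)
            (a.nonneg _)) (mul_nonneg (a.nonneg _) (pow_nonneg (a.nonneg _) _)) zero_le_one
      _ = a x := by ring
  have hxz : x = u ^ N • z := by
    rw [Algebra.smul_def, map_pow, ← hU, hz, mul_left_comm, ← mul_pow, mul_inv_cancel₀ hU0,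
      one_pow, mul_one]
  have hint : ∀ y : K, IsIntegral F y := fun y => Algebra.IsIntegral.isIntegral y
  have h3 : (minpoly F x).coeff 0 = (minpoly F z).coeff 0 * (u ^ N) ^ (minpoly F z).natDegree := by
    conv_lhs => rw [hxz]
    rw [IsIntegrallyClosed.minpoly_smul (pow_ne_zero N hu0) (hint z), Polynomial.coeff_scaleRoots,
      Nat.sub_zero]
  have h4 := AlB_poly ha hk h1 (AlB_coeff hu hF hx 0)
    ((map_ne_zero _).2 (minpoly.coeff_zero_ne_zero (hint x) hx0))
  rw [h3, map_mul, map_mul, map_pow, map_pow, map_pow, map_pow, ← pow_mul, ← hU, mul_comm] at h4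
  refine h4.trans (mul_le_mul ?_ h2 (a.nonneg _) (pow_nonneg (a.nonneg _) _))
  exact pow_le_pow_right₀ h1.le (Nat.mul_le_mul_left _ (minpoly.natDegree_le z))

theorem placesL {k F K : Type} [Field k] [Field F] [Field K] [Algebra k F] [Algebra F K]
    [Algebra k K] [IsScalarTower k F K] {u : F} (hu : Transcendental k u) (hF : k⟮u⟯ = ⊤)
    [FiniteDimensional F K] :
    ∃ (I : Type) (_ : Fintype I) (av : I → AbsoluteValue K ℝ), (∀ i, Pl (av i)) ∧
      Low av (integralClosure (Algebra.adjoin k {algebraMap F K u}) K).toSubring ∧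
      ∀ x : K, IsIntegral (Algebra.adjoin k {algebraMap F K u}) x → (∀ i, av i x ≤ 1) →
        IsAlgebraic k x := by
  obtain ⟨I, hI, av, ha, hk, h1, hZ⟩ := AlB_gen (K := K) hu hF
  refine ⟨I, hI, av, ha, fun R => ?_, fun x hx h => ?_⟩
  · have hN : ∀ i, ∃ N : ℕ, Real.exp R ≤ av i (algebraMap F K u) ^ N := fun i =>
      (pow_unbounded_of_one_lt _ (h1 i)).imp fun _ h => h.le
    choose N' hN' using hN
    let N := ∑ i, N' i
    have hN : ∀ i, Real.exp R ≤ av i (algebraMap F K u) ^ N := fun i =>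
      (hN' i).trans (pow_le_pow_right₀ (h1 i).le
        (Finset.single_le_sum (fun _ _ => Nat.zero_le _) (Finset.mem_univ i)))
    let c : I → ℝ := fun i => av i (algebraMap F K u) ^ (N * Module.finrank F K)
    have hc : ∀ i, 0 ≤ c i := fun i => pow_nonneg ((av i).nonneg _) _
    refine ⟨∑ i, c i, fun x hx h ⟨i, hi⟩ => ?_⟩
    by_contra hx0
    have hy := hZ x N hx fun j => by
      have h2 : 0 < av j (algebraMap F K u) ^ N := pow_pos (zero_lt_one.trans (h1 j)) N
      rw [map_mul, map_pow, map_inv₀, inv_pow, ← div_eq_mul_inv, div_le_one h2]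
      exact (h j).trans (hN j)
    have h2 := AlB_lower hu hF (ha i) (hk i) (h1 i) N hx0 hx hy
    have h3 : c i ≤ ∑ i, c i := Finset.single_le_sum (fun j _ => hc j) (Finset.mem_univ i)
    have h4 := Real.add_one_le_exp (∑ i, c i)
    have h5 : c i * av i x ≤ c i * Real.exp (-∑ i, c i) := mul_le_mul_of_nonneg_left hi (hc i)
    have h6 : c i * Real.exp (-∑ i, c i) < 1 := by
      rw [Real.exp_neg, ← div_eq_mul_inv, div_lt_one (Real.exp_pos _)]
      linarith
    exact absurd (h2.trans h5) (not_le.2 h6)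
  · have h2 := hZ x 0 hx fun i => by
      rw [pow_zero, mul_one]
      exact h i
    rw [pow_zero, mul_one] at h2
    exact algebraic_of_two hx h2

end Pool.Agent.Work.MP_9d1ffa_al.GN
end

-- merged part: Pool.Agent.Work.MP_9d1ffa_al.GN.AlA
section
/-! Elementary consequences of the closure rules; passage between `SL`, `GL`, fields and rings. -/

namespace Pool.Agent.Work.MP_9d1ffa_al.GN

variable {P : (G : Type) → [Group G] → Prop} {n : ℕ}

/-- The special linear group. -/
abbrev SN (n : ℕ) (K : Type) [Field K] : Type := Matrix.SpecialLinearGroup (Fin n) K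

theorem Closed.finite (hP : Closed P) (G : Type) [Group G] [Finite G] : P G := by
  exact hP.fin G ⊥ inferInstance (hP.sol _ (inferInstanceAs (Group.IsSolvable _)))

theorem Closed.sub (hP : Closed P) {G : Type} [Group G] (h : P G) (H : Subgroup G) : P H := by
  exact hP.inj H G H.subtype H.subtype_injective h

/-- It suffices to treat the closures of finite subsets (`Subgroup.fg_iff`, map along
`H.subtype`). -/
theorem Closed.loc_sub (hP : Closed P) {G : Type} [Group G] (H : Subgroup G)
    (h : ∀ S : Finset G, (∀ s ∈ S, s ∈ H) → P (Subgroup.closure (S : Set G))) : P H := by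
  classical
  refine hP.loc H fun L hL => ?_
  obtain ⟨T, hT⟩ := hL
  have e : Subgroup.closure (T.image H.subtype : Set G) = L.map H.subtype := by
    rw [Finset.coe_image, ← MonoidHom.map_closure, hT]
  have h1 := h (T.image H.subtype) fun s hs => by
    obtain ⟨t, -, rfl⟩ := Finset.mem_image.1 hs
    exact t.2
  rw [e] at h1
  exact hP.inj _ _ (L.equivMapOfInjective _ H.subtype_injective).toMonoidHom
    (MulEquiv.injective _) h1

theorem Closed.range (hP : Closed P) {G Q : Type} [Group G] [Group Q] (φ : G →* Q)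
    (hφ : Function.Injective φ) (h : P φ.range) : P G :=
  hP.inj _ _ φ.rangeRestrict (MonoidHom.rangeRestrict_injective_iff.2 hφ) h

/-- Induction on the finite index type (`Finite.induction_empty_option`, `MulEquiv.piOptionEquivProd`
or an explicit injective homomorphism to the product). -/
theorem Closed.pi (hP : Closed P) {ι : Type} [Finite ι] (G : ι → Type) [∀ i, Group (G i)]
    (h : ∀ i, P (G i)) : P (∀ i, G i) := by
  revert G
  refine Finite.induction_empty_option (P := fun ι => ∀ (G : ι → Type) [∀ i, Group (G i)],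
    (∀ i, P (G i)) → P (∀ i, G i)) ?_ ?_ ?_ ι
  · intro α β e ih G _ h
    refine hP.inj _ _ (MonoidHom.pi fun a => Pi.evalMonoidHom G (e a)) (fun x y hxy => ?_)
      (ih (fun a => G (e a)) fun a => h (e a))
    funext b
    obtain ⟨a, rfl⟩ := e.surjective b
    exact congrFun hxy a
  · intro G _ _
    exact hP.finite _
  · intro α _ ih G _ h
    refine hP.inj _ _ ((Pi.evalMonoidHom G none).prod
      (MonoidHom.pi fun a => Pi.evalMonoidHom G (some a))) (fun x y hxy => ?_)
      (hP.prod _ _ (h none) (ih (fun a => G (some a)) fun a => h (some a)))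
    funext b
    cases b with
    | none => exact congrArg Prod.fst hxy
    | some a => exact congrFun (congrArg Prod.snd hxy) a

/-- `ext`: the preimage of the cyclic subgroup `C` is solvable (`solvable_of_ker_le_range`) and has
finite index in the preimage of `H`. -/
theorem Closed.of_ker (hP : Closed P) {G Q : Type} [Group G] [Group Q] (φ : G →* Q) (hQ : P Q)
    (hk : Group.IsSolvable φ.ker) : P G := by
  refine hP.ext G Q φ hQ ?_
  rintro H ⟨C, hC, hF⟩
  let ψ : H.comap φ →* H := φ.subgroupComap H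
  have hfin : (C.comap ψ).FiniteIndex := by
    refine ⟨?_⟩
    rw [Subgroup.index_comap]
    exact (inferInstance : (C.subgroupOf ψ.range).FiniteIndex).index_ne_zero
  refine hP.fin _ (C.comap ψ) hfin (hP.sol _ ?_)
  let χ : C.comap ψ →* C := ψ.subgroupComap C
  have h1 : Group.IsSolvable C := Group.isSolvable_of_comm fun a b => by
    obtain ⟨g, hg⟩ := IsCyclic.exists_generator (α := C)
    obtain ⟨m, rfl⟩ := hg a
    obtain ⟨n, rfl⟩ := hg b
    exact (Commute.zpow_zpow_self g m n).eq
  have h0 : Group.IsSolvable φ.ker := hk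
  let θ : χ.ker →* φ.ker := MonoidHom.codRestrict
    ((H.comap φ).subtype.comp ((C.comap ψ).subtype.comp χ.ker.subtype)) φ.ker fun x =>
      congrArg (fun y : C => ((y : H) : Q)) x.2
  have h2 : Group.IsSolvable χ.ker := Group.isSolvable_of_isSolvable_injective (f := θ)
    fun x y hxy => Subtype.ext (Subtype.ext (Subtype.ext (congrArg (fun z : φ.ker => (z : G)) hxy)))
  exact Group.isSolvable_of_ker_le_range χ.ker.subtype χ (Subgroup.range_subtype _).ge

/-- The elements with all entries in a subring form a subgroup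
(the inverse is the adjugate). -/
theorem closure_entries {Ω : Type} [Field Ω] (A : Subring Ω) {S : Set (SN n Ω)}
    (h : ∀ s ∈ S, ∀ i j, s.1 i j ∈ A) : ∀ g ∈ Subgroup.closure S, ∀ i j, g.1 i j ∈ A := by
  intro g hg
  induction hg using Subgroup.closure_induction with
  | mem s hs => exact h s hs
  | one =>
    intro i j
    rw [Matrix.SpecialLinearGroup.coe_one, Matrix.one_apply]
    split_ifs
    exacts [A.one_mem, A.zero_mem]
  | mul x y _ _ hx hy =>
    intro i j
    rw [Matrix.SpecialLinearGroup.coe_mul, Matrix.mul_apply]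
    exact A.sum_mem fun k _ => A.mul_mem (hx i k) (hy k j)
  | inv x _ hx =>
    intro i j
    have e : x.1 = A.subtype.mapMatrix (Matrix.of fun p q => (⟨x.1 p q, hx p q⟩ : A)) := rfl
    rw [Matrix.SpecialLinearGroup.coe_inv, e, ← RingHom.map_adjugate]
    exact Subtype.property _

/-- A group of matrices with entries in the image of a subfield comes from the subfield
(`Matrix.SpecialLinearGroup.map`, which is injective; `MonoidHom.ofInjective`). -/
theorem exists_lift {K Ω : Type} [Field K] [Field Ω] (f : K →+* Ω) (H : Subgroup (SN n Ω))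
    (h : ∀ g ∈ H, ∀ i j, g.1 i j ∈ f.range) :
    ∃ φ : H →* SN n K, Function.Injective φ ∧ ∀ g i j, f ((φ g).1 i j) = g.1.1 i j := by
  let m : SN n K →* SN n Ω := Matrix.SpecialLinearGroup.map f
  have hm : Function.Injective m := fun x y e => Subtype.ext (Matrix.ext fun i j =>
    f.injective (congrFun (congrFun (congrArg Subtype.val e) i) j))
  have hr : H ≤ m.range := fun g hg => by
    choose a ha using h g hg
    have e : f.mapMatrix (Matrix.of a) = g.1 := Matrix.ext ha
    exact ⟨⟨Matrix.of a, f.injective (by rw [f.map_det, e, g.2, map_one])⟩, Subtype.ext e⟩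
  refine ⟨(MonoidHom.ofInjective hm).symm.toMonoidHom.comp (Subgroup.inclusion hr),
    (MonoidHom.ofInjective hm).symm.injective.comp (Subgroup.inclusion_injective hr), fun g i j => ?_⟩
  exact congrFun (congrFun (congrArg Subtype.val
    (MonoidHom.apply_ofInjective_symm hm (Subgroup.inclusion hr g))) i) j

theorem sn_map_inj {K Ω : Type} [Field K] [Field Ω] (f : K →+* Ω) :
    Function.Injective (Matrix.SpecialLinearGroup.map (n := Fin n) f) := by
  intro g h hgh
  refine Matrix.SpecialLinearGroup.ext _ _ fun i j => f.injective ?_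
  exact congrArg (fun m : SN n Ω => m.1 i j) hgh

open Classical in
/-- The finite set of entries of a finite set of matrices. -/
noncomputable def ent {Ω : Type} [Field Ω] (S : Finset (SN n Ω)) : Finset Ω :=
  (S ×ˢ (Finset.univ : Finset (Fin n × Fin n))).image fun p => p.1.1 p.2.1 p.2.2

theorem mem_ent {Ω : Type} [Field Ω] {S : Finset (SN n Ω)} {s : SN n Ω} (hs : s ∈ S)
    (i j : Fin n) : s.1 i j ∈ ent S := by
  classical
  unfold ent
  exact Finset.mem_image.2 ⟨(s, i, j), by simp [hs], rfl⟩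

theorem of_mem_ent {Ω : Type} [Field Ω] {S : Finset (SN n Ω)} {e : Ω} (he : e ∈ ent S) :
    ∃ s ∈ S, ∃ i j, s.1 i j = e := by
  classical
  unfold ent at he
  obtain ⟨p, hp, rfl⟩ := Finset.mem_image.1 he
  exact ⟨p.1, (Finset.mem_product.1 hp).1, p.2.1, p.2.2, rfl⟩

/-- A faithful finite dimensional representation. -/
theorem Closed.of_rep (hP : Closed P) {k W G : Type} [Field k] [AddCommGroup W] [Module k W]
    [FiniteDimensional k W] [Group G] (h : P (GL (Fin (Module.finrank k W)) k))
    (ρ : G →* Module.End k W) (hρ : Function.Injective ρ) : P G := by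
  let φ : G →* Matrix _ _ k :=
    (LinearMap.toMatrixAlgEquiv (Module.finBasis k W)).toMonoidHom.comp ρ
  refine hP.inj _ _ φ.toHomUnits (fun x y e => hρ ?_) h
  exact (LinearMap.toMatrixAlgEquiv (Module.finBasis k W)).injective (congrArg Units.val e)

theorem AlA_ker {R : Type} [CommRing R] (I : Ideal R) (g : GL (Fin n) R) :
    g ∈ (Matrix.GeneralLinearGroup.map (n := Fin n) (Ideal.Quotient.mk I)).ker ↔
      ∀ i j, ((g : Matrix (Fin n) (Fin n) R) - 1) i j ∈ I := by
  rw [MonoidHom.mem_ker, Units.ext_iff, ← Matrix.ext_iff]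
  refine forall_congr' fun i => forall_congr' fun j => ?_
  rw [Matrix.sub_apply, ← Ideal.Quotient.eq]
  refine Eq.congr rfl ?_
  rw [Units.val_one, Matrix.one_apply, Matrix.one_apply]
  split_ifs <;> simp

theorem AlA_mul {R : Type} [CommRing R] {I J : Ideal R} {a b : Matrix (Fin n) (Fin n) R}
    (ha : ∀ i j, a i j ∈ I) (hb : ∀ i j, b i j ∈ J) (i j : Fin n) : (a * b) i j ∈ I * J := by
  rw [Matrix.mul_apply]
  exact Ideal.sum_mem _ fun k _ => Ideal.mul_mem_mul (ha i k) (hb k j)

theorem AlA_comm {R : Type} [CommRing R] {I : Ideal R} {a b : GL (Fin n) R}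
    (ha : ∀ i j, ((a : Matrix (Fin n) (Fin n) R) - 1) i j ∈ I)
    (hb : ∀ i j, ((b : Matrix (Fin n) (Fin n) R) - 1) i j ∈ I) (i j : Fin n) :
    (((a * b * a⁻¹ * b⁻¹ : GL (Fin n) R) : Matrix (Fin n) (Fin n) R) - 1) i j ∈ I * I := by
  have e : ((a * b * a⁻¹ * b⁻¹ : GL (Fin n) R) : Matrix (Fin n) (Fin n) R) - 1 =
      (((a : Matrix (Fin n) (Fin n) R) - 1) * ((b : Matrix (Fin n) (Fin n) R) - 1) -
        ((b : Matrix (Fin n) (Fin n) R) - 1) * ((a : Matrix (Fin n) (Fin n) R) - 1)) *
          ((a⁻¹ * b⁻¹ : GL (Fin n) R) : Matrix (Fin n) (Fin n) R) := by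
    have e1 : ((b * a * (a⁻¹ * b⁻¹) : GL (Fin n) R) : Matrix (Fin n) (Fin n) R) = 1 := by
      rw [show b * a * (a⁻¹ * b⁻¹) = 1 by group, Units.val_one]
    rw [Units.val_mul, Units.val_mul] at e1
    rw [mul_assoc (a * b), Units.val_mul, Units.val_mul, ← e1, ← sub_mul, e1]
    congr 1
    noncomm_ring
  rw [e, Matrix.mul_apply]
  refine Ideal.sum_mem _ fun k _ => Ideal.mul_mem_right _ _ ?_
  rw [Matrix.sub_apply]
  exact sub_mem (AlA_mul ha hb i k) (AlA_mul hb ha i k)

/-- By induction the `j`-th derived subgroup consists of matrices congruent to `1` modulo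
`N ^ (j + 1)`: `a b a⁻¹ b⁻¹ - 1 = ((a - 1) (b - 1) - (b - 1) (a - 1)) a⁻¹ b⁻¹`. -/
theorem solvable_congr {R : Type} [CommRing R] (N : Ideal R) (hN : IsNilpotent N)
    (H : Subgroup (GL (Fin n) R))
    (h : ∀ g ∈ H, ∀ i j, ((g : Matrix (Fin n) (Fin n) R) - 1) i j ∈ N) : Group.IsSolvable H := by
  have key : ∀ m : ℕ, derivedSeries H m ≤ (Matrix.GeneralLinearGroup.map (n := Fin n)
      (Ideal.Quotient.mk (N ^ (m + 1)))).ker.comap H.subtype := by
    intro m
    induction m with
    | zero =>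
      intro g _
      rw [Subgroup.mem_comap, AlA_ker, zero_add, pow_one]
      exact h g g.2
    | succ m ih =>
      rw [derivedSeries_succ, Subgroup.commutator_le]
      intro a ha b hb
      have h1 := ih ha
      have h2 := ih hb
      rw [Subgroup.mem_comap, AlA_ker] at h1 h2 ⊢
      intro i j
      have h3 := AlA_comm h1 h2 i j
      rw [← pow_add] at h3
      exact Ideal.pow_le_pow_right (by omega) h3
  obtain ⟨m, hm⟩ := hN
  refine Group.IsSolvable.mk ⟨m, eq_bot_iff.2 fun g hg => ?_⟩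
  have h1 := key m hg
  rw [Subgroup.mem_comap, AlA_ker, pow_succ, hm, zero_mul] at h1
  refine Subgroup.mem_bot.2 (Subtype.ext (Units.ext (sub_eq_zero.1 ?_)))
  exact Matrix.ext fun i j => h1 i j

theorem AlA_inj {R S : Type} [CommRing R] [CommRing S] (f : R →+* S) (hf : Function.Injective f) :
    Function.Injective (Matrix.GeneralLinearGroup.map (n := Fin n) f) := fun _ _ hxy =>
  Units.ext (Matrix.ext fun i j => hf (congrArg (fun g : GL (Fin n) S => g i j) hxy))

/-- Finitely many minimal primes (`minimalPrimes.finite_of_isNoetherianRing`), their intersection is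
the nilradical (`Ideal.sInf_minimalPrimes`), which is nilpotent
(`IsNoetherianRing.isNilpotent_nilradical`); map to the product of the `GL (Fin n)` of
`FractionRing (R ⧸ p)` (`Matrix.GeneralLinearGroup.map`, `Pi.monoidHom`). -/
theorem Closed.gl_noeth (hP : Closed P) (h : ∀ (K : Type) [Field K], P (GL (Fin n) K)) (R : Type)
    [CommRing R] [IsNoetherianRing R] : P (GL (Fin n) R) := by
  have : Finite (minimalPrimes R) := (minimalPrimes.finite_of_isNoetherianRing R).to_subtype
  have : ∀ p : minimalPrimes R, p.1.IsPrime := fun p => Ideal.IsMinimalPrime.isPrime p.2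
  let φ : GL (Fin n) R →* ∀ p : minimalPrimes R, GL (Fin n) (FractionRing (R ⧸ p.1)) :=
    MonoidHom.pi fun p => (Matrix.GeneralLinearGroup.map
      (algebraMap (R ⧸ p.1) (FractionRing (R ⧸ p.1)))).comp
        (Matrix.GeneralLinearGroup.map (Ideal.Quotient.mk p.1))
  refine hP.of_ker φ (hP.pi _ fun p => h _) (solvable_congr (nilradical R)
    (IsNoetherianRing.isNilpotent_nilradical R) _ fun g hg i j => ?_)
  change _ ∈ (⊥ : Ideal R).radical
  rw [← Ideal.sInf_minimalPrimes, Submodule.mem_sInf]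
  intro p hp
  refine (AlA_ker p g).1 ?_ i j
  have h1 := congrFun (MonoidHom.mem_ker.1 hg) ⟨p, hp⟩
  exact AlA_inj _ (IsFractionRing.injective (R ⧸ p) (FractionRing (R ⧸ p)))
    (h1.trans (map_one _).symm)

/-- `loc`: a finitely generated subgroup lies in the image of `GL (Fin n) A` for the finitely
generated `ℤ`-subalgebra `A` generated by the entries of the generators and of their inverses
(`Subalgebra.fg_adjoin_finset`, `isNoetherianRing_of_fg`); the map is injective. -/
theorem Closed.gl_ring (hP : Closed P) (h : ∀ (K : Type) [Field K], P (GL (Fin n) K)) (R : Type)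
    [CommRing R] : P (GL (Fin n) R) := by
  classical
  refine hP.loc _ fun H hH => ?_
  obtain ⟨S, rfl⟩ := hH
  let T : Finset R := S.biUnion fun s => Finset.univ.image (fun q : Fin n × Fin n => s q.1 q.2) ∪
    Finset.univ.image fun q : Fin n × Fin n => s⁻¹ q.1 q.2
  let A : Subalgebra ℤ R := Algebra.adjoin ℤ (T : Set R)
  have : IsNoetherianRing A := isNoetherianRing_of_fg (Subalgebra.fg_adjoin_finset T)
  let f : GL (Fin n) A →* GL (Fin n) R := Matrix.GeneralLinearGroup.map A.val.toRingHom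
  have hf : Function.Injective f := AlA_inj _ Subtype.val_injective
  have hle : Subgroup.closure (S : Set (GL (Fin n) R)) ≤ f.range := by
    refine (Subgroup.closure_le _).2 fun s hs => ?_
    have h1 : ∀ i j, s i j ∈ A := fun i j => Algebra.subset_adjoin (Finset.mem_coe.2
      (Finset.mem_biUnion.2 ⟨s, hs, Finset.mem_union_left _
        (Finset.mem_image.2 ⟨(i, j), Finset.mem_univ _, rfl⟩)⟩))
    have h2 : ∀ i j, s⁻¹ i j ∈ A := fun i j => Algebra.subset_adjoin (Finset.mem_coe.2
      (Finset.mem_biUnion.2 ⟨s, hs, Finset.mem_union_right _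
        (Finset.mem_image.2 ⟨(i, j), Finset.mem_univ _, rfl⟩)⟩))
    have hm : Function.Injective (A.val.toRingHom.mapMatrix (m := Fin n)) := fun x y hxy =>
      Matrix.ext fun i j => Subtype.ext (congrFun (congrFun hxy i) j)
    refine ⟨⟨Matrix.of fun i j => ⟨s i j, h1 i j⟩, Matrix.of fun i j => ⟨s⁻¹ i j, h2 i j⟩,
      hm ?_, hm ?_⟩, Units.ext rfl⟩
    · rw [map_mul, map_one]
      exact s.mul_inv
    · rw [map_mul, map_one]
      exact s.inv_mul
  exact hP.inj _ _ ((MonoidHom.ofInjective hf).symm.toMonoidHom.comp (Subgroup.inclusion hle))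
    ((MonoidHom.ofInjective hf).symm.injective.comp (Subgroup.inclusion_injective hle))
    (hP.gl_noeth h A)

/-- A positive integer killing all elements of finite order. -/
theorem AlA_kill (D : Type) [CommGroup D] [Group.FG D] (hn : n ≠ 0) :
    ∃ N : ℕ, N ≠ 0 ∧ ∀ x : D, x ^ (n * N) = 1 → x ^ N = 1 := by
  classical
  obtain ⟨ι, j, _, _, p, hp, e, ⟨E⟩⟩ := CommGroup.equiv_free_prod_prod_multiplicative_zmod D
  have : ∀ i, NeZero (p i ^ e i) := fun i => ⟨pow_ne_zero _ (hp i).ne_zero⟩
  refine ⟨Nat.card ((i : ι) → Multiplicative (ZMod (p i ^ e i))), Nat.card_pos.ne', ?_⟩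
  intro x hx
  set N := Nat.card ((i : ι) → Multiplicative (ZMod (p i ^ e i))) with hN
  have hN0 : N ≠ 0 := Nat.card_pos.ne'
  apply E.injective
  have h1 : (E x) ^ (n * N) = 1 := by rw [← map_pow, hx, map_one]
  rw [map_pow, map_one]
  refine Prod.ext ?_ ?_
  · funext k
    have h2 : ((E x).1 k) ^ (n * N) = 1 := by
      have := congrArg (fun z => z.1 k) h1
      simpa using this
    have h3 : (E x).1 k = 1 := by
      have h4 := congrArg Multiplicative.toAdd h2
      rw [toAdd_pow, toAdd_one, nsmul_eq_mul, mul_eq_zero] at h4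
      rcases h4 with h4 | h4
      · exfalso
        have : (n * N : ℕ) = 0 := by exact_mod_cast h4
        exact Nat.mul_ne_zero hn hN0 this
      · exact Multiplicative.toAdd.injective (by simpa using h4)
    simp [h3]
  · exact pow_card_eq_one' (x := (E x).2)

/-- Roots on a finite index subgroup. Let `N > 0` kill the torsion subgroup (it is finite:
`CommGroup.finite_of_fg_isMulTorsion`, or use the structure theorem
`CommGroup.equiv_free_prod_prod_multiplicative_zmod`). `D0` is the subgroup of `n N`-th powers, of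
finite index since the quotient is finitely generated and torsion. Raising to the power `n` is injective on `N`-th
powers and maps them onto `D0`. -/
theorem exists_root (D : Type) [CommGroup D] [Group.FG D] (hn : n ≠ 0) :
    ∃ (D0 : Subgroup D) (σ : D0 →* D), D0.FiniteIndex ∧ ∀ d : D0, σ d ^ n = d := by
  classical
  obtain ⟨N, hN, hk⟩ := AlA_kill D hn
  have key : ∀ x y : D, x ^ (n * N) = y ^ (n * N) → x ^ N = y ^ N := by
    intro x y h
    have h1 : (x / y) ^ (n * N) = 1 := by rw [div_pow, h, div_self']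
    have h2 := hk _ h1
    rw [div_pow] at h2
    exact div_eq_one.mp h2
  have hex : ∀ d : (powMonoidHom (α := D) (n * N)).range, ∃ x : D, x ^ (n * N) = d :=
    fun d => d.2
  choose r hr using hex
  refine ⟨(powMonoidHom (α := D) (n * N)).range, MonoidHom.mk' (fun d => r d ^ N) ?_,
    Subgroup.finiteIndex_range_powMonoidHom_of_fg D (Nat.mul_ne_zero hn hN), ?_⟩
  · intro a b
    rw [← mul_pow]
    apply key
    rw [mul_pow, hr, hr, hr]
    rfl
  · intro d
    change (r d ^ N) ^ n = d
    rw [← pow_mul, mul_comm, hr]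

/-- Rescaling by a multiplicative root of the determinant. -/
theorem AlA_embed {K : Type} [Field K] {G : Type} [Group G] (ι : G →* GL (Fin n) K)
    (hι : Function.Injective ι) (s : G →* Kˣ)
    (hs : ∀ g, s g ^ n = Matrix.GeneralLinearGroup.det (ι g)) :
    ∃ φ : G →* SN n K × Kˣ, Function.Injective φ := by
  have hd : ∀ g : G, Matrix.det (((s g)⁻¹ : Kˣ) • ((ι g : GL (Fin n) K) :
      Matrix (Fin n) (Fin n) K)) = 1 := by
    intro g
    have h1 := congrArg (fun u : Kˣ => (u : K)) (hs g)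
    simp only [Units.val_pow_eq_pow_val, Matrix.GeneralLinearGroup.val_det_apply] at h1
    rw [Units.smul_def, Matrix.det_smul, ← h1, Fintype.card_fin, ← mul_pow, Units.inv_mul, one_pow]
  let ψ : G →* SN n K := MonoidHom.mk' (fun g => ⟨_, hd g⟩) (by
    intro a b
    apply Subtype.ext
    simp only [map_mul, Units.val_mul, Matrix.SpecialLinearGroup.coe_mul, Matrix.smul_mul,
      Matrix.mul_smul, smul_smul, mul_inv, mul_comm])
  refine ⟨ψ.prod s, fun a b hab => hι ?_⟩
  have h1 : ψ a = ψ b := congrArg Prod.fst hab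
  have h2 : s a = s b := congrArg Prod.snd hab
  have h3 : ((s a)⁻¹ : Kˣ) • ((ι a : GL (Fin n) K) : Matrix (Fin n) (Fin n) K) =
      ((s b)⁻¹ : Kˣ) • ((ι b : GL (Fin n) K) : Matrix (Fin n) (Fin n) K) :=
    congrArg Subtype.val h1
  rw [h2] at h3
  exact Units.ext (smul_left_cancel _ h3)

/-- `loc`: for a finitely generated `Γ` let `D` be the range of the determinant on `Γ`, `Γ0` the
preimage of `D0`, of finite index; `g ↦ ((σ (det g))⁻¹ • g, σ (det g))` is an injective
homomorphism `Γ0 →* SN n K × Kˣ`. Use `prod`, `sol`, `inj`, `fin`. -/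
theorem Closed.gl_of_sl (hP : Closed P) {K : Type} [Field K] (h : P (SN n K)) :
    P (GL (Fin n) K) := by
  rcases eq_or_ne n 0 with rfl | hn
  · exact hP.finite _
  refine hP.loc _ fun Γ hΓ => ?_
  have : Group.FG Γ := (Group.fg_iff_subgroup_fg Γ).mpr hΓ
  let δ : Γ →* Kˣ := (Matrix.GeneralLinearGroup.det (n := Fin n) (R := K)).comp Γ.subtype
  obtain ⟨D0, σ, hD0, hσ⟩ := exists_root δ.range hn
  have hfi : (D0.comap δ.rangeRestrict).FiniteIndex := by
    refine ⟨?_⟩
    rw [Subgroup.index_comap_of_surjective _ δ.rangeRestrict_surjective]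
    exact hD0.index_ne_zero
  refine hP.fin _ (D0.comap δ.rangeRestrict) hfi ?_
  let τ : D0.comap δ.rangeRestrict →* D0 :=
    (δ.rangeRestrict.comp (D0.comap δ.rangeRestrict).subtype).codRestrict D0 fun g => g.2
  obtain ⟨φ, hφ⟩ := AlA_embed (Γ.subtype.comp (D0.comap δ.rangeRestrict).subtype)
    (Γ.subtype_injective.comp (D0.comap δ.rangeRestrict).subtype_injective)
    (δ.range.subtype.comp (σ.comp τ)) (by
      intro g
      have h1 := congrArg δ.range.subtype (hσ (τ g))
      rw [map_pow] at h1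
      exact h1)
  exact hP.inj _ _ φ hφ (hP.prod _ _ h (hP.sol _ (inferInstance : Group.IsSolvable Kˣ)))

end Pool.Agent.Work.MP_9d1ffa_al.GN
end

-- merged part: Pool.Agent.Work.MP_9d1ffa_al.GN.AlC
section
/-! The theorem of Burnside and reducible groups. -/

namespace Pool.Agent.Work.MP_9d1ffa_al.GN

open Matrix

variable {P : (G : Type) → [Group G] → Prop} {n : ℕ}

/-- A nonzero linear functional `m ↦ ∑ c p q * m p q` vanishes on `S`
(`Submodule.exists_le_ker_of_lt_top`); apply `f` to its coefficients. -/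
theorem span_ne_map {K E : Type} [Field K] [Field E] (f : K →+* E)
    (S : Set (Matrix (Fin n) (Fin n) K)) (h : Submodule.span K S ≠ ⊤) :
    Submodule.span E ((fun m : Matrix (Fin n) (Fin n) K => m.map f) '' S) ≠ ⊤ := by
  classical
  obtain ⟨φ, h0, hφ⟩ := Submodule.exists_le_ker_of_lt_top _ (lt_top_iff_ne_top.2 h)
  have hexp : ∀ m : Matrix (Fin n) (Fin n) K,
      φ m = ∑ p, ∑ q, m p q * φ (Matrix.single p q 1) := by
    intro m
    conv_lhs => rw [Matrix.matrix_eq_sum_single m]
    simp only [map_sum]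
    refine Finset.sum_congr rfl fun p _ => Finset.sum_congr rfl fun q _ => ?_
    rw [← smul_eq_mul, ← map_smul, Matrix.smul_single, smul_eq_mul, mul_one]
  let ψ : Matrix (Fin n) (Fin n) E →ₗ[E] E :=
    { toFun := fun m => ∑ p, ∑ q, m p q * f (φ (Matrix.single p q 1))
      map_add' := fun a b => by
        simp only [Matrix.add_apply, add_mul, Finset.sum_add_distrib]
      map_smul' := fun c a => by
        simp only [Matrix.smul_apply, smul_eq_mul, RingHom.id_apply, Finset.mul_sum, mul_assoc] }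
  intro htop
  have hle : Submodule.span E ((fun m : Matrix (Fin n) (Fin n) K => m.map f) '' S) ≤
      LinearMap.ker ψ := by
    refine Submodule.span_le.2 ?_
    rintro _ ⟨m, hm, rfl⟩
    have h1 : φ m = 0 := hφ (Submodule.subset_span hm)
    change ∑ p, ∑ q, f (m p q) * f (φ (Matrix.single p q 1)) = 0
    rw [hexp] at h1
    have h2 := congrArg f h1
    simpa only [map_sum, map_mul, map_zero] using h2
  apply h0
  refine LinearMap.ext fun m => ?_
  rw [hexp, LinearMap.zero_apply]
  refine Finset.sum_eq_zero fun p _ => Finset.sum_eq_zero fun q _ => ?_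
  have h3 : ψ (Matrix.single p q 1) = 0 := hle (htop ▸ Submodule.mem_top)
  have h4 : ψ (Matrix.single p q 1) = f (φ (Matrix.single p q 1)) := by
    change ∑ a, ∑ b, Matrix.single p q (1 : E) a b * f (φ (Matrix.single a b 1)) = _
    rw [Finset.sum_eq_single p, Finset.sum_eq_single q]
    · rw [Matrix.single_apply_same, one_mul]
    · intro b _ hb
      rw [Matrix.single_apply_of_col_ne _ _ hb.symm, zero_mul]
    · intro hq
      exact (hq (Finset.mem_univ _)).elim
    · intro a _ ha
      refine Finset.sum_eq_zero fun b _ => ?_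
      rw [Matrix.single_apply_of_row_ne ha.symm, zero_mul]
    · intro hp
      exact (hp (Finset.mem_univ _)).elim
  rw [h4, map_eq_zero] at h3
  rw [h3, mul_zero]

/-- An algebra of endomorphisms without invariant subspaces is the full algebra. -/
private theorem AlC_top {E V : Type} [Field E] [IsAlgClosed E] [AddCommGroup V] [Module E V]
    [FiniteDimensional E V] [Nontrivial V] (R : Subalgebra E (Module.End E V))
    (h : ∀ W : Submodule E V, (∀ r ∈ R, ∀ w ∈ W, r w ∈ W) → W = ⊥ ∨ W = ⊤)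
    (f : Module.End E V) : f ∈ R := by
  have hs : IsSimpleModule R V := by
    rw [isSimpleModule_iff]
    refine { eq_bot_or_eq_top := fun U => ?_ }
    rcases h (U.restrictScalars E) (fun r hr w hw => U.smul_mem ⟨r, hr⟩ hw) with h1 | h1
    · exact Or.inl ((Submodule.restrictScalars_eq_bot_iff _ _ _).1 h1)
    · exact Or.inr ((Submodule.restrictScalars_eq_top_iff _ _ _).1 h1)
  have hb := IsSimpleModule.algebraMap_end_bijective_of_isAlgClosed (A := R) (V := V) E
  let f' : Module.End (Module.End R V) V :=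
    { toFun := f
      map_add' := f.map_add
      map_smul' := fun g x => by
        obtain ⟨c, rfl⟩ := hb.2 g
        change f (c • x) = c • f x
        exact f.map_smul c x }
  obtain ⟨s, hs'⟩ := Module.Finite.fg_top (R := E) (M := V)
  obtain ⟨r, hr⟩ := jacobson_density f' s
  have e : f = r.1 := LinearMap.ext_on hs' fun x hx => hr x hx
  rw [e]
  exact r.2

/-- Burnside. Suppose there is no invariant subspace, and `n ≠ 0` (for `n = 0` the hypothesis is
false). Let `R` be the subalgebra generated by the range, whose underlying submodule is the span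
(`Algebra.adjoin_eq_span`, the range is a submonoid). `Fin n → E` is a simple `R`-module, its
`R`-endomorphisms are scalars (`IsSimpleModule.algebraMap_end_bijective_of_isAlgClosed`), and
`Module.Finite.toModuleEnd_moduleEnd_surjective` (Jacobson density) shows that every matrix is in
`R`. It may be easier to work in `Module.End E (Fin n → E)` and transport by
`Matrix.toLinAlgEquiv'`. -/
theorem burnside {E G : Type} [Field E] [IsAlgClosed E] [Group G] (ρ : G →* GL (Fin n) E)
    (h : Submodule.span E (Set.range fun g => (ρ g).1) ≠ ⊤) :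
    ∃ W : Submodule E (Fin n → E), W ≠ ⊥ ∧ W ≠ ⊤ ∧ ∀ g, ∀ w ∈ W, (ρ g).1 *ᵥ w ∈ W := by
  by_contra hc
  apply h
  rcases eq_or_ne n 0 with rfl | hn
  · exact Subsingleton.elim _ _
  have : Nonempty (Fin n) := ⟨⟨0, Nat.pos_of_ne_zero hn⟩⟩
  let R0 : Subalgebra E (Matrix (Fin n) (Fin n) E) :=
    (Submodule.span E (Set.range fun g => (ρ g).1)).toSubalgebra
      (Submodule.subset_span ⟨1, by simp⟩) (by
        intro x y hx hy
        have hm := Submodule.mul_mem_mul hx hy
        rw [Submodule.span_mul_span] at hm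
        refine Submodule.span_mono ?_ hm
        rintro _ ⟨_, ⟨a, rfl⟩, _, ⟨b, rfl⟩, rfl⟩
        exact ⟨a * b, by simp⟩)
  let e : Matrix (Fin n) (Fin n) E ≃ₐ[E] Module.End E (Fin n → E) := Matrix.toLinAlgEquiv'
  have key := AlC_top (R0.map e.toAlgHom) (by
    intro W hW
    by_contra hne
    rw [not_or] at hne
    refine hc ⟨W, hne.1, hne.2, fun g w hw => ?_⟩
    exact hW (e (ρ g).1) ⟨(ρ g).1, Submodule.subset_span ⟨g, rfl⟩, rfl⟩ w hw)
  refine eq_top_iff.2 fun m _ => ?_
  obtain ⟨x, hx, hxm⟩ := key (e m)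
  have : x = m := e.injective hxm
  rw [← this]
  exact hx

/-- `G` acts on `W` and on the quotient (`LinearMap.restrict`, `Submodule.mapQ`), both of dimension
`< n`; let `φ` be the homomorphism to the product of the two unit groups of endomorphism rings,
which are in `P` by `of_rep`. Two elements `x, y` of the kernel satisfy
`(ρ x - 1) (ρ y - 1) = 0 = (ρ y - 1) (ρ x - 1)`, so they commute; `of_ker`. -/
theorem Closed.of_invariant (hP : Closed P) {E G : Type} [Field E] [Group G]
    (ih : ∀ m < n, P (GL (Fin m) E)) (ρ : G →* GL (Fin n) E) (hρ : Function.Injective ρ)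
    (W : Submodule E (Fin n → E)) (h0 : W ≠ ⊥) (h1 : W ≠ ⊤)
    (hW : ∀ g, ∀ w ∈ W, (ρ g).1 *ᵥ w ∈ W) : P G := by
  let τ : G →* Module.End E (Fin n → E) :=
    (Matrix.toLinAlgEquiv' (R := E) (n := Fin n)).toMonoidHom.comp ((Units.coeHom _).comp ρ)
  have hτ : Function.Injective τ := fun x y e =>
    hρ (Units.ext ((Matrix.toLinAlgEquiv' (R := E) (n := Fin n)).injective e))
  have hτW : ∀ g, ∀ w ∈ W, τ g w ∈ W := hW
  let α : G →* Module.End E W :=
    { toFun := fun g => (τ g).restrict (hτW g)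
      map_one' := LinearMap.ext fun w => Subtype.ext (by
        change τ 1 w = w
        rw [map_one]
        rfl)
      map_mul' := fun a b => LinearMap.ext fun w => Subtype.ext (by
        change τ (a * b) w = τ a (τ b w)
        rw [map_mul]
        rfl) }
  let β : G →* Module.End E ((Fin n → E) ⧸ W) :=
    { toFun := fun g => W.mapQ W (τ g) (hτW g)
      map_one' := LinearMap.ext fun w => by
        obtain ⟨v, rfl⟩ := W.mkQ_surjective w
        change W.mkQ (τ 1 v) = W.mkQ v
        rw [map_one]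
        rfl
      map_mul' := fun a b => LinearMap.ext fun w => by
        obtain ⟨v, rfl⟩ := W.mkQ_surjective w
        change W.mkQ (τ (a * b) v) = W.mkQ (τ a (τ b v))
        rw [map_mul]
        rfl }
  have hd := W.finrank_quotient_add_finrank
  rw [Module.finrank_fin_fun] at hd
  have hW0 : Module.finrank E W ≠ 0 := fun e => h0 (Submodule.finrank_eq_zero.1 e)
  have hW1 : Module.finrank E W < n := by
    have := Submodule.finrank_lt h1
    rwa [Module.finrank_fin_fun] at this
  have p1 : P (Module.End E W)ˣ :=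
    hP.of_rep (ih _ hW1) (Units.coeHom _) Units.val_injective
  have p2 : P (Module.End E ((Fin n → E) ⧸ W))ˣ :=
    hP.of_rep (ih _ (by omega)) (Units.coeHom _) Units.val_injective
  refine hP.of_ker (α.toHomUnits.prod β.toHomUnits) (hP.prod _ _ p1 p2) ?_
  have hk : ∀ x : (α.toHomUnits.prod β.toHomUnits).ker,
      (∀ w ∈ W, τ x w = w) ∧ ∀ v, τ x v - v ∈ W := by
    intro x
    have hx := MonoidHom.mem_ker.1 x.2
    have ha : α x = 1 := congrArg (fun z => (z.1 : Module.End E W)) hx
    have hb : β x = 1 := congrArg (fun z => (z.2 : Module.End E ((Fin n → E) ⧸ W))) hx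
    refine ⟨fun w hw => congrArg (fun z : Module.End E W => (z ⟨w, hw⟩ : Fin n → E)) ha,
      fun v => (Submodule.Quotient.eq W).1 ?_⟩
    exact congrArg (fun z : Module.End E ((Fin n → E) ⧸ W) => z (W.mkQ v)) hb
  refine Group.isSolvable_of_comm fun x y => Subtype.ext (hτ (LinearMap.ext fun v => ?_))
  change τ (x * y) v = τ (y * x) v
  rw [map_mul, map_mul, Module.End.mul_apply, Module.End.mul_apply]
  have e1 := (hk x).1 _ ((hk y).2 v)
  have e2 := (hk y).1 _ ((hk x).2 v)
  rw [map_sub, sub_eq_iff_eq_add] at e1 e2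
  rw [e1, e2]
  abel

theorem Closed.of_span_ne (hP : Closed P) {E G : Type} [Field E] [IsAlgClosed E] [Group G]
    (ih : ∀ m < n, P (GL (Fin m) E)) (ρ : G →* GL (Fin n) E) (hρ : Function.Injective ρ)
    (h : Submodule.span E (Set.range fun g => (ρ g).1) ≠ ⊤) : P G := by
  obtain ⟨W, h0, h1, hW⟩ := burnside ρ h
  exact hP.of_invariant ih ρ hρ W h0 h1 hW

end Pool.Agent.Work.MP_9d1ffa_al.GN
end

-- merged part: Pool.Agent.Work.MP_9d1ffa_al.GN.AlD
section
/-! Descent to the field of traces. -/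

namespace Pool.Agent.Work.MP_9d1ffa_al.GN

open Matrix

variable {P : (G : Type) → [Group G] → Prop} {n : ℕ}

/-- The `k`-span `R` of the range is finite dimensional over `k`. Choose a finite set `T` of
elements `g` whose images span over `E`. The `k`-linear map `m ↦ (trace (m * ρ t))_(t ∈ T)` is
injective on matrices (`Matrix.ext_iff_trace_mul_right`, since the `ρ t` span) and sends `R` into the
finite dimensional `k`-space of functions with values in the range of `algebraMap k E`
(`Module.Finite.of_injective`, `Submodule.finiteDimensional_of_le`). -/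
theorem finite_span {k E G : Type} [Field k] [Field E] [Algebra k E] [Group G]
    (ρ : G →* GL (Fin n) E) (h : Submodule.span E (Set.range fun g => (ρ g).1) = ⊤)
    (htr : ∀ g, (ρ g).1.trace ∈ (algebraMap k E).range) :
    FiniteDimensional k (Submodule.span k (Set.range fun g => (ρ g).1)) := by
  have hfg : (Submodule.span E (Set.range fun g => (ρ g).1)).FG := by
    rw [h]
    exact Module.Finite.fg_top
  obtain ⟨T, hTs, hT⟩ := (Submodule.fg_span_iff_fg_span_finset_subset _).1 hfg
  let L : Matrix (Fin n) (Fin n) E →ₗ[k] (T → E) := LinearMap.pi fun t =>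
    (Matrix.traceLinearMap (Fin n) k E).comp (LinearMap.mulRight k t.1)
  have hL : Function.Injective L := by
    rw [injective_iff_map_eq_zero]
    intro m hm
    refine Matrix.ext_iff_trace_mul_right.2 fun x => ?_
    have hx : x ∈ Submodule.span E (T : Set (Matrix (Fin n) (Fin n) E)) := by
      rw [← hT, h]
      trivial
    rw [zero_mul, Matrix.trace_zero]
    induction hx using Submodule.span_induction with
    | mem t ht => exact congrFun hm ⟨t, ht⟩
    | zero => rw [mul_zero, Matrix.trace_zero]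
    | add x y _ _ hx hy => rw [mul_add, Matrix.trace_add, hx, hy, add_zero]
    | smul c x _ hx => rw [Matrix.mul_smul, Matrix.trace_smul, hx, smul_zero]
  let W : Submodule k (T → E) := LinearMap.range ((Algebra.linearMap k E).compLeft T)
  have hle : Submodule.span k (Set.range fun g => (ρ g).1) ≤ W.comap L := by
    refine Submodule.span_le.2 ?_
    rintro _ ⟨g, rfl⟩
    have h1 : ∀ t : T, ∃ c : k, algebraMap k E c = ((ρ g).1 * t.1).trace := by
      intro t
      obtain ⟨g', hg'⟩ := hTs t.2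
      have h2 := htr (g * g')
      rw [map_mul, Units.val_mul] at h2
      rw [← hg']
      exact h2
    choose c hc using h1
    exact ⟨c, funext hc⟩
  exact Module.Finite.of_injective (L.restrict (q := W) fun x hx => hle hx)
    fun x y hxy => Subtype.ext (hL (congrArg Subtype.val hxy))

/-- `G` acts faithfully on `R` by left multiplication (`1 ∈ R`; `LinearMap.mulLeft`,
`LinearMap.restrict`); `of_rep`. -/
theorem Closed.of_trace (hP : Closed P) {k E G : Type} [Field k] [Field E] [Algebra k E] [Group G]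
    (hk : ∀ m, P (GL (Fin m) k)) (ρ : G →* GL (Fin n) E) (hρ : Function.Injective ρ)
    (h : Submodule.span E (Set.range fun g => (ρ g).1) = ⊤)
    (htr : ∀ g, (ρ g).1.trace ∈ (algebraMap k E).range) : P G := by
  have := finite_span ρ h htr
  let R := Submodule.span k (Set.range fun g => (ρ g).1)
  have hm : ∀ g, ∀ x ∈ R, LinearMap.mulLeft k (ρ g).1 x ∈ R := by
    intro g
    change R ≤ R.comap _
    refine Submodule.span_le.2 ?_
    rintro _ ⟨g', rfl⟩
    exact Submodule.subset_span ⟨g * g', by simp⟩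
  let φ : G →* Module.End k R :=
    { toFun := fun g => (LinearMap.mulLeft k (ρ g).1).restrict (hm g)
      map_one' := LinearMap.ext fun x => Subtype.ext (by simp)
      map_mul' := fun a b => LinearMap.ext fun x => Subtype.ext (by simp) }
  refine hP.of_rep (hk _) φ fun a b hab => hρ (Units.ext ?_)
  have h1 : (1 : Matrix (Fin n) (Fin n) E) ∈ R := Submodule.subset_span ⟨1, by simp⟩
  have h2 : (ρ a).1 * 1 = (ρ b).1 * 1 := congrArg (fun f : Module.End k R => (f ⟨1, h1⟩).1) hab
  rwa [mul_one, mul_one] at h2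

end Pool.Agent.Work.MP_9d1ffa_al.GN
end

-- merged part: Pool.Agent.Work.MP_9d1ffa_al.GN.AlE
section
/-! Induction on the transcendence degree and on the size of the matrices. -/

namespace Pool.Agent.Work.MP_9d1ffa_al.GN

open IntermediateField
open G2 (Pl exists_integral_param gen_top)

variable {P : (G : Type) → [Group G] → Prop} {n : ℕ}

/-- All linear groups over algebraic extensions of `k` are in `P`. -/
def AlgP (P : (G : Type) → [Group G] → Prop) (k : Type) [Field k] : Prop :=
  ∀ (E : Type) [Field E] [Algebra k E], Algebra.IsAlgebraic k E → ∀ n : ℕ, P (GL (Fin n) E)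

theorem AlE_toGL {K : Type} [Field K] :
    Function.Injective (Matrix.SpecialLinearGroup.toGL : SN n K →* GL (Fin n) K) :=
  fun _ _ h => Subtype.ext (congrArg Units.val h)

theorem AlE_int {k K Ω : Type} [Field k] [Field K] [Field Ω] [Algebra k K] [Algebra k Ω]
    (f : K →ₐ[k] Ω) (w x : K) (h : IsIntegral (Algebra.adjoin k {f w}) (f x)) :
    IsIntegral (Algebra.adjoin k {w}) x := by
  letI : Algebra K Ω := (f : K →+* Ω).toAlgebra
  have : IsScalarTower k K Ω := IsScalarTower.of_algebraMap_eq fun c => (f.commutes c).symm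
  exact G2.PlB_int (K := Ω) w x h

theorem AlE_prime (hP : Closed P) {k : Type} [Field k]
    (hE : ∀ (E : Type) [Field E] [Algebra k E], FiniteDimensional k E → ∀ n, P (SN n E)) :
    AlgP P k := by
  intro Ω _ _ halg n
  refine hP.gl_of_sl (hP.loc _ ?_)
  rintro _ ⟨S, rfl⟩
  have hT : ∀ x ∈ (ent S : Set Ω), IsIntegral k x := fun x _ => (halg.isAlgebraic x).isIntegral
  obtain ⟨φ, hφ, -⟩ := exists_lift (algebraMap (IntermediateField.adjoin k (ent S : Set Ω)) Ω)
    (Subgroup.closure (S : Set (SN n Ω))) (closure_entries _ fun s hs i j =>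
      ⟨⟨_, IntermediateField.subset_adjoin k _ (mem_ent hs i j)⟩, rfl⟩)
  exact hP.inj _ _ φ hφ (hE _ (IntermediateField.finiteDimensional_adjoin hT) n)

theorem AlE_rat (hP : Closed P) : AlgP P ℚ := by
  refine AlE_prime hP fun E _ _ _ n => ?_
  refine hP.of_rep (hP.lin _) (DistribMulAction.toModuleEnd ℚ (Fin n → E)) fun x y h => ?_
  refine Subtype.ext (Matrix.mulVec_injective (funext fun v => ?_))
  exact DFunLike.congr_fun h v

theorem AlE_zmod (hP : Closed P) (p : ℕ) [Fact p.Prime] : AlgP P (ZMod p) := by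
  refine AlE_prime hP fun E _ _ _ n => ?_
  haveI : Finite E := Module.finite_of_finite (ZMod p)
  exact hP.finite _

theorem AlE_fam (hP : Closed P) {k K E G : Type} [Field k] [Field K] [Field E] [Algebra k K]
    [Algebra k E] [IsAlgClosed E] [Group G] (f : K →ₐ[k] E) (hk : AlgP P k)
    (ih : ∀ m < n, P (GL (Fin m) E)) (ρ : G →* GL (Fin n) K) (hρ : Function.Injective ρ)
    (H : Subgroup G) (h : Red ρ H ∨ ∀ g ∈ H, IsAlgebraic k (ρ g).1.trace) : P H := by
  let ψ : H →* GL (Fin n) E :=
    (Matrix.GeneralLinearGroup.map (f : K →+* E)).comp (ρ.comp H.subtype)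
  have hψ : Function.Injective ψ :=
    (AlA_inj _ (f : K →+* E).injective).comp (hρ.comp H.subtype_injective)
  by_cases hs : Submodule.span E (Set.range fun g => (ψ g).1) = ⊤
  · rcases h with h | h
    · refine absurd ?_ (span_ne_map (f : K →+* E) _ h)
      rw [eq_top_iff, ← hs]
      refine Submodule.span_mono ?_
      rintro _ ⟨g, rfl⟩
      exact ⟨_, ⟨g.1, g.2, rfl⟩, rfl⟩
    · refine hP.of_trace (k := algebraicClosure k E) (hk _ inferInstance) ψ hψ hs fun g => ?_
      have h1 : (ψ g).1.trace = f (ρ g.1).1.trace := by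
        simp only [Matrix.trace, map_sum]
        rfl
      refine ⟨⟨(ψ g).1.trace, mem_algebraicClosure_iff.2 ?_⟩, rfl⟩
      rw [h1]
      exact (h g.1 g.2).algHom f
  · exact hP.of_span_ne ih ψ hψ hs

theorem AlE_core (hm : HMain) (hP : Closed P) {k Ω : Type} [Field k] [Field Ω] [Algebra k Ω]
    [IsAlgClosed Ω] (hk : AlgP P k) {u : Ω} (hu : Transcendental k u)
    (halg : ∀ x : Ω, IsAlgebraic k⟮u⟯ x) (n : ℕ) : P (GL (Fin n) Ω) := by
  induction n using Nat.strong_induction_on with
  | _ n ih =>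
  refine hP.gl_of_sl (hP.loc _ ?_)
  rintro _ ⟨S, rfl⟩
  obtain ⟨w, hw, hE⟩ := exists_integral_param hu (ent S) fun e _ => halg e
  have hEF : ∀ e ∈ (ent S : Set Ω), IsIntegral k⟮w⟯ e := fun e he => by
    open scoped IntermediateField.algebraAdjoinAdjoin in
    exact (hE e he).tower_top
  let K : IntermediateField k⟮w⟯ Ω := IntermediateField.adjoin k⟮w⟯ (ent S : Set Ω)
  have : FiniteDimensional k⟮w⟯ K := finiteDimensional_adjoin hEF
  have hg : Transcendental k (AdjoinSimple.gen k w) := fun h =>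
    hw (by simpa using h.algHom (k⟮w⟯).val)
  obtain ⟨I, _, av, ha, hL, hZ⟩ := placesL (K := K) hg (gen_top w)
  let f : K →ₐ[k] Ω := K.val.restrictScalars k
  let w' : K := algebraMap k⟮w⟯ K (AdjoinSimple.gen k w)
  have hw' : f w' = w := rfl
  let A : Subring K := (integralClosure (Algebra.adjoin k {w'}) K).toSubring
  have hent : ∀ g ∈ Subgroup.closure (S : Set (SN n Ω)), ∀ i j,
      g.1 i j ∈ A.map (f : K →+* Ω) := by
    refine closure_entries _ fun s hs i j => ?_
    have he := mem_ent hs i j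
    refine ⟨⟨s.1 i j, subset_adjoin _ _ he⟩, ?_, rfl⟩
    refine AlE_int f w' _ ?_
    rw [hw']
    exact hE _ he
  obtain ⟨φ, hφ, hφe⟩ := exists_lift (f : K →+* Ω) (Subgroup.closure (S : Set (SN n Ω)))
    (fun g hg i j => by
      obtain ⟨a, -, h⟩ := hent g hg i j
      exact ⟨a, h⟩)
  let ρ := (Matrix.SpecialLinearGroup.toGL : SN n K →* GL (Fin n) K).comp φ
  have hρ : Function.Injective ρ := AlE_toGL.comp hφ
  have hA : ∀ g p q, (ρ g).1 p q ∈ A := fun g i j => by
    obtain ⟨a, ha', h⟩ := hent g.1 g.2 i j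
    have : a = (φ g).1 i j := (f : K →+* Ω).injective (h.trans (hφe g i j).symm)
    change (φ g).1 i j ∈ A
    exact this ▸ ha'
  refine hP.htr _ (Fam av ρ) ((Group.fg_iff_subgroup_fg _).2 ⟨S, rfl⟩) (fun H hH => ?_)
    (hm K n I av ha A hL _ ρ (fun g => (φ g).2) hA)
  refine AlE_fam hP f hk ih ρ hρ H (hH.imp id fun h g hg => hZ _ ?_ fun i => h i g hg)
  exact A.sum_mem fun i _ => hA g i i

theorem AlE_step (hm : HMain) (hP : Closed P) {k F : Type} [Field k] [Field F] [Algebra k F]
    (hk : AlgP P k) {u : F} (hF : k⟮u⟯ = ⊤) : AlgP P F := by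
  intro E _ _ halg n
  let Ω := AlgebraicClosure E
  refine hP.inj _ _ (Matrix.GeneralLinearGroup.map (algebraMap E Ω))
    (AlA_inj _ (algebraMap E Ω).injective) ?_
  have hΩ : Algebra.IsAlgebraic F Ω := Algebra.IsAlgebraic.trans F E Ω
  letI : Algebra k Ω := ((algebraMap F Ω).comp (algebraMap k F)).toAlgebra
  have : IsScalarTower k F Ω := IsScalarTower.of_algebraMap_eq fun _ => rfl
  by_cases hu : IsAlgebraic k u
  · have h1 : Algebra.IsAlgebraic k k⟮u⟯ := isAlgebraic_adjoin_simple hu.isIntegral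
    have h2 : Algebra.IsAlgebraic k F := ⟨fun x =>
      (h1.isAlgebraic ⟨x, hF ▸ IntermediateField.mem_top⟩).algHom (k⟮u⟯).val⟩
    exact hk Ω (Algebra.IsAlgebraic.trans k F Ω) n
  · have hu' : Transcendental k (algebraMap F Ω u) := fun h =>
      hu ((isAlgebraic_algebraMap_iff (algebraMap F Ω).injective).1 h)
    refine AlE_core hm hP hk hu' (fun x => ?_) n
    have hmem : ∀ y : F, algebraMap F Ω y ∈ k⟮algebraMap F Ω u⟯ := fun y => by
      have h1 : (IsScalarTower.toAlgHom k F Ω) y ∈ (k⟮u⟯).map (IsScalarTower.toAlgHom k F Ω) :=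
        ⟨y, hF ▸ IntermediateField.mem_top, rfl⟩
      rw [adjoin_map, Set.image_singleton] at h1
      exact h1
    exact ((hΩ.isAlgebraic x).isIntegral.map_of_comp_eq
      ((algebraMap F Ω).codRestrict (k⟮algebraMap F Ω u⟯).toSubring hmem) (RingHom.id Ω)
      (RingHom.ext fun _ => rfl)).isAlgebraic

theorem AlE_field (hm : HMain) (hP : Closed P) (K : Type) [Field K] (n : ℕ) :
    P (GL (Fin n) K) := by
  classical
  have key : ∀ Y : Finset K, ∃ (k : Type) (_ : Field k) (_ : Algebra k K),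
      (∀ y ∈ Y, y ∈ (algebraMap k K).range) ∧ AlgP P k := by
    intro Y
    induction Y using Finset.induction_on with
    | empty =>
      obtain ⟨p, hp⟩ := CharP.exists K
      rcases CharP.char_is_prime_or_zero K p with h0 | rfl
      · haveI := Fact.mk h0
        exact ⟨ZMod p, inferInstance, ZMod.algebra K p, by simp, AlE_zmod hP p⟩
      · haveI := CharP.charP_to_charZero K
        exact ⟨ℚ, inferInstance, inferInstance, by simp, AlE_rat hP⟩
    | insert u Y _ ih =>
      obtain ⟨k, _, _, hY, hk⟩ := ih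
      refine ⟨k⟮u⟯, inferInstance, inferInstance, fun y hy => ?_, AlE_step hm hP hk (gen_top u)⟩
      rcases Finset.mem_insert.1 hy with rfl | hy
      · exact ⟨AdjoinSimple.gen k y, rfl⟩
      · obtain ⟨c, rfl⟩ := hY y hy
        exact ⟨algebraMap k k⟮u⟯ c, rfl⟩
  refine hP.gl_of_sl (hP.loc _ ?_)
  rintro _ ⟨S, rfl⟩
  obtain ⟨k, _, _, hY, hk⟩ := key (ent S)
  obtain ⟨φ, hφ, -⟩ := exists_lift (algebraMap k K) (Subgroup.closure (S : Set (SN n K)))
    (closure_entries _ fun s hs i j => hY _ (mem_ent hs i j))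
  exact hP.inj _ _ ((Matrix.SpecialLinearGroup.toGL : SN n k →* GL (Fin n) k).comp φ)
    (AlE_toGL.comp hφ) (hk k inferInstance n)

theorem Closed.gln (hm : HMain) (hP : Closed P) (n : ℕ) (R : Type) [CommRing R] :
    P (GL (Fin n) R) :=
  hP.gl_ring (fun K _ => AlE_field hm hP K n) R

end Pool.Agent.Work.MP_9d1ffa_al.GN
end
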