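import Mathlib
import Pool.Agent.Work.MP_9d1ffa_al.GN.Defs
import Pool.Agent.Work.MP_9d1ffa_al.GN.DomW
import Pool.Agent.Work.MP_9d1ffa_al.GN.AlE

-- merged part: Pool.Agent.Work.MP_9d1ffa_al.G2.Defs
section
/-! Definitions for the statement on `GL (Fin 2) K`: transfer spaces, strict transfer
reducibility, and classes of groups closed under eight rules. -/

namespace Pool.Agent.Work.MP_9d1ffa_al.G2

/-- The `N`-skeleton of the simplex with vertices `Fin n`. -/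
def Sk (N n : ℕ) : Set (Fin n → ℝ) :=
  {μ | μ ∈ stdSimplex ℝ (Fin n) ∧ (Function.support μ).ncard ≤ N + 1}

/-- `N`-transfer space: compact, contractible, and controlled `N`-dominated. -/
def IsTransfer (N : ℕ) (X : Type) [MetricSpace X] : Prop :=
  CompactSpace X ∧ ContractibleSpace X ∧ ∀ δ : ℝ, 0 < δ →
    ∃ (n : ℕ) (i : C(X, Sk N n)) (p : C(Sk N n, X))
      (H : (p.comp i).Homotopy (ContinuousMap.id X)), ∀ t x, dist (H (t, x)) x ≤ δ

/-- `G` is strictly transfer reducible over the set `F` of subgroups. -/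
def STR (G : Type) [Group G] (F : Set (Subgroup G)) : Prop :=
  ∃ N : ℕ, ∀ (S : Finset G) (ε : ℝ), 0 < ε →
    ∃ (X : Type) (_ : MetricSpace X) (_ : MulAction G X) (Ω : Type) (_ : MulAction G Ω)
      (A : Finset Ω) (f : X → Ω → ℝ),
      IsTransfer N X ∧ (∀ g : G, Continuous fun x : X => g • x) ∧
      (∀ ω : Ω, MulAction.stabilizer G ω ∈ F) ∧
      (∀ ω : Ω, Continuous fun x : X => f x ω) ∧
      (∀ x : X, (∀ ω, 0 ≤ f x ω) ∧ (∀ ω, ω ∉ A → f x ω = 0) ∧ ∑ ω ∈ A, f x ω = 1 ∧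
        (Function.support (f x)).ncard ≤ N + 1) ∧
      ∀ s ∈ S, ∀ x : X, ∑ᶠ ω : Ω, |f (s • x) (s • ω) - f x ω| ≤ ε

/-- The closure rules. -/
structure Closed (P : (G : Type) → [Group G] → Prop) : Prop where
  sol : ∀ (G : Type) [Group G], Group.IsSolvable G → P G
  lin : ∀ n : ℕ, P (GL (Fin n) ℚ)
  inj : ∀ (G H : Type) [Group G] [Group H] (φ : G →* H), Function.Injective φ → P H → P G
  loc : ∀ (G : Type) [Group G], (∀ H : Subgroup G, H.FG → P H) → P G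
  fin : ∀ (G : Type) [Group G] (H : Subgroup G), H.FiniteIndex → P H → P G
  prod : ∀ (G H : Type) [Group G] [Group H], P G → P H → P (G × H)
  ext : ∀ (G Q : Type) [Group G] [Group Q] (φ : G →* Q), P Q →
    (∀ H : Subgroup Q, (∃ C : Subgroup H, IsCyclic C ∧ C.FiniteIndex) → P (H.comap φ)) → P G
  str : ∀ (G : Type) [Group G] (F : Set (Subgroup G)), (∀ H ∈ F, P H) → STR G F → P G

end Pool.Agent.Work.MP_9d1ffa_al.G2
end

-- merged part: Pool.Agent.Work.MP_9d1ffa_al.G2.Nrm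
section
/-! From weights to probability measures. -/

namespace Pool.Agent.Work.MP_9d1ffa_al.G2

/-- Normalisation estimate on a finite set `B` containing both supports: with `s = ∑ u`,
`s' = ∑ u'` (both at least `1 / 4`), `∑ |u' / s' - u / s| ≤ (∑ |u' - u| + |s - s'|) / s`, and
`∑ |u' - u| ≤ 2 n η` since only the union of the supports contributes. -/
theorem l1_norm_le {Ω : Type} (B : Finset Ω) {u u' : Ω → ℝ} {n : ℕ} {η : ℝ} (hη : 0 ≤ η)
    (hu : ∀ ω, 0 ≤ u ω) (hu' : ∀ ω, 0 ≤ u' ω) (hB : ∀ ω, u ω ≠ 0 → ω ∈ B)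
    (hB' : ∀ ω, u' ω ≠ 0 → ω ∈ B) (hn : (Function.support u).ncard ≤ n)
    (hn' : (Function.support u').ncard ≤ n) (hs : 1 / 4 ≤ ∑ ω ∈ B, u ω)
    (hs' : 1 / 4 ≤ ∑ ω ∈ B, u' ω) (h : ∀ ω, |u' ω - u ω| ≤ η) :
    ∑ ω ∈ B, |u' ω / (∑ ω ∈ B, u' ω) - u ω / (∑ ω ∈ B, u ω)| ≤ 16 * n * η := by
  classical
  set s := ∑ ω ∈ B, u ω with e
  set s' := ∑ ω ∈ B, u' ω with e'
  have p : 0 < s := by linarith
  have p' : 0 < s' := by linarith
  have hT : (B.filter fun ω => u ω ≠ 0 ∨ u' ω ≠ 0).card ≤ 2 * n := by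
    rw [← Set.ncard_coe_finset]
    refine ((Set.ncard_le_ncard (t := Function.support u ∪ Function.support u')
      (fun ω hω => by simpa using (Finset.mem_filter.1 (Finset.mem_coe.1 hω)).2)
      (B.finite_toSet.subset fun ω hω => hω.elim (hB ω) (hB' ω))).trans
      (Set.ncard_union_le _ _)).trans (by omega)
  have hD : ∑ ω ∈ B, |u' ω - u ω| ≤ 2 * n * η := by
    rw [← Finset.sum_filter_of_ne (p := fun ω => u ω ≠ 0 ∨ u' ω ≠ 0) fun ω _ hω => by
      by_contra hc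
      rw [not_or, not_not, not_not] at hc
      simp [hc.1, hc.2] at hω]
    refine (Finset.sum_le_card_nsmul _ _ η fun ω _ => h ω).trans ?_
    rw [nsmul_eq_mul]
    exact mul_le_mul_of_nonneg_right (by exact_mod_cast hT) hη
  have hd : |s - s'| ≤ 2 * n * η := by
    rw [abs_sub_comm, e, e', ← Finset.sum_sub_distrib]
    exact (Finset.abs_sum_le_sum_abs _ _).trans hD
  have key : ∀ ω ∈ B, |u' ω / s' - u ω / s| ≤ (u' ω / s' * |s - s'| + |u' ω - u ω|) / s := by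
    intro ω _
    have : u' ω / s' - u ω / s = (u' ω / s' * (s - s') + (u' ω - u ω)) / s := by
      field_simp
      ring
    rw [this, abs_div, abs_of_pos p]
    refine div_le_div_of_nonneg_right ((abs_add_le _ _).trans ?_) p.le
    rw [abs_mul, abs_of_nonneg (div_nonneg (hu' ω) p'.le)]
  refine (Finset.sum_le_sum key).trans ?_
  rw [← Finset.sum_div, Finset.sum_add_distrib, ← Finset.sum_mul, ← Finset.sum_div, ← e',
    div_self p'.ne', one_mul, div_le_iff₀ p]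
  have : 0 ≤ n * η := by positivity
  nlinarith

theorem Nrm_core {G X Ω : Type} [Group G] [MulAction G X] [MulAction G Ω] (A : Finset Ω)
    (W : X → Ω → ℝ) {n : ℕ} {η : ℝ} (hη : 0 ≤ η) (h0 : ∀ x ω, 0 ≤ W x ω)
    (hA : ∀ x ω, W x ω ≠ 0 → ω ∈ A) (hn : ∀ x, (Function.support (W x)).ncard ≤ n)
    (h4 : ∀ x, 1 / 4 ≤ ∑ ω ∈ A, W x ω) (s : G) (x : X)
    (hs : ∀ ω, |W (s • x) (s • ω) - W x ω| ≤ η) :
    ∑ᶠ ω, |W (s • x) (s • ω) / ∑ ω ∈ A, W (s • x) ω - W x ω / ∑ ω ∈ A, W x ω| ≤ 16 * n * η := by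
  classical
  set B := A ∪ A.image (s⁻¹ • ·)
  have b1 : ∀ ω, W x ω ≠ 0 → ω ∈ B := fun ω h => Finset.mem_union_left _ (hA x ω h)
  have b2 : ∀ ω, W (s • x) (s • ω) ≠ 0 → ω ∈ B := fun ω h => Finset.mem_union_right _
    (Finset.mem_image.2 ⟨_, hA _ _ h, inv_smul_smul s ω⟩)
  have e1 : ∑ ω ∈ A, W x ω = ∑ ω ∈ B, W x ω :=
    (finsum_eq_sum_of_support_subset _ (hA x)).symm.trans (finsum_eq_sum_of_support_subset _ b1)
  have e2 : ∑ ω ∈ A, W (s • x) ω = ∑ ω ∈ B, W (s • x) (s • ω) :=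
    ((finsum_eq_sum_of_support_subset _ (hA _)).symm.trans
      (finsum_comp_equiv (MulAction.toPerm s)).symm).trans (finsum_eq_sum_of_support_subset _ b2)
  rw [finsum_eq_sum_of_support_subset (s := B) _ fun ω h => by
    by_contra hc
    exact h (by simp [not_not.1 fun e => hc (b1 ω e), not_not.1 fun e => hc (b2 ω e)]), e1, e2]
  exact l1_norm_le B hη (h0 x) (fun ω => h0 _ _) b1 b2 (hn x)
    ((Set.ncard_le_ncard_of_injOn (s • ·) (fun _ h => h) (MulAction.injective s).injOn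
      (A.finite_toSet.subset (hA _))).trans (hn _)) (e1 ▸ h4 x) (e2 ▸ h4 _) hs

/-- Given `S, ε` apply `h` to `insert 1 (S ∪ S⁻¹)` and `η = ε / (16 (N + 1))`. Replace `Ω` by the
invariant subset of points with stabiliser in `F` (a `SubMulAction`;
`MulAction.stabilizer_smul_eq_stabilizer_map_conj`), which contains `A`; put
`f x ω = W x ω / ∑ ω ∈ A, W x ω`. The one-sided bound for `s` and for `s⁻¹` gives
`|W (s • x) (s • ω) - W x ω| ≤ η`. For the last clause use `l1_norm_le` with `u = W x`,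
`u' ω = W (s • x) (s • ω)` and `B = A ∪ s⁻¹ • A` (`finsum_eq_sum_of_support_subset`). -/
theorem str_of_weights (G : Type) [Group G] (F : Set (Subgroup G)) (N : ℕ)
    (hF : ∀ H ∈ F, ∀ g : G, H.map (MulAut.conj g).toMonoidHom ∈ F)
    (h : ∀ S : Finset G, (1 : G) ∈ S → (∀ s ∈ S, s⁻¹ ∈ S) → ∀ η : ℝ, 0 < η →
      ∃ (X : Type) (_ : MetricSpace X) (_ : MulAction G X) (Ω : Type) (_ : MulAction G Ω)
        (A : Set Ω) (W : X → Ω → ℝ), IsTransfer N X ∧ (∀ g : G, Continuous fun x : X => g • x) ∧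
        A.Finite ∧ (∀ ω ∈ A, MulAction.stabilizer G ω ∈ F) ∧
        (∀ ω, Continuous fun x => W x ω) ∧ (∀ x ω, 0 ≤ W x ω) ∧ (∀ x ω, W x ω ≠ 0 → ω ∈ A) ∧
        (∀ x, (Function.support (W x)).ncard ≤ N + 1) ∧ (∀ x, ∃ ω, 1 / 4 ≤ W x ω) ∧
        ∀ s ∈ S, ∀ x ω, W x ω ≤ W (s • x) (s • ω) + η) : STR G F := by
  classical
  refine ⟨N, fun S ε hε => ?_⟩
  obtain ⟨X, _, _, Ω, _, A, W, hX, hc, hA, hst, hW, h0, hs, hn, h4, hm⟩ :=
    h (insert 1 (S ∪ S.image (·⁻¹))) (Finset.mem_insert_self _ _) (fun s hs => by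
      simp only [Finset.mem_insert, Finset.mem_union, Finset.mem_image] at hs ⊢
      rcases hs with rfl | hs | ⟨t, ht, rfl⟩
      · exact Or.inl inv_one
      · exact Or.inr (Or.inr ⟨s, hs, rfl⟩)
      · exact Or.inr (Or.inl (by rwa [inv_inv]))) (ε / (16 * (N + 1 : ℕ))) (by positivity)
  let P : SubMulAction G Ω := ⟨{ω | MulAction.stabilizer G ω ∈ F}, fun g ω hω => by
    have := hF _ hω g
    rwa [← MulAction.stabilizer_smul_eq_stabilizer_map_conj] at this⟩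
  let B : Finset P := (hA.preimage Subtype.val_injective.injOn).toFinset
  have hB : ∀ x (ω : P), W x ω ≠ 0 → ω ∈ B := fun x ω hω => (Set.Finite.mem_toFinset _).2 (hs x _ hω)
  have hn' : ∀ x, (Function.support fun ω : P => W x ω).ncard ≤ N + 1 := fun x =>
    (Set.ncard_le_ncard_of_injOn Subtype.val (fun _ hω => hω) Subtype.val_injective.injOn
      (hA.subset (hs x))).trans (hn x)
  have h4' : ∀ x, 1 / 4 ≤ ∑ ω ∈ B, W x ω := fun x => by
    obtain ⟨ω, hω⟩ := h4 x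
    have h1 : W x ω ≠ 0 := fun e => by rw [e] at hω; norm_num at hω
    exact hω.trans (Finset.single_le_sum (f := fun ω : P => W x ω) (fun ω _ => h0 x ω)
      (hB x ⟨ω, hst ω (hs x ω h1)⟩ h1))
  have hp : ∀ x, 0 < ∑ ω ∈ B, W x ω := fun x => lt_of_lt_of_le (by norm_num) (h4' x)
  refine ⟨X, inferInstance, inferInstance, P, inferInstance, B,
    fun x ω => W x ω / ∑ ω ∈ B, W x ω, hX, hc, fun ω => ?_, fun ω => ?_,
    fun x => ⟨fun ω => div_nonneg (h0 x ω) (hp x).le, fun ω hω => ?_, ?_, ?_⟩, fun s hS x => ?_⟩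
  · rw [SubMulAction.stabilizer_of_subMul]
    exact ω.2
  · exact (hW ω).div (continuous_finsetSum _ fun ω _ => hW ω) fun x => (hp x).ne'
  · exact div_eq_zero_iff.2 (Or.inl (not_not.1 fun e => hω (hB x ω e)))
  · rw [← Finset.sum_div, div_self (hp x).ne']
  · exact (Set.ncard_le_ncard (fun ω hω => (div_ne_zero_iff.1 hω).1)
      (B.finite_toSet.subset (hB x))).trans (hn' x)
  · refine (Nrm_core B (fun x (ω : P) => W x ω) (η := ε / (16 * (N + 1 : ℕ))) (by positivity)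
      (fun x ω => h0 x ω) hB hn' h4' s x fun ω => abs_sub_le_iff.2 ⟨?_, ?_⟩).trans
      (le_of_eq (by field_simp))
    · have := hm s⁻¹ (by simp [hS]) (s • x) (s • ω)
      rw [inv_smul_smul, inv_smul_smul] at this
      exact sub_le_iff_le_add'.2 this
    · exact sub_le_iff_le_add'.2 (hm s (by simp [hS]) x ω)

end Pool.Agent.Work.MP_9d1ffa_al.G2
end

-- merged part: Pool.Agent.Work.MP_9d1ffa_al.GN.Nrm
section
/-! From weights to probability measures. -/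

namespace Pool.Agent.Work.MP_9d1ffa_al.GN

theorem Nrm_core {G X Ω : Type} [Group G] [MulAction G Ω] (A : Finset Ω) (W : X → Ω → ℝ) {n : ℕ}
    {η : ℝ} (hη : 0 ≤ η) (h0 : ∀ x ω, 0 ≤ W x ω) (hA : ∀ x ω, W x ω ≠ 0 → ω ∈ A)
    (hn : ∀ x, (Function.support (W x)).ncard ≤ n) (h4 : ∀ x, 1 / 4 ≤ ∑ ω ∈ A, W x ω) (s : G)
    (x z : X) (h : ∀ ω, |W z (s • ω) - W x ω| ≤ η) :
    ∑ᶠ ω : Ω, |W z (s • ω) / (∑ ω ∈ A, W z ω) - W x ω / ∑ ω ∈ A, W x ω| ≤ 16 * n * η := by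
  classical
  let B : Finset Ω := A ∪ A.image (s⁻¹ • ·)
  have hB : ∀ ω, W x ω ≠ 0 → ω ∈ B := fun ω hω => Finset.mem_union_left _ (hA x ω hω)
  have hB' : ∀ ω, W z (s • ω) ≠ 0 → ω ∈ A.image (s⁻¹ • ·) := fun ω hω =>
    Finset.mem_image.2 ⟨_, hA z _ hω, inv_smul_smul s ω⟩
  have e1 : ∑ ω ∈ B, W x ω = ∑ ω ∈ A, W x ω :=
    (Finset.sum_subset Finset.subset_union_left fun ω _ hω => not_not.1 fun e => hω (hA x ω e)).symm
  have e2 : ∑ ω ∈ B, W z (s • ω) = ∑ ω ∈ A, W z ω := by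
    rw [← Finset.sum_subset (Finset.subset_union_right (s₁ := A))
      fun ω _ hω => not_not.1 fun e => hω (hB' ω e),
      Finset.sum_image fun a _ b _ e => MulAction.injective s⁻¹ e]
    simp only [smul_inv_smul]
  have hn' : (Function.support fun ω => W z (s • ω)).ncard ≤ n :=
    (Set.ncard_le_ncard_of_injOn (s • ·) (fun _ hω => hω) (MulAction.injective s).injOn
      (A.finite_toSet.subset (hA z))).trans (hn z)
  rw [finsum_eq_sum_of_support_subset (s := B) _ fun ω hω => ?_]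
  · have := G2.l1_norm_le B hη (h0 x) (fun ω => h0 z (s • ω)) hB
      (fun ω hω => Finset.mem_union_right _ (hB' ω hω)) (hn x) hn' (e1 ▸ h4 x) (e2 ▸ h4 z) h
    rwa [e1, e2] at this
  · by_contra hb
    have h1 : W x ω = 0 := not_not.1 fun e => hb (hB ω e)
    have h2 : W z (s • ω) = 0 := not_not.1 fun e => hb (Finset.mem_union_right _ (hB' ω e))
    exact hω (by simp only [h1, h2, zero_div, sub_self, abs_zero])

/-- Weights with a big atom of size `c`, at most `N + 1` atoms and small pointwise error. -/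
theorem htr_of_weights (G : Type) [Group G] (F : Set (Subgroup G)) (N : ℕ) {c : ℝ} (hc : 0 < c)
    (hF : ∀ H ∈ F, ∀ g : G, H.map (MulAut.conj g).toMonoidHom ∈ F)
    (h : ∀ (S : Finset G) (k : ℕ) (η : ℝ), 0 < η →
      ∃ (X : Type) (_ : MetricSpace X) (Γ : List (G × unitInterval) → G → X → X) (Ω : Type)
        (_ : MulAction G Ω) (A : Set Ω) (W : X → Ω → ℝ), IsTransfer N X ∧ Coherent Γ ∧
        A.Finite ∧ (∀ ω ∈ A, MulAction.stabilizer G ω ∈ F) ∧
        (∀ ω, Continuous fun x => W x ω) ∧ (∀ x ω, 0 ≤ W x ω) ∧ (∀ x ω, W x ω ≠ 0 → ω ∈ A) ∧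
        (∀ x, (Function.support (W x)).ncard ≤ N + 1) ∧ (∀ x, ∃ ω, c ≤ W x ω) ∧
        ∀ (l : List (G × unitInterval)) (g : G) (x : X), l.length ≤ k → (∀ p ∈ l, p.1 ∈ S) →
          g ∈ S → ∀ ω, |W (Γ l g x) (((l.map Prod.fst).prod * g) • ω) - W x ω| ≤ η) :
    HTR G F := by
  classical
  refine ⟨N, fun S k ε hε => ?_⟩
  obtain ⟨X, _, Γ, Ω, _, A, W0, hX, hΓ, hA, hst, hW0, h00, hs0, hn0, h40, hm0⟩ :=
    h S k (4 * c * (ε / (16 * (N + 1 : ℕ)))) (by positivity)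
  have hc4 : 0 < 4 * c := by positivity
  let W : X → Ω → ℝ := fun x ω => W0 x ω / (4 * c)
  have hW : ∀ ω, Continuous fun x => W x ω := fun ω => (hW0 ω).div_const _
  have h0 : ∀ x ω, 0 ≤ W x ω := fun x ω => div_nonneg (h00 x ω) hc4.le
  have hs : ∀ x ω, W x ω ≠ 0 → ω ∈ A := fun x ω e => hs0 x ω (div_ne_zero_iff.1 e).1
  have hn : ∀ x, (Function.support (W x)).ncard ≤ N + 1 := fun x =>
    (Set.ncard_le_ncard (fun ω e => (div_ne_zero_iff.1 e).1) (hA.subset (hs0 x))).trans (hn0 x)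
  have h4 : ∀ x, ∃ ω, 1 / 4 ≤ W x ω := fun x => (h40 x).imp fun ω e => by
    rw [le_div_iff₀ hc4]
    linarith
  let P : SubMulAction G Ω := ⟨{ω | MulAction.stabilizer G ω ∈ F}, fun g ω hω => by
    have := hF _ hω g
    rwa [← MulAction.stabilizer_smul_eq_stabilizer_map_conj] at this⟩
  let B : Finset P := (hA.preimage Subtype.val_injective.injOn).toFinset
  have hB : ∀ x (ω : P), W x ω ≠ 0 → ω ∈ B := fun x ω hω => (Set.Finite.mem_toFinset _).2 (hs x _ hω)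
  have hn' : ∀ x, (Function.support fun ω : P => W x ω).ncard ≤ N + 1 := fun x =>
    (Set.ncard_le_ncard_of_injOn Subtype.val (fun _ hω => hω) Subtype.val_injective.injOn
      (hA.subset (hs x))).trans (hn x)
  have h4' : ∀ x, 1 / 4 ≤ ∑ ω ∈ B, W x ω := fun x => by
    obtain ⟨ω, hω⟩ := h4 x
    have h1 : W x ω ≠ 0 := fun e => by rw [e] at hω; norm_num at hω
    exact hω.trans (Finset.single_le_sum (f := fun ω : P => W x ω) (fun ω _ => h0 x ω)
      (hB x ⟨ω, hst ω (hs x ω h1)⟩ h1))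
  have hp : ∀ x, 0 < ∑ ω ∈ B, W x ω := fun x => lt_of_lt_of_le (by norm_num) (h4' x)
  refine ⟨X, inferInstance, Γ, P, inferInstance, B,
    fun x ω => W x ω / ∑ ω ∈ B, W x ω, hX, hΓ, fun ω => ?_, fun ω => ?_,
    fun x => ⟨fun ω => div_nonneg (h0 x ω) (hp x).le, fun ω hω => ?_, ?_, ?_⟩,
    fun l g x hl hS hg => ?_⟩
  · rw [SubMulAction.stabilizer_of_subMul]
    exact ω.2
  · exact (hW ω).div (continuous_finsetSum _ fun ω _ => hW ω) fun x => (hp x).ne'
  · exact div_eq_zero_iff.2 (Or.inl (not_not.1 fun e => hω (hB x ω e)))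
  · rw [← Finset.sum_div, div_self (hp x).ne']
  · exact (Set.ncard_le_ncard (fun ω hω => (div_ne_zero_iff.1 hω).1)
      (B.finite_toSet.subset (hB x))).trans (hn' x)
  · refine (Nrm_core B (fun x (ω : P) => W x ω) (η := ε / (16 * (N + 1 : ℕ))) (by positivity)
      (fun x ω => h0 x ω) hB hn' h4' _ x _ fun ω => ?_).trans (le_of_eq (by field_simp))
    have := hm0 l g x hl hS hg ω
    change |W0 _ _ / (4 * c) - W0 _ _ / (4 * c)| ≤ _
    rw [← sub_div, abs_div, abs_of_pos hc4, div_le_iff₀' hc4]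
    exact this

end Pool.Agent.Work.MP_9d1ffa_al.GN
end

-- merged part: Pool.Agent.Work.MP_9d1ffa_al.GN.Main
section
/-! Assembly. -/

namespace Pool.Agent.Work.MP_9d1ffa_al.GN

open Real Matrix

theorem hmain : HMain := by
  intro K _ n I _ av ha A hL G _ ρ hd hA
  refine htr_of_weights G _ (2 ^ (Fintype.card I * n) + (8 * n) ^ (Fintype.card I * n))
    (c := 1 / 4) (by norm_num) (fun H hH g => Fam_conj hH g) fun S0 k η hη => ?_
  obtain ⟨S, κ, h1, h2⟩ := exists_act ha ρ S0 k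
  obtain ⟨T, hT, Ω, _, B, W, w1, w2, w3, w4, w5, w6, w7, w8⟩ :=
    exists_wts ha hL ρ hd hA S κ ((2 * k + 1) * (2 * (k + 1) * κ ^ 2)) hη
  have h3 : 2 * (k + 1) * κ ≤ (2 * k + 1) * (2 * (k + 1) * κ ^ 2) :=
    (Nat.mul_le_mul_left _ (Nat.le_self_pow two_ne_zero κ)).trans
      (Nat.le_mul_of_pos_left _ (by omega))
  obtain ⟨Γ, hΓ, h4⟩ := h2 T (h3.trans hT)
  have h5 : (k + 1) * κ ≤ (2 * k + 1) * (2 * (k + 1) * κ ^ 2) := le_trans (by nlinarith) h3
  have h6 : κ ≤ (2 * k + 1) * (2 * (k + 1) * κ ^ 2) := le_trans (by nlinarith) h5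
  have h7 : ((k : ℝ) + 1) * κ ≤ ((2 * k + 1) * (2 * (k + 1) * κ ^ 2) : ℕ) := by exact_mod_cast h5
  refine ⟨XX av S T κ, inferInstance, Γ, Ω, inferInstance, B, W,
    XX.isTransfer ha (by exact_mod_cast h6.trans hT)
      ((Nat.le_add_right _ _).trans (Nat.le_succ _)), hΓ, w1, w2, w3, w4, w5,
    fun x => (w6 x).trans ((Nat.le_add_left _ _).trans (Nat.le_succ _)), w7,
    fun l g x hl hS hg => w8 _ _ _ fun i => ?_⟩
  obtain ⟨a1, a2⟩ := h4 l g x hl hS hg i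
  refine ⟨a1.mono (fun x => dg_nonneg _ _ _) (fun x => dg_nonneg _ _ _) (by exact_mod_cast h6),
    a2.mono ((Γ l g x).2 i).sn.nn h7 (div_le_div_of_nonneg_right h7 (Nat.cast_nonneg _))
      (le_of_eq ?_)⟩
  push_cast
  ring

end Pool.Agent.Work.MP_9d1ffa_al.GN
end
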